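import Mathlib

set_option autoImplicit false

open MeasureTheory Set Filter Topology
open scoped ENNReal Pointwise

namespace Pool.Agent.Helper484.Crit

/-- The plane. -/
abbrev P := ℝ × ℝ

/-- The cross product (signed area of the parallelogram). -/
def cr (a b : P) : ℝ := a.1 * b.2 - a.2 * b.1

/-- A strictly convex gauge of the plane. -/
structure Gau (N : P → ℝ) : Prop where
  cont : Continuous N
  pos : ∀ z : P, z ≠ 0 → 0 < N z
  hom : ∀ (t : ℝ) (z : P), 0 ≤ t → N (t • z) = t * N z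
  sc : ∀ (z z' : P) (r s : ℝ), z ≠ z' → N z ≤ r → N z' ≤ r → 0 < s → s < 1 →
    N (s • z + (1 - s) • z') < r

/-- `G` bounds parallelogram area plus a quarter of the width for all inscribed
parallelograms of `B`. -/
def HG (B : Set P) (G : ℝ) : Prop :=
  ∀ k d e κ κ' : P, k ∈ B → k + d ∈ B → k + e ∈ B → k + d + e ∈ B → κ ∈ B → κ' ∈ B →
    |cr d e| + |cr d (κ - κ')| / 4 ≤ G

/-- Delaunay triple: `a, b, c` are counterclockwise sites on the boundary of an empty homothet of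
radius at most one, centred at `v`. -/
def Del (N : P → ℝ) (F : Finset P) (v a b c : P) : Prop :=
  a ∈ F ∧ b ∈ F ∧ c ∈ F ∧ N (v - a) ≤ 1 ∧ N (v - b) = N (v - a) ∧ N (v - c) = N (v - a) ∧
    (∀ x ∈ F, N (v - a) ≤ N (v - x)) ∧ 0 < cr (b - a) (c - a)

/-- `D` is covered by `n` translates of `K`. -/
def CoveredBy (K : Set P) (n : ℕ) (D : Set P) : Prop :=
  ∃ x : Fin n → P, ∀ z ∈ D, ∃ i, z - x i ∈ K

/-- The rotation by `(c, s)`, `c^2 + s^2 = 1`, as a linear map. -/
def rot (c s : ℝ) : P →ₗ[ℝ] P where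
  toFun z := (c * z.1 + s * z.2, -s * z.1 + c * z.2)
  map_add' x y := by ext <;> simp <;> ring
  map_smul' t x := by ext <;> simp <;> ring

/-- Affine regular hexagon of area 3 (in any position) with vertices `±u₁, ±u₂, ±u₃`. -/
structure Hexa (H : Set P) (u₁ u₂ u₃ : P) : Prop where
  eq : H = {z | |cr z u₁| ≤ 1 ∧ |cr z u₂| ≤ 1 ∧ |cr z u₃| ≤ 1}
  sum : u₁ = u₂ + u₃
  det : |cr u₂ u₃| = 1

/-- Horizontal chord length at height `t`. -/
noncomputable def chord (H : Set P) (t : ℝ) : ℝ := (volume {x : ℝ | ((x, t) : P) ∈ H}).toReal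

/-- The standard affine regular hexagon. -/
def H0 : Set P := {z | |z.1| ≤ 1 ∧ |z.2| ≤ 1 ∧ |z.1 - z.2| ≤ 1}

end Pool.Agent.Helper484.Crit
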