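import Pool.Agent.Helper484.Crit.Base

set_option autoImplicit false

namespace Pool.Agent.Helper484.Crit.FA1

open Pool.Agent.Helper484.Crit 

open MeasureTheory Set Filter Topology
open scoped ENNReal Pointwise

theorem fpl_K1 {N : P → ℝ} (hN : Gau N) {v w Y a' : P} {r t : ℝ}
    (hw : w ≠ 0) (hY : N (v - Y) ≤ r) (ha' : N (v + w - a') ≤ r)
    (ga' : r ≤ N (v - a')) (ht : 0 < t) (h : a' = Y - t • w) : False := by
  have ht1 : (0:ℝ) < t + 1 := by linarith
  have hne : v + w - a' ≠ v - Y := by
    intro hh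
    have : (t + 1) • w = 0 := by
      have h2 : v + w - a' - (v - Y) = 0 := sub_eq_zero.mpr hh
      rw [h] at h2
      rw [← h2]
      module
    rcases smul_eq_zero.mp this with h3 | h3
    · linarith
    · exact hw h3
  have key := hN.sc (v + w - a') (v - Y) r (t / (t + 1)) hne ha' hY (by positivity)
    (by rw [div_lt_one ht1]; linarith)
  have e : (t / (t + 1)) • (v + w - a') + (1 - t / (t + 1)) • (v - Y) = v - a' := by
    have e1 : (1 - t / (t + 1)) = 1 / (t + 1) := by field_simp; ring
    rw [e1]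
    have e2 : v + w - a' = (v - Y) + (t + 1) • w := by rw [h]; module
    have e3 : v - a' = (v - Y) + t • w := by rw [h]; module
    rw [e2, e3, smul_add, smul_smul]
    have e4 : t / (t + 1) * (t + 1) = t := by field_simp
    rw [e4]
    have e5 : (t / (t + 1)) • (v - Y) + (1 / (t + 1)) • (v - Y) = v - Y := by
      rw [← add_smul]
      have : t / (t + 1) + 1 / (t + 1) = 1 := by field_simp
      rw [this, one_smul]
    calc (t / (t + 1)) • (v - Y) + t • w + (1 / (t + 1)) • (v - Y)
        = ((t / (t + 1)) • (v - Y) + (1 / (t + 1)) • (v - Y)) + t • w := by abel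
      _ = _ := by rw [e5]
  rw [e] at key
  linarith

theorem fpl_K2 {N : P → ℝ} (hN : Gau N) {v w Y a : P} {r t : ℝ}
    (hw : w ≠ 0) (hY : N (v + w - Y) ≤ r) (ha : N (v - a) ≤ r)
    (ga : r ≤ N (v + w - a)) (ht : 0 < t) (h : Y = a - t • w) : False := by
  have ht1 : (0:ℝ) < t + 1 := by linarith
  have hne : v + w - Y ≠ v - a := by
    intro hh
    have : (t + 1) • w = 0 := by
      have h2 : v + w - Y - (v - a) = 0 := sub_eq_zero.mpr hh
      rw [h] at h2
      rw [← h2]
      module
    rcases smul_eq_zero.mp this with h3 | h3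
    · linarith
    · exact hw h3
  have key := hN.sc (v + w - Y) (v - a) r (1 / (t + 1)) hne hY ha (by positivity)
    (by rw [div_lt_one ht1]; linarith)
  have e : (1 / (t + 1)) • (v + w - Y) + (1 - 1 / (t + 1)) • (v - a) = v + w - a := by
    have e1 : (1 - 1 / (t + 1)) = t / (t + 1) := by field_simp; ring
    rw [e1]
    have e2 : v + w - Y = (v - a) + (t + 1) • w := by rw [h]; module
    have e3 : v + w - a = (v - a) + w := by module
    rw [e2, e3, smul_add, smul_smul]
    have e4 : 1 / (t + 1) * (t + 1) = 1 := by field_simp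
    rw [e4, one_smul]
    have e5 : (1 / (t + 1)) • (v - a) + (t / (t + 1)) • (v - a) = v - a := by
      rw [← add_smul]
      have : 1 / (t + 1) + t / (t + 1) = 1 := by field_simp; ring
      rw [this, one_smul]
    calc (1 / (t + 1)) • (v - a) + w + (t / (t + 1)) • (v - a)
        = ((1 / (t + 1)) • (v - a) + (t / (t + 1)) • (v - a)) + w := by abel
      _ = _ := by rw [e5]
  rw [e] at key
  linarith

theorem fpl_seg {N : P → ℝ} (hN : Gau N) {c a b : P} {r u : ℝ}
    (ha : N (c - a) ≤ r) (hb : N (c - b) ≤ r) (hu0 : 0 ≤ u) (hu1 : u ≤ 1) :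
    N (c - ((1 - u) • a + u • b)) ≤ r := by
  rcases eq_or_lt_of_le hu0 with h0 | h0
  · rw [← h0]; simpa using ha
  rcases eq_or_lt_of_le hu1 with h1 | h1
  · rw [h1]; simpa using hb
  by_cases hab : c - b = c - a
  · have : b = a := by simpa using hab
    rw [this]
    have e : (1 - u) • a + u • a = a := by rw [← add_smul]; simp
    rw [e]; exact ha
  · have key := hN.sc (c - b) (c - a) r u hab hb ha h0 h1
    have e : u • (c - b) + (1 - u) • (c - a) = c - ((1 - u) • a + u • b) := by module
    rw [e] at key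
    exact key.le

/-- coordinate along `w`. -/
noncomputable def gcoord (w p : P) : ℝ := (w.1 * p.1 + w.2 * p.2) / (w.1 ^ 2 + w.2 ^ 2)

theorem norm_pos_of_ne {w : P} (hw : w ≠ 0) : 0 < w.1 ^ 2 + w.2 ^ 2 := by
  by_contra h
  have h1 : w.1 ^ 2 + w.2 ^ 2 = 0 := le_antisymm (not_lt.mp h) (by positivity)
  have h2 : w.1 = 0 := by nlinarith [sq_nonneg w.1, sq_nonneg w.2]
  have h3 : w.2 = 0 := by nlinarith [sq_nonneg w.1, sq_nonneg w.2]
  exact hw (Prod.ext h2 h3)

theorem eq_add_of_cr {w p q : P} (hw : w ≠ 0) (h : cr w p = cr w q) :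
    p = q + (gcoord w p - gcoord w q) • w := by
  have hn := norm_pos_of_ne hw
  unfold cr at h
  unfold gcoord
  ext
  · simp only [Prod.fst_add, Prod.smul_fst, smul_eq_mul]
    field_simp
    linear_combination (-w.2) * h
  · simp only [Prod.snd_add, Prod.smul_snd, smul_eq_mul]
    field_simp
    linear_combination (w.1) * h

theorem cr_comb (w a b : P) (u : ℝ) :
    cr w ((1 - u) • a + u • b) = cr w a + u * (cr w b - cr w a) := by
  unfold cr
  simp only [Prod.fst_add, Prod.smul_fst, smul_eq_mul, Prod.snd_add, Prod.smul_snd]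
  ring

theorem g_comb (w a b : P) (u : ℝ) :
    gcoord w ((1 - u) • a + u • b) = gcoord w a + u * (gcoord w b - gcoord w a) := by
  unfold gcoord
  simp only [Prod.fst_add, Prod.smul_fst, smul_eq_mul, Prod.snd_add, Prod.smul_snd]
  ring

theorem fpl_main {N : P → ℝ} (hN : Gau N) {v w a b a' b' X X' : P} {r s s' l : ℝ}
    (hw : w ≠ 0)
    (ha : N (v - a) ≤ r) (hb : N (v - b) ≤ r)
    (ga : r ≤ N (v + w - a)) (gb : r ≤ N (v + w - b))
    (ha' : N (v + w - a') ≤ r) (hb' : N (v + w - b') ≤ r)
    (ga' : r ≤ N (v - a')) (gb' : r ≤ N (v - b'))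
    (hs0 : 0 ≤ s) (hs1 : s ≤ 1) (hX : X = (1 - s) • a + s • b)
    (hs0' : 0 ≤ s') (hs1' : s' ≤ 1) (hX' : X' = (1 - s') • a' + s' • b')
    (hl : 0 < l) (hXX : X' = X - l • w)
    (hab : cr w a ≤ cr w b) (hab' : cr w a' ≤ cr w b') : False := by
  have hXn : N (v - X) ≤ r := by rw [hX]; exact fpl_seg hN ha hb hs0 hs1
  have hXn' : N (v + w - X') ≤ r := by rw [hX']; exact fpl_seg hN ha' hb' hs0' hs1'
  have cX : cr w X = cr w a + s * (cr w b - cr w a) := by rw [hX]; exact cr_comb w a b s
  have cX' : cr w X' = cr w a' + s' * (cr w b' - cr w a') := by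
    rw [hX']; exact cr_comb w a' b' s'
  have gX : gcoord w X = gcoord w a + s * (gcoord w b - gcoord w a) := by
    rw [hX]; exact g_comb w a b s
  have gX' : gcoord w X' = gcoord w a' + s' * (gcoord w b' - gcoord w a') := by
    rw [hX']; exact g_comb w a' b' s'
  have hn := norm_pos_of_ne hw
  have cXX : cr w X' = cr w X := by
    rw [hXX]; unfold cr
    simp only [Prod.fst_sub, Prod.smul_fst, smul_eq_mul, Prod.snd_sub, Prod.smul_snd]
    ring
  have gXX : gcoord w X' = gcoord w X - l := by
    rw [hXX]; unfold gcoord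
    simp only [Prod.fst_sub, Prod.smul_fst, smul_eq_mul, Prod.snd_sub, Prod.smul_snd]
    field_simp
    ring
  -- K2 at a point e of {a, b}
  have K2 : ∀ e : P, N (v - e) ≤ r → r ≤ N (v + w - e) → ∀ u : ℝ, 0 ≤ u → u ≤ 1 →
      cr w e = cr w a' + u * (cr w b' - cr w a') →
      gcoord w e ≤ gcoord w a' + u * (gcoord w b' - gcoord w a') := by
    intro e he ge u hu0 hu1 hc
    by_contra hlt
    push Not at hlt
    have h1 : N (v + w - ((1 - u) • a' + u • b')) ≤ r := fpl_seg hN ha' hb' hu0 hu1
    have h2 : cr w ((1 - u) • a' + u • b') = cr w e := by rw [cr_comb, hc]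
    have h3 := eq_add_of_cr hw h2
    rw [g_comb] at h3
    exact fpl_K2 hN (t := gcoord w e - (gcoord w a' + u * (gcoord w b' - gcoord w a')))
      hw h1 he ge (by linarith) (by rw [h3]; module)
  have K1 : ∀ e : P, N (v + w - e) ≤ r → r ≤ N (v - e) → ∀ u : ℝ, 0 ≤ u → u ≤ 1 →
      cr w e = cr w a + u * (cr w b - cr w a) →
      gcoord w a + u * (gcoord w b - gcoord w a) ≤ gcoord w e := by
    intro e he ge u hu0 hu1 hc
    by_contra hlt
    push Not at hlt
    have h1 : N (v - ((1 - u) • a + u • b)) ≤ r := fpl_seg hN ha hb hu0 hu1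
    have h2 : cr w e = cr w ((1 - u) • a + u • b) := by rw [cr_comb, hc]
    have h3 := eq_add_of_cr hw h2
    rw [g_comb] at h3
    refine fpl_K1 hN (Y := (1 - u) • a + u • b) (a' := e)
      (t := (gcoord w a + u * (gcoord w b - gcoord w a)) - gcoord w e)
      hw h1 he ge (by linarith) ?_
    calc e = _ := h3
      _ = _ := by module
  rcases eq_or_lt_of_le hab with hAB | hAB
  · -- degenerate [a,b]
    have hc : cr w X = cr w a := by rw [cX, hAB]; ring
    have hfin : ∀ e : P, N (v - e) ≤ r → r ≤ N (v + w - e) → cr w e = cr w X →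
        gcoord w X ≤ gcoord w e → False := by
      intro e he ge hce hge
      have h3 := eq_add_of_cr hw hce
      refine fpl_K2 hN (t := (gcoord w e - gcoord w X) + l) hw hXn' he ge (by linarith) ?_
      have h4 : X = e - (gcoord w e - gcoord w X) • w := by
        rw [eq_sub_iff_add_eq]; exact h3.symm
      rw [hXX]
      calc X - l • w = (e - (gcoord w e - gcoord w X) • w) - l • w := by rw [← h4]
        _ = _ := by module
    rcases le_or_gt (gcoord w X) (gcoord w a) with h | h
    · exact hfin a ha ga hc.symm h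
    · refine hfin b hb gb (by rw [hc, hAB]) ?_
      have h1 : 0 < s * (gcoord w b - gcoord w a) := by linarith
      have h2 : 0 < gcoord w b - gcoord w a := by
        by_contra h3
        push Not at h3
        nlinarith
      nlinarith
  rcases eq_or_lt_of_le hab' with hAB' | hAB'
  · have hc : cr w X' = cr w a' := by rw [cX', hAB']; ring
    have hfin : ∀ e : P, N (v + w - e) ≤ r → r ≤ N (v - e) → cr w e = cr w X' →
        gcoord w e ≤ gcoord w X' → False := by
      intro e he ge hce hge
      have h3 := eq_add_of_cr hw hce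
      refine fpl_K1 hN (Y := X) (t := (gcoord w X' - gcoord w e) + l) hw hXn he ge
        (by linarith) ?_
      calc e = X' + (gcoord w e - gcoord w X') • w := h3
        _ = (X - l • w) + (gcoord w e - gcoord w X') • w := by rw [← hXX]
        _ = _ := by module
    rcases le_or_gt (gcoord w a') (gcoord w X') with h | h
    · exact hfin a' ha' ga' hc.symm h
    · refine hfin b' hb' gb' (by rw [hc, hAB']) ?_
      have h1 : s' * (gcoord w b' - gcoord w a') < 0 := by linarith
      have h2 : gcoord w b' - gcoord w a' < 0 := by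
        by_contra h3
        push Not at h3
        nlinarith
      nlinarith
  -- main case
  have K1a' := fun u h0 h1 h => K1 a' ha' ga' u h0 h1 h
  have K1b' := fun u h0 h1 h => K1 b' hb' gb' u h0 h1 h
  have K2a := fun u h0 h1 h => K2 a ha ga u h0 h1 h
  have K2b := fun u h0 h1 h => K2 b hb gb u h0 h1 h
  rw [cXX] at cX'
  rw [gXX] at gX'
  generalize cr w a = A at *
  generalize cr w b = B at *
  generalize cr w a' = A' at *
  generalize cr w b' = B' at *
  generalize cr w X = y at *
  generalize gcoord w a = p at *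
  generalize gcoord w b = q at *
  generalize gcoord w a' = p' at *
  generalize gcoord w b' = q' at *
  generalize gcoord w X = g at *
  have hBA : 0 < B - A := by linarith
  have hBA' : 0 < B' - A' := by linarith
  clear K1 K2 hX hX' hXX hXn hXn' ha hb ga gb ha' hb' ga' gb' cXX
  have hAy : A ≤ y := by have := mul_nonneg hs0 hBA.le; linarith
  have hyB : y ≤ B := by have := mul_nonneg (sub_nonneg.mpr hs1) hBA.le; linarith
  have hAy' : A' ≤ y := by have := mul_nonneg hs0' hBA'.le; linarith
  have hyB' : y ≤ B' := by have := mul_nonneg (sub_nonneg.mpr hs1') hBA'.le; linarith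
  -- slopes
  obtain ⟨m, hm⟩ : ∃ m, q - p = m * (B - A) := ⟨(q - p) / (B - A), by field_simp⟩
  obtain ⟨m', hm'⟩ : ∃ m', q' - p' = m' * (B' - A') := ⟨(q' - p') / (B' - A'), by field_simp⟩
  have hDy : (p' + m' * (y - A')) - (p + m * (y - A)) = - l := by
    have h1 : y - A = s * (B - A) := by linarith
    have h2 : y - A' = s' * (B' - A') := by linarith
    rw [h1, h2]
    have h3 : m * (s * (B - A)) = s * (q - p) := by rw [hm]; ring
    have h4 : m' * (s' * (B' - A')) = s' * (q' - p') := by rw [hm']; ring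
    rw [h3, h4]; linarith
  have hleft : ∃ z, z ≤ y ∧ 0 ≤ (p' + m' * (z - A')) - (p + m * (z - A)) := by
    rcases le_total A' A with h | h
    · refine ⟨A, hAy, ?_⟩
      have := K2a ((A - A') / (B' - A')) (div_nonneg (by linarith) hBA'.le)
        (by rw [div_le_one hBA']; linarith) (by field_simp; ring)
      have e : (A - A') / (B' - A') * (q' - p') = m' * (A - A') := by
        rw [hm']; field_simp
      rw [e] at this
      linarith
    · refine ⟨A', hAy', ?_⟩
      have := K1a' ((A' - A) / (B - A)) (div_nonneg (by linarith) hBA.le)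
        (by rw [div_le_one hBA]; linarith) (by field_simp; ring)
      have e : (A' - A) / (B - A) * (q - p) = m * (A' - A) := by
        rw [hm]; field_simp
      rw [e] at this
      linarith
  have hright : ∃ z, y ≤ z ∧ 0 ≤ (p' + m' * (z - A')) - (p + m * (z - A)) := by
    rcases le_total B B' with h | h
    · refine ⟨B, hyB, ?_⟩
      have := K2b ((B - A') / (B' - A')) (div_nonneg (by linarith) hBA'.le)
        (by rw [div_le_one hBA']; linarith) (by field_simp; ring)
      have e : (B - A') / (B' - A') * (q' - p') = m' * (B - A') := by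
        rw [hm']; field_simp
      rw [e] at this
      linarith
    · refine ⟨B', hyB', ?_⟩
      have := K1b' ((B' - A) / (B - A)) (div_nonneg (by linarith) hBA.le)
        (by rw [div_le_one hBA]; linarith) (by field_simp; ring)
      have e : (B' - A) / (B - A) * (q - p) = m * (B' - A) := by
        rw [hm]; field_simp
      rw [e] at this
      linarith
  obtain ⟨z1, hz1, h1⟩ := hleft
  obtain ⟨z2, hz2, h2⟩ := hright
  clear K1a' K1b' K2a K2b
  rcases le_total 0 (m' - m) with hmm | hmm
  · have h5 := mul_nonneg hmm (sub_nonneg.mpr hz1)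
    linarith
  · have h5 := mul_nonneg (neg_nonneg.mpr hmm) (sub_nonneg.mpr hz2)
    linarith


/-- Four point lemma, translation case. -/
theorem fpl_trans {N : P → ℝ} (hN : Gau N) {v w a b a' b' X X' : P} {r s s' l : ℝ}
    (hw : w ≠ 0)
    (ha : N (v - a) ≤ r) (hb : N (v - b) ≤ r)
    (ga : r ≤ N (v + w - a)) (gb : r ≤ N (v + w - b))
    (ha' : N (v + w - a') ≤ r) (hb' : N (v + w - b') ≤ r)
    (ga' : r ≤ N (v - a')) (gb' : r ≤ N (v - b'))
    (hs0 : 0 ≤ s) (hs1 : s ≤ 1) (hX : X = (1 - s) • a + s • b)
    (hs0' : 0 ≤ s') (hs1' : s' ≤ 1) (hX' : X' = (1 - s') • a' + s' • b')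
    (hl : 0 < l) (hXX : X' = X - l • w) : False := by
  have hXs : X = (1 - (1 - s)) • b + (1 - s) • a := by rw [hX]; module
  have hXs' : X' = (1 - (1 - s')) • b' + (1 - s') • a' := by rw [hX']; module
  rcases le_total (cr w a) (cr w b) with h | h <;>
    rcases le_total (cr w a') (cr w b') with h' | h'
  · exact fpl_main hN hw ha hb ga gb ha' hb' ga' gb' hs0 hs1 hX hs0' hs1' hX' hl hXX h h'
  · exact fpl_main hN hw ha hb ga gb hb' ha' gb' ga' hs0 hs1 hX (by linarith) (by linarith)
      hXs' hl hXX h h'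
  · exact fpl_main hN hw hb ha gb ga ha' hb' ga' gb' (by linarith) (by linarith) hXs hs0' hs1'
      hX' hl hXX h h'
  · exact fpl_main hN hw hb ha gb ga hb' ha' gb' ga' (by linarith) (by linarith) hXs
      (by linarith) (by linarith) hXs' hl hXX h h'



end Pool.Agent.Helper484.Crit.FA1
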