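import Pool.Agent.Helper484.Crit.Base

set_option autoImplicit false

namespace Pool.Agent.Helper484.Crit.FA2

open Pool.Agent.Helper484.Crit 

open MeasureTheory Set Filter Topology
open scoped ENNReal Pointwise

lemma fpl_eq_of_cr {a X Y : P} {n : ℝ} (h : cr X a ≠ 0) (h1 : cr a Y = 0)
    (h2 : cr X Y = n * cr X a) : Y = n • a := by
  obtain ⟨a1, a2⟩ := a
  obtain ⟨x1, x2⟩ := X
  obtain ⟨y1, y2⟩ := Y
  simp only [cr] at h h1 h2
  have e1 : (y1 - n * a1) * (x1 * a2 - x2 * a1) = 0 := by linear_combination (-x1) * h1 + a1 * h2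
  have e2 : (y2 - n * a2) * (x1 * a2 - x2 * a1) = 0 := by linear_combination (-x2) * h1 + a2 * h2
  rcases mul_eq_zero.mp e1 with e1 | e1
  · rcases mul_eq_zero.mp e2 with e2 | e2
    · ext
      · simp; linarith
      · simp; linarith
    · exact absurd e2 h
  · exact absurd e1 h

lemma fpl_side {l : ℝ} (hl : 0 < l) {X a a1 : P} (hz : 0 < cr X a * cr X a1)
    (hK2 : ∀ t : ℝ, 0 ≤ t → t ≤ 1 → ∀ m : ℝ, 0 < m →
      a = m • ((1 - t) • a1 + t • (l • X)) → m ≤ 1)
    (hK1 : ∀ t : ℝ, 0 ≤ t → t ≤ 1 → ∀ m : ℝ, 0 < m →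
      a1 = m • ((1 - t) • a + t • X) → 1 ≤ m) :
    ∃ t t1 n : ℝ, 0 ≤ t ∧ t < 1 ∧ 0 ≤ t1 ∧ t1 < 1 ∧ 1 ≤ n ∧
      (1 - t1) • a1 + t1 • (l • X) = n • ((1 - t) • a + t • X) := by
  set za := cr X a with hza
  set z1 := cr X a1 with hz1
  set D := cr a a1 with hD
  have hza0 : za ≠ 0 := by rintro h; rw [h] at hz; simp at hz
  have hz10 : z1 ≠ 0 := by rintro h; rw [h] at hz; simp at hz
  by_cases hc : 0 ≤ D * za
  · -- the ray of a meets [a1, X1]
    have hden : 0 < (D + l * za) * za := by nlinarith [mul_pos hl (mul_self_pos.mpr hza0)]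
    have hden0 : D + l * za ≠ 0 := by rintro h; rw [h] at hden; simp at hden
    set t := D / (D + l * za) with ht
    have ht0 : 0 ≤ t := by
      have : t = (D * za) / ((D + l * za) * za) := by
        rw [ht]; field_simp
      rw [this]; exact div_nonneg hc hden.le
    have h1t : 1 - t = (l * za) / (D + l * za) := by
      rw [ht]; field_simp; ring
    have h1t0 : 0 < 1 - t := by
      have : 1 - t = (l * (za * za)) / ((D + l * za) * za) := by
        rw [h1t]; field_simp
      rw [this]; exact div_pos (mul_pos hl (mul_self_pos.mpr hza0)) hden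
    set n := (1 - t) * z1 / za with hn
    have hn0 : 0 < n := by
      have : n = (1 - t) * (za * z1) / (za * za) := by
        rw [hn]; field_simp
      rw [this]; exact div_pos (mul_pos h1t0 hz) (mul_self_pos.mpr hza0)
    have hY : (1 - t) • a1 + t • (l • X) = n • a := by
      apply fpl_eq_of_cr (X := X) hza0
      · have : cr a ((1 - t) • a1 + t • (l • X)) = (1 - t) * D - t * l * za := by
          simp only [cr, hD, hza, Prod.fst_add, Prod.snd_add, Prod.smul_fst, Prod.smul_snd,
            smul_eq_mul]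
          ring
        rw [this, h1t, ht]; field_simp; ring
      · have : cr X ((1 - t) • a1 + t • (l • X)) = (1 - t) * z1 := by
          simp only [cr, hz1, Prod.fst_add, Prod.snd_add, Prod.smul_fst, Prod.smul_snd,
            smul_eq_mul]
          ring
        rw [this, hn, ← hza]; field_simp
    have hn1 : n⁻¹ ≤ 1 := by
      apply hK2 t ht0 (by linarith) n⁻¹ (inv_pos.mpr hn0)
      rw [hY, smul_smul, inv_mul_cancel₀ hn0.ne', one_smul]
    refine ⟨0, t, n, le_refl _, one_pos, ht0, by linarith, ?_, ?_⟩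
    · by_contra hlt
      push Not at hlt
      have := one_lt_inv_iff₀.mpr ⟨hn0, hlt⟩
      linarith
    · rw [hY]; simp
  · -- the ray of a1 meets [a, X]
    push Not at hc
    have hc1 : D * z1 < 0 := by
      have h2 : 0 < (za * za) := mul_self_pos.mpr hza0
      have : (D * z1) * (za * za) < 0 := by
        have : (D * z1) * (za * za) = (D * za) * (za * z1) := by ring
        rw [this]; exact mul_neg_of_neg_of_pos hc hz
      by_contra hcon
      push Not at hcon
      nlinarith [mul_nonneg hcon h2.le]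
    have hden : (D - z1) * z1 < 0 := by nlinarith [mul_self_pos.mpr hz10]
    have hden0 : D - z1 ≠ 0 := by rintro h; rw [h] at hden; simp at hden
    set t := D / (D - z1) with ht
    have ht0 : 0 ≤ t := by
      have : t = (D * z1) / ((D - z1) * z1) := by
        rw [ht]; field_simp
      rw [this]; exact div_nonneg_of_nonpos hc1.le hden.le
    have h1t : 1 - t = (- z1) / (D - z1) := by
      rw [ht]; field_simp; ring
    have h1t0 : 0 < 1 - t := by
      have : 1 - t = (-(z1 * z1)) / ((D - z1) * z1) := by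
        rw [h1t]; field_simp
      rw [this]; exact div_pos_of_neg_of_neg (by linarith [mul_self_pos.mpr hz10]) hden
    set n := (1 - t) * za / z1 with hn
    have hn0 : 0 < n := by
      have : n = (1 - t) * (za * z1) / (z1 * z1) := by
        rw [hn]; field_simp
      rw [this]; exact div_pos (mul_pos h1t0 hz) (mul_self_pos.mpr hz10)
    have hW : (1 - t) • a + t • X = n • a1 := by
      apply fpl_eq_of_cr (X := X) hz10
      · have : cr a1 ((1 - t) • a + t • X) = - ((1 - t) * D) - t * z1 := by
          simp only [cr, hD, hz1, Prod.fst_add, Prod.snd_add, Prod.smul_fst, Prod.smul_snd,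
            smul_eq_mul]
          ring
        rw [this, h1t, ht]; field_simp; ring
      · have : cr X ((1 - t) • a + t • X) = (1 - t) * za := by
          simp only [cr, hza, Prod.fst_add, Prod.snd_add, Prod.smul_fst, Prod.smul_snd,
            smul_eq_mul]
          ring
        rw [this, hn, ← hz1]; field_simp
    have hn1 : 1 ≤ n⁻¹ := by
      apply hK1 t ht0 (by linarith) n⁻¹ (inv_pos.mpr hn0)
      rw [hW, smul_smul, inv_mul_cancel₀ hn0.ne', one_smul]
    refine ⟨t, 0, n⁻¹, ht0, by linarith, le_refl _, one_pos, hn1, ?_⟩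
    rw [hW, smul_smul n⁻¹ n a1, inv_mul_cancel₀ hn0.ne']; simp

lemma fpl_alg {A B A1 B1 n n' l p1 p2 F1 F2 fX : ℝ} (hA : 0 < A) (hB : 0 < B) (hA1 : 0 < A1)
    (hB1 : 0 < B1) (hn : 1 ≤ n) (hn' : 1 ≤ n') (hl : l < 1) (hF1 : 0 < F1) (hF2 : 0 < F2)
    (hp1 : p1 ≠ 0)
    (f1 : (B + A) * fX = A * F1 + B * F2)
    (f2 : (B1 + A1) * (l * fX) = A1 * (n * F1) + B1 * (n' * F2))
    (z1 : 0 = A * p1 + B * p2) (z2 : 0 = A1 * (n * p1) + B1 * (n' * p2)) : False := by
  have key : A1 * n * B = B1 * n' * A := by
    have h3 : (A1 * n * B - B1 * n' * A) * p1 = 0 := by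
      linear_combination (-B) * z2 + (B1 * n') * z1
    rcases mul_eq_zero.mp h3 with h4 | h4
    · linarith
    · exact absurd h4 hp1
  have h5 : l * (B1 + A1) * (A * F1 + B * F2)
      = (B + A) * (A1 * (n * F1) + B1 * (n' * F2)) := by
    rw [← f1, ← f2]; ring
  have h6 : B * ((B + A) * (A1 * (n * F1) + B1 * (n' * F2)))
      = (B + A) * (B1 * n') * (A * F1 + B * F2) := by
    linear_combination ((B + A) * F1) * key
  have hpos : 0 < A * F1 + B * F2 := by positivity
  have h7 : B * (l * (B1 + A1)) = (B + A) * (B1 * n') := by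
    have h8 : (B * (l * (B1 + A1)) - (B + A) * (B1 * n')) * (A * F1 + B * F2) = 0 := by
      linear_combination B * h5 + h6
    rcases mul_eq_zero.mp h8 with h9 | h9
    · linarith
    · linarith
  have h10 : (B + A) * (B1 * n') = B * (B1 * n' + A1 * n) := by linear_combination -key
  rw [h10] at h7
  have h11 : l * (B1 + A1) = B1 * n' + A1 * n := mul_left_cancel₀ hB.ne' h7
  have h12 : B1 ≤ B1 * n' := le_mul_of_one_le_right hB1.le hn'
  have h13 : A1 ≤ A1 * n := le_mul_of_one_le_right hA1.le hn
  have h14 : 0 < B1 + A1 := by linarith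
  have h15 : l * (B1 + A1) < 1 * (B1 + A1) := mul_lt_mul_of_pos_right hl h14
  linarith

lemma fpl_opp {s x y : ℝ} (h0 : 0 < s) (h1 : s < 1) (h : (1 - s) * x + s * y = 0) (hx : x ≠ 0) :
    x * y < 0 := by
  have h2 : s * (x * y) = -((1 - s) * (x * x)) := by linear_combination x * h
  have h3 : 0 < (1 - s) * (x * x) := mul_pos (by linarith) (mul_self_pos.mpr hx)
  by_contra hc
  push Not at hc
  have := mul_nonneg h0.le hc
  linarith

lemma fpl_same {x y z : ℝ} (h : x * y < 0) (h' : y * z < 0) : 0 < x * z := by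
  have hy : y ≠ 0 := by rintro rfl; simp at h
  have h3 : 0 < (x * y) * (y * z) := mul_pos_of_neg_of_neg h h'
  have h4 : 0 < (x * z) * (y * y) := by
    have : (x * z) * (y * y) = (x * y) * (y * z) := by ring
    rw [this]; exact h3
  exact (pos_iff_pos_of_mul_pos h4).mpr (mul_self_pos.mpr hy)

lemma fpl_alt {s x y z : ℝ} (h0 : 0 < s) (h1 : s < 1) (h : z = (1 - s) * x + s * y) (hx : x < z) :
    z ≤ y := by
  by_contra hc
  push Not at hc
  have := mul_lt_mul_of_pos_left hc h0
  have := mul_lt_mul_of_pos_left hx (show 0 < 1 - s by linarith)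
  linarith

lemma fpl_alt' {s x y z : ℝ} (h0 : 0 < s) (h1 : s < 1) (h : z = (1 - s) * x + s * y) (hx : z < x) :
    y ≤ z := by
  by_contra hc
  push Not at hc
  have := mul_lt_mul_of_pos_left hc h0
  have := mul_lt_mul_of_pos_left hx (show 0 < 1 - s by linarith)
  linarith

lemma cr_lin (X : P) (p q : ℝ) (y z : P) : cr X (p • y + q • z) = p * cr X y + q * cr X z := by
  simp only [cr, Prod.fst_add, Prod.snd_add, Prod.smul_fst, Prod.smul_snd, smul_eq_mul]; ring

lemma cr_smul (X : P) (p : ℝ) (y : P) : cr X (p • y) = p * cr X y := by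
  simp only [cr, Prod.smul_fst, Prod.smul_snd, smul_eq_mul]; ring

lemma cr_self (X : P) : cr X X = 0 := by
  simp only [cr]; ring

lemma fpl_comb1 (X a b : P) (s t w : ℝ) (hX : X = (1 - s) • a + s • b) :
    ((1 - t) * s + (1 - w) * (1 - s)) • X
        = ((1 - w) * (1 - s)) • ((1 - t) • a + t • X) + ((1 - t) * s) • ((1 - w) • b + w • X) := by
  have : ((1 - w) * (1 - s)) • ((1 - t) • a + t • X) + ((1 - t) * s) • ((1 - w) • b + w • X)
          = ((1 - w) * (1 - t)) • ((1 - s) • a + s • b) + ((1 - w) * (1 - s) * t + (1 - t) * s * w) • X := by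
    module
  rw [this, ← hX]
  module

/-- Four point lemma, homothety case (centre of homothety at the origin, ratio `k > 1`).
`B = {x | N (V - x) ≤ r}`; `a, b ∈ B` but `a / k, b / k ∉ int B`; `a' / k, b' / k ∈ B` but
`a', b' ∉ int B`. Then a point `X' = l X` (`l < 1`) of `[a', b']` cannot lie on the ray through
`X ∈ [a, b]` strictly nearer to the origin than `X`. -/
theorem fpl_hom {N : P → ℝ} (hN : Gau N) {V a b a' b' X X' : P} {r k s s' l : ℝ}
    (hk : 1 < k) (hr : 0 < r)
    (h0 : r < N V)
    (ha : N (V - a) ≤ r) (hb : N (V - b) ≤ r)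
    (ga : k * r ≤ N (k • V - a)) (gb : k * r ≤ N (k • V - b))
    (ha' : N (k • V - a') ≤ k * r) (hb' : N (k • V - b') ≤ k * r)
    (ga' : r ≤ N (V - a')) (gb' : r ≤ N (V - b'))
    (hs0 : 0 ≤ s) (hs1 : s ≤ 1) (hX : X = (1 - s) • a + s • b)
    (hs0' : 0 ≤ s') (hs1' : s' ≤ 1) (hX' : X' = (1 - s') • a' + s' • b')
    (hl0 : 0 < l) (hl : l < 1) (hXX : X' = l • X) : False := by
  have hk0 : 0 < k := by linarith
  -- scaling
  have hsc : ∀ x : P, N (k • V - x) = k * N (V - k⁻¹ • x) := by
    intro x
    rw [← hN.hom k _ hk0.le, smul_sub, smul_smul, mul_inv_cancel₀ hk0.ne', one_smul]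
  -- convexity
  have hconv : ∀ x y : P, ∀ t : ℝ, N (V - x) ≤ r → N (V - y) ≤ r → 0 ≤ t → t ≤ 1 →
      N (V - ((1 - t) • x + t • y)) ≤ r := by
    intro x y t hx hy ht0 ht1
    rcases eq_or_lt_of_le ht0 with h | h
    · subst h; simpa using hx
    rcases eq_or_lt_of_le ht1 with h' | h'
    · subst h'; simpa using hy
    by_cases hxy : x = y
    · subst hxy
      have : (1 - t) • x + t • x = x := by rw [← add_smul]; simp
      rw [this]; exact hx
    · have := hN.sc (V - y) (V - x) r t (by
        intro he; apply hxy; exact (sub_right_injective he).symm) hy hx h h'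
      have e : V - ((1 - t) • x + t • y) = t • (V - y) + (1 - t) • (V - x) := by
        module
      rw [e]; exact this.le
  -- strict betweenness on a line through the origin
  have hstrict : ∀ (Y : P) (α β γ : ℝ), Y ≠ 0 → N (V - α • Y) ≤ r → N (V - β • Y) ≤ r →
      α < γ → γ < β → N (V - γ • Y) < r := by
    intro Y α β γ hY hα hβ h1 h2
    have hne : V - α • Y ≠ V - β • Y := by
      intro he
      have : α • Y = β • Y := sub_right_injective he
      have h3 : (α - β) • Y = 0 := by rw [sub_smul, this, sub_self]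
      rcases smul_eq_zero.mp h3 with h4 | h4
      · linarith
      · exact hY h4
    have hba : 0 < β - α := by linarith
    have := hN.sc (V - α • Y) (V - β • Y) r ((β - γ) / (β - α)) hne hα hβ
      (div_pos (by linarith) hba) (by rw [div_lt_one hba]; linarith)
    have e : V - γ • Y = ((β - γ) / (β - α)) • (V - α • Y) +
        (1 - (β - γ) / (β - α)) • (V - β • Y) := by
      have h5 : γ = ((β - γ) / (β - α)) * α + (1 - (β - γ) / (β - α)) * β := by
        field_simp; ring
      conv_lhs => rw [h5]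
      module
    rw [e]; exact this
  -- a separating functional
  have hBconv : Convex ℝ {x : P | N (V - x) ≤ r} := by
    intro x hx y hy p q hp hq hpq
    have := hconv x y q hx hy hq (by linarith)
    have hp' : p = 1 - q := by linarith
    rw [mem_ofPred_eq, hp']; exact this
  have hBcl : IsClosed {x : P | N (V - x) ≤ r} :=
    isClosed_le (hN.cont.comp (continuous_const.sub continuous_id)) continuous_const
  have h0B : (0 : P) ∉ {x : P | N (V - x) ≤ r} := by
    simp only [mem_ofPred_eq, sub_zero, not_le]; exact h0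
  obtain ⟨f, u, hf0, hfB⟩ := geometric_hahn_banach_point_closed hBconv hBcl h0B
  have hu : 0 < u := by simpa using hf0
  have fpos : ∀ x : P, N (V - x) ≤ r → 0 < f x := fun x hx => hu.trans (hfB x hx)
  have fposk : ∀ x : P, N (V - k⁻¹ • x) ≤ r → 0 < f x := by
    intro x hx
    have := fpos _ hx
    rw [map_smul, smul_eq_mul] at this
    exact (pos_iff_pos_of_mul_pos this).mp (inv_pos.mpr hk0)
  have hA' : N (V - k⁻¹ • a') ≤ r := by
    rw [hsc] at ha'; exact le_of_mul_le_mul_left ha' hk0
  have hB' : N (V - k⁻¹ • b') ≤ r := by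
    rw [hsc] at hb'; exact le_of_mul_le_mul_left hb' hk0
  have hGA : r ≤ N (V - k⁻¹ • a) := by
    rw [hsc] at ga; exact le_of_mul_le_mul_left ga hk0
  have hGB : r ≤ N (V - k⁻¹ • b) := by
    rw [hsc] at gb; exact le_of_mul_le_mul_left gb hk0
  have ne_of_f : ∀ x : P, 0 < f x → x ≠ 0 := by
    rintro x hx rfl; simp at hx
  -- K1
  have K1 : ∀ (Y a1 : P) (m : ℝ), N (V - Y) ≤ r → N (V - k⁻¹ • a1) ≤ r → r ≤ N (V - a1) →
      0 < m → a1 = m • Y → 1 ≤ m := by
    intro Y a1 m hY h1 h2 hm he
    by_contra hlt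
    push Not at hlt
    have := hstrict Y (k⁻¹ * m) 1 m (ne_of_f _ (fpos _ hY)) (by rw [mul_smul, ← he]; exact h1)
      (by simpa using hY) (by
        have : k⁻¹ < 1 := inv_lt_one_of_one_lt₀ hk
        nlinarith) hlt
    rw [← he] at this
    linarith
  have K2 : ∀ (Y a0 : P) (m : ℝ), N (V - k⁻¹ • Y) ≤ r → N (V - a0) ≤ r →
      r ≤ N (V - k⁻¹ • a0) → 0 < m → a0 = m • Y → m ≤ 1 := by
    intro Y a0 m hY h1 h2 hm he
    by_contra hlt
    push Not at hlt
    have hki : k⁻¹ < 1 := inv_lt_one_of_one_lt₀ hk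
    have hki0 : 0 < k⁻¹ := inv_pos.mpr hk0
    have := hstrict Y k⁻¹ m (k⁻¹ * m) (ne_of_f _ (fposk _ hY)) hY (by rw [← he]; exact h1)
      (by nlinarith) (by nlinarith)
    rw [mul_smul, ← he] at this
    linarith
  -- X, X'
  have hXB : N (V - X) ≤ r := by rw [hX]; exact hconv a b s ha hb hs0 hs1
  have hXB' : N (V - k⁻¹ • X') ≤ r := by
    have := hconv _ _ s' hA' hB' hs0' hs1'
    rw [hX']
    have e : k⁻¹ • ((1 - s') • a' + s' • b') = (1 - s') • (k⁻¹ • a') + s' • (k⁻¹ • b') := by module
    rw [e]; exact this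
  have hfX : 0 < f X := fpos _ hXB
  have hX0 : X ≠ 0 := ne_of_f _ hfX
  -- if e ∈ {a, b} is parallel to X
  have par : ∀ v : P, cr X v = 0 → v = (f v / f X) • X := by
    intro v hv
    obtain ⟨x1, x2⟩ := X
    obtain ⟨v1, v2⟩ := v
    simp only [cr] at hv
    -- v = c X for some c
    have : ∃ c : ℝ, ((v1, v2) : P) = c • ((x1, x2) : P) := by
      by_cases hx1 : x1 = 0
      · have hx2 : x2 ≠ 0 := by
          intro h; apply hX0; rw [hx1, h]; rfl
        refine ⟨v2 / x2, ?_⟩
        subst hx1
        have : v1 = 0 := by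
          have : x2 * v1 = 0 := by linarith
          rcases mul_eq_zero.mp this with h | h
          · exact absurd h hx2
          · exact h
        subst this
        ext
        · simp
        · simp; field_simp
      · refine ⟨v1 / x1, ?_⟩
        ext
        · simp; field_simp
        · simp; field_simp; linarith
    obtain ⟨c, hc⟩ := this
    rw [hc, map_smul, smul_eq_mul, mul_div_assoc, div_self hfX.ne', mul_one]
  have crX : (1 - s) * cr X a + s * cr X b = 0 := by
    have : cr X X = 0 := by simp only [cr]; ring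
    conv at this => enter [1, 2]; rw [hX]
    simp only [cr, Prod.fst_add, Prod.snd_add, Prod.smul_fst, Prod.smul_snd, smul_eq_mul] at this ⊢
    linarith
  have crX' : (1 - s') * cr X a' + s' * cr X b' = 0 := by
    have : cr X X' = 0 := by
      rw [hXX]; simp only [cr, Prod.smul_fst, Prod.smul_snd, smul_eq_mul]; ring
    rw [hX'] at this
    simp only [cr, Prod.fst_add, Prod.snd_add, Prod.smul_fst, Prod.smul_snd, smul_eq_mul] at this ⊢
    linarith
  have hfXX : f X' = l * f X := by rw [hXX, map_smul, smul_eq_mul]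
  -- exclude endpoints far out
  have E2 : ∀ e : P, N (V - e) ≤ r → r ≤ N (V - k⁻¹ • e) → cr X e = 0 → f X ≤ f e → False := by
    intro e h1 h2 h3 h4
    have h5 := par e h3
    have h6 : e = (f e / f X / l) • X' := by
      rw [hXX, smul_smul, div_mul_cancel₀ _ hl0.ne']; exact h5
    have h7 : 1 ≤ f e / f X := by rw [le_div_iff₀ hfX]; linarith
    have h8 : 1 < f e / f X / l := by rw [lt_div_iff₀ hl0]; linarith
    have := K2 X' e _ hXB' h1 h2 (by linarith) h6
    linarith
  have E1 : ∀ e : P, N (V - k⁻¹ • e) ≤ r → r ≤ N (V - e) → cr X e = 0 → f e ≤ f X' → False := by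
    intro e h1 h2 h3 h4
    have h5 := par e h3
    have h6 : 0 < f e / f X := div_pos (fposk _ h1) hfX
    have h7 : f e / f X < 1 := by
      rw [div_lt_one hfX]; rw [hfXX] at h4; nlinarith
    have := K1 X e _ hXB h1 h2 h6 h5
    linarith
  have hfXe : f X = (1 - s) * f a + s * f b := by
    conv_lhs => rw [hX]
    simp
  have hfXe' : f X' = (1 - s') * f a' + s' * f b' := by
    conv_lhs => rw [hX']
    simp
  -- nondegeneracy
  have hsP : 0 < s := by
    rcases eq_or_lt_of_le hs0 with h | h
    · exfalso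
      have hXa : X = a := by rw [hX, ← h]; simp
      exact E2 a ha hGA (by rw [hXa]; simp only [cr]; ring) (by rw [hXa])
    · exact h
  have hsP1 : s < 1 := by
    rcases eq_or_lt_of_le hs1 with h | h
    · exfalso
      have hXa : X = b := by rw [hX, h]; simp
      exact E2 b hb hGB (by rw [hXa]; simp only [cr]; ring) (by rw [hXa])
    · exact h
  have hsP' : 0 < s' := by
    rcases eq_or_lt_of_le hs0' with h | h
    · exfalso
      have hXa : X' = a' := by rw [hX', ← h]; simp
      exact E1 a' hA' ga' (by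
        rw [← hXa, hXX]; simp only [cr, Prod.smul_fst, Prod.smul_snd, smul_eq_mul]; ring)
        (by rw [hXa])
    · exact h
  have hsP1' : s' < 1 := by
    rcases eq_or_lt_of_le hs1' with h | h
    · exfalso
      have hXa : X' = b' := by rw [hX', h]; simp
      exact E1 b' hB' gb' (by
        rw [← hXa, hXX]; simp only [cr, Prod.smul_fst, Prod.smul_snd, smul_eq_mul]; ring)
        (by rw [hXa])
    · exact h
  have hza : cr X a ≠ 0 := by
    intro h
    have hb0 : cr X b = 0 := by
      rw [h] at crX; simp at crX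
      rcases crX with h1 | h1
      · linarith
      · exact h1
    by_cases hc : f X ≤ f a
    · exact E2 a ha hGA h hc
    · push Not at hc
      exact E2 b hb hGB hb0 (fpl_alt hsP hsP1 hfXe hc)
  have hza' : cr X a' ≠ 0 := by
    intro h
    have hb0 : cr X b' = 0 := by
      rw [h] at crX'; simp at crX'
      rcases crX' with h1 | h1
      · linarith
      · exact h1
    by_cases hc : f a' ≤ f X'
    · exact E1 a' hA' ga' h hc
    · push Not at hc
      exact E1 b' hB' gb' hb0 (fpl_alt' hsP' hsP1' hfXe' hc)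
  have hzb : cr X b ≠ 0 := by
    intro h
    rw [h] at crX; simp at crX
    rcases crX with h1 | h1
    · linarith
    · exact hza h1
  have hzb' : cr X b' ≠ 0 := by
    intro h
    rw [h] at crX'; simp at crX'
    rcases crX' with h1 | h1
    · linarith
    · exact hza' h1
  have hopp : cr X a * cr X b < 0 := fpl_opp hsP hsP1 crX hza
  have hopp' : cr X a' * cr X b' < 0 := fpl_opp hsP' hsP1' crX' hza'
  -- the core: assume a, a1 on the same side
  have core : ∀ (c d : P) (σ : ℝ), N (V - k⁻¹ • c) ≤ r → N (V - k⁻¹ • d) ≤ r →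
      r ≤ N (V - c) → r ≤ N (V - d) → 0 < σ → σ < 1 → X' = (1 - σ) • c + σ • d →
      0 < cr X a * cr X c → 0 < cr X b * cr X d → False := by
    intro c d σ hc hd gc gd hσ0 hσ1 hXcd h1 h2
    have hX'l : l • X = X' := hXX.symm
    obtain ⟨t, t1, n, ht0, ht1, ht10, ht11, hn, hP⟩ := fpl_side hl0 h1
      (by
        intro t ht0 ht1 m hm he
        refine K2 _ a m ?_ ha hGA hm he
        have e : k⁻¹ • ((1 - t) • c + t • l • X) = (1 - t) • (k⁻¹ • c) + t • (k⁻¹ • X') := by
          rw [hXX]; module
        rw [e]; exact hconv _ _ t hc hXB' ht0 ht1)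
      (by
        intro t ht0 ht1 m hm he
        exact K1 _ c m (hconv _ _ t ha hXB ht0 ht1) hc gc hm he)
    obtain ⟨w, w1, n', hw0, hw1, hw10, hw11, hn', hP'⟩ := fpl_side hl0 h2
      (by
        intro t ht0 ht1 m hm he
        refine K2 _ b m ?_ hb hGB hm he
        have e : k⁻¹ • ((1 - t) • d + t • l • X) = (1 - t) • (k⁻¹ • d) + t • (k⁻¹ • X') := by
          rw [hXX]; module
        rw [e]; exact hconv _ _ t hd hXB' ht0 ht1)
      (by
        intro t ht0 ht1 m hm he
        exact K1 _ d m (hconv _ _ t hb hXB ht0 ht1) hd gd hm he)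
    set P1 : P := (1 - t) • a + t • X with hP1
    set P2 : P := (1 - w) • b + w • X with hP2
    have eX := fpl_comb1 X a b s t w hX
    rw [← hP1, ← hP2] at eX
    have eX' := fpl_comb1 X' c d σ t1 w1 hXcd
    rw [← hX'l, hP, hP'] at eX'
    have fP1 : 0 < f P1 := fpos _ (hconv _ _ t ha hXB ht0 ht1.le)
    have fP2 : 0 < f P2 := fpos _ (hconv _ _ w hb hXB hw0 hw1.le)
    have zP1 : cr X P1 = (1 - t) * cr X a := by
      rw [hP1, cr_lin, cr_self]; ring
    have hp10 : cr X P1 ≠ 0 := by
      rw [zP1]; exact mul_ne_zero (by linarith) hza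
    have f1 := congrArg f eX
    have f2 := congrArg f eX'
    have z1 := congrArg (cr X) eX
    have z2 := congrArg (cr X) eX'
    simp only [map_add, map_smul, smul_eq_mul] at f1 f2
    simp only [cr_lin, cr_smul, cr_self, mul_zero] at z1 z2
    exact fpl_alg (mul_pos (by linarith) (by linarith)) (mul_pos (by linarith) (by linarith))
      (mul_pos (by linarith) (by linarith)) (mul_pos (by linarith) (by linarith)) hn hn' hl
      fP1 fP2 hp10 f1 f2 z1 z2
  rcases lt_or_gt_of_ne (mul_ne_zero hza hza') with h | h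
  · -- a and a' on opposite sides
    refine core b' a' (1 - s') hB' hA' gb' ga' (by linarith) (by linarith) ?_ ?_ ?_
    · rw [hX']; module
    · exact fpl_same h hopp'
    · exact fpl_same (by rw [mul_comm]; exact hopp) h
  · refine core a' b' s' hA' hB' ga' gb' hsP' hsP1' hX' h ?_
    have h3 : cr X b * cr X a' < 0 := by
      have h5 : 0 < (cr X a * cr X a') := h
      by_contra hcon
      push Not at hcon
      have h6 : 0 ≤ (cr X b * cr X a') * (cr X a * cr X a') := mul_nonneg hcon h5.le
      have h7 : (cr X b * cr X a') * (cr X a * cr X a') = (cr X a * cr X b) * (cr X a' * cr X a') := by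
        ring
      rw [h7] at h6
      have h8 := mul_neg_of_neg_of_pos hopp (mul_self_pos.mpr hza')
      linarith
    exact fpl_same h3 hopp'



end Pool.Agent.Helper484.Crit.FA2
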