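import Pool.Agent.Helper484.Crit.Base
import Pool.Agent.Helper484.Crit.FA1
import Pool.Agent.Helper484.Crit.FA2

set_option autoImplicit false

namespace Pool.Agent.Helper484.Crit.FA3

open Pool.Agent.Helper484.Crit Pool.Agent.Helper484.Crit.FA1 Pool.Agent.Helper484.Crit.FA2

open MeasureTheory Set Filter Topology
open scoped ENNReal Pointwise

theorem conv2 {N : P → ℝ} (hN : Gau N) {z z' : P} {r s : ℝ} (h : N z ≤ r) (h' : N z' ≤ r)
    (h0 : 0 ≤ s) (h1 : s ≤ 1) : N (s • z + (1 - s) • z') ≤ r := by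
  rcases eq_or_ne z z' with e | e
  · subst e
    rw [← add_smul, add_sub_cancel, one_smul]; exact h
  · rcases h0.eq_or_lt with e0 | e0
    · rw [← e0]; simpa using h'
    · rcases h1.eq_or_lt with e1 | e1
      · rw [e1]; simpa using h
      · exact (hN.sc z z' r s e h h' e0 e1).le

theorem conv3 {N : P → ℝ} (hN : Gau N) {z1 z2 z3 : P} {r α β γ : ℝ} (h1 : N z1 ≤ r)
    (h2 : N z2 ≤ r) (h3 : N z3 ≤ r) (hα : 0 ≤ α) (hβ : 0 ≤ β) (hγ : 0 ≤ γ)
    (hs : α + β + γ = 1) : N (α • z1 + β • z2 + γ • z3) ≤ r := by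
  rcases eq_or_ne γ 1 with e | e
  · have e1 : α = 0 := by linarith
    have e2 : β = 0 := by linarith
    rw [e, e1, e2]; simpa using h3
  · have hγ1 : γ < 1 := lt_of_le_of_ne (by linarith) e
    have h0 : 0 < 1 - γ := by linarith
    have h12 := conv2 hN h1 h2 (s := α / (1 - γ)) (by positivity)
      (by rw [div_le_one h0]; linarith)
    have h := conv2 hN h3 h12 hγ hγ1.le
    have e : γ • z3 + (1 - γ) • ((α / (1 - γ)) • z1 + (1 - α / (1 - γ)) • z2) =
        α • z1 + β • z2 + γ • z3 := by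
      rw [smul_add, smul_smul, smul_smul, mul_div_cancel₀ _ h0.ne',
        show (1 - γ) * (1 - α / (1 - γ)) = β by field_simp; linarith]
      abel
    rw [e] at h
    exact h

theorem exit3 (A X : Fin 3 → ℝ) (hA : ∀ i, 0 ≤ A i) (hX : ∃ i, X i < 0) :
    ∃ μ : ℝ, 0 ≤ μ ∧ ((∀ i, 0 < A i) → 0 < μ) ∧ (∀ i, 0 ≤ A i + μ * X i) ∧
      ∃ i, A i + μ * X i = 0 := by
  classical
  obtain ⟨i0, hi0⟩ := hX
  obtain ⟨i, hi, hmin⟩ := (Finset.univ.filter fun i => X i < 0).exists_min_image
    (fun i => A i / (-X i)) ⟨i0, by simp [hi0]⟩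
  have hi' : X i < 0 := (Finset.mem_filter.mp hi).2
  have hXi : 0 < -X i := by linarith
  refine ⟨A i / (-X i), div_nonneg (hA i) hXi.le, fun h => div_pos (h i) hXi, ?_, i, ?_⟩
  · intro j
    by_cases hj : X j < 0
    · have h1 := hmin j (by simp [hj])
      have hXj : 0 < -X j := by linarith
      have h2 : A i / (-X i) * (-X j) ≤ A j := by
        calc A i / (-X i) * (-X j) ≤ A j / (-X j) * (-X j) :=
              mul_le_mul_of_nonneg_right h1 hXj.le
          _ = A j := div_mul_cancel₀ _ hXj.ne'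
      linarith
    · push Not at hj
      have := mul_nonneg (div_nonneg (hA i) hXi.le) hj
      have := hA j
      linarith
  · have : X i ≠ 0 := hi'.ne
    field_simp
    ring

theorem edge {a b c p w : P} {α β γ : ℝ} (hdet : cr (b - a) (c - a) ≠ 0)
    (hα : 0 ≤ α) (hβ : 0 ≤ β) (hγ : 0 ≤ γ) (hs : α + β + γ = 1)
    (hp : p = α • a + β • b + γ • c) (hw : w ≠ 0) :
    ∃ (μ s : ℝ) (e f : P), 0 ≤ μ ∧ (0 < α → 0 < β → 0 < γ → 0 < μ) ∧
      (e = a ∨ e = b ∨ e = c) ∧ (f = a ∨ f = b ∨ f = c) ∧ 0 ≤ s ∧ s ≤ 1 ∧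
      p + μ • w = (1 - s) • e + s • f := by
  set D := cr (b - a) (c - a) with hD
  set y := cr w (c - a) / D with hy
  set z := cr (b - a) w / D with hz
  have hwyz : w = (-y - z) • a + y • b + z • c := by
    have e1 : w = y • (b - a) + z • (c - a) := by
      have hyD : y * D = cr w (c - a) := div_mul_cancel₀ _ hdet
      have hzD : z * D = cr (b - a) w := div_mul_cancel₀ _ hdet
      clear_value y z D
      unfold cr at hyD hzD hD
      simp only [Prod.fst_sub, Prod.snd_sub] at hyD hzD hD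
      ext
      · apply mul_left_cancel₀ hdet
        simp only [Prod.fst_add, Prod.smul_fst, Prod.fst_sub, Prod.snd_sub, smul_eq_mul]
        linear_combination w.1 * hD - (b.1 - a.1) * hyD - (c.1 - a.1) * hzD
      · apply mul_left_cancel₀ hdet
        simp only [Prod.snd_add, Prod.smul_snd, Prod.fst_sub, Prod.snd_sub, smul_eq_mul]
        linear_combination w.2 * hD - (b.2 - a.2) * hyD - (c.2 - a.2) * hzD
    rw [e1]
    module
  have hneg : ∃ i, (![-y - z, y, z] : Fin 3 → ℝ) i < 0 := by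
    by_contra hcon
    push Not at hcon
    have h0 := hcon 0
    have h1 := hcon 1
    have h2 := hcon 2
    simp at h0 h1 h2
    have hy0 : y = 0 := by linarith
    have hz0 : z = 0 := by linarith
    apply hw
    rw [hwyz, hy0, hz0]
    simp
  obtain ⟨μ, hμ0, hμ1, hμ2, i, hi⟩ := exit3 ![α, β, γ] ![-y - z, y, z]
    (by intro i; fin_cases i <;> simp [hα, hβ, hγ]) hneg
  have g0 := hμ2 0
  have g1 := hμ2 1
  have g2 := hμ2 2
  simp only [Matrix.cons_val_zero, Matrix.cons_val_one, Matrix.cons_val] at g0 g1 g2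
  have hX : p + μ • w = (α + μ * (-y - z)) • a + (β + μ * y) • b + (γ + μ * z) • c := by
    rw [hp, hwyz]
    module
  have hpos : 0 < α → 0 < β → 0 < γ → 0 < μ := by
    intro h1 h2 h3
    apply hμ1
    intro i
    fin_cases i <;> simp [h1, h2, h3]
  have hi' : α + μ * (-y - z) = 0 ∨ β + μ * y = 0 ∨ γ + μ * z = 0 := by
    fin_cases i
    · left; simpa using hi
    · right; left; simpa using hi
    · right; right; simpa using hi
  rcases hi' with h | h | h
  · refine ⟨μ, γ + μ * z, b, c, hμ0, hpos, Or.inr (Or.inl rfl), Or.inr (Or.inr rfl), g2, ?_, ?_⟩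
    · linarith
    · rw [hX, h, zero_smul, zero_add]
      congr 2
      linarith
  · refine ⟨μ, γ + μ * z, a, c, hμ0, hpos, Or.inl rfl, Or.inr (Or.inr rfl), g2, ?_, ?_⟩
    · linarith
    · rw [hX, h, zero_smul, add_zero]
      congr 2
      linarith
  · refine ⟨μ, β + μ * y, a, b, hμ0, hpos, Or.inl rfl, Or.inr (Or.inl rfl), g1, ?_, ?_⟩
    · linarith
    · rw [hX, h, zero_smul, add_zero]
      congr 2
      linarith

theorem pt3 {N : P → ℝ} {v a b c e : P} {r : ℝ} (ha : N (v - a) ≤ r) (hb : N (v - b) ≤ r)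
    (hc : N (v - c) ≤ r) (he : e = a ∨ e = b ∨ e = c) : N (v - e) ≤ r := by
  rcases he with h | h | h <;> rw [h] <;> assumption

theorem pt3' {N : P → ℝ} {v a b c e : P} {r : ℝ} (ha : r ≤ N (v - a)) (hb : r ≤ N (v - b))
    (hc : r ≤ N (v - c)) (he : e = a ∨ e = b ∨ e = c) : r ≤ N (v - e) := by
  rcases he with h | h | h <;> rw [h] <;> assumption

theorem sep_hom {N : P → ℝ} (hN : Gau N) {v v' a b c a' b' c' p : P} {r r' α β γ α' β' γ' : ℝ}
    (hrr : r < r')
    (ha : N (v - a) ≤ r) (hb : N (v - b) ≤ r) (hc : N (v - c) ≤ r)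
    (ha' : N (v' - a') ≤ r') (hb' : N (v' - b') ≤ r') (hc' : N (v' - c') ≤ r')
    (ga : r' ≤ N (v' - a)) (gb : r' ≤ N (v' - b)) (gc : r' ≤ N (v' - c))
    (ga' : r ≤ N (v - a')) (gb' : r ≤ N (v - b')) (gc' : r ≤ N (v - c'))
    (hdet : cr (b - a) (c - a) ≠ 0) (hdet' : cr (b' - a') (c' - a') ≠ 0)
    (hα : 0 ≤ α) (hβ : 0 ≤ β) (hγ : 0 ≤ γ) (hs : α + β + γ = 1)
    (hp : p = α • a + β • b + γ • c)
    (hα' : 0 ≤ α') (hβ' : 0 ≤ β') (hγ' : 0 ≤ γ') (hs' : α' + β' + γ' = 1)
    (hp' : p = α' • a' + β' • b' + γ' • c')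
    (hpos : (0 < α ∧ 0 < β ∧ 0 < γ) ∨ (0 < α' ∧ 0 < β' ∧ 0 < γ')) : False := by
  have hr : 0 < r := by
    by_contra hcon
    push Not at hcon
    have h1 : ∀ z : P, N z ≤ r → z = 0 := by
      intro z hz
      by_contra hne
      have := hN.pos z hne
      linarith
    have ea := h1 _ ha
    have eb := h1 _ hb
    apply hdet
    have : b - a = 0 := by
      have : b - a = (v - a) - (v - b) := by abel
      rw [this, ea, eb, sub_zero]
    rw [this]
    simp [cr]
  set k := r' / r with hk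
  have hk1 : 1 < k := by rw [hk, one_lt_div hr]; exact hrr
  have hk0 : 0 < k := by linarith
  have hkr : k * r = r' := by rw [hk]; field_simp
  have hkm : k - 1 ≠ 0 := by linarith
  set o : P := (k - 1)⁻¹ • (k • v - v') with ho
  have hko : (k - 1) • o = k • v - v' := by
    rw [ho, smul_smul, mul_inv_cancel₀ hkm, one_smul]
  have hV' : ∀ x : P, k • (v - o) - (x - o) = v' - x := by
    intro x
    have e1 : k • (v - o) - (x - o) = k • v - (k - 1) • o - x := by module
    rw [e1, hko]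
    abel
  have hV : ∀ x : P, (v - o) - (x - o) = v - x := by intro x; abel
  have hkey : ∀ x : P, N (v - o) ≤ r → N (v - x) ≤ r → r' ≤ N (v' - x) → x = o := by
    intro x h0 h1 h2
    by_contra hne
    have hne' : v - x ≠ v - o := fun h => hne (sub_right_injective h)
    have h3 := hN.sc (v - x) (v - o) r (1 / k) hne' h1 h0 (by positivity)
      (by rw [div_lt_one hk0]; exact hk1)
    have h4 := hN.hom k ((1 / k) • (v - x) + (1 - 1 / k) • (v - o)) hk0.le
    have e1 : k • ((1 / k) • (v - x) + (1 - 1 / k) • (v - o)) = v' - x := by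
      rw [← hV' x, smul_add, smul_smul, smul_smul, mul_one_div_cancel hk0.ne',
        show k * (1 - 1 / k) = k - 1 by field_simp]
      module
    rw [e1] at h4
    have : k * N ((1 / k) • (v - x) + (1 - 1 / k) • (v - o)) < k * r :=
      mul_lt_mul_of_pos_left h3 hk0
    linarith
  have h0 : r < N (v - o) := by
    by_contra hcon
    push Not at hcon
    have e1 := hkey a hcon ha ga
    have e2 := hkey b hcon hb gb
    apply hdet
    rw [e1, e2]
    simp [cr]
  have hpB : N (v - p) ≤ r := by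
    have e1 : v - p = α • (v - a) + β • (v - b) + γ • (v - c) := by
      rw [hp]
      have : α = 1 - β - γ := by linarith
      rw [this]
      module
    rw [e1]
    exact conv3 hN ha hb hc hα hβ hγ hs
  have hpo : p - o ≠ 0 := by
    intro h
    have : p = o := sub_eq_zero.mp h
    rw [this] at hpB
    linarith
  obtain ⟨μ, s, e, f, hμ0, hμ1, he, hf, hs0, hs1, hX⟩ := edge hdet hα hβ hγ hs hp hpo
  obtain ⟨ν, t, e', f', hν0, hν1, he', hf', ht0, ht1, hX'⟩ :=
    edge hdet' hα' hβ' hγ' hs' hp' (neg_ne_zero.mpr hpo)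
  have hX1 : (1 - s) • (e - o) + s • (f - o) = (1 + μ) • (p - o) := by
    have : (1 - s) • (e - o) + s • (f - o) = ((1 - s) • e + s • f) - o := by module
    rw [this, ← hX]
    module
  have hX2 : (1 - t) • (e' - o) + t • (f' - o) = (1 - ν) • (p - o) := by
    have : (1 - t) • (e' - o) + t • (f' - o) = ((1 - t) • e' + t • f') - o := by module
    rw [this, ← hX']
    module
  have hν : 0 < 1 - ν := by
    by_contra hcon
    push Not at hcon
    -- the point X' - o lies in k B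
    have h1 : N (t • (v' - f') + (1 - t) • (v' - e')) ≤ r' :=
      conv2 hN (pt3 ha' hb' hc' hf') (pt3 ha' hb' hc' he') ht0 ht1
    have e1 : t • (v' - f') + (1 - t) • (v' - e') = k • ((v - o) - ((1 - ν) / k) • (p - o)) := by
      have e5 : k • ((v - o) - ((1 - ν) / k) • (p - o)) = k • (v - o) - (1 - ν) • (p - o) := by
        rw [smul_sub, smul_smul, mul_div_cancel₀ _ hk0.ne']
      rw [e5, ← hX2, ← hV' f', ← hV' e']
      module
    rw [e1, hN.hom _ _ hk0.le] at h1
    have h2 : N ((v - o) - ((1 - ν) / k) • (p - o)) ≤ r := by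
      rw [← hkr] at h1
      exact le_of_mul_le_mul_left h1 hk0
    set q := (1 - ν) / k with hq
    have hq0 : q ≤ 0 := div_nonpos_of_nonpos_of_nonneg hcon hk0.le
    have h3 : N ((v - o) - (p - o)) ≤ r := by rw [hV]; exact hpB
    have hq1 : 0 < 1 - q := by linarith
    have h4 := conv2 hN h2 h3 (s := 1 / (1 - q)) (by positivity)
      (by rw [div_le_one hq1]; linarith)
    have e2 : (1 / (1 - q)) • (v - o - q • (p - o)) + (1 - 1 / (1 - q)) • (v - o - (p - o)) =
        v - o := by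
      have e3 : (1 / (1 - q)) • (v - o - q • (p - o)) + (1 - 1 / (1 - q)) • (v - o - (p - o)) =
        v - o - ((1 / (1 - q)) * q + (1 - 1 / (1 - q))) • (p - o) := by module
      have e4 : (1 / (1 - q)) * q + (1 - 1 / (1 - q)) = 0 := by field_simp; ring
      rw [e3, e4, zero_smul, sub_zero]
    rw [e2] at h4
    linarith
  have hμν : 0 < μ ∨ 0 < ν := by
    rcases hpos with h | h
    · left; exact hμ1 h.1 h.2.1 h.2.2
    · right; exact hν1 h.1 h.2.1 h.2.2
  have hμ' : 0 < 1 + μ := by linarith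
  apply fpl_hom hN (V := v - o) (a := e - o) (b := f - o) (a' := e' - o) (b' := f' - o)
    (r := r) (k := k) (s := s) (s' := t) (l := (1 - ν) / (1 + μ)) hk1 hr h0
    (by rw [hV]; exact pt3 ha hb hc he) (by rw [hV]; exact pt3 ha hb hc hf)
    (by rw [hV', hkr]; exact pt3' ga gb gc he) (by rw [hV', hkr]; exact pt3' ga gb gc hf)
    (by rw [hV', hkr]; exact pt3 ha' hb' hc' he') (by rw [hV', hkr]; exact pt3 ha' hb' hc' hf')
    (by rw [hV]; exact pt3' ga' gb' gc' he') (by rw [hV]; exact pt3' ga' gb' gc' hf')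
    hs0 hs1 rfl ht0 ht1 rfl (by positivity) (by
      rw [div_lt_one hμ']
      rcases hμν with h | h <;> linarith)
  rw [hX1, hX2, smul_smul]
  congr 1
  field_simp

/-- Separation of empty circumscribed homothets. -/
theorem sep {N : P → ℝ} (hN : Gau N) {v v' a b c a' b' c' p : P} {r r' α β γ α' β' γ' : ℝ}
    (hne : v ≠ v' ∨ r ≠ r')
    (ha : N (v - a) ≤ r) (hb : N (v - b) ≤ r) (hc : N (v - c) ≤ r)
    (ha' : N (v' - a') ≤ r') (hb' : N (v' - b') ≤ r') (hc' : N (v' - c') ≤ r')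
    (ga : r' ≤ N (v' - a)) (gb : r' ≤ N (v' - b)) (gc : r' ≤ N (v' - c))
    (ga' : r ≤ N (v - a')) (gb' : r ≤ N (v - b')) (gc' : r ≤ N (v - c'))
    (hdet : cr (b - a) (c - a) ≠ 0) (hdet' : cr (b' - a') (c' - a') ≠ 0)
    (hα : 0 < α) (hβ : 0 < β) (hγ : 0 < γ) (hs : α + β + γ = 1)
    (hp : p = α • a + β • b + γ • c)
    (hα' : 0 ≤ α') (hβ' : 0 ≤ β') (hγ' : 0 ≤ γ') (hs' : α' + β' + γ' = 1)
    (hp' : p = α' • a' + β' • b' + γ' • c') : False := by
  rcases lt_trichotomy r r' with h | h | h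
  · exact sep_hom hN h ha hb hc ha' hb' hc' ga gb gc ga' gb' gc' hdet hdet' hα.le hβ.le hγ.le hs hp
      hα' hβ' hγ' hs' hp' (Or.inl ⟨hα, hβ, hγ⟩)
  · subst h
    have hvv : v ≠ v' := by
      rcases hne with h | h
      · exact h
      · exact absurd rfl h
    have hw : v' - v ≠ 0 := fun h => hvv (sub_eq_zero.mp h).symm
    obtain ⟨μ, s, e, f, hμ0, hμ1, he, hf, hs0, hs1, hX⟩ :=
      edge hdet hα.le hβ.le hγ.le hs hp hw
    obtain ⟨ν, t, e', f', hν0, hν1, he', hf', ht0, ht1, hX'⟩ :=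
      edge hdet' hα' hβ' hγ' hs' hp' (neg_ne_zero.mpr hw)
    have hμ := hμ1 hα hβ hγ
    have hvw : v + (v' - v) = v' := by abel
    apply fpl_trans hN (v := v) (w := v' - v) (a := e) (b := f) (a' := e') (b' := f')
      (X := p + μ • (v' - v)) (X' := p + ν • (-(v' - v))) (r := r) (s := s) (s' := t)
      (l := μ + ν) hw (pt3 ha hb hc he) (pt3 ha hb hc hf)
      (by rw [hvw]; exact pt3' ga gb gc he) (by rw [hvw]; exact pt3' ga gb gc hf)
      (by rw [hvw]; exact pt3 ha' hb' hc' he') (by rw [hvw]; exact pt3 ha' hb' hc' hf')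
      (pt3' ga' gb' gc' he') (pt3' ga' gb' gc' hf') hs0 hs1 hX ht0 ht1 hX' (by linarith)
    module
  · exact sep_hom hN h ha' hb' hc' ha hb hc ga' gb' gc' ga gb gc hdet' hdet hα' hβ' hγ' hs' hp'
      hα.le hβ.le hγ.le hs hp (Or.inr ⟨hα, hβ, hγ⟩)



end Pool.Agent.Helper484.Crit.FA3
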