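import Pool.Agent.Helper484.Crit.Base

set_option autoImplicit false

namespace Pool.Agent.Helper484.Crit.FB

open Pool.Agent.Helper484.Crit 

section
open Set Filter Topology

namespace PM

/-- If `cos (θ + α) > 0` along a preconnected set, then `θ` is larger where `sin (θ + α) > 0`
than where `sin (θ + α) < 0`. -/
theorem angle_lt {X : Type*} [TopologicalSpace X] (θ : X → ℝ) (hθ : Continuous θ) (α : ℝ)
    (S : Set X) (hS : IsPreconnected S) (hcos : ∀ s ∈ S, 0 < Real.cos (θ s + α))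
    (p q : X) (hp : p ∈ S) (hq : q ∈ S) (hsp : Real.sin (θ p + α) < 0)
    (hsq : 0 < Real.sin (θ q + α)) : θ p < θ q := by
  by_contra hcon
  push Not at hcon
  have himg : IsPreconnected (θ '' S) := hS.image θ hθ.continuousOn
  have hoc := himg.ordConnected
  have hcos' : ∀ v ∈ Icc (θ q + α) (θ p + α), 0 < Real.cos v := by
    intro v hv
    have hmem : v - α ∈ θ '' S := by
      apply hoc.out ⟨q, hq, rfl⟩ ⟨p, hp, rfl⟩
      exact ⟨by linarith [hv.1], by linarith [hv.2]⟩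
    obtain ⟨s, hs, hsv⟩ := hmem
    have := hcos s hs
    rw [hsv, sub_add_cancel] at this
    exact this
  have hmono : StrictMonoOn Real.sin (Icc (θ q + α) (θ p + α)) := by
    apply strictMonoOn_of_deriv_pos (convex_Icc _ _) Real.continuous_sin.continuousOn
    intro v hv
    rw [interior_Icc] at hv
    rw [Real.deriv_sin]
    exact hcos' v ⟨hv.1.le, hv.2.le⟩
  have hle : θ q + α ≤ θ p + α := by linarith
  have h1 : Real.sin (θ q + α) ≤ Real.sin (θ p + α) :=
    hmono.monotoneOn ⟨le_rfl, hle⟩ ⟨hle, le_rfl⟩ hle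
  linarith

/-- Continuous angle function of a nowhere zero planar field on the plane. -/
theorem exists_angle (φ ψ : ℝ × ℝ → ℝ) (hφ : Continuous φ) (hψ : Continuous ψ)
    (hne : ∀ p, ¬ (φ p = 0 ∧ ψ p = 0)) :
    ∃ θ : ℝ × ℝ → ℝ, Continuous θ ∧ ∀ p, ∃ r : ℝ, 0 < r ∧ ψ p = r * Real.cos (θ p) ∧
      φ p = r * Real.sin (θ p) := by
  let G : ℝ × ℝ → ℂ := fun p => (ψ p : ℂ) + (φ p : ℂ) * Complex.I
  have hG : Continuous G := by fun_prop
  have hG0 : ∀ p, G p ≠ 0 := by
    intro p hp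
    apply hne p
    have hre := congrArg Complex.re hp
    have him := congrArg Complex.im hp
    simp [G] at hre him
    exact ⟨him, hre⟩
  have hnorm : ∀ p, ‖G p / (‖G p‖ : ℂ)‖ = 1 := by
    intro p
    rw [norm_div, Complex.norm_real, norm_norm]
    exact div_self (norm_ne_zero_iff.2 (hG0 p))
  let U : C(ℝ × ℝ, Circle) :=
    ⟨fun p => ⟨G p / (‖G p‖ : ℂ), mem_sphere_zero_iff_norm.2 (hnorm p)⟩, by
      apply Continuous.subtype_mk
      apply Continuous.div hG
      · exact Complex.continuous_ofReal.comp hG.norm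
      · intro p
        exact_mod_cast norm_ne_zero_iff.2 (hG0 p)⟩
  obtain ⟨e0, he0⟩ : ∃ e0 : ℝ, Circle.exp e0 = U (0, 0) :=
    ⟨Complex.arg (U (0, 0)), Circle.exp_arg (U (0, 0))⟩
  obtain ⟨Θ, ⟨_, hΘ⟩, _⟩ :=
    Circle.isCoveringMap_exp.existsUnique_continuousMap_lifts U (0, 0) e0 he0
  refine ⟨Θ, Θ.continuous, ?_⟩
  intro p
  have h1 : Circle.exp (Θ p) = U p := congrFun hΘ p
  have h2 : Complex.exp ((Θ p : ℝ) * Complex.I) = G p / (‖G p‖ : ℂ) := by
    have h4 : ((Circle.exp (Θ p) : Circle) : ℂ) = ((U p : Circle) : ℂ) := congrArg _ h1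
    rw [Circle.coe_exp] at h4
    exact h4
  have hpos : 0 < ‖G p‖ := norm_pos_iff.2 (hG0 p)
  have h3 : G p = (‖G p‖ : ℂ) * Complex.exp ((Θ p : ℝ) * Complex.I) := by
    rw [h2, mul_div_cancel₀]
    exact_mod_cast hpos.ne'
  refine ⟨‖G p‖, hpos, ?_, ?_⟩
  · have := congrArg Complex.re h3
    rw [Complex.re_ofReal_mul, Complex.exp_ofReal_mul_I_re] at this
    rw [← this]; simp [G]
  · have := congrArg Complex.im h3
    rw [Complex.im_ofReal_mul, Complex.exp_ofReal_mul_I_im] at this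
    rw [← this]; simp [G]

/-- The two-dimensional Poincare-Miranda theorem. -/
theorem poincare_miranda (a b c d : ℝ) (hab : a ≤ b) (hcd : c ≤ d) (φ ψ : ℝ × ℝ → ℝ)
    (hφ : ContinuousOn φ (Icc a b ×ˢ Icc c d)) (hψ : ContinuousOn ψ (Icc a b ×ˢ Icc c d))
    (hL : ∀ y ∈ Icc c d, ψ (a, y) < 0) (hR : ∀ y ∈ Icc c d, 0 < ψ (b, y))
    (hB : ∀ x ∈ Icc a b, φ (x, c) < 0) (hT : ∀ x ∈ Icc a b, 0 < φ (x, d)) :
    ∃ x ∈ Icc a b, ∃ y ∈ Icc c d, φ (x, y) = 0 ∧ ψ (x, y) = 0 := by
  by_contra hcon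
  push Not at hcon
  -- clamp to the rectangle
  let π' : ℝ × ℝ → ℝ × ℝ := fun p => (projIcc a b hab p.1, projIcc c d hcd p.2)
  have hπ : Continuous π' := by
    apply Continuous.prodMk
    · exact continuous_subtype_val.comp ((continuous_projIcc (h := hab)).comp continuous_fst)
    · exact continuous_subtype_val.comp ((continuous_projIcc (h := hcd)).comp continuous_snd)
  have hπm : ∀ p, π' p ∈ Icc a b ×ˢ Icc c d := fun p =>
    ⟨(projIcc a b hab p.1).2, (projIcc c d hcd p.2).2⟩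
  have hπid : ∀ p ∈ Icc a b ×ˢ Icc c d, π' p = p := by
    rintro ⟨x, y⟩ ⟨hx, hy⟩
    show ((projIcc a b hab x : ℝ), (projIcc c d hcd y : ℝ)) = (x, y)
    rw [projIcc_of_mem hab hx, projIcc_of_mem hcd hy]
  have hφ' : Continuous (fun p => φ (π' p)) := by
    rw [← continuousOn_univ]
    exact hφ.comp hπ.continuousOn (fun p _ => hπm p)
  have hψ' : Continuous (fun p => ψ (π' p)) := by
    rw [← continuousOn_univ]
    exact hψ.comp hπ.continuousOn (fun p _ => hπm p)
  obtain ⟨θ, hθ, hθr⟩ := exists_angle _ _ hφ' hψ' (by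
    rintro p ⟨h1, h2⟩
    obtain ⟨hx, hy⟩ := hπm p
    exact hcon _ hx _ hy h1 h2)
  have hc : c ∈ Icc c d := ⟨le_rfl, hcd⟩
  have hd : d ∈ Icc c d := ⟨hcd, le_rfl⟩
  have ha : a ∈ Icc a b := ⟨le_rfl, hab⟩
  have hb : b ∈ Icc a b := ⟨hab, le_rfl⟩
  -- signs of cos and sin on the rectangle
  have hcospos : ∀ p ∈ Icc a b ×ˢ Icc c d, 0 < ψ p → 0 < Real.cos (θ p) := by
    intro p hp h
    obtain ⟨r, hr, h1, _⟩ := hθr p
    rw [hπid p hp] at h1
    rw [h1] at h
    exact (mul_pos_iff_of_pos_left hr).1 h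
  have hcosneg : ∀ p ∈ Icc a b ×ˢ Icc c d, ψ p < 0 → Real.cos (θ p) < 0 := by
    intro p hp h
    obtain ⟨r, hr, h1, _⟩ := hθr p
    rw [hπid p hp] at h1
    rw [h1] at h
    by_contra hc'
    push Not at hc'
    have := mul_nonneg hr.le hc'
    linarith
  have hsinpos : ∀ p ∈ Icc a b ×ˢ Icc c d, 0 < φ p → 0 < Real.sin (θ p) := by
    intro p hp h
    obtain ⟨r, hr, _, h1⟩ := hθr p
    rw [hπid p hp] at h1
    rw [h1] at h
    exact (mul_pos_iff_of_pos_left hr).1 h
  have hsinneg : ∀ p ∈ Icc a b ×ˢ Icc c d, φ p < 0 → Real.sin (θ p) < 0 := by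
    intro p hp h
    obtain ⟨r, hr, _, h1⟩ := hθr p
    rw [hπid p hp] at h1
    rw [h1] at h
    by_contra hc'
    push Not at hc'
    have := mul_nonneg hr.le hc'
    linarith
  -- right side
  have e1 : θ (b, c) < θ (b, d) := by
    apply angle_lt θ hθ 0 ((fun y => (b, y)) '' Icc c d)
      (isPreconnected_Icc.image _ (by fun_prop)) _ _ _ ⟨c, hc, rfl⟩ ⟨d, hd, rfl⟩
    · rw [add_zero]; exact hsinneg _ ⟨hb, hc⟩ (hB b hb)
    · rw [add_zero]; exact hsinpos _ ⟨hb, hd⟩ (hT b hb)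
    · rintro _ ⟨y, hy, rfl⟩
      rw [add_zero]; exact hcospos _ ⟨hb, hy⟩ (hR y hy)
  -- top side
  have e2 : θ (b, d) < θ (a, d) := by
    apply angle_lt θ hθ (-(Real.pi / 2)) ((fun x => (x, d)) '' Icc a b)
      (isPreconnected_Icc.image _ (by fun_prop)) _ _ _ ⟨b, hb, rfl⟩ ⟨a, ha, rfl⟩
    · rw [← sub_eq_add_neg, Real.sin_sub_pi_div_two]
      have := hcospos _ ⟨hb, hd⟩ (hR d hd)
      linarith
    · rw [← sub_eq_add_neg, Real.sin_sub_pi_div_two]
      have := hcosneg _ ⟨ha, hd⟩ (hL d hd)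
      linarith
    · rintro _ ⟨x, hx, rfl⟩
      rw [← sub_eq_add_neg, Real.cos_sub_pi_div_two]
      exact hsinpos _ ⟨hx, hd⟩ (hT x hx)
  -- left side
  have e3 : θ (a, d) < θ (a, c) := by
    apply angle_lt θ hθ (-Real.pi) ((fun y => (a, y)) '' Icc c d)
      (isPreconnected_Icc.image _ (by fun_prop)) _ _ _ ⟨d, hd, rfl⟩ ⟨c, hc, rfl⟩
    · rw [← sub_eq_add_neg, Real.sin_sub_pi]
      have := hsinpos _ ⟨ha, hd⟩ (hT a ha)
      linarith
    · rw [← sub_eq_add_neg, Real.sin_sub_pi]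
      have := hsinneg _ ⟨ha, hc⟩ (hB a ha)
      linarith
    · rintro _ ⟨y, hy, rfl⟩
      rw [← sub_eq_add_neg, Real.cos_sub_pi]
      have := hcosneg _ ⟨ha, hy⟩ (hL y hy)
      linarith
  -- bottom side
  have e4 : θ (a, c) < θ (b, c) := by
    apply angle_lt θ hθ (Real.pi / 2) ((fun x => (x, c)) '' Icc a b)
      (isPreconnected_Icc.image _ (by fun_prop)) _ _ _ ⟨a, ha, rfl⟩ ⟨b, hb, rfl⟩
    · rw [Real.sin_add_pi_div_two]
      exact hcosneg _ ⟨ha, hc⟩ (hL c hc)
    · rw [Real.sin_add_pi_div_two]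
      exact hcospos _ ⟨hb, hc⟩ (hR c hc)
    · rintro _ ⟨x, hx, rfl⟩
      rw [Real.cos_add_pi_div_two]
      have := hsinneg _ ⟨hx, hc⟩ (hB x hx)
      linarith
  linarith

end PM

end

open MeasureTheory Set Filter Topology
open scoped ENNReal Pointwise

/-- the approximate statement -/
theorem exists_center_approx {N : P → ℝ} (hN : Gau N) (F : Finset P) (hF : F.Nonempty) (p : P)
    (R : ℝ) (hR0 : 0 ≤ R) (hR : ∀ z, N z ≤ 1 → ‖z‖ ≤ R)
    (hcov : ∀ v : P, ‖v - p‖ ≤ R + 1 → ∃ x ∈ F, N (v - x) ≤ 1) (f : P → ℝ)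
    (hfdef : f = fun v => F.inf' hF (fun x => N (v - x))) (e : ℝ) (he : 0 < e) (heR : e * R < 1) :
    ∃ v, ‖v - p‖ ≤ R + 1 ∧ p ∈ convexHull ℝ {x : P | x ∈ F ∧ N (v - x) ≤ f v + e} := by
  classical
  have hfc : Continuous f := by
    rw [hfdef]
    exact Continuous.finset_inf'_apply hF
      (fun x _ => hN.cont.comp (continuous_id.sub continuous_const))
  have hfle : ∀ v, ∀ x ∈ F, f v ≤ N (v - x) := by
    intro v x hx
    rw [hfdef]
    exact Finset.inf'_le _ hx
  have hfex : ∀ v, ∃ x ∈ F, f v = N (v - x) := by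
    intro v
    rw [hfdef]
    exact Finset.exists_mem_eq_inf' hF _
  have hf1 : ∀ v, ‖v - p‖ ≤ R + 1 → f v ≤ 1 := by
    intro v hv
    obtain ⟨x, hx, hx1⟩ := hcov v hv
    exact (hfle v x hx).trans hx1
  set φ : P → P → ℝ := fun x v => max 0 (f v + e - N (v - x)) with hφ
  have hφc : ∀ x, Continuous (φ x) := by
    intro x
    exact continuous_const.max ((hfc.add continuous_const).sub
      (hN.cont.comp (continuous_id.sub continuous_const)))
  have hφ0 : ∀ x v, 0 ≤ φ x v := fun x v => le_max_left _ _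
  have hact : ∀ x v, 0 < φ x v → N (v - x) < f v + e := by
    intro x v h
    rcases lt_max_iff.1 h with h | h
    · exact absurd h (lt_irrefl _)
    · linarith
  have hmin : ∀ v, ∃ x ∈ F, 0 < φ x v := by
    intro v
    obtain ⟨x, hx, hx1⟩ := hfex v
    refine ⟨x, hx, lt_max_of_lt_right ?_⟩
    rw [hx1]
    linarith
  have hdist : ∀ v, ‖v - p‖ ≤ R + 1 → ∀ x, 0 < φ x v → ‖v - x‖ < R + 1 := by
    intro v hv x h
    have h1 := hact x v h
    have h2 := hf1 v hv
    have h3 : N ((1 / (1 + e)) • (v - x)) ≤ 1 := by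
      rw [hN.hom _ _ (by positivity), div_mul_eq_mul_div, one_mul, div_le_one (by positivity)]
      linarith
    have h4 := hR _ h3
    rw [norm_smul, Real.norm_of_nonneg (by positivity), div_mul_eq_mul_div, one_mul,
      div_le_iff₀ (by positivity)] at h4
    nlinarith
  have hpos : ∀ (w : P → ℝ) (v : P), (∀ x ∈ F, 0 < φ x v → 0 < w x) →
      0 < ∑ x ∈ F, φ x v * w x := by
    intro w v hw
    apply Finset.sum_pos'
    · intro x hx
      rcases (hφ0 x v).lt_or_eq with h | h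
      · exact (mul_pos h (hw x hx h)).le
      · rw [← h, zero_mul]
    · obtain ⟨x, hx, hx1⟩ := hmin v
      exact ⟨x, hx, mul_pos hx1 (hw x hx hx1)⟩
  have hneg : ∀ (w : P → ℝ) (v : P), (∀ x ∈ F, 0 < φ x v → w x < 0) →
      ∑ x ∈ F, φ x v * w x < 0 := by
    intro w v hw
    have h := hpos (fun x => - w x) v (fun x hx h => by linarith [hw x hx h])
    have h2 : ∑ x ∈ F, φ x v * - w x = - ∑ x ∈ F, φ x v * w x := by
      rw [← Finset.sum_neg_distrib]
      apply Finset.sum_congr rfl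
      intro x _
      ring
    rw [h2] at h
    linarith
  have hbox : ∀ v : P, |v.1 - p.1| ≤ R + 1 → |v.2 - p.2| ≤ R + 1 → ‖v - p‖ ≤ R + 1 := by
    intro v h1 h2
    rw [Prod.norm_def]
    exact max_le h1 h2
  have hfst : ∀ v x : P, |v.1 - x.1| ≤ ‖v - x‖ := fun v x => by
    rw [Prod.norm_def]; exact le_max_left _ _
  have hsnd : ∀ v x : P, |v.2 - x.2| ≤ ‖v - x‖ := fun v x => by
    rw [Prod.norm_def]; exact le_max_right _ _
  have habs : ∀ t s : ℝ, t ∈ Icc (s - (R + 1)) (s + (R + 1)) → |t - s| ≤ R + 1 := by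
    intro t s h
    rw [abs_le]
    constructor <;> linarith [h.1, h.2]
  obtain ⟨x, hx, y, hy, h1, h2⟩ := PM.poincare_miranda (p.1 - (R + 1)) (p.1 + (R + 1))
    (p.2 - (R + 1)) (p.2 + (R + 1)) (by linarith) (by linarith)
    (fun v => ∑ x ∈ F, φ x v * (x.2 - p.2)) (fun v => ∑ x ∈ F, φ x v * (x.1 - p.1))
    (continuous_finset_sum _ (fun x _ => (hφc x).mul continuous_const)).continuousOn
    (continuous_finset_sum _ (fun x _ => (hφc x).mul continuous_const)).continuousOn
    (by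
      intro y hy
      apply hneg (fun x => x.1 - p.1)
      intro x _ h
      have h3 := hdist _ (hbox (p.1 - (R + 1), y) (by
        show |p.1 - (R + 1) - p.1| ≤ R + 1
        rw [show p.1 - (R + 1) - p.1 = -(R + 1) by ring, abs_neg, abs_of_nonneg (by linarith)])
        (habs _ _ hy)) x h
      have h4 := (abs_lt.1 (lt_of_le_of_lt (hfst (p.1 - (R + 1), y) x) h3))
      show x.1 - p.1 < 0
      have h5 : -(R + 1) < p.1 - (R + 1) - x.1 := h4.1
      linarith)
    (by
      intro y hy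
      apply hpos (fun x => x.1 - p.1)
      intro x _ h
      have h3 := hdist _ (hbox (p.1 + (R + 1), y) (by
        show |p.1 + (R + 1) - p.1| ≤ R + 1
        rw [show p.1 + (R + 1) - p.1 = (R + 1) by ring, abs_of_nonneg (by linarith)])
        (habs _ _ hy)) x h
      have h4 := (abs_lt.1 (lt_of_le_of_lt (hfst (p.1 + (R + 1), y) x) h3))
      show 0 < x.1 - p.1
      have h5 : p.1 + (R + 1) - x.1 < R + 1 := h4.2
      linarith)
    (by
      intro y hy
      apply hneg (fun x => x.2 - p.2)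
      intro x _ h
      have h3 := hdist _ (hbox (y, p.2 - (R + 1)) (habs _ _ hy) (by
        show |p.2 - (R + 1) - p.2| ≤ R + 1
        rw [show p.2 - (R + 1) - p.2 = -(R + 1) by ring, abs_neg, abs_of_nonneg (by linarith)]))
        x h
      have h4 := (abs_lt.1 (lt_of_le_of_lt (hsnd (y, p.2 - (R + 1)) x) h3))
      show x.2 - p.2 < 0
      have h5 : -(R + 1) < p.2 - (R + 1) - x.2 := h4.1
      linarith)
    (by
      intro y hy
      apply hpos (fun x => x.2 - p.2)
      intro x _ h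
      have h3 := hdist _ (hbox (y, p.2 + (R + 1)) (habs _ _ hy) (by
        show |p.2 + (R + 1) - p.2| ≤ R + 1
        rw [show p.2 + (R + 1) - p.2 = (R + 1) by ring, abs_of_nonneg (by linarith)]))
        x h
      have h4 := (abs_lt.1 (lt_of_le_of_lt (hsnd (y, p.2 + (R + 1)) x) h3))
      show 0 < x.2 - p.2
      have h5 : p.2 + (R + 1) - x.2 < R + 1 := h4.2
      linarith)
  refine ⟨(x, y), hbox _ (habs _ _ hx) (habs _ _ hy), ?_⟩
  set v : P := (x, y) with hv
  have hS : 0 < ∑ x ∈ F, φ x v := by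
    have := hpos (fun _ => 1) v (fun _ _ _ => one_pos)
    simpa using this
  have hcm : F.centerMass (fun x => φ x v) id = p := by
    rw [Finset.centerMass]
    have h3 : ∑ x ∈ F, φ x v • id x = (∑ x ∈ F, φ x v) • p := by
      have h4 : ∑ x ∈ F, φ x v • (x - p) = 0 := by
        apply Prod.ext
        · rw [Prod.fst_sum]
          simpa using h2
        · rw [Prod.snd_sum]
          simpa using h1
      simp only [smul_sub, Finset.sum_sub_distrib] at h4
      rw [← Finset.sum_smul, sub_eq_zero] at h4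
      exact h4
    rw [h3, smul_smul, inv_mul_cancel₀ hS.ne', one_smul]
  rw [← hcm]
  have hfilt : F.centerMass (fun x => φ x v) id =
      (F.filter (fun x => φ x v ≠ 0)).centerMass (fun x => φ x v) id :=
    (Finset.centerMass_filter_ne_zero id).symm
  rw [hfilt]
  apply Finset.centerMass_mem_convexHull
  · intro x _; exact hφ0 x v
  · rw [Finset.sum_filter_ne_zero]; exact hS
  · intro x hx
    rw [Finset.mem_filter] at hx
    exact ⟨hx.1, (hact x v (lt_of_le_of_ne (hφ0 x v) (Ne.symm hx.2))).le⟩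

/-- Existence of a Delaunay centre for every point `p`: some `v` such that `p` is a convex
combination of the sites nearest to `v` (nearest in the gauge `N (v - x)`). -/
theorem exists_center {N : P → ℝ} (hN : Gau N) (F : Finset P) (p : P) (R : ℝ)
    (hR : ∀ z, N z ≤ 1 → ‖z‖ ≤ R)
    (hcov : ∀ v : P, ‖v - p‖ ≤ R + 1 → ∃ x ∈ F, N (v - x) ≤ 1) :
    ∃ v : P, ‖v - p‖ ≤ R + 1 ∧
      p ∈ convexHull ℝ {x : P | x ∈ F ∧ ∀ y ∈ F, N (v - x) ≤ N (v - y)} := by
  classical
  have hN0 : N 0 = 0 := by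
    have := hN.hom 0 0 le_rfl
    simpa using this
  have hR0 : 0 ≤ R := by
    have := hR 0 (by rw [hN0]; norm_num)
    simpa using this
  obtain ⟨x0, hx0, _⟩ := hcov p (by rw [sub_self, norm_zero]; linarith)
  have hF : F.Nonempty := ⟨x0, hx0⟩
  set f : P → ℝ := fun v => F.inf' hF (fun x => N (v - x)) with hf
  have hfc : Continuous f := Continuous.finset_inf'_apply hF
      (fun x _ => hN.cont.comp (continuous_id.sub continuous_const))
  have key := exists_center_approx hN F hF p R hR0 hR hcov f hf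
  set e : ℕ → ℝ := fun n => 1 / (((n : ℝ) + 1) * (R + 1)) with he
  have he0 : ∀ n, 0 < e n := fun n => by simp only [he]; positivity
  have heR : ∀ n, e n * R < 1 := by
    intro n
    simp only [he]
    rw [div_mul_eq_mul_div, one_mul, div_lt_one (by positivity)]
    have : (0:ℝ) ≤ n := Nat.cast_nonneg n
    nlinarith
  have helim : Tendsto e atTop (𝓝 0) := by
    have h1 : Tendsto (fun n : ℕ => (1 / ((n : ℝ) + 1)) * (1 / (R + 1))) atTop
        (𝓝 (0 * (1 / (R + 1)))) := tendsto_one_div_add_atTop_nhds_zero_nat.mul_const _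
    rw [zero_mul] at h1
    refine h1.congr (fun n => ?_)
    simp only [he]
    rw [one_div_mul_one_div]
  choose v hvbox hvp using fun n => key (e n) (he0 n) (heR n)
  have hcomp : IsCompact (Metric.closedBall p (R + 1)) := isCompact_closedBall p (R + 1)
  let 𝒰 : Ultrafilter ℕ := Filter.hyperfilter ℕ
  have h𝒰 : (𝒰 : Filter ℕ) ≤ atTop := by
    rw [← Nat.cofinite_eq_atTop]
    exact Filter.hyperfilter_le_cofinite
  obtain ⟨w, hw, hwlim⟩ := hcomp.ultrafilter_le_nhds (𝒰.map v) (by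
    rw [Filter.le_principal_iff, Ultrafilter.mem_coe, Ultrafilter.mem_map]
    apply Filter.univ_mem'
    intro n
    show v n ∈ Metric.closedBall p (R + 1)
    rw [mem_closedBall_iff_norm]
    exact hvbox n)
  have hvlim : Tendsto v (𝒰 : Filter ℕ) (𝓝 w) := hwlim
  refine ⟨w, by rw [← mem_closedBall_iff_norm]; exact hw, ?_⟩
  -- the limiting active set
  have hsub : ∀ᶠ n in (𝒰 : Filter ℕ), ∀ x ∈ F, N (v n - x) ≤ f (v n) + e n →
      ∀ᶠ m in (𝒰 : Filter ℕ), N (v m - x) ≤ f (v m) + e m := by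
    rw [Filter.eventually_all_finset]
    intro x _
    by_cases h : ∀ᶠ m in (𝒰 : Filter ℕ), N (v m - x) ≤ f (v m) + e m
    · exact Filter.Eventually.of_forall fun n _ => h
    · have h' : ∀ᶠ m in (𝒰 : Filter ℕ), ¬ N (v m - x) ≤ f (v m) + e m :=
        Ultrafilter.eventually_not.2 h
      filter_upwards [h'] with n hn hn'
      exact absurd hn' hn
  obtain ⟨n, hn⟩ := hsub.exists
  refine convexHull_mono ?_ (hvp n)
  rintro x ⟨hxF, hx⟩
  have hxev := hn x hxF hx
  have h1 : Tendsto (fun m => N (v m - x)) (𝒰 : Filter ℕ) (𝓝 (N (w - x))) :=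
    (hN.cont.tendsto (w - x)).comp (hvlim.sub_const x)
  have h2 : Tendsto (fun m => f (v m) + e m) (𝒰 : Filter ℕ) (𝓝 (f w + 0)) :=
    ((hfc.tendsto w).comp hvlim).add (helim.mono_left h𝒰)
  have h3 := le_of_tendsto_of_tendsto h1 h2 hxev
  rw [add_zero] at h3
  refine ⟨hxF, fun y hy => h3.trans ?_⟩
  exact Finset.inf'_le _ hy



end Pool.Agent.Helper484.Crit.FB
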