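import Pool.Agent.Helper484.Crit.Base
import Pool.Agent.Helper484.Crit.FA3

set_option autoImplicit false

namespace Pool.Agent.Helper484.Crit.FC

open Pool.Agent.Helper484.Crit Pool.Agent.Helper484.Crit.FA3

open MeasureTheory Set Filter Topology
open scoped ENNReal Pointwise

/-- Four distinct points `x i` never lie on a common homothet boundary after a small generic
perturbation, and first coordinates are distinct. `two_circles` is given: two different homothet
boundaries cannot share three non-collinear points. -/
theorem two_circles {N : P → ℝ} (hN : Gau N) {v v' a b c : P} {r r' : ℝ}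
    (ha : N (v - a) = r) (hb : N (v - b) = r) (hc : N (v - c) = r)
    (ha' : N (v' - a) = r') (hb' : N (v' - b) = r') (hc' : N (v' - c) = r')
    (hdet : cr (b - a) (c - a) ≠ 0) : v = v' ∧ r = r' := by
  by_contra hcon
  have hne : v ≠ v' ∨ r ≠ r' := by
    by_contra h2
    push Not at h2
    exact hcon h2
  exact sep hN (p := (1 / 3 : ℝ) • a + (1 / 3 : ℝ) • b + (1 / 3 : ℝ) • c) hne ha.le hb.le hc.le
    ha'.le hb'.le hc'.le ha'.ge hb'.ge hc'.ge ha.ge hb.ge hc.ge hdet hdet
    (by norm_num) (by norm_num) (by norm_num) (by norm_num) rfl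
    (by norm_num : (0 : ℝ) ≤ 1 / 3) (by norm_num : (0 : ℝ) ≤ 1 / 3)
    (by norm_num : (0 : ℝ) ≤ 1 / 3) (by norm_num) rfl

theorem generic_open {N : P → ℝ} (hN : Gau N) (v : P) (r : ℝ) : IsOpen {z : P | N (v - z) ≠ r} := by
  have : Continuous fun z : P => N (v - z) := hN.cont.comp (by fun_prop)
  exact isOpen_ne_fun this continuous_const

theorem generic_dense {N : P → ℝ} (hN : Gau N) (v : P) (r : ℝ) : Dense {z : P | N (v - z) ≠ r} := by
  intro z0
  by_cases h0 : N (v - z0) = r
  · by_cases hv : v - z0 = 0
    · have hz : z0 = v := (sub_eq_zero.1 hv).symm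
      have hN0 : N (0 : P) = 0 := by
        have := hN.hom 0 0 le_rfl
        simpa using this
      have hr : r = 0 := by rw [← h0, hv, hN0]
      have hlim : Tendsto (fun k : ℕ => v + ((1 / ((k : ℝ) + 1), 0) : P)) atTop (𝓝 z0) := by
        have h1 : Tendsto (fun k : ℕ => ((1 / ((k : ℝ) + 1), 0) : P)) atTop (𝓝 (0, 0)) :=
          (tendsto_one_div_add_atTop_nhds_zero_nat).prodMk_nhds tendsto_const_nhds
        have h2 := h1.const_add v
        have h3 : v + ((0, 0) : P) = z0 := by rw [hz]; ext <;> simp
        rw [h3] at h2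
        exact h2
      refine mem_closure_of_tendsto hlim (Eventually.of_forall fun k => ?_)
      simp only [mem_setOf_eq, hr]
      apply ne_of_gt
      apply hN.pos
      intro h
      have h1 := congrArg Prod.fst h
      simp only [Prod.fst_sub, Prod.fst_add, Prod.fst_zero] at h1
      have : (0:ℝ) < 1 / ((k:ℝ) + 1) := by positivity
      linarith
    · have hpos := hN.pos _ hv
      rw [h0] at hpos
      have hlim : Tendsto (fun k : ℕ => v - (1 + 1 / ((k : ℝ) + 1)) • (v - z0)) atTop (𝓝 z0) := by
        have h1 : Tendsto (fun k : ℕ => (1 + 1 / ((k : ℝ) + 1))) atTop (𝓝 (1 + 0)) :=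
          (tendsto_one_div_add_atTop_nhds_zero_nat).const_add 1
        have h2 := (h1.smul_const (v - z0)).const_sub v
        have h3 : v - (1 + (0:ℝ)) • (v - z0) = z0 := by simp
        rw [h3] at h2
        exact h2
      refine mem_closure_of_tendsto hlim (Eventually.of_forall fun k => ?_)
      simp only [mem_setOf_eq, sub_sub_cancel]
      rw [hN.hom _ _ (by positivity), h0]
      have : (0:ℝ) < 1 / ((k:ℝ) + 1) := by positivity
      intro h
      nlinarith
  · exact subset_closure h0

theorem generic_mid {N : P → ℝ} (hN : Gau N) {v a b p : P} {r s : ℝ} (hab : a ≠ b)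
    (ha : N (v - a) = r) (hb : N (v - b) = r) (hs0 : 0 < s) (hs1 : s < 1)
    (hp : p = s • a + (1 - s) • b) : N (v - p) < r := by
  have h := hN.sc (v - a) (v - b) r s (fun h => hab (sub_right_inj.1 h)) ha.le hb.le hs0 hs1
  have e : s • (v - a) + (1 - s) • (v - b) = v - p := by
    rw [hp]; ext <;> simp <;> ring
  rwa [e] at h

theorem generic_cr {N : P → ℝ} (hN : Gau N) {v a b c : P} {r : ℝ}
    (hab : a.1 ≠ b.1) (hac : a.1 ≠ c.1) (hbc : b.1 ≠ c.1)
    (ha : N (v - a) = r) (hb : N (v - b) = r) (hc : N (v - c) = r) :
    cr (b - a) (c - a) ≠ 0 := by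
  intro h0
  unfold cr at h0
  simp only [Prod.fst_sub, Prod.snd_sub] at h0
  have hba : b.1 - a.1 ≠ 0 := sub_ne_zero.2 (Ne.symm hab)
  have hca : c.1 - a.1 ≠ 0 := sub_ne_zero.2 (Ne.symm hac)
  have hcb : c.1 - b.1 ≠ 0 := sub_ne_zero.2 (Ne.symm hbc)
  have nab : a ≠ b := fun h => hab (by rw [h])
  have nac : a ≠ c := fun h => hac (by rw [h])
  have nbc : b ≠ c := fun h => hbc (by rw [h])
  have two : ∀ p q m : P, p.1 ≠ q.1 → p ≠ q → N (v - p) = r → N (v - q) = r → N (v - m) = r →
      (m.1 - p.1) * (q.2 - p.2) = (m.2 - p.2) * (q.1 - p.1) →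
      p.1 < m.1 → m.1 < q.1 → False := by
    intro p q m hpq hpq' hp hq hm hdet h1 h2
    have hpos : 0 < q.1 - p.1 := by linarith
    have := generic_mid hN (s := (q.1 - m.1) / (q.1 - p.1)) hpq' hp hq
      (div_pos (by linarith) hpos) (by rw [div_lt_one hpos]; linarith) (p := m) (by
        ext
        · simp only [Prod.fst_add, Prod.smul_fst, smul_eq_mul]
          field_simp
          ring
        · simp only [Prod.snd_add, Prod.smul_snd, smul_eq_mul]
          field_simp
          linear_combination (-1) * hdet)
    linarith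
  rcases lt_trichotomy a.1 b.1 with h1 | h1 | h1
  · rcases lt_trichotomy b.1 c.1 with h2 | h2 | h2
    · exact two a c b hac nac ha hc hb (by linear_combination h0) h1 h2
    · exact hbc h2
    · rcases lt_trichotomy a.1 c.1 with h3 | h3 | h3
      · exact two a b c hab nab ha hb hc (by linear_combination (-1) * h0) h3 h2
      · exact hac h3
      · exact two c b a (Ne.symm hbc) (Ne.symm nbc) hc hb ha (by linear_combination h0) h3 h1
  · exact hab h1
  · rcases lt_trichotomy a.1 c.1 with h2 | h2 | h2
    · exact two b c a hbc nbc hb hc ha (by linear_combination (-1) * h0) h1 h2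
    · exact hac h2
    · rcases lt_trichotomy b.1 c.1 with h3 | h3 | h3
      · exact two b a c (Ne.symm hab) (Ne.symm nab) hb ha hc (by linear_combination h0) h3 h2
      · exact hbc h3
      · exact two c a b (Ne.symm hac) (Ne.symm nac) hc ha hb (by linear_combination (-1) * h0) h3 h1

theorem generic_step {N : P → ℝ} (hN : Gau N) {ι : Type} [Fintype ι] [DecidableEq ι] (y : ι → P)
    (ε : ℝ) (hε : 0 < ε) (s : Finset ι) :
    ∃ x : ι → P, (∀ i ∈ s, ‖x i - y i‖ < ε) ∧ (∀ i ∈ s, ∀ j ∈ s, (x i).1 = (x j).1 → i = j) ∧
      ∀ (v : P) (r : ℝ), (s.filter (fun i => N (v - x i) = r)).card ≤ 3 := by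
  classical
  induction s using Finset.induction_on with
  | empty => exact ⟨y, by simp, by simp, by simp⟩
  | insert j s hj ih =>
    obtain ⟨x, hx1, hx2, hx3⟩ := ih
    let U : ι ⊕ (ι × ι × ι) → Set P := fun t => match t with
      | Sum.inl i => {z | z.1 ≠ (x i).1}
      | Sum.inr p => {z | ∀ v r, cr (x p.2.1 - x p.1) (x p.2.2 - x p.1) ≠ 0 → N (v - x p.1) = r →
          N (v - x p.2.1) = r → N (v - x p.2.2) = r → N (v - z) ≠ r}
    have hU : ∀ t, IsOpen (U t) ∧ Dense (U t) := by
      rintro (i | p)
      · constructor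
        · exact isOpen_ne_fun continuous_fst continuous_const
        · intro z0
          by_cases hz : z0.1 = (x i).1
          · have hlim : Tendsto (fun k : ℕ => z0 + ((1 / ((k : ℝ) + 1), 0) : P)) atTop (𝓝 z0) := by
              have h1 : Tendsto (fun k : ℕ => ((1 / ((k : ℝ) + 1), 0) : P)) atTop (𝓝 (0, 0)) :=
                (tendsto_one_div_add_atTop_nhds_zero_nat).prodMk_nhds tendsto_const_nhds
              have h2 := h1.const_add z0
              have h3 : z0 + ((0, 0) : P) = z0 := by ext <;> simp
              rw [h3] at h2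
              exact h2
            refine mem_closure_of_tendsto hlim (Eventually.of_forall fun k => ?_)
            show (z0 + ((1 / ((k : ℝ) + 1), 0) : P)).1 ≠ (x i).1
            rw [Prod.fst_add, hz]
            have : (0:ℝ) < 1 / ((k:ℝ) + 1) := by positivity
            intro h
            simp only at h
            linarith
          · exact subset_closure hz
      · by_cases hex : ∃ v r, cr (x p.2.1 - x p.1) (x p.2.2 - x p.1) ≠ 0 ∧ N (v - x p.1) = r ∧
          N (v - x p.2.1) = r ∧ N (v - x p.2.2) = r
        · obtain ⟨v, r, h0, h1, h2, h3⟩ := hex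
          have hE : U (Sum.inr p) = {z | N (v - z) ≠ r} := by
            ext z
            constructor
            · intro h
              exact h v r h0 h1 h2 h3
            · intro h v' r' h0' h1' h2' h3'
              obtain ⟨e1, e2⟩ := two_circles hN h1 h2 h3 h1' h2' h3' h0
              rw [← e1, ← e2]
              exact h
          rw [hE]
          exact ⟨generic_open hN v r, generic_dense hN v r⟩
        · have hE : U (Sum.inr p) = univ := by
            ext z
            simp only [mem_univ, iff_true]
            intro v r h0 h1 h2 h3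
            exact absurd ⟨v, r, h0, h1, h2, h3⟩ hex
          rw [hE]
          exact ⟨isOpen_univ, dense_univ⟩
    have hD : Dense (⋂ t, U t) := dense_iInter_of_isOpen (fun t => (hU t).1) (fun t => (hU t).2)
    obtain ⟨z, hz1, hz2⟩ := hD.inter_open_nonempty (Metric.ball (y j) ε) Metric.isOpen_ball
      ⟨y j, Metric.mem_ball_self hε⟩
    rw [mem_iInter] at hz2
    have hne : ∀ i ∈ s, i ≠ j := fun i hi h => hj (h ▸ hi)
    refine ⟨Function.update x j z, ?_, ?_, ?_⟩
    · intro i hi
      rcases Finset.mem_insert.1 hi with rfl | hi'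
      · rw [Function.update_self]
        rw [← dist_eq_norm]; exact hz1
      · rw [Function.update_of_ne (hne i hi')]
        exact hx1 i hi'
    · intro i hi k hk h
      rcases Finset.mem_insert.1 hi with rfl | hi'
      · rcases Finset.mem_insert.1 hk with rfl | hk'
        · rfl
        · rw [Function.update_self, Function.update_of_ne (hne k hk')] at h
          exact absurd h (hz2 (Sum.inl k))
      · rcases Finset.mem_insert.1 hk with rfl | hk'
        · rw [Function.update_self, Function.update_of_ne (hne i hi')] at h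
          exact absurd h.symm (hz2 (Sum.inl i))
        · rw [Function.update_of_ne (hne i hi'), Function.update_of_ne (hne k hk')] at h
          exact hx2 i hi' k hk' h
    · intro v r
      have hfil : s.filter (fun i => N (v - Function.update x j z i) = r) =
          s.filter (fun i => N (v - x i) = r) := by
        apply Finset.filter_congr
        intro i hi
        rw [Function.update_of_ne (hne i hi)]
      rw [Finset.filter_insert, hfil, Function.update_self]
      split_ifs with hr
      · by_contra hcard
        push Not at hcard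
        have hc : 2 < (s.filter (fun i => N (v - x i) = r)).card := by
          have := Finset.card_insert_le j (s.filter (fun i => N (v - x i) = r))
          omega
        obtain ⟨a, ha, b, hb, c, hc, hab, hac, hbc⟩ := Finset.two_lt_card.1 hc
        rw [Finset.mem_filter] at ha hb hc
        have h1 : (x a).1 ≠ (x b).1 := fun h => hab (hx2 a ha.1 b hb.1 h)
        have h2 : (x a).1 ≠ (x c).1 := fun h => hac (hx2 a ha.1 c hc.1 h)
        have h3 : (x b).1 ≠ (x c).1 := fun h => hbc (hx2 b hb.1 c hc.1 h)
        have hcr := generic_cr hN h1 h2 h3 ha.2 hb.2 hc.2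
        exact hz2 (Sum.inr (a, b, c)) v r hcr ha.2 hb.2 hc.2 hr
      · exact hx3 v r

theorem generic {N : P → ℝ} (hN : Gau N) {ι : Type} [Fintype ι] (y : ι → P) (ε : ℝ) (hε : 0 < ε) :
    ∃ x : ι → P, (∀ i, ‖x i - y i‖ ≤ ε) ∧ (∀ i j, (x i).1 = (x j).1 → i = j) ∧
      ∀ (v : P) (r : ℝ), (Finset.univ.filter (fun i => N (v - x i) = r)).card ≤ 3 := by
  classical
  obtain ⟨x, h1, h2, h3⟩ := generic_step hN y ε hε Finset.univ
  refine ⟨x, fun i => (h1 i (Finset.mem_univ _)).le,
    fun i j h => h2 i (Finset.mem_univ _) j (Finset.mem_univ _) h, fun v r => ?_⟩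
  convert h3 v r



end Pool.Agent.Helper484.Crit.FC
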