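import Pool.Agent.Helper484.Crit.Base

set_option autoImplicit false

namespace Pool.Agent.Helper484.Crit.FD

open Pool.Agent.Helper484.Crit 

open MeasureTheory Set Filter Topology
open scoped ENNReal Pointwise

/-- Every convex body with the origin inside is approximated from outside by the unit ball of a
strictly convex gauge. -/
theorem exists_gau (K : Set P) (hK : IsCompact K) (hc : Convex ℝ K) (h0 : (0 : P) ∈ interior K)
    (δ : ℝ) (hδ : 0 < δ) :
    ∃ N : P → ℝ, Gau N ∧ (∀ z ∈ K, N z < 1) ∧ ∀ z, N z ≤ 1 → ∃ k ∈ K, z = (1 + δ) • k := by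
  have hnh : K ∈ 𝓝 (0 : P) := mem_interior_iff_mem_nhds.1 h0
  have habs : Absorbent ℝ K := absorbent_nhds_zero hnh
  have hgc : Continuous (gauge K) := continuous_gauge hc hnh
  have hqc : Continuous (fun z : P => z.1 ^ 2 + z.2 ^ 2) := by fun_prop
  obtain ⟨D, hD⟩ : ∃ D : ℝ, ∀ z ∈ K, z.1 ^ 2 + z.2 ^ 2 ≤ D := by
    obtain ⟨D, hD⟩ := (hK.image hqc).bddAbove
    exact ⟨D, fun z hz => hD (mem_image_of_mem _ hz)⟩
  have hD0 : 0 ≤ D := by
    have := hD 0 (interior_subset h0)
    simpa using this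
  set c : ℝ := 1 + δ / 2 with hcdef
  have hc0 : 0 < c := by positivity
  have hc1 : 1 < c ^ 2 := by nlinarith
  obtain ⟨η, hη, hηD⟩ : ∃ η : ℝ, 0 < η ∧ 1 + η * D < c ^ 2 := by
    refine ⟨(c ^ 2 - 1) / (2 * (D + 1)), by
      have : 0 < c ^ 2 - 1 := by linarith
      positivity, ?_⟩
    have h1 : (c ^ 2 - 1) / (2 * (D + 1)) * D < c ^ 2 - 1 := by
      rw [div_mul_eq_mul_div, div_lt_iff₀ (by positivity)]
      have : 0 < c ^ 2 - 1 := by linarith
      nlinarith
    linarith
  set F : P → ℝ := fun z => gauge K z ^ 2 + η * (z.1 ^ 2 + z.2 ^ 2) with hF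
  have hF0 : ∀ z, 0 ≤ F z := fun z => by
    simp only [hF]; positivity
  have hsc : ∀ (z z' : P) (s : ℝ), z ≠ z' → 0 < s → s < 1 →
      F (s • z + (1 - s) • z') < s * F z + (1 - s) * F z' := by
    intro z z' s hne hs0 hs1
    have hs1' : 0 < 1 - s := by linarith
    have g1 : gauge K (s • z + (1 - s) • z') ≤ s * gauge K z + (1 - s) * gauge K z' := by
      have h1 := gauge_add_le hc habs (s • z) ((1 - s) • z')
      rw [gauge_smul_of_nonneg hs0.le, gauge_smul_of_nonneg hs1'.le] at h1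
      simpa [smul_eq_mul] using h1
    have g0 : 0 ≤ gauge K (s • z + (1 - s) • z') := gauge_nonneg _
    have ga : 0 ≤ gauge K z := gauge_nonneg _
    have gb : 0 ≤ gauge K z' := gauge_nonneg _
    have g2 : gauge K (s • z + (1 - s) • z') ^ 2 ≤ s * gauge K z ^ 2 + (1 - s) * gauge K z' ^ 2 := by
      have h1 : gauge K (s • z + (1 - s) • z') ^ 2 ≤ (s * gauge K z + (1 - s) * gauge K z') ^ 2 :=
        pow_le_pow_left₀ g0 g1 2
      have h2 : (s * gauge K z + (1 - s) * gauge K z') ^ 2 ≤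
          s * gauge K z ^ 2 + (1 - s) * gauge K z' ^ 2 := by
        have : s * gauge K z ^ 2 + (1 - s) * gauge K z' ^ 2 -
          (s * gauge K z + (1 - s) * gauge K z') ^ 2 = s * (1 - s) * (gauge K z - gauge K z') ^ 2 := by
          ring
        have h3 : 0 ≤ s * (1 - s) * (gauge K z - gauge K z') ^ 2 := by positivity
        linarith
      exact h1.trans h2
    have hq : (s • z + (1 - s) • z').1 ^ 2 + (s • z + (1 - s) • z').2 ^ 2 =
        s * (z.1 ^ 2 + z.2 ^ 2) + (1 - s) * (z'.1 ^ 2 + z'.2 ^ 2) -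
          s * (1 - s) * ((z.1 - z'.1) ^ 2 + (z.2 - z'.2) ^ 2) := by
      simp only [Prod.fst_add, Prod.snd_add, Prod.smul_fst, Prod.smul_snd, smul_eq_mul]
      ring
    have hqpos : 0 < (z.1 - z'.1) ^ 2 + (z.2 - z'.2) ^ 2 := by
      rcases eq_or_ne z.1 z'.1 with h | h
      · have h2 : z.2 ≠ z'.2 := fun h2 => hne (Prod.ext h h2)
        have : 0 < (z.2 - z'.2) ^ 2 := by
          have := sub_ne_zero.2 h2
          positivity
        positivity
      · have : 0 < (z.1 - z'.1) ^ 2 := by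
          have := sub_ne_zero.2 h
          positivity
        positivity
    simp only [hF]
    rw [hq]
    have h5 : 0 < η * (s * (1 - s) * ((z.1 - z'.1) ^ 2 + (z.2 - z'.2) ^ 2)) := by positivity
    nlinarith [g2, h5]
  have hFle : ∀ z r, Real.sqrt (F z) / c ≤ r → F z ≤ (c * r) ^ 2 ∧ 0 ≤ r := by
    intro z r h
    have hr : 0 ≤ r := le_trans (div_nonneg (Real.sqrt_nonneg _) hc0.le) h
    have h1 : Real.sqrt (F z) ≤ c * r := by
      rw [div_le_iff₀ hc0] at h
      linarith
    refine ⟨?_, hr⟩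
    have := (Real.sqrt_le_left (by positivity)).1 h1
    exact this
  refine ⟨fun z => Real.sqrt (F z) / c, ⟨?_, ?_, ?_, ?_⟩, ?_, ?_⟩
  · have : Continuous F := (hgc.pow 2).add (hqc.const_mul η)
    exact (Real.continuous_sqrt.comp this).div_const c
  · intro z hz
    have hqpos : 0 < z.1 ^ 2 + z.2 ^ 2 := by
      rcases eq_or_ne z.1 0 with h | h
      · have h2 : z.2 ≠ 0 := fun h2 => hz (Prod.ext h h2)
        positivity
      · positivity
    have : 0 < F z := by
      simp only [hF]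
      have h1 : 0 ≤ gauge K z ^ 2 := sq_nonneg _
      have h2 := mul_pos hη hqpos
      linarith
    exact div_pos (Real.sqrt_pos.2 this) hc0
  · intro t z ht
    have : F (t • z) = t ^ 2 * F z := by
      simp only [hF]
      rw [gauge_smul_of_nonneg ht]
      simp only [smul_eq_mul, Prod.smul_fst, Prod.smul_snd]
      ring
    rw [this, Real.sqrt_mul (sq_nonneg t), Real.sqrt_sq ht]
    ring
  · intro z z' r s hne hz hz' hs0 hs1
    obtain ⟨h1, hr⟩ := hFle z r hz
    obtain ⟨h2, _⟩ := hFle z' r hz'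
    have h3 := hsc z z' s hne hs0 hs1
    have h4 : F (s • z + (1 - s) • z') < (c * r) ^ 2 := by
      have e1 : s * F z ≤ s * (c * r) ^ 2 := mul_le_mul_of_nonneg_left h1 hs0.le
      have e2 : (1 - s) * F z' ≤ (1 - s) * (c * r) ^ 2 :=
        mul_le_mul_of_nonneg_left h2 (by linarith)
      nlinarith
    rw [div_lt_iff₀ hc0]
    have h5 := Real.sqrt_lt_sqrt (hF0 _) h4
    rw [Real.sqrt_sq (by positivity)] at h5
    linarith
  · intro z hz
    have h1 : gauge K z ≤ 1 := gauge_le_one_of_mem hz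
    have h2 := hD z hz
    have h3 : F z < c ^ 2 := by
      simp only [hF]
      have h4 : gauge K z ^ 2 ≤ 1 := pow_le_one₀ (gauge_nonneg _) h1
      have h5 : η * (z.1 ^ 2 + z.2 ^ 2) ≤ η * D := mul_le_mul_of_nonneg_left h2 hη.le
      linarith
    rw [div_lt_one hc0]
    have h5 := Real.sqrt_lt_sqrt (hF0 _) h3
    rwa [Real.sqrt_sq hc0.le] at h5
  · intro z hz
    obtain ⟨h1, _⟩ := hFle z 1 hz
    rw [mul_one] at h1
    have h2 : gauge K z ^ 2 ≤ c ^ 2 := by
      have : 0 ≤ η * (z.1 ^ 2 + z.2 ^ 2) := by positivity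
      simp only [hF] at h1
      linarith
    have h3 : gauge K z ≤ c := le_of_sq_le_sq h2 hc0.le
    have hδ1 : 0 < 1 + δ := by positivity
    refine ⟨(1 + δ)⁻¹ • z, ?_, ?_⟩
    · apply gauge_lt_one_subset_self hc (interior_subset h0) habs
      show gauge K ((1 + δ)⁻¹ • z) < 1
      rw [gauge_smul_of_nonneg (inv_pos.2 hδ1).le, smul_eq_mul, inv_mul_lt_iff₀ hδ1]
      simp only [hcdef] at h3
      linarith
    · rw [smul_smul, mul_inv_cancel₀ hδ1.ne', one_smul]



end Pool.Agent.Helper484.Crit.FD
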