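import Pool.Agent.Helper484.Crit.Base

set_option autoImplicit false

namespace Pool.Agent.Helper484.Crit.FE

open Pool.Agent.Helper484.Crit 

open MeasureTheory Set Filter Topology
open scoped ENNReal Pointwise

theorem slab_hconv {D : Set P} (hDc : Convex ℝ D) (y : ℝ) : Convex ℝ {x : ℝ | ((x, y) : P) ∈ D} := by
  intro x hx x' hx' a b ha hb hab
  have h := hDc hx hx' ha hb hab
  have e : a • ((x, y) : P) + b • ((x', y) : P) = (a • x + b • x', y) := by
    ext
    · simp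
    · simp only [Prod.smul_mk, Prod.mk_add_mk, smul_eq_mul]
      rw [← add_mul, hab, one_mul]
  rw [e] at h
  exact h

theorem slab_vconv {D : Set P} (hDc : Convex ℝ D) (x : ℝ) : Convex ℝ {y : ℝ | ((x, y) : P) ∈ D} := by
  intro y hy y' hy' a b ha hb hab
  have h := hDc hy hy' ha hb hab
  have e : a • ((x, y) : P) + b • ((x, y') : P) = (x, a • y + b • y') := by
    ext
    · simp only [Prod.smul_mk, Prod.mk_add_mk, smul_eq_mul]
      rw [← add_mul, hab, one_mul]
    · simp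
  rw [e] at h
  exact h

theorem slab_hor {D : Set P} (hDc : Convex ℝ D) {a b x y : ℝ} (ha : ((a, y) : P) ∈ D)
    (hb : ((b, y) : P) ∈ D) (h1 : a ≤ x) (h2 : x ≤ b) : ((x, y) : P) ∈ D :=
  (slab_hconv hDc y).ordConnected.out ha hb ⟨h1, h2⟩

theorem slab_vert {D : Set P} (hDc : Convex ℝ D) {a b x y : ℝ} (ha : ((x, a) : P) ∈ D)
    (hb : ((x, b) : P) ∈ D) (h1 : a ≤ y) (h2 : y ≤ b) : ((x, y) : P) ∈ D :=
  (slab_vconv hDc x).ordConnected.out ha hb ⟨h1, h2⟩

theorem slab_push {D : Set P} (hDc : Convex ℝ D) {L x₁ y₁ x₂ y₂ : ℝ}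
    (h0 : ((0, 0) : P) ∈ D) (hLD : ((L, 0) : P) ∈ D) (h1 : ((x₁, y₁) : P) ∈ D)
    (h2 : ((x₂, y₂) : P) ∈ D) (hx1 : 0 ≤ x₁) (hx2 : x₂ ≤ L) (hy : 0 < y₁ * y₂) :
    ∃ y₀ x₁' x₂' : ℝ, (y₀ = y₁ ∨ y₀ = y₂) ∧ x₁' ≤ x₁ ∧ x₂ ≤ x₂' ∧ ((x₁', y₀) : P) ∈ D ∧
      ((x₂', y₀) : P) ∈ D := by
  have hy1 : y₁ ≠ 0 := by rintro rfl; simp at hy
  have hy2 : y₂ ≠ 0 := by rintro rfl; simp at hy
  by_cases hs : y₁ / y₂ ≤ 1
  · have hs0 : 0 < y₁ / y₂ := by
      have : y₁ / y₂ = (y₁ * y₂) / (y₂ ^ 2) := by field_simp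
      rw [this]; positivity
    set s := y₁ / y₂ with hsd
    have hsy : s * y₂ = y₁ := by rw [hsd]; field_simp
    refine ⟨y₁, x₁, s * x₂ + (1 - s) * L, Or.inl rfl, le_rfl, ?_, h1, ?_⟩
    · nlinarith
    · have h := hDc h2 hLD hs0.le (show 0 ≤ 1 - s by linarith) (by ring)
      have e : s • ((x₂, y₂) : P) + (1 - s) • ((L, 0) : P) = (s * x₂ + (1 - s) * L, y₁) := by
        ext
        · simp
        · simp [hsy]
      rwa [e] at h
  · rw [not_le] at hs
    have hs0 : 0 < y₂ / y₁ := by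
      have : y₂ / y₁ = (y₁ * y₂) / (y₁ ^ 2) := by field_simp
      rw [this]; positivity
    have hs1 : y₂ / y₁ ≤ 1 := by
      have : y₂ / y₁ = (y₁ / y₂)⁻¹ := by rw [inv_div]
      rw [this]
      exact inv_le_one_of_one_le₀ hs.le
    set s := y₂ / y₁ with hsd
    have hsy : s * y₁ = y₂ := by rw [hsd]; field_simp
    refine ⟨y₂, s * x₁ + (1 - s) * 0, x₂, Or.inr rfl, ?_, le_rfl, ?_, h2⟩
    · nlinarith
    · have h := hDc h1 h0 hs0.le (show 0 ≤ 1 - s by linarith) (by ring)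
      have e : s • ((x₁, y₁) : P) + (1 - s) • ((0, 0) : P) = (s * x₁ + (1 - s) * 0, y₂) := by
        ext
        · simp
        · simp [hsy]
      rwa [e] at h

theorem slab_sec1 {S : Set ℝ} (hS : IsCompact S) (hc : S.OrdConnected) {t : ℝ} (ht : 0 ≤ t) :
    volume {x | x ∈ S ∧ x + t ∉ S} ≤ ENNReal.ofReal t := by
  rcases S.eq_empty_or_nonempty with rfl | hne
  · simp
  · have hb := hS.sSup_mem hne
    have hsub : {x | x ∈ S ∧ x + t ∉ S} ⊆ Ioc (sSup S - t) (sSup S) := by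
      rintro x ⟨hx, hxt⟩
      have hxb : x ≤ sSup S := le_csSup hS.bddAbove hx
      refine ⟨?_, hxb⟩
      by_contra hcon
      rw [not_lt] at hcon
      exact hxt (hc.out hx hb ⟨by linarith, by linarith⟩)
    refine (measure_mono hsub).trans ?_
    rw [Real.volume_Ioc]
    apply ENNReal.ofReal_le_ofReal
    linarith

theorem slab_sec2 {S : Set ℝ} (hS : IsCompact S) (hc : S.OrdConnected) {t : ℝ} (ht : 0 ≤ t) :
    volume {x | x ∈ S ∧ x - t ∉ S} ≤ ENNReal.ofReal t := by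
  rcases S.eq_empty_or_nonempty with rfl | hne
  · simp
  · have hb := hS.sInf_mem hne
    have hsub : {x | x ∈ S ∧ x - t ∉ S} ⊆ Ico (sInf S) (sInf S + t) := by
      rintro x ⟨hx, hxt⟩
      have hxb : sInf S ≤ x := csInf_le hS.bddBelow hx
      refine ⟨hxb, ?_⟩
      by_contra hcon
      rw [not_lt] at hcon
      exact hxt (hc.out hb hx ⟨by linarith, by linarith⟩)
    refine (measure_mono hsub).trans ?_
    rw [Real.volume_Ico]
    apply ENNReal.ofReal_le_ofReal
    linarith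

theorem slab_fub {A : Set P} (hA : MeasurableSet A) {t a b : ℝ}
    (h1 : ∀ y, volume {x : ℝ | ((x, y) : P) ∈ A} ≤ ENNReal.ofReal t)
    (h2 : ∀ z ∈ A, z.2 ∈ Icc a b) :
    volume A ≤ ENNReal.ofReal t * ENNReal.ofReal (b - a) := by
  rw [Measure.volume_eq_prod, Measure.prod_apply_symm hA]
  calc ∫⁻ y, volume ((fun x => ((x, y) : ℝ × ℝ)) ⁻¹' A) ≤
      ∫⁻ y, (Icc a b).indicator (fun _ => ENNReal.ofReal t) y := by
        apply lintegral_mono
        intro y
        by_cases hy : y ∈ Icc a b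
        · rw [indicator_of_mem hy]
          exact h1 y
        · rw [indicator_of_notMem hy]
          have : (fun x => ((x, y) : ℝ × ℝ)) ⁻¹' A = ∅ := by
            ext x
            simp only [mem_preimage, mem_empty_iff_false, iff_false]
            intro hx
            exact hy (h2 _ hx)
          beta_reduce
          rw [this, measure_empty]
    _ = ENNReal.ofReal t * ENNReal.ofReal (b - a) := by
        rw [lintegral_indicator measurableSet_Icc, setLIntegral_const, Real.volume_Icc]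

/-- Slab decomposition of the outer parallel set `D + θ K` of a convex set `D` that contains the
horizontal segment from `(0,0)` to `(L,0)` and lies in the vertical strip over `[0, L]`. -/
theorem slab (D K : Set P) (hD : IsCompact D) (hDc : Convex ℝ D) (hK : IsCompact K)
    (hKc : Convex ℝ K) (hK0 : (0 : P) ∈ K)
    (L Y κ h₁ h₂ θ l : ℝ) (hL : 0 ≤ L) (hl : 0 < l) (hθ : 0 ≤ θ)
    (h0 : ((0, 0) : P) ∈ D) (hLD : ((L, 0) : P) ∈ D)
    (hx : ∀ z ∈ D, 0 ≤ z.1 ∧ z.1 ≤ L) (hy : ∀ z ∈ D, |z.2| ≤ Y)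
    (hKx : ∀ z ∈ K, |z.1| ≤ κ) (hKy : ∀ z ∈ K, -h₁ ≤ z.2 ∧ z.2 ≤ h₂) :
    ∃ (m : ℕ) (lo hi : ℕ → ℝ), (m : ℝ) * l ≤ L ∧
      (∀ k < m, lo k ≤ 0 ∧ 0 ≤ hi k ∧ ∀ x ∈ Icc ((k : ℝ) * l) (((k : ℝ) + 1) * l),
        ∀ y ∈ Icc (lo k) (hi k), ((x, y) : P) ∈ D) ∧
      volume (D + θ • K) ≤ ENNReal.ofReal (∑ k ∈ Finset.range m, l * (hi k - lo k + θ * (h₁ + h₂))
        + 2 * (l + θ * κ) * (2 * Y + θ * (h₁ + h₂))) := by
  have hκ : 0 ≤ κ := (abs_nonneg _).trans (hKx 0 hK0)
  have hh1 : 0 ≤ h₁ := by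
    have := (hKy 0 hK0).1
    simp at this
    exact this
  have hh2 : 0 ≤ h₂ := by
    have := (hKy 0 hK0).2
    simpa using this
  have hY : 0 ≤ Y := (abs_nonneg _).trans (hy _ h0)
  obtain ⟨m, hm⟩ : ∃ m : ℕ, m = ⌊L / l⌋₊ := ⟨_, rfl⟩
  have hmL : (m : ℝ) * l ≤ L := by
    have := Nat.floor_le (show 0 ≤ L / l by positivity)
    rw [← hm, le_div_iff₀ hl] at this
    exact this
  let I : ℕ → Set ℝ := fun k => {y | (((k : ℝ) * l, y) : P) ∈ D ∧ ((((k : ℝ) + 1) * l, y) : P) ∈ D}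
  have hIc : ∀ k, IsCompact (I k) := by
    intro k
    have hcl : IsClosed (I k) := by
      apply IsClosed.inter
      · exact hD.isClosed.preimage (by fun_prop : Continuous fun y : ℝ => (((k : ℝ) * l, y) : P))
      · exact hD.isClosed.preimage (by fun_prop : Continuous fun y : ℝ => ((((k : ℝ) + 1) * l, y) : P))
    apply (isCompact_Icc (a := -Y) (b := Y)).of_isClosed_subset hcl
    intro y hy'
    exact abs_le.1 (hy _ hy'.1)
  have hI0 : ∀ k < m, (0:ℝ) ∈ I k := by
    intro k hk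
    have hk1 : ((k:ℝ) + 1) * l ≤ L := by
      refine le_trans ?_ hmL
      apply mul_le_mul_of_nonneg_right _ hl.le
      exact_mod_cast hk
    have hk0 : (0:ℝ) ≤ (k:ℝ) * l := by positivity
    constructor
    · exact slab_hor hDc h0 hLD hk0 (by nlinarith)
    · exact slab_hor hDc h0 hLD (by nlinarith) hk1
  have hlo : ∀ k < m, sInf (I k) ∈ I k := fun k hk => (hIc k).sInf_mem ⟨0, hI0 k hk⟩
  have hhi : ∀ k < m, sSup (I k) ∈ I k := fun k hk => (hIc k).sSup_mem ⟨0, hI0 k hk⟩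
  refine ⟨m, fun k => sInf (I k), fun k => sSup (I k), hmL, ?_, ?_⟩
  · intro k hk
    refine ⟨csInf_le (hIc k).bddBelow (hI0 k hk), le_csSup (hIc k).bddAbove (hI0 k hk), ?_⟩
    intro x hx' y hy'
    have e1 := slab_vert hDc (hlo k hk).1 (hhi k hk).1 hy'.1 hy'.2
    have e2 := slab_vert hDc (hlo k hk).2 (hhi k hk).2 hy'.1 hy'.2
    exact slab_hor hDc e1 e2 hx'.1 hx'.2
  · obtain ⟨E, hE⟩ : ∃ E : Set P, E = D + θ • K := ⟨_, rfl⟩
    rw [← hE]
    have hEc : IsCompact E := by rw [hE]; exact hD.add (hK.smul θ)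
    have hEcv : Convex ℝ E := by rw [hE]; exact hDc.add (hKc.smul θ)
    have hEmem : ∀ z ∈ E, ∃ p ∈ D, ∃ q ∈ K, z.1 = p.1 + θ * q.1 ∧ z.2 = p.2 + θ * q.2 := by
      intro z hz
      rw [hE] at hz
      obtain ⟨p, hp, w, hw, hzw⟩ := Set.mem_add.1 hz
      obtain ⟨q, hq, rfl⟩ := Set.mem_smul_set.1 hw
      refine ⟨p, hp, q, hq, ?_, ?_⟩
      · rw [← hzw]; rfl
      · rw [← hzw]; rfl
    have hEx : ∀ z ∈ E, -(θ * κ) ≤ z.1 ∧ z.1 ≤ L + θ * κ := by
      intro z hz
      obtain ⟨p, hp, q, hq, e1, e2⟩ := hEmem z hz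
      have h1 := hx p hp
      have h2 := abs_le.1 (hKx q hq)
      rw [e1]
      constructor <;> nlinarith [h1.1, h1.2, h2.1, h2.2]
    have hEy : ∀ z ∈ E, z.2 ∈ Icc (-Y - θ * h₁) (Y + θ * h₂) := by
      intro z hz
      obtain ⟨p, hp, q, hq, e1, e2⟩ := hEmem z hz
      have h1 := abs_le.1 (hy p hp)
      have h2 := hKy q hq
      rw [e2]
      constructor <;> nlinarith [h1.1, h1.2, h2.1, h2.2]
    set t := l + θ * κ with ht
    have ht0 : 0 < t := by positivity
    have hEcl := hEc.isClosed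
    have htr1 : Continuous fun z : P => ((z.1 + t, z.2) : P) := by fun_prop
    have htr2 : Continuous fun z : P => ((z.1 - t, z.2) : P) := by fun_prop
    have hA1m : MeasurableSet {z : P | z ∈ E ∧ ((z.1 + t, z.2) : P) ∉ E} :=
      hEcl.measurableSet.inter (hEcl.preimage htr1).measurableSet.compl
    have hA2m : MeasurableSet {z : P | z ∈ E ∧ ((z.1 - t, z.2) : P) ∉ E} :=
      hEcl.measurableSet.inter (hEcl.preimage htr2).measurableSet.compl
    have hsecc : ∀ y, IsCompact {x : ℝ | ((x, y) : P) ∈ E} := by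
      intro y
      apply (isCompact_Icc (a := -(θ * κ)) (b := L + θ * κ)).of_isClosed_subset
      · exact hEcl.preimage (by fun_prop : Continuous fun x : ℝ => ((x, y) : P))
      · intro x hx'
        exact hEx _ hx'
    have hA1 : volume {z : P | z ∈ E ∧ ((z.1 + t, z.2) : P) ∉ E} ≤
        ENNReal.ofReal t * ENNReal.ofReal (Y + θ * h₂ - (-Y - θ * h₁)) :=
      slab_fub hA1m (fun y => slab_sec1 (hsecc y) (slab_hconv hEcv y).ordConnected ht0.le)
        (fun z hz => hEy z hz.1)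
    have hA2 : volume {z : P | z ∈ E ∧ ((z.1 - t, z.2) : P) ∉ E} ≤
        ENNReal.ofReal t * ENNReal.ofReal (Y + θ * h₂ - (-Y - θ * h₁)) :=
      slab_fub hA2m (fun y => slab_sec2 (hsecc y) (slab_hconv hEcv y).ordConnected ht0.le)
        (fun z hz => hEy z hz.1)
    have hcover : E ⊆ (⋃ k ∈ Finset.range m, Icc ((k:ℝ) * l) (((k:ℝ) + 1) * l) ×ˢ
        Icc (sInf (I k) - θ * h₁) (sSup (I k) + θ * h₂)) ∪
        ({z : P | z ∈ E ∧ ((z.1 + t, z.2) : P) ∉ E} ∪
          {z : P | z ∈ E ∧ ((z.1 - t, z.2) : P) ∉ E}) := by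
      rintro ⟨x, y⟩ hz
      by_cases hz1 : ((x + t, y) : P) ∈ E
      swap
      · right; left; exact ⟨hz, hz1⟩
      by_cases hz2 : ((x - t, y) : P) ∈ E
      swap
      · right; right; exact ⟨hz, hz2⟩
      left
      have hxl : l ≤ x := by
        have := (hEx _ hz2).1
        simp only at this
        linarith
      have hxL : x + l ≤ L := by
        have := (hEx _ hz1).2
        simp only at this
        linarith
      obtain ⟨k, hk⟩ : ∃ k : ℕ, k = ⌊x / l⌋₊ := ⟨_, rfl⟩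
      have hx0 : 0 ≤ x / l := div_nonneg (by linarith) hl.le
      have hk1 : (k:ℝ) * l ≤ x := by
        have := Nat.floor_le hx0
        rwa [← hk, le_div_iff₀ hl] at this
      have hk2 : x < ((k:ℝ) + 1) * l := by
        have := Nat.lt_floor_add_one (x / l)
        rwa [← hk, div_lt_iff₀ hl] at this
      have hkL : ((k:ℝ) + 1) * l ≤ L := by nlinarith
      have hkm : k < m := by
        have h1 : ((k + 1 : ℕ) : ℝ) ≤ L / l := by
          rw [le_div_iff₀ hl]
          push_cast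
          exact hkL
        have := Nat.le_floor h1
        rw [← hm] at this
        exact this
      obtain ⟨p1, hp1, q1, hq1, e11, e12⟩ := hEmem _ hz2
      obtain ⟨p2, hp2, q2, hq2, e21, e22⟩ := hEmem _ hz1
      simp only at e11 e12 e21 e22
      have hq1x := abs_le.1 (hKx q1 hq1)
      have hq2x := abs_le.1 (hKx q2 hq2)
      have hq1y := hKy q1 hq1
      have hq2y := hKy q2 hq2
      have hp1x : p1.1 ≤ (k:ℝ) * l := by nlinarith [hq1x.1, hq1x.2]
      have hp2x : ((k:ℝ) + 1) * l ≤ p2.1 := by nlinarith [hq2x.1, hq2x.2]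
      have hp1y : y - θ * h₂ ≤ p1.2 ∧ p1.2 ≤ y + θ * h₁ := by
        constructor <;> nlinarith [hq1y.1, hq1y.2]
      have hp2y : y - θ * h₂ ≤ p2.2 ∧ p2.2 ≤ y + θ * h₁ := by
        constructor <;> nlinarith [hq2y.1, hq2y.2]
      obtain ⟨y₀, hy0I, hy01, hy02⟩ : ∃ y₀ ∈ I k, y - θ * h₂ ≤ y₀ ∧ y₀ ≤ y + θ * h₁ := by
        by_cases hc : y - θ * h₂ ≤ 0 ∧ 0 ≤ y + θ * h₁
        · exact ⟨0, hI0 k hkm, hc.1, hc.2⟩
        · have hpos : 0 < p1.2 * p2.2 := by
            rw [not_and_or, not_le, not_le] at hc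
            rcases hc with hc | hc
            · exact mul_pos (by linarith [hp1y.1]) (by linarith [hp2y.1])
            · exact mul_pos_of_neg_of_neg (by linarith [hp1y.2]) (by linarith [hp2y.2])
          obtain ⟨y₀, x₁', x₂', hor, hx1', hx2', hd1, hd2⟩ := slab_push hDc h0 hLD
            (x₁ := p1.1) (y₁ := p1.2) (x₂ := p2.1) (y₂ := p2.2) hp1 hp2 (hx p1 hp1).1
            (hx p2 hp2).2 hpos
          refine ⟨y₀, ⟨?_, ?_⟩, ?_, ?_⟩
          · exact slab_hor hDc hd1 hd2 (by linarith) (by nlinarith)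
          · exact slab_hor hDc hd1 hd2 (by nlinarith) (by linarith)
          · rcases hor with rfl | rfl
            · exact hp1y.1
            · exact hp2y.1
          · rcases hor with rfl | rfl
            · exact hp1y.2
            · exact hp2y.2
      simp only [mem_iUnion]
      refine ⟨k, Finset.mem_range.2 hkm, ⟨hk1, hk2.le⟩, ?_, ?_⟩
      · have := csInf_le (hIc k).bddBelow hy0I
        simp only
        linarith
      · have := le_csSup (hIc k).bddAbove hy0I
        simp only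
        linarith
    have hwidth : ∀ k < m, 0 ≤ sSup (I k) - sInf (I k) := by
      intro k hk
      have h1 := csInf_le (hIc k).bddBelow (hI0 k hk)
      have h2 := le_csSup (hIc k).bddAbove (hI0 k hk)
      linarith
    have hbox : volume (⋃ k ∈ Finset.range m, Icc ((k:ℝ) * l) (((k:ℝ) + 1) * l) ×ˢ
        Icc (sInf (I k) - θ * h₁) (sSup (I k) + θ * h₂)) ≤
        ENNReal.ofReal (∑ k ∈ Finset.range m, l * (sSup (I k) - sInf (I k) + θ * (h₁ + h₂))) := by
      refine (measure_biUnion_finset_le _ _).trans ?_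
      rw [ENNReal.ofReal_sum_of_nonneg]
      · apply Finset.sum_le_sum
        intro k hk
        rw [Measure.volume_eq_prod, Measure.prod_prod, Real.volume_Icc, Real.volume_Icc,
          ← ENNReal.ofReal_mul]
        · apply ENNReal.ofReal_le_ofReal
          apply le_of_eq
          ring
        · nlinarith
      · intro k hk
        have := hwidth k (Finset.mem_range.1 hk)
        positivity
    calc volume E ≤ volume ((⋃ k ∈ Finset.range m, Icc ((k:ℝ) * l) (((k:ℝ) + 1) * l) ×ˢ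
        Icc (sInf (I k) - θ * h₁) (sSup (I k) + θ * h₂)) ∪
        ({z : P | z ∈ E ∧ ((z.1 + t, z.2) : P) ∉ E} ∪
          {z : P | z ∈ E ∧ ((z.1 - t, z.2) : P) ∉ E})) := measure_mono hcover
      _ ≤ ENNReal.ofReal (∑ k ∈ Finset.range m, l * (sSup (I k) - sInf (I k) + θ * (h₁ + h₂))) +
          (ENNReal.ofReal t * ENNReal.ofReal (Y + θ * h₂ - (-Y - θ * h₁)) +
          ENNReal.ofReal t * ENNReal.ofReal (Y + θ * h₂ - (-Y - θ * h₁))) := by
          refine (measure_union_le _ _).trans (add_le_add hbox ?_)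
          exact (measure_union_le _ _).trans (add_le_add hA1 hA2)
      _ = _ := by
          have hp1 : 0 ≤ Y + θ * h₂ - (-Y - θ * h₁) := by nlinarith [mul_nonneg hθ hh1, mul_nonneg hθ hh2]
          rw [← ENNReal.ofReal_mul ht0.le, ← ENNReal.ofReal_add (by positivity) (by positivity),
            ← ENNReal.ofReal_add]
          · congr 1
            ring
          · apply Finset.sum_nonneg
            intro k hk
            have := hwidth k (Finset.mem_range.1 hk)
            positivity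
          · positivity



end Pool.Agent.Helper484.Crit.FE
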