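import Pool.Agent.Helper484.Crit.Base

set_option autoImplicit false

namespace Pool.Agent.Helper484.Crit.FF

open Pool.Agent.Helper484.Crit 

open MeasureTheory Set Filter Topology
open scoped ENNReal Pointwise

theorem job_rot_det (c s : ℝ) : LinearMap.det (rot c s) = c ^ 2 + s ^ 2 := by
  rw [← LinearMap.det_toMatrix (Module.Basis.finTwoProd ℝ), Matrix.det_fin_two]
  simp [LinearMap.toMatrix_apply, rot]
  ring

/-- Rotations preserve area. -/
theorem volume_rot (c s : ℝ) (h : c ^ 2 + s ^ 2 = 1) (A : Set P) :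
    volume (rot c s '' A) = volume A := by
  rw [Measure.addHaar_image_linearMap, job_rot_det, h]
  simp

theorem job_rot_norm (c s : ℝ) (h : c ^ 2 + s ^ 2 = 1) (z : P) :
    (rot c s z).1 ^ 2 + (rot c s z).2 ^ 2 = z.1 ^ 2 + z.2 ^ 2 := by
  have h1 : (rot c s z).1 = c * z.1 + s * z.2 := rfl
  have h2 : (rot c s z).2 = -s * z.1 + c * z.2 := rfl
  rw [h1, h2]
  linear_combination (z.1 ^ 2 + z.2 ^ 2) * h

/-- A compact set can be moved by a rotation and a translation so that a diametral segment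
becomes the segment from `(0,0)` to `(L,0)`. -/
theorem exists_rot (D : Set P) (hD : IsCompact D) (hne : D.Nonempty) :
    ∃ c s L : ℝ, ∃ p ∈ D, c ^ 2 + s ^ 2 = 1 ∧ 0 ≤ L ∧
      ((L, 0) : P) ∈ (fun z => rot c s (z - p)) '' D ∧
      ∀ z ∈ (fun z => rot c s (z - p)) '' D, 0 ≤ z.1 ∧ z.1 ≤ L ∧ |z.2| ≤ L := by
  have hc : ContinuousOn (fun w : P × P => (w.2.1 - w.1.1) ^ 2 + (w.2.2 - w.1.2) ^ 2) (D ×ˢ D) := by
    fun_prop
  obtain ⟨⟨p, q⟩, hpq, hmax⟩ := (hD.prod hD).exists_isMaxOn (hne.prod hne) hc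
  obtain ⟨hp, hq⟩ := hpq
  simp only at hp hq
  have hmx : ∀ a ∈ D, ∀ b ∈ D, (b.1 - a.1) ^ 2 + (b.2 - a.2) ^ 2 ≤
      (q.1 - p.1) ^ 2 + (q.2 - p.2) ^ 2 := fun a ha b hb => hmax (show (a, b) ∈ D ×ˢ D from ⟨ha, hb⟩)
  set L := √((q.1 - p.1) ^ 2 + (q.2 - p.2) ^ 2) with hL
  have hL0 : 0 ≤ L := Real.sqrt_nonneg _
  have hL2 : L ^ 2 = (q.1 - p.1) ^ 2 + (q.2 - p.2) ^ 2 := Real.sq_sqrt (by positivity)
  rcases hL0.eq_or_lt with h0 | h0
  · refine ⟨1, 0, L, p, hp, by norm_num, hL0, ⟨p, hp, ?_⟩, ?_⟩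
    · simp only [sub_self, map_zero]
      rw [← h0]
      rfl
    · rintro _ ⟨z, hz, rfl⟩
      have h1 := hmx p hp z hz
      rw [← hL2, ← h0] at h1
      have h2 : z.1 - p.1 = 0 := by nlinarith [sq_nonneg (z.1 - p.1), sq_nonneg (z.2 - p.2)]
      have h3 : z.2 - p.2 = 0 := by nlinarith [sq_nonneg (z.1 - p.1), sq_nonneg (z.2 - p.2)]
      have h4 : z - p = 0 := Prod.ext h2 h3
      simp only [h4, map_zero]
      rw [← h0]
      simp
  · have hcs : ((q.1 - p.1) / L) ^ 2 + ((q.2 - p.2) / L) ^ 2 = 1 := by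
      rw [div_pow, div_pow, ← add_div, ← hL2, div_self (by positivity)]
    have hrq : rot ((q.1 - p.1) / L) ((q.2 - p.2) / L) (q - p) = (L, 0) := by
      refine Prod.ext ?_ ?_
      · change (q.1 - p.1) / L * (q.1 - p.1) + (q.2 - p.2) / L * (q.2 - p.2) = L
        field_simp
        rw [hL2]
      · change -((q.2 - p.2) / L) * (q.1 - p.1) + (q.1 - p.1) / L * (q.2 - p.2) = 0
        field_simp
        ring
    refine ⟨(q.1 - p.1) / L, (q.2 - p.2) / L, L, p, hp, hcs, hL0, ⟨q, hq, hrq⟩, ?_⟩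
    rintro _ ⟨z, hz, rfl⟩
    have h1 := hmx p hp z hz
    have h2 := hmx q hq z hz
    rw [← hL2] at h1 h2
    have h3 := job_rot_norm _ _ hcs (z - p)
    have h4 := job_rot_norm _ _ hcs (z - q)
    have h5 : z - q = (z - p) - (q - p) := by abel
    rw [h5, map_sub, hrq, ← h5] at h4
    simp only [Prod.fst_sub, Prod.snd_sub, sub_zero] at h3 h4 ⊢
    generalize (rot ((q.1 - p.1) / L) ((q.2 - p.2) / L) (z - p)).1 = X at *
    generalize (rot ((q.1 - p.1) / L) ((q.2 - p.2) / L) (z - p)).2 = Y at *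
    rw [← h3] at h1
    rw [← h4] at h2
    refine ⟨?_, ?_, ?_⟩
    · by_contra hneg
      push Not at hneg
      nlinarith [sq_nonneg Y, mul_pos h0 (neg_pos.mpr hneg), sq_nonneg X]
    · exact abs_le_of_sq_le_sq' (by nlinarith [sq_nonneg Y]) hL0 |>.2
    · exact abs_le_of_sq_le_sq (by nlinarith [sq_nonneg X]) hL0



end Pool.Agent.Helper484.Crit.FF
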