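import Pool.Agent.Helper484.Crit.Base

set_option autoImplicit false

namespace Pool.Agent.Helper484.Crit.FG

open Pool.Agent.Helper484.Crit 

open MeasureTheory Set Filter Topology
open scoped ENNReal Pointwise

/-- the linear map `(s,t) ↦ s u + t v`. -/
noncomputable def linUV (u v : P) : P →ₗ[ℝ] P where
  toFun := fun x => x.1 • u + x.2 • v
  map_add' := by
    intro x y
    simp only [Prod.fst_add, Prod.snd_add, add_smul]; abel
  map_smul' := by
    intro c x
    simp only [Prod.smul_fst, Prod.smul_snd, smul_eq_mul, RingHom.id_apply, smul_add, mul_smul]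

theorem det_linUV (u v : P) : LinearMap.det (linUV u v) = cr u v := by
  rw [← LinearMap.det_toMatrix (Module.Basis.finTwoProd ℝ), Matrix.det_fin_two]
  simp [LinearMap.toMatrix_apply, linUV, cr]
  ring

theorem vol_stdTri' : volume {x : P | 0 ≤ x.1 ∧ 0 ≤ x.2 ∧ x.1 + x.2 ≤ 1} ≤
    ENNReal.ofReal (1 / 2) := by
  have hm : MeasurableSet {x : P | 0 ≤ x.1 ∧ 0 ≤ x.2 ∧ x.1 + x.2 ≤ 1} := by
    apply IsClosed.measurableSet
    have h1 : IsClosed {x : P | 0 ≤ x.1} := isClosed_le continuous_const continuous_fst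
    have h2 : IsClosed {x : P | 0 ≤ x.2} := isClosed_le continuous_const continuous_snd
    have h3 : IsClosed {x : P | x.1 + x.2 ≤ 1} :=
      isClosed_le (continuous_fst.add continuous_snd) continuous_const
    exact h1.inter (h2.inter h3)
  rw [Measure.volume_eq_prod, Measure.prod_apply hm]
  have h1 : ∀ x : ℝ, volume (Prod.mk x ⁻¹' {x : P | 0 ≤ x.1 ∧ 0 ≤ x.2 ∧ x.1 + x.2 ≤ 1}) ≤
      (Set.Icc (0 : ℝ) 1).indicator (fun x => ENNReal.ofReal (1 - x)) x := by
    intro x
    by_cases hx : x ∈ Set.Icc (0 : ℝ) 1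
    · rw [Set.indicator_of_mem hx]
      have h2 : Prod.mk x ⁻¹' {x : P | 0 ≤ x.1 ∧ 0 ≤ x.2 ∧ x.1 + x.2 ≤ 1} ⊆ Set.Icc 0 (1 - x) := by
        rintro y ⟨h1, h2, h3⟩
        simp only at h1 h2 h3
        exact ⟨h2, by linarith⟩
      refine (measure_mono h2).trans ?_
      rw [Real.volume_Icc]; simp
    · have h2 : Prod.mk x ⁻¹' {x : P | 0 ≤ x.1 ∧ 0 ≤ x.2 ∧ x.1 + x.2 ≤ 1} = ∅ := by
        ext y
        simp only [Set.mem_preimage, Set.mem_ofPred_eq, Set.mem_empty_iff_false, iff_false]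
        rintro ⟨h1, h2, h3⟩
        exact hx ⟨h1, by linarith⟩
      rw [h2]; simp
  refine (lintegral_mono h1).trans ?_
  rw [lintegral_indicator measurableSet_Icc]
  rw [← ofReal_integral_eq_lintegral_ofReal]
  · apply ENNReal.ofReal_le_ofReal
    rw [integral_Icc_eq_integral_Ioc, ← intervalIntegral.integral_of_le zero_le_one]
    rw [intervalIntegral.integral_sub (by simp) (by simp)]
    simp
    norm_num
  · exact (continuous_const.sub continuous_id).continuousOn.integrableOn_Icc
  · rw [EventuallyLE, ae_restrict_iff' measurableSet_Icc]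
    exact Filter.Eventually.of_forall (fun x hx => by simpa using hx.2)

/-- Area of a triangle (upper bound). -/
theorem volume_triangle_le (a b c : P) :
    volume (convexHull ℝ {a, b, c}) ≤ ENNReal.ofReal (|cr (b - a) (c - a)| / 2) := by
  set D : Set P := {x | 0 ≤ x.1 ∧ 0 ≤ x.2 ∧ x.1 + x.2 ≤ 1} with hD
  have hvol : volume D ≤ ENNReal.ofReal (1/2) := vol_stdTri'
  set L := linUV (b - a) (c - a) with hL
  have hsub : convexHull ℝ {a, b, c} ⊆ (fun x => -a + x) ⁻¹' (L '' D) := by
    have hconv : Convex ℝ ((fun x => -a + x) ⁻¹' (L '' D)) := by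
      have hDc : Convex ℝ D := by
        rw [hD]
        intro x hx y hy a b ha hb hab
        obtain ⟨x1, x2, x3⟩ := hx
        obtain ⟨y1, y2, y3⟩ := hy
        refine ⟨?_, ?_, ?_⟩
        · simp only [Prod.fst_add, Prod.smul_fst, smul_eq_mul]; positivity
        · simp only [Prod.snd_add, Prod.smul_snd, smul_eq_mul]; positivity
        · simp only [Prod.fst_add, Prod.smul_fst, Prod.snd_add, Prod.smul_snd, smul_eq_mul]
          nlinarith
      exact (hDc.linear_image L).translate_preimage_right (-a)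
    refine convexHull_min ?_ hconv
    rintro x hx
    simp only [mem_insert_iff, mem_singleton_iff] at hx
    rw [mem_preimage, hD]
    rcases hx with rfl | rfl | rfl
    · exact ⟨0, by simp, by simp⟩
    · exact ⟨(1, 0), by simp, by simp [hL, linUV]; abel⟩
    · exact ⟨(0, 1), by simp, by simp [hL, linUV]; abel⟩
  refine (measure_mono hsub).trans ?_
  rw [measure_preimage_add, Measure.addHaar_image_linearMap, hL, det_linUV]
  refine (mul_le_mul_right hvol _).trans ?_
  rw [← ENNReal.ofReal_mul (abs_nonneg _)]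
  apply ENNReal.ofReal_le_ofReal
  linarith




theorem vol_stdTri_ge : ENNReal.ofReal (1 / 2) ≤
    volume {x : P | 0 ≤ x.1 ∧ 0 ≤ x.2 ∧ x.1 + x.2 ≤ 1} := by
  set T : Set P := {x : P | 0 ≤ x.1 ∧ 0 ≤ x.2 ∧ x.1 + x.2 ≤ 1} with hT
  have hcov : Icc (0 : ℝ) 1 ×ˢ Icc (0 : ℝ) 1 ⊆ T ∪ (fun x : P => ((1 : ℝ), (1 : ℝ)) - x) ⁻¹' T := by
    rintro ⟨x, y⟩ ⟨⟨h1, h2⟩, ⟨h3, h4⟩⟩
    simp only at h1 h2 h3 h4
    by_cases h : x + y ≤ 1
    · left; exact ⟨h1, h3, h⟩
    · right
      refine ⟨?_, ?_, ?_⟩ <;> simp only [Prod.fst_sub, Prod.snd_sub] <;> linarith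
  have h1 : volume (Icc (0 : ℝ) 1 ×ˢ Icc (0 : ℝ) 1) = 1 := by
    rw [Measure.volume_eq_prod, Measure.prod_prod, Real.volume_Icc]; simp
  have h2 : volume ((fun x : P => ((1 : ℝ), (1 : ℝ)) - x) ⁻¹' T) = volume T := by
    have := (Measure.measurePreserving_sub_left (volume : Measure P) ((1 : ℝ), (1 : ℝ)))
    refine this.measure_preimage ?_
    apply MeasurableSet.nullMeasurableSet
    apply IsClosed.measurableSet
    have h1 : IsClosed {x : P | 0 ≤ x.1} := isClosed_le continuous_const continuous_fst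
    have h2 : IsClosed {x : P | 0 ≤ x.2} := isClosed_le continuous_const continuous_snd
    have h3 : IsClosed {x : P | x.1 + x.2 ≤ 1} :=
      isClosed_le (continuous_fst.add continuous_snd) continuous_const
    exact h1.inter (h2.inter h3)
  have h3 : (1 : ℝ≥0∞) ≤ volume T + volume T := by
    calc (1 : ℝ≥0∞) = volume (Icc (0 : ℝ) 1 ×ˢ Icc (0 : ℝ) 1) := h1.symm
      _ ≤ volume (T ∪ (fun x : P => ((1 : ℝ), (1 : ℝ)) - x) ⁻¹' T) := measure_mono hcov
      _ ≤ volume T + volume ((fun x : P => ((1 : ℝ), (1 : ℝ)) - x) ⁻¹' T) := measure_union_le _ _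
      _ = volume T + volume T := by rw [h2]
  by_contra hcon
  push Not at hcon
  have h4 : volume T + volume T < ENNReal.ofReal (1 / 2) + ENNReal.ofReal (1 / 2) :=
    ENNReal.add_lt_add hcon hcon
  rw [← ENNReal.ofReal_add (by norm_num) (by norm_num)] at h4
  norm_num at h4
  exact absurd h3 (not_le.2 h4)

theorem volume_triangle_ge (a b c : P) :
    ENNReal.ofReal (|cr (b - a) (c - a)| / 2) ≤ volume (convexHull ℝ {a, b, c}) := by
  set D : Set P := {x | 0 ≤ x.1 ∧ 0 ≤ x.2 ∧ x.1 + x.2 ≤ 1} with hD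
  have hvol : ENNReal.ofReal (1/2) ≤ volume D := vol_stdTri_ge
  set L := linUV (b - a) (c - a) with hL
  have hsub : (fun x => -a + x) ⁻¹' (L '' D) ⊆ convexHull ℝ {a, b, c} := by
    rintro x ⟨y, ⟨h1, h2, h3⟩, hy⟩
    have hx : x = (1 - y.1 - y.2) • a + y.1 • b + y.2 • c := by
      have h4 : x = a + L y := by simp only at hy; rw [hy]; abel
      rw [h4, hL]
      simp only [linUV, LinearMap.coe_mk, AddHom.coe_mk]
      module
    rw [hx]
    have ha : a ∈ convexHull ℝ ({a, b, c} : Set P) := subset_convexHull ℝ _ (by simp)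
    have hb : b ∈ convexHull ℝ ({a, b, c} : Set P) := subset_convexHull ℝ _ (by simp)
    have hc : c ∈ convexHull ℝ ({a, b, c} : Set P) := subset_convexHull ℝ _ (by simp)
    have hconv := convex_convexHull ℝ ({a, b, c} : Set P)
    exact hconv.sum_mem (t := Finset.univ) (w := ![1 - y.1 - y.2, y.1, y.2]) (z := ![a, b, c])
      (by intro i _; fin_cases i <;> simp <;> linarith)
      (by simp [Fin.sum_univ_three]; ring) (by intro i _; fin_cases i <;> simp [ha, hb, hc])
      |> (by simpa [Fin.sum_univ_three] using ·)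
  refine le_trans ?_ (measure_mono hsub)
  rw [measure_preimage_add, Measure.addHaar_image_linearMap, hL, det_linUV]
  refine le_trans ?_ (mul_le_mul_right hvol _)
  rw [← ENNReal.ofReal_mul (abs_nonneg _)]
  apply ENNReal.ofReal_le_ofReal
  linarith

theorem volume_triangle (a b c : P) :
    volume (convexHull ℝ {a, b, c}) = ENNReal.ofReal (|cr (b - a) (c - a)| / 2) :=
  le_antisymm (volume_triangle_le a b c) (volume_triangle_ge a b c)

end Pool.Agent.Helper484.Crit.FG
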