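import Pool.Agent.Helper484.Crit.Base
import Pool.Agent.Helper484.Crit.FA3
import Pool.Agent.Helper484.Crit.FB

set_option autoImplicit false

namespace Pool.Agent.Helper484.Crit.FH

open Pool.Agent.Helper484.Crit Pool.Agent.Helper484.Crit.FA3 Pool.Agent.Helper484.Crit.FB

open MeasureTheory Set Filter Topology
open scoped ENNReal Pointwise

/-! ### auxiliary lemmas -/

lemma exists_smul_of_cr {d w : P} (hd : d ≠ 0) (h : cr d w = 0) : ∃ s : ℝ, w = s • d := by
  have hpos : 0 < d.1 ^ 2 + d.2 ^ 2 := by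
    by_contra hcon
    apply hd
    have h1 : d.1 ^ 2 = 0 := by nlinarith [sq_nonneg d.1, sq_nonneg d.2]
    have h2 : d.2 ^ 2 = 0 := by nlinarith [sq_nonneg d.1, sq_nonneg d.2]
    exact Prod.ext (by simpa using h1) (by simpa using h2)
  unfold cr at h
  refine ⟨(d.1 * w.1 + d.2 * w.2) / (d.1 ^ 2 + d.2 ^ 2), Prod.ext ?_ ?_⟩
  · simp only [Prod.smul_fst, smul_eq_mul]
    rw [div_mul_eq_mul_div, eq_div_iff hpos.ne']
    linear_combination (-d.2) * h
  · simp only [Prod.smul_snd, smul_eq_mul]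
    rw [div_mul_eq_mul_div, eq_div_iff hpos.ne']
    linear_combination (d.1) * h

lemma _root_.Pool.Agent.Helper484.Crit.Del.rot {N : P → ℝ} {F : Finset P} {v a b c : P} (h : Del N F v a b c) :
    Del N F v b c a := by
  obtain ⟨ha, hb, hc, h1, h2, h3, h4, h5⟩ := h
  refine ⟨hb, hc, ha, by rw [h2]; exact h1, by rw [h2, h3], by rw [h2], ?_, ?_⟩
  · intro x hx; rw [h2]; exact h4 x hx
  · have : cr (c - b) (a - b) = cr (b - a) (c - a) := by
      simp only [cr, Prod.fst_sub, Prod.snd_sub]; ring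
    rw [this]; exact h5

lemma _root_.Pool.Agent.Helper484.Crit.Del.ne {N : P → ℝ} {F : Finset P} {v a b c : P} (h : Del N F v a b c) : a ≠ b := by
  intro hab
  have h5 := h.2.2.2.2.2.2.2
  rw [hab] at h5
  simp [cr] at h5

/-- no site in the open edge -/
lemma _root_.Pool.Agent.Helper484.Crit.Del.seg {N : P → ℝ} (hN : Gau N) {F : Finset P} {v a b c : P} (h : Del N F v a b c)
    {s : ℝ} (hs0 : 0 < s) (hs1 : s < 1) : s • a + (1 - s) • b ∉ F := by
  intro hmem
  have hne := h.ne
  obtain ⟨ha, hb, hc, h1, h2, h3, h4, h5⟩ := h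
  have h6 := hN.sc (v - a) (v - b) (N (v - a)) s (fun hh => hne (sub_right_injective hh)) le_rfl
    h2.le hs0 hs1
  have h7 : s • (v - a) + (1 - s) • (v - b) = v - (s • a + (1 - s) • b) := by
    apply Prod.ext <;> simp <;> ring
  rw [h7] at h6
  exact absurd (h4 _ hmem) (not_le.2 h6)

lemma core {N : P → ℝ} (hN : Gau N) {F : Finset P} {v a b c v1 a1 b1 c1 : P}
    (hd : Del N F v a b c) (hd1 : Del N F v1 a1 b1 c1)
    (h1 : cr (b - a) (a1 - a) ≤ 0) (h2 : cr (b - a) (b1 - a) ≤ 0) (h3 : cr (b - a) (c1 - a) < 0)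
    {α β γ : ℝ} (hα : 0 ≤ α) (hβ : 0 ≤ β) (hγ : 0 ≤ γ) (hs : α + β + γ = 1)
    (hm : (1 / 2 : ℝ) • a + (1 / 2 : ℝ) • b = α • a1 + β • b1 + γ • c1) : a1 = b ∧ b1 = a := by
  have hsum : α * cr (b - a) (a1 - a) + β * cr (b - a) (b1 - a) + γ * cr (b - a) (c1 - a) = 0 := by
    have e1 := congrArg Prod.fst hm
    have e2 := congrArg Prod.snd hm
    simp only [Prod.fst_add, Prod.snd_add, Prod.smul_fst, Prod.smul_snd, smul_eq_mul] at e1 e2
    simp only [cr, Prod.fst_sub, Prod.snd_sub]
    have hs' : γ = 1 - α - β := by linarith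
    subst hs'
    linear_combination (b.2 - a.2) * e1 - (b.1 - a.1) * e2
  have t1 : α * cr (b - a) (a1 - a) ≤ 0 := mul_nonpos_of_nonneg_of_nonpos hα h1
  have t2 : β * cr (b - a) (b1 - a) ≤ 0 := mul_nonpos_of_nonneg_of_nonpos hβ h2
  have t3 : γ * cr (b - a) (c1 - a) ≤ 0 := mul_nonpos_of_nonneg_of_nonpos hγ h3.le
  have g0 : γ = 0 := by
    have : γ * cr (b - a) (c1 - a) = 0 := by linarith
    rcases mul_eq_zero.1 this with h | h
    · exact h
    · exact absurd h h3.ne
  have z1 : α * cr (b - a) (a1 - a) = 0 := by linarith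
  have z2 : β * cr (b - a) (b1 - a) = 0 := by linarith
  subst g0
  have hab : α + β = 1 := by linarith
  have hmF : (1 / 2 : ℝ) • a + (1 / 2 : ℝ) • b ∉ F := by
    have := hd.seg hN (s := 1 / 2) (by norm_num) (by norm_num)
    have h12 : (1 : ℝ) - 1 / 2 = 1 / 2 := by norm_num
    rwa [h12] at this
  have hα0 : α ≠ 0 := by
    intro h
    apply hmF
    rw [hm, h, show β = 1 by linarith]
    simp only [zero_smul, one_smul, zero_add, add_zero]
    exact hd1.2.1
  have hβ0 : β ≠ 0 := by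
    intro h
    apply hmF
    rw [hm, h, show α = 1 by linarith]
    simp only [zero_smul, one_smul, add_zero]
    exact hd1.1
  have hαp : 0 < α := lt_of_le_of_ne hα (Ne.symm hα0)
  have hβp : 0 < β := lt_of_le_of_ne hβ (Ne.symm hβ0)
  have y1 : cr (b - a) (a1 - a) = 0 := (mul_eq_zero.1 z1).resolve_left hα0
  have y2 : cr (b - a) (b1 - a) = 0 := (mul_eq_zero.1 z2).resolve_left hβ0
  have hne : b - a ≠ 0 := sub_ne_zero.2 hd.ne.symm
  obtain ⟨s, hs1⟩ := exists_smul_of_cr hne y1
  obtain ⟨t, ht1⟩ := exists_smul_of_cr hne y2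
  have ha1 : a1 = (1 - s) • a + s • b := by
    have : a1 = a + s • (b - a) := by rw [← hs1]; abel
    rw [this]; module
  have hb1 : b1 = (1 - t) • a + t • b := by
    have : b1 = a + t • (b - a) := by rw [← ht1]; abel
    rw [this]; module
  -- parameter of the midpoint
  have hpar : α * s + β * t = 1 / 2 := by
    have e : (α * s + β * t - 1 / 2) • (b - a) = 0 := by
      rw [ha1, hb1] at hm
      have hα' : α = 1 - β := by linarith
      subst hα'
      have e1 := congrArg Prod.fst hm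
      have e2 := congrArg Prod.snd hm
      simp only [Prod.fst_add, Prod.snd_add, Prod.smul_fst, Prod.smul_snd, smul_eq_mul,
        zero_mul, add_zero] at e1 e2
      apply Prod.ext
      · simp only [Prod.smul_fst, Prod.fst_sub, smul_eq_mul, Prod.fst_zero]
        linear_combination -e1
      · simp only [Prod.smul_snd, Prod.snd_sub, smul_eq_mul, Prod.snd_zero]
        linear_combination -e2
    rcases smul_eq_zero.1 e with h | h
    · linarith
    · exact absurd h hne
  have hor : 0 < cr (b1 - a1) (c1 - a1) := hd1.2.2.2.2.2.2.2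
  have hor2 : cr (b1 - a1) (c1 - a1) = (t - s) * cr (b - a) (c1 - a) := by
    have : cr (b1 - a1) (c1 - a1) = (t - s) * (cr (b - a) (c1 - a) - cr (b - a) (a1 - a)) := by
      rw [hb1]
      rw [ha1]
      simp only [cr, Prod.fst_sub, Prod.snd_sub, Prod.fst_add, Prod.snd_add, Prod.smul_fst,
        Prod.smul_snd, smul_eq_mul]
      ring
    rw [this, y1, sub_zero]
  rw [hor2] at hor
  have hts : t < s := by
    by_contra hcon
    push Not at hcon
    have : (t - s) * cr (b - a) (c1 - a) ≤ 0 :=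
      mul_nonpos_of_nonneg_of_nonpos (by linarith) h3.le
    linarith
  have hsh : 1 / 2 < s := by nlinarith
  have hth : t < 1 / 2 := by nlinarith
  have hs_ge : 1 ≤ s := by
    by_contra hcon
    push Not at hcon
    have h := hd.seg hN (s := 1 - s) (by linarith) (by linarith)
    apply h
    have : (1 - (1 - s)) = s := by ring
    rw [this, ← ha1]
    exact hd1.1
  have ht_le : t ≤ 0 := by
    by_contra hcon
    push Not at hcon
    have h := hd.seg hN (s := 1 - t) (by linarith) (by linarith)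
    apply h
    have : (1 - (1 - t)) = t := by ring
    rw [this, ← hb1]
    exact hd1.2.1
  have hst : 0 < s - t := by linarith
  have ht_ge : 0 ≤ t := by
    by_contra hcon
    push Not at hcon
    have h := hd1.seg hN (s := -t / (s - t)) (div_pos (by linarith) hst)
      (by rw [div_lt_one hst]; linarith)
    apply h
    have : (-t / (s - t)) • a1 + (1 - -t / (s - t)) • b1 = a := by
      rw [ha1, hb1]
      apply Prod.ext
      · simp only [Prod.fst_add, Prod.smul_fst, smul_eq_mul]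
        field_simp
        ring
      · simp only [Prod.snd_add, Prod.smul_snd, smul_eq_mul]
        field_simp
        ring
    rw [this]
    exact hd.1
  have hs_le : s ≤ 1 := by
    by_contra hcon
    push Not at hcon
    have h := hd1.seg hN (s := (1 - t) / (s - t)) (div_pos (by linarith) hst)
      (by rw [div_lt_one hst]; linarith)
    apply h
    have : ((1 - t) / (s - t)) • a1 + (1 - (1 - t) / (s - t)) • b1 = b := by
      rw [ha1, hb1]
      apply Prod.ext
      · simp only [Prod.fst_add, Prod.smul_fst, smul_eq_mul]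
        field_simp
        ring
      · simp only [Prod.snd_add, Prod.smul_snd, smul_eq_mul]
        field_simp
        ring
    rw [this]
    exact hd.2.1
  have hs' : s = 1 := le_antisymm hs_le hs_ge
  have ht' : t = 0 := le_antisymm ht_le ht_ge
  subst hs' ht'
  constructor
  · rw [ha1]; simp
  · rw [hb1]; simp

lemma nonpos {N : P → ℝ} (hN : Gau N) {F : Finset P}
    (hgen : ∀ (v : P) (r : ℝ), (F.filter (fun x => N (v - x) = r)).card ≤ 3)
    {v a b c v1 a1 b1 c1 : P}
    (hd : Del N F v a b c) (hd1 : Del N F v1 a1 b1 c1)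
    {α β γ : ℝ} (hα : 0 ≤ α) (hβ : 0 ≤ β) (hγ : 0 ≤ γ) (hs : α + β + γ = 1)
    (hm : (1 / 2 : ℝ) • a + (1 / 2 : ℝ) • b = α • a1 + β • b1 + γ • c1)
    (hneg : cr (b - a) (a1 - a) < 0 ∨ cr (b - a) (b1 - a) < 0 ∨ cr (b - a) (c1 - a) < 0)
    {e : P} {ea eb ec : ℝ} (hea : 0 ≤ ea) (heb : 0 ≤ eb) (hec : 0 ≤ ec) (hes : ea + eb + ec = 1)
    (he : e = ea • a1 + eb • b1 + ec • c1) : cr (b - a) (e - a) ≤ 0 := by
  classical
  by_contra hcon
  push Not at hcon
  have hD : 0 < cr (b - a) (c - a) := hd.2.2.2.2.2.2.2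
  set D := cr (b - a) (c - a) with hDdef
  set lc : ℝ := cr (b - a) (e - a) / D with hlc
  set lb : ℝ := cr (e - a) (c - a) / D with hlb
  set la : ℝ := 1 - lb - lc with hla
  have hlcp : 0 < lc := div_pos hcon hD
  have hbar : e = la • a + lb • b + lc • c := by
    have h1 : D ≠ 0 := hD.ne'
    rw [hla, hlb, hlc]
    apply Prod.ext
    · simp only [Prod.fst_add, Prod.smul_fst, smul_eq_mul]
      field_simp
      simp only [hDdef, cr, Prod.fst_sub, Prod.snd_sub]
      ring
    · simp only [Prod.snd_add, Prod.smul_snd, smul_eq_mul]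
      field_simp
      simp only [hDdef, cr, Prod.fst_sub, Prod.snd_sub]
      ring
  set t : ℝ := 1 / (4 * (1 + |la| + |lb|)) with ht
  have hden : 0 < 1 + |la| + |lb| := by positivity
  have htpos : 0 < t := by positivity
  have ht4 : t * (1 + |la| + |lb|) = 1 / 4 := by rw [ht]; field_simp
  have ht1 : t ≤ 1 / 4 := by nlinarith [abs_nonneg la, abs_nonneg lb]
  have hta : -(1 / 4) ≤ t * la := by nlinarith [abs_nonneg la, abs_nonneg lb, neg_abs_le la]
  have htb : -(1 / 4) ≤ t * lb := by nlinarith [abs_nonneg la, abs_nonneg lb, neg_abs_le lb]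
  -- the two conditions for sep
  have hvr : v = v1 ∧ N (v - a) = N (v1 - a1) := by
    by_contra hne
    have hne' : v ≠ v1 ∨ N (v - a) ≠ N (v1 - a1) := by
      by_contra h2
      push Not at h2
      exact hne h2
    obtain ⟨q1, q2, q3, q4, q5, q6, q7, q8⟩ := hd
    obtain ⟨r1, r2, r3, r4, r5, r6, r7, r8⟩ := hd1
    refine sep hN (v := v) (v' := v1) (a := a) (b := b) (c := c) (a' := a1) (b' := b1) (c' := c1)
      (p := (1 - t) • ((1 / 2 : ℝ) • a + (1 / 2 : ℝ) • b) + t • e)
      (r := N (v - a)) (r' := N (v1 - a1))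
      (α := (1 - t) / 2 + t * la) (β := (1 - t) / 2 + t * lb) (γ := t * lc)
      (α' := (1 - t) * α + t * ea) (β' := (1 - t) * β + t * eb) (γ' := (1 - t) * γ + t * ec)
      hne' le_rfl q5.le q6.le le_rfl r5.le r6.le (r7 a q1) (r7 b q2) (r7 c q3)
      (q7 a1 r1) (q7 b1 r2) (q7 c1 r3) hD.ne' r8.ne' (by linarith) (by linarith)
      (mul_pos htpos hlcp) ?_ ?_ ?_ ?_ ?_ ?_ ?_
    · rw [hla]; ring
    · rw [hbar]; module
    · have : 0 ≤ 1 - t := by linarith
      positivity
    · have : 0 ≤ 1 - t := by linarith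
      positivity
    · have : 0 ≤ 1 - t := by linarith
      positivity
    · linear_combination (1 - t) * hs + t * hes
    · rw [hm, he]; module
  obtain ⟨hv, hr⟩ := hvr
  subst hv
  obtain ⟨q1, q2, q3, q4, q5, q6, q7, q8⟩ := hd
  obtain ⟨r1, r2, r3, r4, r5, r6, r7, r8⟩ := hd1
  have hab : a ≠ b := by
    intro h; rw [h] at q8; simp [cr] at q8
  have hac : a ≠ c := by
    intro h; rw [h] at q8; simp [cr] at q8
  have hbc : b ≠ c := by
    intro h; rw [h] at q8; simp only [cr, Prod.fst_sub, Prod.snd_sub] at q8; linarith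
  have hsub : ({a, b, c} : Finset P) ⊆ F.filter (fun x => N (v - x) = N (v - a)) := by
    intro x hx
    simp only [Finset.mem_insert, Finset.mem_singleton] at hx
    rw [Finset.mem_filter]
    rcases hx with rfl | rfl | rfl
    · exact ⟨q1, rfl⟩
    · exact ⟨q2, q5⟩
    · exact ⟨q3, q6⟩
  have hcard : ({a, b, c} : Finset P).card = 3 := by
    rw [Finset.card_eq_three]
    exact ⟨a, b, c, hab, hac, hbc, rfl⟩
  have heq : ({a, b, c} : Finset P) = F.filter (fun x => N (v - x) = N (v - a)) :=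
    Finset.eq_of_subset_of_card_le hsub (by rw [hcard]; exact hgen _ _)
  have hall : ∀ x ∈ F, N (v - x) = N (v - a) → 0 ≤ cr (b - a) (x - a) := by
    intro x hxF hx
    have : x ∈ F.filter (fun x => N (v - x) = N (v - a)) := Finset.mem_filter.2 ⟨hxF, hx⟩
    rw [← heq] at this
    simp only [Finset.mem_insert, Finset.mem_singleton] at this
    rcases this with rfl | rfl | rfl
    · simp [cr]
    · simp only [cr]; linarith
    · exact q8.le
  rcases hneg with h | h | h
  · exact absurd (hall a1 r1 hr.symm) (not_le.2 h)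
  · exact absurd (hall b1 r2 (by rw [r5, hr])) (not_le.2 h)
  · exact absurd (hall c1 r3 (by rw [r6, hr])) (not_le.2 h)

lemma finish {N : P → ℝ} (hN : Gau N) {F : Finset P}
    (hgen : ∀ (v : P) (r : ℝ), (F.filter (fun x => N (v - x) = r)).card ≤ 3)
    {v a b c v1 a1 b1 c1 : P}
    (hd : Del N F v a b c) (hd1 : Del N F v1 a1 b1 c1)
    {α β γ : ℝ} (hα : 0 ≤ α) (hβ : 0 ≤ β) (hγ : 0 ≤ γ) (hs : α + β + γ = 1)
    (hm : (1 / 2 : ℝ) • a + (1 / 2 : ℝ) • b = α • a1 + β • b1 + γ • c1)
    (hneg : cr (b - a) (a1 - a) < 0 ∨ cr (b - a) (b1 - a) < 0 ∨ cr (b - a) (c1 - a) < 0) :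
    ∃ v' c' : P, Del N F v' b a c' := by
  have n1 : cr (b - a) (a1 - a) ≤ 0 := nonpos hN hgen hd hd1 hα hβ hγ hs hm hneg
    (ea := 1) (eb := 0) (ec := 0) (by norm_num) (by norm_num) (by norm_num) (by norm_num) (by simp)
  have n2 : cr (b - a) (b1 - a) ≤ 0 := nonpos hN hgen hd hd1 hα hβ hγ hs hm hneg
    (ea := 0) (eb := 1) (ec := 0) (by norm_num) (by norm_num) (by norm_num) (by norm_num) (by simp)
  have n3 : cr (b - a) (c1 - a) ≤ 0 := nonpos hN hgen hd hd1 hα hβ hγ hs hm hneg
    (ea := 0) (eb := 0) (ec := 1) (by norm_num) (by norm_num) (by norm_num) (by norm_num) (by simp)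
  rcases hneg with h | h | h
  · -- a1 is the far vertex: rotate to (b1, c1, a1)
    obtain ⟨e1, e2⟩ := core hN hd hd1.rot n2 n3 h hβ hγ hα (by linarith) (by rw [hm]; abel)
    refine ⟨v1, a1, ?_⟩
    have := hd1.rot
    rwa [e1, e2] at this
  · obtain ⟨e1, e2⟩ := core hN hd hd1.rot.rot n3 n1 h hγ hα hβ (by linarith) (by rw [hm]; abel)
    refine ⟨v1, b1, ?_⟩
    have := hd1.rot.rot
    rwa [e1, e2] at this
  · obtain ⟨e1, e2⟩ := core hN hd hd1 n1 n2 h hα hβ hγ hs hm
    refine ⟨v1, c1, ?_⟩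
    have := hd1
    rwa [e1, e2] at this

def simp3 : Set (ℝ × ℝ × ℝ) := {w | 0 ≤ w.1 ∧ 0 ≤ w.2.1 ∧ 0 ≤ w.2.2 ∧ w.1 + w.2.1 + w.2.2 = 1}

lemma simp3_compact : IsCompact simp3 := by
  apply (isCompact_Icc (a := ((0, 0, 0) : ℝ × ℝ × ℝ)) (b := (1, 1, 1))).of_isClosed_subset
  · have h1 : IsClosed {w : ℝ × ℝ × ℝ | 0 ≤ w.1} := isClosed_le continuous_const (by fun_prop)
    have h2 : IsClosed {w : ℝ × ℝ × ℝ | 0 ≤ w.2.1} := isClosed_le continuous_const (by fun_prop)
    have h3 : IsClosed {w : ℝ × ℝ × ℝ | 0 ≤ w.2.2} := isClosed_le continuous_const (by fun_prop)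
    have h4 : IsClosed {w : ℝ × ℝ × ℝ | w.1 + w.2.1 + w.2.2 = 1} :=
      isClosed_eq (by fun_prop) continuous_const
    exact h1.inter (h2.inter (h3.inter h4))
  · rintro ⟨x, y, z⟩ ⟨h1, h2, h3, h4⟩
    simp only at h1 h2 h3 h4
    exact ⟨⟨h1, h2, h3⟩, ⟨by simp only; linarith, by simp only; linarith, by simp only; linarith⟩⟩

/-- closed triangle -/
def tri (T : P × P × P) : Set P :=
  (fun w : ℝ × ℝ × ℝ => w.1 • T.1 + w.2.1 • T.2.1 + w.2.2 • T.2.2) '' simp3

lemma tri_closed (T : P × P × P) : IsClosed (tri T) := by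
  apply IsCompact.isClosed
  apply simp3_compact.image
  fun_prop

lemma line_dense {d x : P} (hd : d ≠ 0) : Dense {q : P | cr d (q - x) ≠ 0} := by
  rw [Metric.dense_iff]
  intro q r hr
  by_cases hq : cr d (q - x) = 0
  · have hpos : 0 < d.1 ^ 2 + d.2 ^ 2 := by
      by_contra hcon
      apply hd
      have h1 : d.1 ^ 2 = 0 := by nlinarith [sq_nonneg d.1, sq_nonneg d.2]
      have h2 : d.2 ^ 2 = 0 := by nlinarith [sq_nonneg d.1, sq_nonneg d.2]
      exact Prod.ext (by simpa using h1) (by simpa using h2)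
    set w : P := (-d.2, d.1) with hw
    have hwn : 0 < ‖w‖ + 1 := by positivity
    refine ⟨q + (r / (2 * (‖w‖ + 1))) • w, ?_, ?_⟩
    · rw [Metric.mem_ball, dist_eq_norm, add_sub_cancel_left, norm_smul, Real.norm_eq_abs,
        abs_of_nonneg (by positivity)]
      have : r / (2 * (‖w‖ + 1)) * ‖w‖ ≤ r / 2 := by
        rw [div_mul_eq_mul_div, div_le_div_iff₀ (by positivity) (by norm_num)]
        nlinarith [norm_nonneg w]
      linarith
    · show cr d (q + (r / (2 * (‖w‖ + 1))) • w - x) ≠ 0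
      have h1 : cr d (q + (r / (2 * (‖w‖ + 1))) • w - x) =
          cr d (q - x) + (r / (2 * (‖w‖ + 1))) * (d.1 ^ 2 + d.2 ^ 2) := by
        simp only [cr, hw, Prod.fst_sub, Prod.snd_sub, Prod.fst_add, Prod.snd_add, Prod.smul_fst,
          Prod.smul_snd, smul_eq_mul]
        ring
      rw [h1, hq, zero_add]
      positivity
  · exact ⟨q, Metric.mem_ball_self hr, hq⟩

lemma cr_cont (d x : P) : Continuous (fun q : P => cr d (q - x)) := by
  unfold cr
  fun_prop

lemma good_dense (F : Finset P) :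
    Dense {q : P | ∀ a ∈ F, ∀ b ∈ F, a ≠ b → cr (b - a) (q - a) ≠ 0} := by
  classical
  have h := dense_biInter_of_isOpen (S := (((F ×ˢ F).filter (fun p => p.1 ≠ p.2) : Finset (P × P)) :
      Set (P × P))) (f := fun p => {q : P | cr (p.2 - p.1) (q - p.1) ≠ 0})
    (fun p _ => isOpen_ne_fun (cr_cont _ _) continuous_const) (Finset.countable_toSet _)
    (fun p hp => by
      simp only [Finset.coe_filter, Set.mem_ofPred_eq] at hp
      exact line_dense (sub_ne_zero.2 (Ne.symm hp.2)))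
  refine h.mono ?_
  intro q hq a ha b hb hab
  have := Set.mem_iInter₂.1 hq (a, b) (by
    simp only [Finset.coe_filter, Set.mem_ofPred_eq, Finset.mem_product]
    exact ⟨⟨ha, hb⟩, hab⟩)
  exact this

/-- `TARGET 1`. A point off all lines through two sites lies in a Delaunay triangle. -/
theorem exists_del {N : P → ℝ} (hN : Gau N) (F : Finset P) (p : P) (R : ℝ)
    (hR : ∀ z, N z ≤ 1 → ‖z‖ ≤ R)
    (hcov : ∀ v : P, ‖v - p‖ ≤ R + 1 → ∃ x ∈ F, N (v - x) ≤ 1)
    (hoff : ∀ a ∈ F, ∀ b ∈ F, a ≠ b → cr (b - a) (p - a) ≠ 0) (hpF : p ∉ F) :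
    ∃ v a b c : P, ‖v - p‖ ≤ R + 1 ∧ Del N F v a b c ∧
      ∃ α β γ : ℝ, 0 ≤ α ∧ 0 ≤ β ∧ 0 ≤ γ ∧ α + β + γ = 1 ∧ p = α • a + β • b + γ • c := by
  obtain ⟨v, hv, hp⟩ := exists_center hN F p R hR hcov
  obtain ⟨x0, hx0F, hx0⟩ := hcov v hv
  obtain ⟨ι, hι, z, w, hz, haff, hw, hw1, hsum⟩ := eq_pos_convex_span_of_mem_convexHull hp
  have hzF : ∀ i, z i ∈ F ∧ ∀ y ∈ F, N (v - z i) ≤ N (v - y) := fun i => hz ⟨i, rfl⟩
  have hcard : Fintype.card ι ≤ 3 := by
    have h1 : Fintype.card ι ≤ Module.finrank ℝ P + 1 :=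
      haff.card_le_finrank_succ.trans (Nat.add_le_add_right (Submodule.finrank_le _) 1)
    have h3 : Module.finrank ℝ P = 2 := by simp [P]
    rwa [h3] at h1
  have hcases : Fintype.card ι = 0 ∨ Fintype.card ι = 1 ∨ Fintype.card ι = 2 ∨
      Fintype.card ι = 3 := by omega
  rcases hcases with h | h | h | h
  · exfalso
    have : IsEmpty ι := Fintype.card_eq_zero_iff.1 h
    rw [Finset.univ_eq_empty, Finset.sum_empty] at hw1
    exact zero_ne_one hw1
  · exfalso
    let e : Fin 1 ≃ ι := (Fintype.equivFinOfCardEq h).symm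
    rw [← e.sum_comp, Fin.sum_univ_one] at hw1 hsum
    rw [hw1, one_smul] at hsum
    exact hpF (hsum ▸ (hzF _).1)
  · exfalso
    let e : Fin 2 ≃ ι := (Fintype.equivFinOfCardEq h).symm
    rw [← e.sum_comp, Fin.sum_univ_two] at hw1 hsum
    have hne : z (e 0) ≠ z (e 1) := by
      intro hh
      have := e.injective (haff.injective hh)
      exact absurd this (by decide)
    apply hoff _ (hzF (e 0)).1 _ (hzF (e 1)).1 hne
    have hw0 : w (e 0) = 1 - w (e 1) := by linarith
    rw [← hsum, hw0]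
    simp only [cr, Prod.fst_sub, Prod.snd_sub, Prod.fst_add, Prod.snd_add, Prod.smul_fst,
      Prod.smul_snd, smul_eq_mul]
    ring
  · let e : Fin 3 ≃ ι := (Fintype.equivFinOfCardEq h).symm
    rw [← e.sum_comp, Fin.sum_univ_three] at hw1 hsum
    have haff' : AffineIndependent ℝ (z ∘ e) := haff.comp_embedding e.toEmbedding
    have hinj : Function.Injective (z ∘ e) := haff'.injective
    set a := z (e 0) with ha
    set b := z (e 1) with hb
    set c := z (e 2) with hc
    have hab : a ≠ b := by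
      intro hh
      have := hinj (show (z ∘ e) 0 = (z ∘ e) 1 from hh)
      exact absurd this (by decide)
    have hcr : cr (b - a) (c - a) ≠ 0 := by
      intro hcr
      have hcr' := hcr
      unfold cr at hcr'
      simp only [Prod.fst_sub, Prod.snd_sub] at hcr'
      have h1 := haff'.eq_zero_of_sum_eq_zero (s := Finset.univ)
        (w := ![(b.1 - a.1) - (c.1 - a.1), c.1 - a.1, -(b.1 - a.1)])
        (by rw [Fin.sum_univ_three]; simp)
        (by
          rw [Fin.sum_univ_three]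
          simp only [Function.comp, Matrix.cons_val_zero, Matrix.cons_val_one, Matrix.cons_val]
          rw [← ha, ← hb, ← hc]
          apply Prod.ext
          · simp only [Prod.fst_add, Prod.smul_fst, smul_eq_mul, Prod.fst_zero]
            ring
          · simp only [Prod.snd_add, Prod.smul_snd, smul_eq_mul, Prod.snd_zero]
            linear_combination -hcr')
      have h2 := haff'.eq_zero_of_sum_eq_zero (s := Finset.univ)
        (w := ![(b.2 - a.2) - (c.2 - a.2), c.2 - a.2, -(b.2 - a.2)])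
        (by rw [Fin.sum_univ_three]; simp)
        (by
          rw [Fin.sum_univ_three]
          simp only [Function.comp, Matrix.cons_val_zero, Matrix.cons_val_one, Matrix.cons_val]
          rw [← ha, ← hb, ← hc]
          apply Prod.ext
          · simp only [Prod.fst_add, Prod.smul_fst, smul_eq_mul, Prod.fst_zero]
            linear_combination hcr'
          · simp only [Prod.snd_add, Prod.smul_snd, smul_eq_mul, Prod.snd_zero]
            ring)
      have h3 := h1 2 (Finset.mem_univ _)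
      have h4 := h2 2 (Finset.mem_univ _)
      simp only [Matrix.cons_val] at h3 h4
      apply hab
      exact Prod.ext (by linarith) (by linarith)
    have hNb : N (v - b) = N (v - a) :=
      le_antisymm ((hzF (e 1)).2 a (hzF (e 0)).1) ((hzF (e 0)).2 b (hzF (e 1)).1)
    have hNc : N (v - c) = N (v - a) :=
      le_antisymm ((hzF (e 2)).2 a (hzF (e 0)).1) ((hzF (e 0)).2 c (hzF (e 2)).1)
    have hN1 : N (v - a) ≤ 1 := ((hzF (e 0)).2 x0 hx0F).trans hx0
    rcases lt_or_gt_of_ne hcr with hlt | hgt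
    · refine ⟨v, a, c, b, hv, ⟨(hzF (e 0)).1, (hzF (e 2)).1, (hzF (e 1)).1, hN1, hNc, hNb,
        (hzF (e 0)).2, ?_⟩, w (e 0), w (e 2), w (e 1), (hw _).le, (hw _).le, (hw _).le,
        by linarith, ?_⟩
      · have : cr (c - a) (b - a) = - cr (b - a) (c - a) := by
          simp only [cr, Prod.fst_sub, Prod.snd_sub]; ring
        rw [this]; linarith
      · rw [← hsum]; abel
    · exact ⟨v, a, b, c, hv, ⟨(hzF (e 0)).1, (hzF (e 1)).1, (hzF (e 2)).1, hN1, hNb, hNc,
        (hzF (e 0)).2, hgt⟩, w (e 0), w (e 1), w (e 2), (hw _).le, (hw _).le, (hw _).le,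
        hw1, hsum.symm⟩


/-- `TARGET 2`. Every edge of a Delaunay triangle (in the covered region) has a Delaunay
triangle on the other side. -/
theorem exists_nbr {N : P → ℝ} (hN : Gau N) (F : Finset P) (R : ℝ)
    (hgen : ∀ (v : P) (r : ℝ), (F.filter (fun x => N (v - x) = r)).card ≤ 3)
    (hR : ∀ z, N z ≤ 1 → ‖z‖ ≤ R) (v a b c : P) (hd : Del N F v a b c)
    (hcov : ∀ u : P, ‖u - a‖ ≤ 3 * R + 3 → ∃ x ∈ F, N (u - x) ≤ 1) :
    ∃ v' c' : P, Del N F v' b a c' := by
  classical
  have hN0 : N 0 = 0 := by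
    have := hN.hom 0 0 le_rfl
    simpa using this
  have hR0 : 0 ≤ R := by
    have := hR 0 (by rw [hN0]; norm_num)
    simpa using this
  set m : P := (1 / 2 : ℝ) • a + (1 / 2 : ℝ) • b with hm
  have hva : ‖v - a‖ ≤ R := hR _ hd.2.2.2.1
  have hvb : ‖v - b‖ ≤ R := hR _ (by rw [hd.2.2.2.2.1]; exact hd.2.2.2.1)
  have hma : ‖m - a‖ ≤ R := by
    have h1 : m - a = (1 / 2 : ℝ) • ((v - a) - (v - b)) := by rw [hm]; module
    rw [h1, norm_smul, Real.norm_eq_abs, abs_of_nonneg (by norm_num)]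
    have := norm_sub_le (v - a) (v - b)
    linarith
  have hD : 0 < cr (b - a) (c - a) := hd.2.2.2.2.2.2.2
  -- the finite family of triangles
  set 𝒯 : Set (P × P × P) := {T | T.1 ∈ F ∧ T.2.1 ∈ F ∧ T.2.2 ∈ F ∧
    (∃ v1, Del N F v1 T.1 T.2.1 T.2.2) ∧
    (cr (b - a) (T.1 - a) < 0 ∨ cr (b - a) (T.2.1 - a) < 0 ∨ cr (b - a) (T.2.2 - a) < 0)} with h𝒯
  have hfin : 𝒯.Finite := by
    apply (Finset.finite_toSet (F ×ˢ F ×ˢ F)).subset
    rintro T ⟨h1, h2, h3, -⟩
    simp only [Finset.coe_product, Set.mem_prod, Finset.mem_coe]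
    exact ⟨h1, h2, h3⟩
  have hclosed : IsClosed (⋃ T ∈ 𝒯, tri T) := hfin.isClosed_biUnion fun T _ => tri_closed T
  have hmem : m ∈ ⋃ T ∈ 𝒯, tri T := by
    rw [← hclosed.closure_eq, Metric.mem_closure_iff]
    intro ε hε
    -- a good point near m on the negative side
    set O : Set P := Metric.ball m (min ε 1) ∩ {q | cr (b - a) (q - a) < 0} with hO
    have hOo : IsOpen O := Metric.isOpen_ball.inter
      (isOpen_lt (cr_cont _ _) continuous_const)
    have hOn : O.Nonempty := by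
      -- move from m away from c
      set w : P := m - c with hw
      have hwn : 0 < ‖w‖ + 1 := by positivity
      have hmin : 0 < min ε 1 := lt_min hε one_pos
      refine ⟨m + (min ε 1 / (2 * (‖w‖ + 1))) • w, ?_, ?_⟩
      · rw [Metric.mem_ball, dist_eq_norm, add_sub_cancel_left, norm_smul, Real.norm_eq_abs,
          abs_of_nonneg (by positivity)]
        have : min ε 1 / (2 * (‖w‖ + 1)) * ‖w‖ ≤ min ε 1 / 2 := by
          rw [div_mul_eq_mul_div, div_le_div_iff₀ (by positivity) (by norm_num)]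
          nlinarith [norm_nonneg w]
        linarith
      · show cr (b - a) (m + (min ε 1 / (2 * (‖w‖ + 1))) • w - a) < 0
        have h1 : cr (b - a) (m + (min ε 1 / (2 * (‖w‖ + 1))) • w - a) =
            - (min ε 1 / (2 * (‖w‖ + 1))) * cr (b - a) (c - a) := by
          simp only [cr, hw, hm, Prod.fst_sub, Prod.snd_sub, Prod.fst_add, Prod.snd_add,
            Prod.smul_fst, Prod.smul_snd, smul_eq_mul]
          ring
        rw [h1]
        have : 0 < min ε 1 / (2 * (‖w‖ + 1)) := by positivity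
        nlinarith
    obtain ⟨q, ⟨hqb, hqs⟩, hqg⟩ := (good_dense F).inter_open_nonempty O hOo hOn
    have hqs' : cr (b - a) (q - a) < 0 := hqs
    have hqg' : ∀ a ∈ F, ∀ b ∈ F, a ≠ b → cr (b - a) (q - a) ≠ 0 := hqg
    have hqm : ‖q - m‖ < min ε 1 := by rwa [Metric.mem_ball, dist_eq_norm] at hqb
    have hqm1 : ‖q - m‖ < 1 := hqm.trans_le (min_le_right _ _)
    have hqF : q ∉ F := by
      intro hq
      by_cases h1 : q = a
      · apply hqg' b hd.2.1 q hq (by rw [h1]; exact hd.ne.symm)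
        simp only [cr]; ring
      · apply hqg' a hd.1 q hq (Ne.symm h1)
        simp only [cr]; ring
    obtain ⟨v1, a1, b1, c1, hv1, hd1, α, β, γ, hα, hβ, hγ, hs, hq⟩ := exists_del hN F q R hR
      (by
        intro u hu
        apply hcov
        have e1 : u - a = (u - q) + ((q - m) + (m - a)) := by abel
        rw [e1]
        have n1 := norm_add_le (u - q) ((q - m) + (m - a))
        have n2 := norm_add_le (q - m) (m - a)
        linarith) hqg' hqF
    refine ⟨q, ?_, ?_⟩
    · rw [Set.mem_iUnion₂]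
      refine ⟨(a1, b1, c1), ⟨hd1.1, hd1.2.1, hd1.2.2.1, ⟨v1, hd1⟩, ?_⟩,
        ⟨(α, β, γ), ⟨hα, hβ, hγ, hs⟩, hq.symm⟩⟩
      by_contra hcon
      push Not at hcon
      obtain ⟨k1, k2, k3⟩ := hcon
      have e1 : cr (b - a) (q - a) = α * cr (b - a) (a1 - a) + β * cr (b - a) (b1 - a) +
          γ * cr (b - a) (c1 - a) := by
        rw [hq]
        have hs' : γ = 1 - α - β := by linarith
        subst hs'
        simp only [cr, Prod.fst_sub, Prod.snd_sub, Prod.fst_add, Prod.snd_add,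
            Prod.smul_fst, Prod.smul_snd, smul_eq_mul]
        ring
      have e2 : 0 ≤ cr (b - a) (q - a) := by rw [e1]; positivity
      linarith
    · rw [dist_comm, dist_eq_norm]
      exact hqm.trans_le (min_le_left _ _)
  rw [Set.mem_iUnion₂] at hmem
  obtain ⟨⟨a1, b1, c1⟩, ⟨hT1, hT2, hT3, ⟨v1, hd1⟩, hneg⟩, ⟨⟨α, β, γ⟩, ⟨hα, hβ, hγ, hs⟩, hq⟩⟩ := hmem
  exact finish hN hgen hd hd1 hα hβ hγ hs hq.symm hneg




end Pool.Agent.Helper484.Crit.FH
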