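import Pool.Agent.Helper484.Crit.Base
import Pool.Agent.Helper484.Crit.FA3

set_option autoImplicit false

namespace Pool.Agent.Helper484.Crit.FI

open Pool.Agent.Helper484.Crit Pool.Agent.Helper484.Crit.FA3

open MeasureTheory Set Filter Topology
open scoped ENNReal Pointwise

/-- `TARGET 1`. Two Delaunay triangles with a common point that is interior to the first have the
same centre. -/
theorem del_center_eq {N : P → ℝ} (hN : Gau N) {F : Finset P} {v v' a b c a' b' c' p : P}
    {α β γ α' β' γ' : ℝ} (hd : Del N F v a b c) (hd' : Del N F v' a' b' c')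
    (hα : 0 < α) (hβ : 0 < β) (hγ : 0 < γ) (hs : α + β + γ = 1)
    (hp : p = α • a + β • b + γ • c)
    (hα' : 0 ≤ α') (hβ' : 0 ≤ β') (hγ' : 0 ≤ γ') (hs' : α' + β' + γ' = 1)
    (hp' : p = α' • a' + β' • b' + γ' • c') : v = v' := by
  by_contra hne
  obtain ⟨h1, h2, h3, h4, h5, h6, h7, h8⟩ := hd
  obtain ⟨k1, k2, k3, k4, k5, k6, k7, k8⟩ := hd'
  exact sep hN (Or.inl hne) (le_refl (N (v - a))) h5.le h6.le (le_refl (N (v' - a'))) k5.le k6.le
    (k7 a h1) (k7 b h2) (k7 c h3) (h7 a' k1) (h7 b' k2) (h7 c' k3) h8.ne' k8.ne'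
    hα hβ hγ hs hp hα' hβ' hγ' hs' hp'

lemma cr_distinct {a b c : P} (h : 0 < cr (b - a) (c - a)) : a ≠ b ∧ a ≠ c ∧ b ≠ c := by
  refine ⟨?_, ?_, ?_⟩
  · rintro rfl
    simp [cr] at h
  · rintro rfl
    simp [cr] at h
  · rintro rfl
    unfold cr at h
    linarith

/-- the points on the circle are the three vertices -/
lemma del_filter {N : P → ℝ} {F : Finset P}
    (hgen : ∀ (v : P) (r : ℝ), (F.filter (fun x => N (v - x) = r)).card ≤ 3)
    {v a b c x : P} (hd : Del N F v a b c) (hx : x ∈ F) (hxr : N (v - x) = N (v - a)) :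
    x = a ∨ x = b ∨ x = c := by
  obtain ⟨h1, h2, h3, h4, h5, h6, h7, h8⟩ := hd
  obtain ⟨d1, d2, d3⟩ := cr_distinct h8
  by_contra hcon
  push Not at hcon
  obtain ⟨c1, c2, c3⟩ := hcon
  have hsub : ({x, a, b, c} : Finset P) ⊆ F.filter (fun y => N (v - y) = N (v - a)) := by
    intro y hy
    simp only [Finset.mem_insert, Finset.mem_singleton] at hy
    rw [Finset.mem_filter]
    rcases hy with rfl | rfl | rfl | rfl
    · exact ⟨hx, hxr⟩
    · exact ⟨h1, rfl⟩
    · exact ⟨h2, h5⟩
    · exact ⟨h3, h6⟩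
  have h9 := Finset.card_le_card hsub
  have h10 : ({x, a, b, c} : Finset P).card = 4 := by
    rw [Finset.card_insert_of_notMem, Finset.card_insert_of_notMem, Finset.card_insert_of_notMem,
      Finset.card_singleton]
    · simp [d3]
    · simp [d1, d2]
    · simp [c1, c2, c3]
  have := hgen v (N (v - a))
  omega

/-- `TARGET 2`. The third vertex on the left side of a directed edge is unique, and so is the
centre. -/
theorem del_unique {N : P → ℝ} (hN : Gau N) {F : Finset P}
    (hgen : ∀ (v : P) (r : ℝ), (F.filter (fun x => N (v - x) = r)).card ≤ 3)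
    {v v' a b c c' : P} (hd : Del N F v a b c) (hd' : Del N F v' a b c') : v = v' ∧ c = c' := by
  have hv : v = v' := by
    have hD := hd.2.2.2.2.2.2.2
    have hD' := hd'.2.2.2.2.2.2.2
    set D := cr (b - a) (c - a) with hDd
    set D' := cr (b - a) (c' - a) with hDd'
    set y := cr (c - a) (c' - a) / D' with hy
    set z := D / D' with hz
    set x := 1 - y - z with hx
    have hz0 : 0 < z := div_pos hD hD'
    have hc : c = x • a + y • b + z • c' := by
      have hD'0 : D' ≠ 0 := hD'.ne'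
      ext
      · simp only [Prod.fst_add, Prod.smul_fst, smul_eq_mul, hx, hy, hz]
        field_simp
        simp only [hDd, hDd', cr, Prod.fst_sub, Prod.snd_sub]
        ring
      · simp only [Prod.snd_add, Prod.smul_snd, smul_eq_mul, hx, hy, hz]
        field_simp
        simp only [hDd, hDd', cr, Prod.fst_sub, Prod.snd_sub]
        ring
    set t : ℝ := 1 / (2 + 2 * |x| + 2 * |y|) with ht
    have hden : 0 < 2 + 2 * |x| + 2 * |y| := by positivity
    have ht0 : 0 < t := by positivity
    have htd : t * (2 + 2 * |x| + 2 * |y|) = 1 := by rw [ht]; field_simp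
    have hx1 := neg_abs_le x
    have hy1 := neg_abs_le y
    have hxp := mul_nonneg ht0.le (abs_nonneg x)
    have hyp := mul_nonneg ht0.le (abs_nonneg y)
    have e1 : -(t * |x|) ≤ t * x := by nlinarith
    have e2 : -(t * |y|) ≤ t * y := by nlinarith
    have ht1 : t < 1 := by nlinarith
    refine del_center_eq hN hd hd' (p := ((1 - t) / 2) • a + ((1 - t) / 2) • b + t • c)
      (α := (1 - t) / 2) (β := (1 - t) / 2) (γ := t) (α' := (1 - t) / 2 + t * x)
      (β' := (1 - t) / 2 + t * y) (γ' := t * z) (by linarith) (by linarith) ht0 (by ring) rfl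
      (by nlinarith) (by nlinarith) (by positivity) (by rw [hx]; ring) ?_
    nth_rewrite 1 [hc]
    module
  refine ⟨hv, ?_⟩
  subst hv
  obtain ⟨h1, h2, h3, h4, h5, h6, h7, h8⟩ := id hd'
  obtain ⟨d1, d2, d3⟩ := cr_distinct h8
  rcases del_filter hgen hd h3 h6 with h | h | h
  · exact absurd h.symm d2
  · exact absurd h.symm d3
  · exact h.symm

/-- `TARGET 3`. Rotation of the vertices. -/
theorem del_rot {N : P → ℝ} {F : Finset P} {v a b c : P} (hd : Del N F v a b c) :
    Del N F v b c a := by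
  obtain ⟨h1, h2, h3, h4, h5, h6, h7, h8⟩ := hd
  refine ⟨h2, h3, h1, by rw [h5]; exact h4, by rw [h6, h5], h5.symm, ?_, ?_⟩
  · intro x hx
    rw [h5]; exact h7 x hx
  · have : cr (c - b) (a - b) = cr (b - a) (c - a) := by
      simp only [cr, Prod.fst_sub, Prod.snd_sub]
      ring
    rw [this]; exact h8

lemma wedge_coord {a b c w : P} (hD : 0 < cr (b - a) (c - a)) (δ : ℝ) :
    a + δ • w = (1 - δ * cr w (c - a) / cr (b - a) (c - a) - δ * cr (b - a) w / cr (b - a) (c - a)) • a
      + (δ * cr w (c - a) / cr (b - a) (c - a)) • b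
      + (δ * cr (b - a) w / cr (b - a) (c - a)) • c := by
  have hD0 := hD.ne'
  set D := cr (b - a) (c - a) with hDd
  ext
  · simp only [Prod.fst_add, Prod.smul_fst, smul_eq_mul]
    field_simp
    simp only [hDd, cr, Prod.fst_sub, Prod.snd_sub]
    ring
  · simp only [Prod.snd_add, Prod.smul_snd, smul_eq_mul]
    field_simp
    simp only [hDd, cr, Prod.fst_sub, Prod.snd_sub]
    ring

/-- two Delaunay triangles at `a` whose wedges contain a common direction are equal -/
lemma del_wedge {N : P → ℝ} (hN : Gau N) {F : Finset P}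
    (hgen : ∀ (v : P) (r : ℝ), (F.filter (fun x => N (v - x) = r)).card ≤ 3)
    {v v' a b c b' c' w : P} (hd : Del N F v a b c) (hd' : Del N F v' a b' c')
    (h1 : 0 < cr w (c - a)) (h2 : 0 < cr (b - a) w) (h1' : 0 < cr w (c' - a))
    (h2' : 0 < cr (b' - a) w) : b = b' ∧ c = c' := by
  have hv : v = v' := by
    have hD := hd.2.2.2.2.2.2.2
    have hD' := hd'.2.2.2.2.2.2.2
    set D := cr (b - a) (c - a) with hDd
    set D' := cr (b' - a) (c' - a) with hDd'
    set A := cr w (c - a) / D with hA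
    set B := cr (b - a) w / D with hB
    set A' := cr w (c' - a) / D' with hA'
    set B' := cr (b' - a) w / D' with hB'
    have A0 : 0 < A := div_pos h1 hD
    have B0 : 0 < B := div_pos h2 hD
    have A0' : 0 < A' := div_pos h1' hD'
    have B0' : 0 < B' := div_pos h2' hD'
    set δ : ℝ := 1 / (1 + A + B + A' + B') with hδ
    have hδ0 : 0 < δ := by positivity
    have hδ1 : δ * (1 + A + B + A' + B') = 1 := by rw [hδ]; field_simp
    have e := wedge_coord (w := w) hD δ
    have e' := wedge_coord (w := w) hD' δ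
    rw [← hDd, mul_div_assoc, mul_div_assoc, ← hA, ← hB] at e
    rw [← hDd', mul_div_assoc, mul_div_assoc, ← hA', ← hB'] at e'
    have p1 : 0 < δ * A := by positivity
    have p2 : 0 < δ * B := by positivity
    have p3 : 0 < δ * A' := by positivity
    have p4 : 0 < δ * B' := by positivity
    refine del_center_eq hN hd hd' (p := a + δ • w) (by nlinarith) p1 p2 (by ring) e
      (by nlinarith) p3.le p4.le (by ring) e'
  subst hv
  obtain ⟨k1, k2, k3, k4, k5, k6, k7, k8⟩ := id hd'
  obtain ⟨d1, d2, d3⟩ := cr_distinct k8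
  have hb : b = b' := by
    rcases del_filter hgen hd k2 k5 with h | h | h
    · exact absurd h.symm d1
    · exact h.symm
    · exfalso
      rw [h] at h2'
      have : cr (c - a) w = - cr w (c - a) := by unfold cr; ring
      linarith
  have hc : c = c' := by
    rcases del_filter hgen hd k3 k6 with h | h | h
    · exact absurd h.symm d2
    · exfalso
      rw [h] at h1'
      have : cr w (b - a) = - cr (b - a) w := by unfold cr; ring
      linarith
    · exact h.symm
  exact ⟨hb, hc⟩

/-- `TARGET 4`. Each site is the middle vertex of at most two Delaunay triangles. -/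
theorem del_count {N : P → ℝ} (hN : Gau N) {F F' : Finset P}
    (hx : ∀ a ∈ F, ∀ b ∈ F, a.1 = b.1 → a = b)
    (hgen : ∀ (v : P) (r : ℝ), (F.filter (fun x => N (v - x) = r)).card ≤ 3)
    (T : Finset (P × P × P))
    (hT : ∀ t ∈ T, t.1 ∈ F' ∧ (∃ v, Del N F v t.1 t.2.1 t.2.2) ∧
      ((t.2.1.1 < t.1.1 ∧ t.1.1 < t.2.2.1) ∨ (t.2.2.1 < t.1.1 ∧ t.1.1 < t.2.1.1))) :
    T.card ≤ 2 * F'.card := by
  classical
  have h1 : (T.filter (fun t => t.2.1.1 < t.1.1 ∧ t.1.1 < t.2.2.1)).card ≤ F'.card := by
    apply Finset.card_le_card_of_injOn Prod.fst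
    · intro t ht
      rw [Finset.mem_coe, Finset.mem_filter] at ht
      exact (hT t ht.1).1
    · rintro ⟨a, b, c⟩ ht ⟨a', b', c'⟩ ht' (haa : a = a')
      subst haa
      rw [Finset.mem_coe, Finset.mem_filter] at ht ht'
      obtain ⟨v, hv⟩ := (hT _ ht.1).2.1
      obtain ⟨v', hv'⟩ := (hT _ ht'.1).2.1
      obtain ⟨_, g1, g2⟩ := ht
      obtain ⟨_, g1', g2'⟩ := ht'
      simp only at hv hv' g1 g2 g1' g2'
      obtain ⟨e1, e2⟩ := del_wedge hN hgen (w := ((0 : ℝ), (-1 : ℝ))) hv hv'
        (by simp only [cr, Prod.fst_sub, Prod.snd_sub]; linarith)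
        (by simp only [cr, Prod.fst_sub, Prod.snd_sub]; linarith)
        (by simp only [cr, Prod.fst_sub, Prod.snd_sub]; linarith)
        (by simp only [cr, Prod.fst_sub, Prod.snd_sub]; linarith)
      rw [e1, e2]
  have h2 : (T.filter (fun t => ¬ (t.2.1.1 < t.1.1 ∧ t.1.1 < t.2.2.1))).card ≤ F'.card := by
    apply Finset.card_le_card_of_injOn Prod.fst
    · intro t ht
      rw [Finset.mem_coe, Finset.mem_filter] at ht
      exact (hT t ht.1).1
    · rintro ⟨a, b, c⟩ ht ⟨a', b', c'⟩ ht' (haa : a = a')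
      subst haa
      rw [Finset.mem_coe, Finset.mem_filter] at ht ht'
      obtain ⟨v, hv⟩ := (hT _ ht.1).2.1
      obtain ⟨v', hv'⟩ := (hT _ ht'.1).2.1
      have g := (hT _ ht.1).2.2.resolve_left ht.2
      have g' := (hT _ ht'.1).2.2.resolve_left ht'.2
      obtain ⟨g1, g2⟩ := g
      obtain ⟨g1', g2'⟩ := g'
      simp only at hv hv' g1 g2 g1' g2'
      obtain ⟨e1, e2⟩ := del_wedge hN hgen (w := ((0 : ℝ), (1 : ℝ))) hv hv'
        (by simp only [cr, Prod.fst_sub, Prod.snd_sub]; linarith)
        (by simp only [cr, Prod.fst_sub, Prod.snd_sub]; linarith)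
        (by simp only [cr, Prod.fst_sub, Prod.snd_sub]; linarith)
        (by simp only [cr, Prod.fst_sub, Prod.snd_sub]; linarith)
      rw [e1, e2]
  have h3 := Finset.card_filter_add_card_filter_not (s := T)
    (fun t => t.2.1.1 < t.1.1 ∧ t.1.1 < t.2.2.1)
  omega



end Pool.Agent.Helper484.Crit.FI
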