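import Pool.Agent.Helper484.Crit.Base
import Pool.Agent.Helper484.Crit.FE
import Pool.Agent.Helper484.Crit.FF
import Pool.Agent.Helper484.Crit.FG

set_option autoImplicit false

namespace Pool.Agent.Helper484.Crit.FJ

open Pool.Agent.Helper484.Crit Pool.Agent.Helper484.Crit.FE Pool.Agent.Helper484.Crit.FF Pool.Agent.Helper484.Crit.FG

open MeasureTheory Set Filter Topology
open scoped ENNReal Pointwise




theorem rot_continuous (c s : ℝ) : Continuous (rot c s) :=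
  LinearMap.continuous_of_finiteDimensional _

theorem image_sub_eq (p : P) (S : Set P) : (fun z => z - p) '' S = (fun z => z + p) ⁻¹' S := by
  ext z
  constructor
  · rintro ⟨w, hw, rfl⟩
    simpa using hw
  · intro hz
    exact ⟨z + p, hz, by simp⟩

theorem volume_rot_sub (c s : ℝ) (h : c ^ 2 + s ^ 2 = 1) (p : P) (S : Set P) :
    volume ((fun z => rot c s (z - p)) '' S) = volume S := by
  have h1 : (fun z => rot c s (z - p)) '' S = rot c s '' ((fun z => z - p) '' S) := by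
    rw [image_image]
  rw [h1, volume_rot c s h, image_sub_eq, measure_preimage_add_right]

theorem image_add_eq (c s : ℝ) (p : P) (D K : Set P) (θ : ℝ) :
    (fun z => rot c s (z - p)) '' (D + θ • K) =
      (fun z => rot c s (z - p)) '' D + θ • (rot c s '' K) := by
  ext w
  constructor
  · rintro ⟨z, hz, rfl⟩
    obtain ⟨d, hd, e, he, rfl⟩ := Set.mem_add.mp hz
    obtain ⟨k, hk, rfl⟩ := Set.mem_smul_set.mp he
    refine Set.mem_add.mpr ⟨_, ⟨d, hd, rfl⟩, θ • rot c s k,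
      Set.mem_smul_set.mpr ⟨_, ⟨k, hk, rfl⟩, rfl⟩, ?_⟩
    simp only [map_sub, map_add, map_smul]
    abel
  · intro hw
    obtain ⟨d', ⟨d, hd, rfl⟩, e, he, rfl⟩ := Set.mem_add.mp hw
    obtain ⟨k', ⟨k, hk, rfl⟩, rfl⟩ := Set.mem_smul_set.mp he
    refine ⟨d + θ • k, Set.mem_add.mpr ⟨d, hd, _, Set.mem_smul_set.mpr ⟨k, hk, rfl⟩, rfl⟩, ?_⟩
    simp only [map_sub, map_add, map_smul]
    abel

theorem convex_image (c s : ℝ) (p : P) (D : Set P) (hD : Convex ℝ D) :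
    Convex ℝ ((fun z => rot c s (z - p)) '' D) := by
  rintro _ ⟨u, hu, rfl⟩ _ ⟨v, hv, rfl⟩ a b ha hb hab
  refine ⟨a • u + b • v, hD hu hv ha hb hab, ?_⟩
  have h : a • u + b • v - p = a • (u - p) + b • (v - p) := by
    have h0 : p = a • p + b • p := by rw [← add_smul, hab, one_smul]
    calc a • u + b • v - p = a • u + b • v - (a • p + b • p) := by rw [← h0]
      _ = _ := by rw [smul_sub, smul_sub]; abel
  show rot c s (a • u + b • v - p) = _
  rw [h, map_add, map_smul, map_smul]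

theorem volume_covered (K : Set P) (hK : IsCompact K) (n : ℕ) (D : Set P) (h : CoveredBy K n D) :
    volume D ≤ ENNReal.ofReal (n * (volume K).toReal) := by
  obtain ⟨x, hx⟩ := h
  have h1 : D ⊆ ⋃ i : Fin n, (fun z => z + (-x i)) ⁻¹' K := by
    intro z hz
    obtain ⟨i, hi⟩ := hx z hz
    refine mem_iUnion.mpr ⟨i, ?_⟩
    rw [mem_preimage, ← sub_eq_add_neg]
    exact hi
  refine le_trans (measure_mono h1) (le_trans (measure_iUnion_fintype_le _ _) ?_)
  simp only [measure_preimage_add_right, Finset.sum_const, Finset.card_univ, Fintype.card_fin]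
  rw [ENNReal.ofReal_mul (Nat.cast_nonneg n), ENNReal.ofReal_natCast,
    ENNReal.ofReal_toReal hK.measure_lt_top.ne, nsmul_eq_mul]

theorem height_bound (D : Set P) (hDc : Convex ℝ D) (L V : ℝ) (hL : 0 ≤ L) (hV : 0 ≤ V)
    (h0 : ((0, 0) : P) ∈ D) (hLD : ((L, 0) : P) ∈ D) (hvol : volume D ≤ ENNReal.ofReal V)
    (hy : ∀ z ∈ D, |z.2| ≤ L) : ∀ z ∈ D, |z.2| ≤ √(2 * V) := by
  intro z hz
  have h1 : convexHull ℝ {((0, 0) : P), (L, 0), z} ⊆ D := by
    apply convexHull_min _ hDc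
    intro w hw
    rcases hw with rfl | rfl | rfl
    · exact h0
    · exact hLD
    · exact hz
  have h2 := le_trans (measure_mono h1) hvol
  rw [volume_triangle] at h2
  have h3 := (ENNReal.ofReal_le_ofReal_iff hV).mp h2
  have h4 : cr (((L, 0) : P) - (0, 0)) (z - (0, 0)) = L * z.2 := by
    simp [cr]
  rw [h4, abs_mul, abs_of_nonneg hL] at h3
  apply Real.le_sqrt_of_sq_le
  have h5 := hy z hz
  have h6 := abs_nonneg z.2
  nlinarith

theorem sqrt_est (A B ε : ℝ) (hA : 0 ≤ A) (hB : 0 ≤ B) (hε : 0 < ε) :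
    ∃ n₀ : ℕ, ∀ n : ℕ, n₀ ≤ n → A * √n + B ≤ ε * n := by
  obtain ⟨N, hN⟩ := exists_nat_ge (((A + B) / ε) ^ 2)
  refine ⟨max N 1, ?_⟩
  intro n hn
  have hn1 : (1 : ℝ) ≤ n := by exact_mod_cast le_trans (le_max_right _ _) hn
  have hnN : (N : ℝ) ≤ n := by exact_mod_cast le_trans (le_max_left _ _) hn
  have h1 : (A + B) / ε ≤ √n := Real.le_sqrt_of_sq_le (le_trans hN hnN)
  have h2 : 1 ≤ √(n : ℝ) := Real.one_le_sqrt.mpr hn1
  have h3 : √(n : ℝ) * √n = n := Real.mul_self_sqrt (by linarith)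
  rw [div_le_iff₀ hε] at h1
  have h4 : (A + B) * √n ≤ √n * ε * √n := mul_le_mul_of_nonneg_right h1 (by linarith)
  have h5 : √(n : ℝ) * ε * √n = ε * n := by rw [mul_right_comm, h3, mul_comm]
  nlinarith

theorem rect_sum (K1 : Set P) (n m : ℕ) (z : Fin n → P) (D1 : Set P)
    (hcov : ∀ w ∈ D1, ∃ i, w - z i ∈ K1) (κ l M : ℝ) (hM : 0 < M) (hMl : M + 2 * κ + 1 ≤ l)
    (hκ : 0 ≤ κ) (hKx : ∀ w ∈ K1, |w.1| ≤ κ) (lo hi : ℕ → ℝ) (θ ρ h₁ h₂ : ℝ)
    (hR : ∀ k < m, lo k ≤ 0 ∧ 0 ≤ hi k ∧ ∀ x ∈ Icc ((k : ℝ) * l) (((k : ℝ) + 1) * l),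
        ∀ y ∈ Icc (lo k) (hi k), ((x, y) : P) ∈ D1)
    (hrate : ∀ (M w x₀ y₀ : ℝ) (n : ℕ) (z : Fin n → P), 0 < M → 0 ≤ w →
        (∀ x ∈ Icc x₀ (x₀ + M), ∀ y ∈ Icc y₀ (y₀ + w), ∃ i, ((x, y) : P) - z i ∈ K1) →
        M * (w + θ * (h₁ + h₂)) ≤ ρ * n) (hρ : 0 ≤ ρ) :
    ∑ k ∈ Finset.range m, M * (hi k - lo k + θ * (h₁ + h₂)) ≤ ρ * n := by
  classical
  set I : ℕ → Finset (Fin n) := fun k => Finset.univ.filter (fun i : Fin n =>
    ∃ x ∈ Icc ((k : ℝ) * l) ((k : ℝ) * l + M), ∃ y ∈ Icc (lo k) (hi k), ((x, y) : P) - z i ∈ K1)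
    with hI
  have h1 : ∀ k ∈ Finset.range m, M * (hi k - lo k + θ * (h₁ + h₂)) ≤ ρ * ((I k).card : ℝ) := by
    intro k hk
    rw [Finset.mem_range] at hk
    obtain ⟨hlo, hhi, hkD⟩ := hR k hk
    refine hrate M (hi k - lo k) ((k : ℝ) * l) (lo k) (I k).card
      (fun j => z ((I k).equivFin.symm j)) hM (by linarith) ?_
    intro x hx y hy
    have hy' : y ∈ Icc (lo k) (hi k) := ⟨hy.1, by linarith [hy.2]⟩
    have hxD : x ∈ Icc ((k : ℝ) * l) (((k : ℝ) + 1) * l) := ⟨hx.1, by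
      have := hx.2
      linarith⟩
    obtain ⟨i, hi'⟩ := hcov _ (hkD x hxD y hy')
    have hiI : i ∈ I k := by
      rw [hI]
      simp only [Finset.mem_filter, Finset.mem_univ, true_and]
      exact ⟨x, hx, y, hy', hi'⟩
    refine ⟨(I k).equivFin ⟨i, hiI⟩, ?_⟩
    simp only [Equiv.symm_apply_apply]
    exact hi'
  refine le_trans (Finset.sum_le_sum h1) ?_
  rw [← Finset.mul_sum]
  apply mul_le_mul_of_nonneg_left _ hρ
  have hlpos : 0 < l := by linarith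
  have hdisj : Set.PairwiseDisjoint (Finset.range m : Set ℕ) I := by
    have key : ∀ k j : ℕ, k < j → Disjoint (I k) (I j) := by
      intro k j hkj
      rw [Finset.disjoint_left]
      intro i hik hij
      rw [hI] at hik hij
      simp only [Finset.mem_filter, Finset.mem_univ, true_and] at hik hij
      obtain ⟨x, hx, y, -, hxy⟩ := hik
      obtain ⟨x', hx', y', -, hxy'⟩ := hij
      have h2 := abs_le.mp (hKx _ hxy)
      have h3 := abs_le.mp (hKx _ hxy')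
      simp only [Prod.fst_sub] at h2 h3
      have h4 : ((k : ℝ) + 1) ≤ j := by exact_mod_cast hkj
      have h5 : ((k : ℝ) + 1) * l ≤ j * l := mul_le_mul_of_nonneg_right h4 hlpos.le
      have h6 := hx.2
      have h7 := hx'.1
      linarith [h2.1, h2.2, h3.1, h3.2]
    intro k _ j _ hkj
    rcases lt_or_gt_of_ne hkj with h | h
    · exact key k j h
    · exact (key j k h).symm
  have h2 := Finset.card_biUnion (s := Finset.range m) (t := I) (by
    intro a ha b hb hab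
    exact hdisj ha hb hab)
  have h3 : ((Finset.range m).biUnion I).card ≤ n := by
    have := Finset.card_le_univ ((Finset.range m).biUnion I)
    simpa using this
  rw [h2] at h3
  exact_mod_cast h3

/-- TARGET. From bounds for rectangles to bounds for arbitrary convex sets. -/
theorem assemble (K : Set P) (hK : IsCompact K) (hKc : Convex ℝ K) (hK0 : (0 : P) ∈ K)
    (θ ρ κ : ℝ) (hθ : 0 ≤ θ) (hρ : 0 ≤ ρ)
    (hκ : ∀ c s : ℝ, c ^ 2 + s ^ 2 = 1 → ∀ z ∈ rot c s '' K, |z.1| ≤ κ ∧ |z.2| ≤ κ)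
    (hrate : ∀ c s : ℝ, c ^ 2 + s ^ 2 = 1 → ∃ h₁ h₂ : ℝ, h₁ ≤ κ ∧ h₂ ≤ κ ∧
      (∀ z ∈ rot c s '' K, -h₁ ≤ z.2 ∧ z.2 ≤ h₂) ∧
      ∀ (M w x₀ y₀ : ℝ) (n : ℕ) (z : Fin n → P), 0 < M → 0 ≤ w →
        (∀ x ∈ Icc x₀ (x₀ + M), ∀ y ∈ Icc y₀ (y₀ + w), ∃ i, ((x, y) : P) - z i ∈ rot c s '' K) →
        M * (w + θ * (h₁ + h₂)) ≤ ρ * n)
    (ε : ℝ) (hε : 0 < ε) :
    ∃ n₀ : ℕ, ∀ n ≥ n₀, ∀ D : Set P, IsCompact D → Convex ℝ D → CoveredBy K n D →
      volume (D + θ • K) ≤ ENNReal.ofReal ((ρ + ε) * n) := by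
  have h0img : ∀ c s : ℝ, (0 : P) ∈ rot c s '' K := fun c s => ⟨0, hK0, map_zero _⟩
  have hκ0 : 0 ≤ κ := by
    have := (hκ 1 0 (by norm_num) 0 (h0img 1 0)).1
    simpa using this
  set V : ℝ := (volume K).toReal with hV
  have hV0 : 0 ≤ V := ENNReal.toReal_nonneg
  set M : ℝ := 1 + 2 * (2 * κ + 1) * ρ / ε with hM
  have hM1 : 1 ≤ M := by
    have : 0 ≤ 2 * (2 * κ + 1) * ρ / ε := by positivity
    linarith
  have hM0 : 0 < M := by linarith
  have hMε : (2 * κ + 1) * ρ ≤ ε / 2 * M := by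
    have h1 : ε / 2 * M = ε / 2 + (2 * κ + 1) * ρ := by
      rw [hM]; field_simp
    rw [h1]; linarith
  set l : ℝ := M + 2 * κ + 1 with hl
  have hl0 : 0 < l := by linarith
  obtain ⟨n₀, hn₀⟩ := sqrt_est (2 * (l + θ * κ) * (2 * √(2 * V))) (2 * (l + θ * κ) * (2 * θ * κ))
    (ε / 2) (by positivity) (by positivity) (by positivity)
  refine ⟨n₀, ?_⟩
  intro n hn D hD hDc hcov
  rcases D.eq_empty_or_nonempty with hDe | hDne
  · rw [hDe, Set.empty_add, measure_empty]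
    exact bot_le
  obtain ⟨c, s, L, p, hp, hcs, hL, hLD, hxy⟩ := exists_rot D hD hDne
  set D1 : Set P := (fun z => rot c s (z - p)) '' D with hD1
  set K1 : Set P := rot c s '' K with hK1
  have hD1c : IsCompact D1 :=
    hD.image ((rot_continuous c s).comp (continuous_id.sub continuous_const))
  have hD1x : Convex ℝ D1 := convex_image c s p D hDc
  have hK1c : IsCompact K1 := hK.image (rot_continuous c s)
  have hK1x : Convex ℝ K1 := hKc.linear_image _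
  have hvolD : volume (D + θ • K) = volume (D1 + θ • K1) := by
    rw [hD1, hK1, ← image_add_eq, volume_rot_sub c s hcs]
  have hvolD1 : volume D1 ≤ ENNReal.ofReal (n * V) := by
    rw [hD1, volume_rot_sub c s hcs]
    exact volume_covered K hK n D hcov
  have h00 : ((0, 0) : P) ∈ D1 := ⟨p, hp, by
    show rot c s (p - p) = _
    rw [sub_self, map_zero]; rfl⟩
  have hY : ∀ z ∈ D1, |z.2| ≤ √(2 * (n * V)) :=
    height_bound D1 hD1x L (n * V) hL (by positivity) h00 hLD hvolD1 (fun z hz => (hxy z hz).2.2)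
  obtain ⟨h₁, h₂, hh1, hh2, hK1y, hr⟩ := hrate c s hcs
  have h12 := hK1y 0 (h0img c s)
  simp only [Prod.snd_zero] at h12
  obtain ⟨m, lo, hi, hm, hR, hvol⟩ := slab D1 K1 hD1c hD1x hK1c hK1x (h0img c s) L
    (√(2 * (n * V))) κ h₁ h₂ θ l hL hl0 hθ h00 hLD (fun z hz => ⟨(hxy z hz).1, (hxy z hz).2.1⟩) hY
    (fun z hz => (hκ c s hcs z hz).1) hK1y
  have hcov1 : ∃ z : Fin n → P, ∀ w ∈ D1, ∃ i, w - z i ∈ K1 := by
    obtain ⟨x, hx⟩ := hcov
    refine ⟨fun i => rot c s (x i - p), ?_⟩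
    rintro _ ⟨u, hu, rfl⟩
    obtain ⟨i, hi'⟩ := hx u hu
    refine ⟨i, u - x i, hi', ?_⟩
    simp only [map_sub]
    abel
  obtain ⟨z, hz⟩ := hcov1
  have hsum := rect_sum K1 n m z D1 hz κ l M hM0 le_rfl hκ0 (fun w hw => (hκ c s hcs w hw).1)
    lo hi θ ρ h₁ h₂ hR hr hρ
  rw [hvolD]
  refine le_trans hvol (ENNReal.ofReal_le_ofReal ?_)
  have hn0 : (0 : ℝ) ≤ n := Nat.cast_nonneg n
  have hs1 : ∑ k ∈ Finset.range m, l * (hi k - lo k + θ * (h₁ + h₂)) ≤ (ρ + ε / 2) * n := by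
    have e1 : ∑ k ∈ Finset.range m, l * (hi k - lo k + θ * (h₁ + h₂)) =
        l / M * ∑ k ∈ Finset.range m, M * (hi k - lo k + θ * (h₁ + h₂)) := by
      rw [Finset.mul_sum]
      apply Finset.sum_congr rfl
      intro k _
      field_simp
    rw [e1]
    have e2 : l / M * ∑ k ∈ Finset.range m, M * (hi k - lo k + θ * (h₁ + h₂)) ≤
        l / M * (ρ * n) := mul_le_mul_of_nonneg_left hsum (by positivity)
    refine le_trans e2 ?_
    rw [div_mul_eq_mul_div, div_le_iff₀ hM0]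
    have e3 : l * ρ ≤ (ρ + ε / 2) * M := by
      rw [hl]; linarith
    have e4 := mul_le_mul_of_nonneg_right e3 hn0
    linarith
  have hs2 : 2 * (l + θ * κ) * (2 * √(2 * (n * V)) + θ * (h₁ + h₂)) ≤ ε / 2 * n := by
    have e1 : √(2 * (n * V)) = √(2 * V) * √(n : ℝ) := by
      rw [← Real.sqrt_mul (by positivity)]
      congr 1; ring
    have e2 : θ * (h₁ + h₂) ≤ 2 * θ * κ := by
      have := mul_le_mul_of_nonneg_left (show h₁ + h₂ ≤ 2 * κ by linarith) hθ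
      linarith
    have e3 := hn₀ n hn
    refine le_trans ?_ e3
    rw [e1]
    have e4 : 2 * (l + θ * κ) * (2 * (√(2 * V) * √(n : ℝ)) + θ * (h₁ + h₂)) ≤
        2 * (l + θ * κ) * (2 * (√(2 * V) * √(n : ℝ)) + 2 * θ * κ) :=
      mul_le_mul_of_nonneg_left (by linarith) (by positivity)
    linarith
  linarith



end Pool.Agent.Helper484.Crit.FJ
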