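import Pool.Agent.Helper484.Crit.Base
import Pool.Agent.Helper484.Crit.FI
import Pool.Agent.Helper484.Crit.FH
import Pool.Agent.Helper484.Crit.FG

set_option autoImplicit false

namespace Pool.Agent.Helper484.Crit.FS

open Pool.Agent.Helper484.Crit Pool.Agent.Helper484.Crit.FI Pool.Agent.Helper484.Crit.FH
  Pool.Agent.Helper484.Crit.FG

open MeasureTheory Set Filter Topology
open scoped ENNReal Pointwise

theorem abs_cr_le (x y : P) : |cr x y| ≤ 2 * ‖x‖ * ‖y‖ := by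
  have h1 : |x.1| ≤ ‖x‖ := by rw [Prod.norm_def]; exact le_max_left _ _
  have h2 : |x.2| ≤ ‖x‖ := by rw [Prod.norm_def]; exact le_max_right _ _
  have h3 : |y.1| ≤ ‖y‖ := by rw [Prod.norm_def]; exact le_max_left _ _
  have h4 : |y.2| ≤ ‖y‖ := by rw [Prod.norm_def]; exact le_max_right _ _
  unfold cr
  calc |x.1 * y.2 - x.2 * y.1| ≤ |x.1 * y.2| + |x.2 * y.1| := abs_sub _ _
    _ = |x.1| * |y.2| + |x.2| * |y.1| := by rw [abs_mul, abs_mul]
    _ ≤ ‖x‖ * ‖y‖ + ‖x‖ * ‖y‖ := by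
        gcongr
    _ = 2 * ‖x‖ * ‖y‖ := by ring

/-- The quantity attached to a directed edge of a triangle. -/
noncomputable def hh (v a b c : P) : ℝ := 3 / 4 * cr (b - a) (v - a) + 1 / 4 * cr (b - a) (c - a)

theorem hh_rot (v a b c : P) :
    hh v a b c + hh v b c a + hh v c a b = 3 / 2 * cr (b - a) (c - a) := by
  simp only [hh, cr, Prod.fst_sub, Prod.snd_sub]; ring

theorem hh_pair {N : P → ℝ} {F : Finset P} {G : ℝ} (hG : HG {z | N z ≤ 1} G)
    {v v' a b c c' : P} (hd : Del N F v a b c) (hd' : Del N F v' b a c') :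
    hh v a b c + hh v' b a c' ≤ G := by
  obtain ⟨_, _, _, h1, h2, h3, _, _⟩ := hd
  obtain ⟨_, _, _, h1', h2', h3', _, _⟩ := hd'
  have key := hG (v - b) (b - a) (v' - v) (v - c) (v' - c')
    (by simp only [mem_ofPred_eq]; rw [h2]; exact h1)
    (by simp only [mem_ofPred_eq, sub_add_sub_cancel]; exact h1)
    (by simp only [mem_ofPred_eq, sub_add_sub_cancel']; exact h1')
    (by simp only [mem_ofPred_eq, sub_add_sub_cancel]
        rw [show v - a + (v' - v) = v' - a by abel, h2']; exact h1')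
    (by simp only [mem_ofPred_eq]; rw [h3]; exact h1)
    (by simp only [mem_ofPred_eq]; rw [h3']; exact h1')
  have e : hh v a b c + hh v' b a c' =
      -(cr (b - a) (v' - v)) - cr (b - a) (v - c - (v' - c')) / 4 := by
    simp only [hh, cr, Prod.fst_sub, Prod.snd_sub]; ring
  rw [e]
  have h5 := neg_abs_le (cr (b - a) (v' - v))
  have h6 := neg_abs_le (cr (b - a) (v - c - (v' - c')))
  linarith

theorem hh_le {N : P → ℝ} {F : Finset P} {R : ℝ} (hR : ∀ z, N z ≤ 1 → ‖z‖ ≤ R)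
    {v a b c : P} (hd : Del N F v a b c) : hh v a b c ≤ 5 * R ^ 2 := by
  obtain ⟨_, _, _, h1, h2, h3, _, _⟩ := hd
  have ha := hR _ h1
  have hb := hR _ (h2.trans_le h1)
  have hc := hR _ (h3.trans_le h1)
  have hR0 : 0 ≤ R := (norm_nonneg _).trans ha
  have hba : ‖b - a‖ ≤ 2 * R := by
    calc ‖b - a‖ = ‖(v - a) - (v - b)‖ := by congr 1; abel
      _ ≤ ‖v - a‖ + ‖v - b‖ := norm_sub_le _ _
      _ ≤ 2 * R := by linarith
  have hca : ‖c - a‖ ≤ 2 * R := by
    calc ‖c - a‖ = ‖(v - a) - (v - c)‖ := by congr 1; abel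
      _ ≤ ‖v - a‖ + ‖v - c‖ := norm_sub_le _ _
      _ ≤ 2 * R := by linarith
  have k1 : cr (b - a) (v - a) ≤ 4 * R ^ 2 := by
    refine (le_abs_self _).trans ((abs_cr_le _ _).trans ?_)
    nlinarith [norm_nonneg (b - a), norm_nonneg (v - a)]
  have k2 : cr (b - a) (c - a) ≤ 8 * R ^ 2 := by
    refine (le_abs_self _).trans ((abs_cr_le _ _).trans ?_)
    nlinarith [norm_nonneg (b - a), norm_nonneg (c - a)]
  unfold hh
  linarith

/-- Rotation of triples. -/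
def rho : P × P × P ≃ P × P × P where
  toFun t := (t.2.1, t.2.2, t.1)
  invFun t := (t.2.2, t.1, t.2.1)
  left_inv t := by simp
  right_inv t := by simp

/-- All Delaunay triples with vertices in `F'`. -/
noncomputable def TT (N : P → ℝ) (F F' : Finset P) : Finset (P × P × P) := by
  classical
  exact (F' ×ˢ F' ×ˢ F').filter (fun t => ∃ v, Del N F v t.1 t.2.1 t.2.2)

theorem mem_TT {N : P → ℝ} {F F' : Finset P} {t : P × P × P} :
    t ∈ TT N F F' ↔ (t.1 ∈ F' ∧ t.2.1 ∈ F' ∧ t.2.2 ∈ F') ∧ ∃ v, Del N F v t.1 t.2.1 t.2.2 := by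
  classical
  simp [TT, Finset.mem_filter, Finset.mem_product]

theorem rho_mem {N : P → ℝ} {F F' : Finset P} {t : P × P × P} :
    t ∈ TT N F F' ↔ rho t ∈ TT N F F' := by
  rw [mem_TT, mem_TT]
  simp only [rho, Equiv.coe_fn_mk]
  constructor
  · rintro ⟨⟨h1, h2, h3⟩, v, hv⟩
    exact ⟨⟨h2, h3, h1⟩, v, del_rot hv⟩
  · rintro ⟨⟨h1, h2, h3⟩, v, hv⟩
    exact ⟨⟨h3, h1, h2⟩, v, del_rot (del_rot hv)⟩

theorem sum_rho {N : P → ℝ} {F F' : Finset P} (f : P × P × P → ℝ) :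
    ∑ t ∈ TT N F F', f (rho t) = ∑ t ∈ TT N F F', f t :=
  Finset.sum_equiv rho (fun _ => rho_mem) (fun _ _ => rfl)

/-- The first vertex is the middle one. -/
def Mid (t : P × P × P) : Prop :=
  (t.2.1.1 < t.1.1 ∧ t.1.1 < t.2.2.1) ∨ (t.2.2.1 < t.1.1 ∧ t.1.1 < t.2.1.1)

theorem mid_one {a b c : P} (h1 : a.1 ≠ b.1) (h2 : b.1 ≠ c.1) (h3 : c.1 ≠ a.1) :
    (Mid (a, b, c) ∧ ¬ Mid (b, c, a) ∧ ¬ Mid (c, a, b)) ∨
    (¬ Mid (a, b, c) ∧ Mid (b, c, a) ∧ ¬ Mid (c, a, b)) ∨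
    (¬ Mid (a, b, c) ∧ ¬ Mid (b, c, a) ∧ Mid (c, a, b)) := by
  simp only [Mid]
  rcases lt_or_gt_of_ne h1 with h1 | h1 <;> rcases lt_or_gt_of_ne h2 with h2 | h2 <;>
    rcases lt_or_gt_of_ne h3 with h3 | h3
  · exact absurd (h1.trans (h2.trans h3)) (lt_irrefl _)
  · right; left
    exact ⟨by rintro (⟨h4, h5⟩ | ⟨h4, h5⟩) <;> linarith, by right; exact ⟨h1, h2⟩,
      by rintro (⟨h4, h5⟩ | ⟨h4, h5⟩) <;> linarith⟩
  · left
    exact ⟨by right; exact ⟨h3, h1⟩, by rintro (⟨h4, h5⟩ | ⟨h4, h5⟩) <;> linarith,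
      by rintro (⟨h4, h5⟩ | ⟨h4, h5⟩) <;> linarith⟩
  · right; right
    exact ⟨by rintro (⟨h4, h5⟩ | ⟨h4, h5⟩) <;> linarith,
      by rintro (⟨h4, h5⟩ | ⟨h4, h5⟩) <;> linarith, by left; exact ⟨h3, h2⟩⟩
  · right; right
    exact ⟨by rintro (⟨h4, h5⟩ | ⟨h4, h5⟩) <;> linarith,
      by rintro (⟨h4, h5⟩ | ⟨h4, h5⟩) <;> linarith, by right; exact ⟨h2, h3⟩⟩
  · left
    exact ⟨by left; exact ⟨h1, h3⟩, by rintro (⟨h4, h5⟩ | ⟨h4, h5⟩) <;> linarith,
      by rintro (⟨h4, h5⟩ | ⟨h4, h5⟩) <;> linarith⟩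
  · right; left
    exact ⟨by rintro (⟨h4, h5⟩ | ⟨h4, h5⟩) <;> linarith, by left; exact ⟨h2, h1⟩,
      by rintro (⟨h4, h5⟩ | ⟨h4, h5⟩) <;> linarith⟩
  · exact absurd (h1.trans (h3.trans h2)) (lt_irrefl _)

theorem del_ne {N : P → ℝ} {F : Finset P} {v a b c : P} (hd : Del N F v a b c) :
    a ≠ b ∧ b ≠ c ∧ c ≠ a := by
  obtain ⟨_, _, _, _, _, _, _, h⟩ := hd
  refine ⟨?_, ?_, ?_⟩
  · rintro rfl; simp [cr] at h
  · rintro rfl; simp only [cr, Prod.fst_sub, Prod.snd_sub] at h; linarith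
  · rintro rfl; simp [cr] at h

section
open Classical

theorem sum_mid {N : P → ℝ} {F F' : Finset P} (hF' : F' ⊆ F)
    (hx : ∀ a ∈ F, ∀ b ∈ F, a.1 = b.1 → a = b) (f : P × P × P → ℝ)
    (hf : ∀ t, f (rho t) = f t) :
    ∑ t ∈ TT N F F', f t = 3 * ∑ t ∈ (TT N F F').filter Mid, f t := by
  have h1 : ∑ t ∈ TT N F F', f t = ∑ t ∈ TT N F F',
      ((if Mid t then f t else 0) + (if Mid (rho t) then f (rho t) else 0) +
        (if Mid (rho (rho t)) then f (rho (rho t)) else 0)) := by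
    apply Finset.sum_congr rfl
    rintro ⟨a, b, c⟩ ht
    rw [mem_TT] at ht
    obtain ⟨⟨ha, hb, hc⟩, v, hv⟩ := ht
    simp only at ha hb hc hv
    obtain ⟨n1, n2, n3⟩ := del_ne hv
    have e1 : f (rho (a, b, c)) = f (a, b, c) := hf _
    have e2 : f (rho (rho (a, b, c))) = f (a, b, c) := by rw [hf, hf]
    rw [e1, e2]
    have := mid_one (a := a) (b := b) (c := c)
      (fun h => n1 (hx a (hF' ha) b (hF' hb) h)) (fun h => n2 (hx b (hF' hb) c (hF' hc) h))
      (fun h => n3 (hx c (hF' hc) a (hF' ha) h))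
    simp only [rho, Equiv.coe_fn_mk]
    rcases this with ⟨h1, h2, h3⟩ | ⟨h1, h2, h3⟩ | ⟨h1, h2, h3⟩ <;> simp [h1, h2, h3]
  rw [h1, Finset.sum_add_distrib, Finset.sum_add_distrib,
    sum_rho (fun t => if Mid t then f t else 0),
    sum_rho (fun t => if Mid (rho t) then f (rho t) else 0),
    sum_rho (fun t => if Mid t then f t else 0), Finset.sum_filter]
  ring

theorem card_TT {N : P → ℝ} (hN : Gau N) {F F' : Finset P} (hF' : F' ⊆ F)
    (hx : ∀ a ∈ F, ∀ b ∈ F, a.1 = b.1 → a = b)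
    (hgen : ∀ (v : P) (r : ℝ), (F.filter (fun x => N (v - x) = r)).card ≤ 3) :
    ((TT N F F').card : ℝ) ≤ 6 * F'.card := by
  have h1 := sum_mid (N := N) hF' hx (fun _ => (1 : ℝ)) (fun _ => rfl)
  simp only [Finset.sum_const, nsmul_eq_mul, mul_one] at h1
  have h2 : ((TT N F F').filter Mid).card ≤ 2 * F'.card := by
    apply del_count hN hx hgen
    intro t ht
    rw [Finset.mem_filter, mem_TT] at ht
    exact ⟨ht.1.1.1, ht.1.2, ht.2⟩
  rw [h1]
  have h3 : (((TT N F F').filter Mid).card : ℝ) ≤ 2 * F'.card := by exact_mod_cast h2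
  linarith


/-- The centre of a Delaunay triple. -/
noncomputable def vc (N : P → ℝ) (F : Finset P) (t : P × P × P) : P :=
  if h : ∃ v, Del N F v t.1 t.2.1 t.2.2 then h.choose else 0

theorem vc_spec {N : P → ℝ} {F : Finset P} {v a b c : P} (hd : Del N F v a b c) :
    Del N F (vc N F (a, b, c)) a b c := by
  have h : ∃ v, Del N F v a b c := ⟨v, hd⟩
  have : vc N F (a, b, c) = h.choose := by
    unfold vc; exact dif_pos h
  rw [this]
  exact h.choose_spec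

theorem vc_eq {N : P → ℝ} (hN : Gau N) {F : Finset P}
    (hgen : ∀ (v : P) (r : ℝ), (F.filter (fun x => N (v - x) = r)).card ≤ 3)
    {v a b c : P} (hd : Del N F v a b c) : vc N F (a, b, c) = v :=
  (del_unique hN hgen (vc_spec hd) hd).1

/-- The weight of a triple. -/
noncomputable def ht (N : P → ℝ) (F : Finset P) (t : P × P × P) : ℝ :=
  hh (vc N F t) t.1 t.2.1 t.2.2

/-- The partner of a triple. -/
noncomputable def pt (N : P → ℝ) (F : Finset P) (t : P × P × P) : P × P × P :=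
  if h : ∃ c', ∃ v, Del N F v t.2.1 t.1 c' then (t.2.1, t.1, h.choose) else t

theorem pt_spec {N : P → ℝ} {F : Finset P} {v' a b c c' : P} (hd : Del N F v' b a c') :
    ∃ c'' v, pt N F (a, b, c) = (b, a, c'') ∧ Del N F v b a c'' := by
  have h : ∃ c', ∃ v, Del N F v b a c' := ⟨c', v', hd⟩
  have : pt N F (a, b, c) = (b, a, h.choose) := by
    unfold pt; exact dif_pos h
  obtain ⟨v, hv⟩ := h.choose_spec
  exact ⟨h.choose, v, this, hv⟩

theorem pt_eq {N : P → ℝ} (hN : Gau N) {F : Finset P}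
    (hgen : ∀ (v : P) (r : ℝ), (F.filter (fun x => N (v - x) = r)).card ≤ 3)
    {v' a b c c' : P} (hd : Del N F v' b a c') : pt N F (a, b, c) = (b, a, c') := by
  obtain ⟨c'', v, h1, h2⟩ := pt_spec (c := c) hd
  rw [h1, (del_unique hN hgen h2 hd).2]

theorem sum_ht {N : P → ℝ} (hN : Gau N) (F F1 F2 : Finset P) (hF1 : F1 ⊆ F) (hF2 : F2 ⊆ F1)
    (hx : ∀ a ∈ F, ∀ b ∈ F, a.1 = b.1 → a = b)
    (hgen : ∀ (v : P) (r : ℝ), (F.filter (fun x => N (v - x) = r)).card ≤ 3)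
    (G R : ℝ) (hG : HG {z | N z ≤ 1} G) (hR : ∀ z, N z ≤ 1 → ‖z‖ ≤ R)
    (hcov : ∀ a ∈ F1, ∀ v : P, ‖v - a‖ ≤ 3 * R + 3 → ∃ x ∈ F, N (v - x) ≤ 1)
    (hbd : ∀ a ∈ F1, ∀ c ∈ F, c ∉ F1 → ‖c - a‖ ≤ 4 * R → a ∈ F2) :
    ∑ t ∈ TT N F F1, ht N F t ≤ 3 * G * F1.card + 30 * R ^ 2 * F2.card := by
  have hN0 : N 0 = 0 := by
    have := hN.hom 0 0 le_rfl
    simpa using this
  have hR0 : 0 ≤ R := by
    have := hR 0 (by rw [hN0]; exact zero_le_one)
    simpa using this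
  have hG0 : 0 ≤ G := by
    have := hG 0 0 0 0 0 (by simp [hN0]) (by simp [hN0]) (by simp [hN0]) (by simp [hN0])
      (by simp [hN0]) (by simp [hN0])
    simpa [cr] using this
  set T := TT N F F1 with hT
  set S := T.filter (fun t => pt N F t ∈ T) with hS
  set U := T.filter (fun t => ¬ pt N F t ∈ T) with hU
  have hsplit : ∑ t ∈ T, ht N F t = ∑ t ∈ S, ht N F t + ∑ t ∈ U, ht N F t :=
    (Finset.sum_filter_add_sum_filter_not T _ _).symm
  -- partner structure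
  have hpart : ∀ a b c : P, (a, b, c) ∈ T → ∃ v v' c', Del N F v a b c ∧ Del N F v' b a c' ∧
      pt N F (a, b, c) = (b, a, c') := by
    intro a b c ht
    rw [hT, mem_TT] at ht
    obtain ⟨⟨ha, hb, hc⟩, v, hv⟩ := ht
    simp only at ha hb hc hv
    obtain ⟨v', c', hd'⟩ := exists_nbr hN F R hgen hR v a b c hv (hcov a ha)
    exact ⟨v, v', c', hv, hd', pt_eq hN hgen hd'⟩
  have hptpt : ∀ t ∈ T, pt N F (pt N F t) = t := by
    rintro ⟨a, b, c⟩ ht
    obtain ⟨v, v', c', h1, h2, h3⟩ := hpart a b c ht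
    rw [h3]
    exact pt_eq hN hgen h1
  have hSinv : ∀ t ∈ S, pt N F t ∈ S := by
    intro t ht
    rw [hS, Finset.mem_filter] at ht ⊢
    exact ⟨ht.2, by rw [hptpt t ht.1]; exact ht.1⟩
  have hSsum : ∑ t ∈ S, ht N F (pt N F t) = ∑ t ∈ S, ht N F t := by
    refine Finset.sum_nbij' (pt N F) (pt N F) hSinv hSinv ?_ ?_ ?_
    · intro t ht
      exact hptpt t (Finset.mem_filter.1 ht).1
    · intro t ht
      exact hptpt t (Finset.mem_filter.1 ht).1
    · intro t ht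
      rfl
  have hpair : ∀ t ∈ S, ht N F t + ht N F (pt N F t) ≤ G := by
    rintro ⟨a, b, c⟩ ht
    obtain ⟨v, v', c', h1, h2, h3⟩ := hpart a b c (Finset.mem_filter.1 ht).1
    rw [h3]
    simp only [FS.ht, vc_eq hN hgen h1, vc_eq hN hgen h2]
    exact hh_pair hG h1 h2
  have hScard : (S.card : ℝ) ≤ 6 * F1.card :=
    le_trans (by exact_mod_cast Finset.card_le_card (Finset.filter_subset _ _))
      (card_TT hN hF1 hx hgen)
  have h1 : 2 * ∑ t ∈ S, ht N F t ≤ G * S.card := by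
    calc 2 * ∑ t ∈ S, ht N F t = ∑ t ∈ S, (ht N F t + ht N F (pt N F t)) := by
          rw [Finset.sum_add_distrib, hSsum]; ring
      _ ≤ ∑ t ∈ S, G := Finset.sum_le_sum hpair
      _ = G * S.card := by rw [Finset.sum_const, nsmul_eq_mul]; ring
  have h2 : ∑ t ∈ S, ht N F t ≤ 3 * G * F1.card := by nlinarith
  -- unpaired triples
  have hUsub : U ⊆ TT N F F2 := by
    rintro ⟨a, b, c⟩ ht
    rw [hU, Finset.mem_filter] at ht
    obtain ⟨hT1, hT2⟩ := ht
    obtain ⟨v, v', c', k1, k2, k3⟩ := hpart a b c hT1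
    rw [hT, mem_TT] at hT1
    obtain ⟨⟨ha, hb, hc⟩, _⟩ := hT1
    simp only at ha hb hc
    have hc'F : c' ∈ F := k2.2.2.1
    have hc' : c' ∉ F1 := by
      intro hc'
      apply hT2
      rw [k3, hT, mem_TT]
      exact ⟨⟨hb, ha, hc'⟩, v', k2⟩
    obtain ⟨_, _, _, m1, m2, m3, _, _⟩ := k1
    obtain ⟨_, _, _, m1', m2', m3', _, _⟩ := k2
    have n1 := hR _ m1
    have n2 := hR _ (m2.trans_le m1)
    have n3 := hR _ (m3.trans_le m1)
    have n1' := hR _ m1'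
    have n2' := hR _ (m2'.trans_le m1')
    have n3' := hR _ (m3'.trans_le m1')
    have da : ‖c' - a‖ ≤ 4 * R := by
      calc ‖c' - a‖ = ‖(v' - a) - (v' - c')‖ := by congr 1; abel
        _ ≤ ‖v' - a‖ + ‖v' - c'‖ := norm_sub_le _ _
        _ ≤ 4 * R := by linarith
    have db : ‖c' - b‖ ≤ 4 * R := by
      calc ‖c' - b‖ = ‖(v' - b) - (v' - c')‖ := by congr 1; abel
        _ ≤ ‖v' - b‖ + ‖v' - c'‖ := norm_sub_le _ _
        _ ≤ 4 * R := by linarith
    have dc : ‖c' - c‖ ≤ 4 * R := by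
      calc ‖c' - c‖ = ‖((v' - a) - (v' - c')) + ((v - c) - (v - a))‖ := by congr 1; abel
        _ ≤ ‖(v' - a) - (v' - c')‖ + ‖(v - c) - (v - a)‖ := norm_add_le _ _
        _ ≤ (‖v' - a‖ + ‖v' - c'‖) + (‖v - c‖ + ‖v - a‖) :=
            add_le_add (norm_sub_le _ _) (norm_sub_le _ _)
        _ ≤ 4 * R := by linarith
    rw [mem_TT]
    exact ⟨⟨hbd a ha c' hc'F hc' da, hbd b hb c' hc'F hc' db, hbd c hc c' hc'F hc' dc⟩,
      v, ⟨by assumption, by assumption, by assumption, m1, m2, m3, by assumption, by assumption⟩⟩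
  have hUcard : (U.card : ℝ) ≤ 6 * F2.card :=
    le_trans (by exact_mod_cast Finset.card_le_card hUsub)
      (card_TT hN (hF2.trans hF1) hx hgen)
  have h3 : ∑ t ∈ U, ht N F t ≤ 30 * R ^ 2 * F2.card := by
    calc ∑ t ∈ U, ht N F t ≤ ∑ t ∈ U, 5 * R ^ 2 := by
          apply Finset.sum_le_sum
          rintro ⟨a, b, c⟩ ht
          obtain ⟨v, v', c', k1, k2, k3⟩ := hpart a b c (Finset.mem_filter.1 ht).1
          simp only [FS.ht, vc_eq hN hgen k1]
          exact hh_le hR k1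
      _ = 5 * R ^ 2 * U.card := by rw [Finset.sum_const, nsmul_eq_mul]; ring
      _ ≤ 30 * R ^ 2 * F2.card := by nlinarith [sq_nonneg R]
  rw [hsplit]
  linarith

/-- Twice the area. -/
def ar (t : P × P × P) : ℝ := cr (t.2.1 - t.1) (t.2.2 - t.1)

theorem sum_ar {N : P → ℝ} (hN : Gau N) (F F1 : Finset P) (hF1 : F1 ⊆ F)
    (hx : ∀ a ∈ F, ∀ b ∈ F, a.1 = b.1 → a = b)
    (hgen : ∀ (v : P) (r : ℝ), (F.filter (fun x => N (v - x) = r)).card ≤ 3) :
    ∑ t ∈ (TT N F F1).filter Mid, ar t / 2 = (1 / 3) * ∑ t ∈ TT N F F1, ht N F t := by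
  have h1 := sum_mid (N := N) hF1 hx ar (by
    rintro ⟨a, b, c⟩
    simp only [ar, rho, Equiv.coe_fn_mk, cr, Prod.fst_sub, Prod.snd_sub]
    ring)
  have h2 : ∑ t ∈ TT N F F1, (ht N F t + ht N F (rho t) + ht N F (rho (rho t))) =
      3 * ∑ t ∈ TT N F F1, ht N F t := by
    rw [Finset.sum_add_distrib, Finset.sum_add_distrib, sum_rho (fun t => ht N F t),
      sum_rho (fun t => ht N F (rho t)), sum_rho (fun t => ht N F t)]
    ring
  have h3 : ∑ t ∈ TT N F F1, (ht N F t + ht N F (rho t) + ht N F (rho (rho t))) =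
      ∑ t ∈ TT N F F1, 3 / 2 * ar t := by
    apply Finset.sum_congr rfl
    rintro ⟨a, b, c⟩ ht
    rw [mem_TT] at ht
    obtain ⟨_, v, hv⟩ := ht
    simp only at hv
    have e1 := vc_eq hN hgen hv
    have e2 := vc_eq hN hgen (del_rot hv)
    have e3 := vc_eq hN hgen (del_rot (del_rot hv))
    simp only [FS.ht, rho, Equiv.coe_fn_mk, e1, e2, e3, ar]
    exact hh_rot v a b c
  rw [← Finset.mul_sum] at h3
  rw [← Finset.sum_div]
  linarith

/-- Lines are null sets. -/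
theorem line_null (a d : P) (hd : d ≠ 0) : volume {p : P | cr d (p - a) = 0} = 0 := by
  let f : P →ₗ[ℝ] ℝ := d.1 • LinearMap.snd ℝ ℝ ℝ - d.2 • LinearMap.fst ℝ ℝ ℝ
  have hf : ∀ z, f z = cr d z := by intro z; simp [f, cr]
  have hne : LinearMap.ker f ≠ ⊤ := by
    intro h
    have h1 : f (0, 1) = 0 := by
      have : ((0 : ℝ), (1 : ℝ)) ∈ LinearMap.ker f := by rw [h]; trivial
      exact this
    have h2 : f (1, 0) = 0 := by
      have : ((1 : ℝ), (0 : ℝ)) ∈ LinearMap.ker f := by rw [h]; trivial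
      exact this
    rw [hf] at h1 h2
    simp [cr] at h1 h2
    exact hd (Prod.ext h1 h2)
  have h1 := Measure.addHaar_submodule (volume : Measure P) (LinearMap.ker f) hne
  have h2 : {p : P | cr d (p - a) = 0} = (fun p => p + (-a)) ⁻¹' (LinearMap.ker f : Set P) := by
    ext p
    simp [hf, sub_eq_add_neg]
  rw [h2, measure_preimage_add_right]
  exact h1

theorem structure_ineq {N : P → ℝ} (hN : Gau N) (F F1 F2 : Finset P) (hF1 : F1 ⊆ F) (hF2 : F2 ⊆ F1)
    (hx : ∀ a ∈ F, ∀ b ∈ F, a.1 = b.1 → a = b)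
    (hgen : ∀ (v : P) (r : ℝ), (F.filter (fun x => N (v - x) = r)).card ≤ 3)
    (G R : ℝ) (hG : HG {z | N z ≤ 1} G) (hR : ∀ z, N z ≤ 1 → ‖z‖ ≤ R)
    (hcov : ∀ a ∈ F1, ∀ v : P, ‖v - a‖ ≤ 3 * R + 3 → ∃ x ∈ F, N (v - x) ≤ 1)
    (hbd : ∀ a ∈ F1, ∀ c ∈ F, c ∉ F1 → ‖c - a‖ ≤ 4 * R → a ∈ F2)
    (B : Set P) (hB1 : ∀ p ∈ B, ∀ x ∈ F, ‖x - p‖ ≤ 2 * R + 1 → x ∈ F1)
    (hB2 : ∀ p ∈ B, ∀ v : P, ‖v - p‖ ≤ R + 1 → ∃ x ∈ F, N (v - x) ≤ 1) :
    volume B ≤ ENNReal.ofReal (G * F1.card + 10 * R ^ 2 * F2.card) := by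
  set M := (TT N F F1).filter Mid with hM
  set L : Set P := ⋃ a ∈ F, ⋃ b ∈ F, if a = b then {a} else {p : P | cr (b - a) (p - a) = 0}
    with hL
  have hLnull : volume L = 0 := by
    rw [hL]
    refine (measure_biUnion_null_iff F.countable_toSet).2 ?_
    intro a _
    refine (measure_biUnion_null_iff F.countable_toSet).2 ?_
    intro b _
    by_cases hab : a = b
    · simp [hab]
    · simp only [hab, if_false]
      exact line_null a (b - a) (sub_ne_zero.2 (Ne.symm hab))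
  have hsub : B ⊆ (⋃ t ∈ M, convexHull ℝ {t.1, t.2.1, t.2.2}) ∪ L := by
    intro p hp
    by_cases hpL : p ∈ L
    · right; exact hpL
    · left
      have hoff : ∀ a ∈ F, ∀ b ∈ F, a ≠ b → cr (b - a) (p - a) ≠ 0 := by
        intro a ha b hb hab h0
        apply hpL
        rw [hL]
        simp only [mem_iUnion]
        exact ⟨a, ha, b, hb, by simpa [hab] using h0⟩
      have hpF : p ∉ F := by
        intro h
        apply hpL
        rw [hL]
        simp only [mem_iUnion]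
        exact ⟨p, h, p, h, by simp⟩
      obtain ⟨v, a, b, c, hv, hd, α, β, γ, hα, hβ, hγ, hs, hpe⟩ :=
        exists_del hN F p R hR (hB2 p hp) hoff hpF
      have hd' := hd
      obtain ⟨aF, bF, cF, m1, m2, m3, _, _⟩ := hd'
      have near : ∀ x : P, ‖v - x‖ ≤ R → ‖x - p‖ ≤ 2 * R + 1 := by
        intro x hxx
        calc ‖x - p‖ = ‖(v - p) - (v - x)‖ := by congr 1; abel
          _ ≤ ‖v - p‖ + ‖v - x‖ := norm_sub_le _ _
          _ ≤ 2 * R + 1 := by linarith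
      have ha1 := hB1 p hp a aF (near a (hR _ m1))
      have hb1 := hB1 p hp b bF (near b (hR _ (m2.trans_le m1)))
      have hc1 := hB1 p hp c cF (near c (hR _ (m3.trans_le m1)))
      have hpc : p ∈ convexHull ℝ ({a, b, c} : Set P) := by
        have ha : a ∈ convexHull ℝ ({a, b, c} : Set P) := subset_convexHull ℝ _ (by simp)
        have hb : b ∈ convexHull ℝ ({a, b, c} : Set P) := subset_convexHull ℝ _ (by simp)
        have hc : c ∈ convexHull ℝ ({a, b, c} : Set P) := subset_convexHull ℝ _ (by simp)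
        rw [hpe]
        exact (convex_convexHull ℝ ({a, b, c} : Set P)).sum_mem (t := Finset.univ)
          (w := ![α, β, γ]) (z := ![a, b, c])
          (by intro i _; fin_cases i <;> simp [hα, hβ, hγ])
          (by simp [Fin.sum_univ_three, hs]) (by intro i _; fin_cases i <;> simp [ha, hb, hc])
          |> (by simpa [Fin.sum_univ_three] using ·)
      obtain ⟨n1, n2, n3⟩ := del_ne hd
      have hone := mid_one (a := a) (b := b) (c := c) (fun h => n1 (hx a aF b bF h))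
        (fun h => n2 (hx b bF c cF h)) (fun h => n3 (hx c cF a aF h))
      simp only [mem_iUnion]
      rcases hone with ⟨h, -, -⟩ | ⟨-, h, -⟩ | ⟨-, -, h⟩
      · refine ⟨(a, b, c), ?_, hpc⟩
        rw [hM, Finset.mem_filter, mem_TT]
        exact ⟨⟨⟨ha1, hb1, hc1⟩, v, hd⟩, h⟩
      · refine ⟨(b, c, a), ?_, ?_⟩
        · rw [hM, Finset.mem_filter, mem_TT]
          exact ⟨⟨⟨hb1, hc1, ha1⟩, v, del_rot hd⟩, h⟩
        · have e : ({b, c, a} : Set P) = {a, b, c} := by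
            ext x; simp only [mem_insert_iff, mem_singleton_iff]; tauto
          simp only [e]; exact hpc
      · refine ⟨(c, a, b), ?_, ?_⟩
        · rw [hM, Finset.mem_filter, mem_TT]
          exact ⟨⟨⟨hc1, ha1, hb1⟩, v, del_rot (del_rot hd)⟩, h⟩
        · have e : ({c, a, b} : Set P) = {a, b, c} := by
            ext x; simp only [mem_insert_iff, mem_singleton_iff]; tauto
          simp only [e]; exact hpc
  have hpos : ∀ t ∈ M, 0 ≤ ar t := by
    intro t ht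
    rw [hM, Finset.mem_filter, mem_TT] at ht
    obtain ⟨⟨_, v, hv⟩, _⟩ := ht
    exact hv.2.2.2.2.2.2.2.le
  calc volume B ≤ volume ((⋃ t ∈ M, convexHull ℝ {t.1, t.2.1, t.2.2}) ∪ L) := measure_mono hsub
    _ ≤ volume (⋃ t ∈ M, convexHull ℝ {t.1, t.2.1, t.2.2}) + volume L := measure_union_le _ _
    _ = volume (⋃ t ∈ M, convexHull ℝ {t.1, t.2.1, t.2.2}) := by rw [hLnull, add_zero]
    _ ≤ ∑ t ∈ M, volume (convexHull ℝ {t.1, t.2.1, t.2.2}) := measure_biUnion_finset_le _ _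
    _ ≤ ∑ t ∈ M, ENNReal.ofReal (ar t / 2) := by
        apply Finset.sum_le_sum
        intro t ht
        refine (volume_triangle_le _ _ _).trans ?_
        apply ENNReal.ofReal_le_ofReal
        rw [show cr (t.2.1 - t.1) (t.2.2 - t.1) = ar t from rfl, abs_of_nonneg (hpos t ht)]
    _ = ENNReal.ofReal (∑ t ∈ M, ar t / 2) := by
        rw [ENNReal.ofReal_sum_of_nonneg]
        intro t ht
        have := hpos t ht
        positivity
    _ ≤ ENNReal.ofReal (G * F1.card + 10 * R ^ 2 * F2.card) := by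
        apply ENNReal.ofReal_le_ofReal
        rw [hM, sum_ar hN F F1 hF1 hx hgen]
        have := sum_ht hN F F1 F2 hF1 hF2 hx hgen G R hG hR hcov hbd
        linarith

end

end Pool.Agent.Helper484.Crit.FS
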