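import Pool.Agent.Helper484.Crit.Base
import Pool.Agent.Helper484.Crit.FC
import Pool.Agent.Helper484.Crit.FS

set_option autoImplicit false

namespace Pool.Agent.Helper484.Crit.FK

open Pool.Agent.Helper484.Crit Pool.Agent.Helper484.Crit.FC Pool.Agent.Helper484.Crit.FS

open MeasureTheory Set Filter Topology
open scoped ENNReal Pointwise

theorem rect_bound_exR {N : P → ℝ} (hN : Gau N) : ∃ R : ℝ, 1 ≤ R ∧ ∀ z, N z ≤ 1 → ‖z‖ ≤ R := by
  have hcomp : IsCompact (Metric.sphere (0 : P) 1) := isCompact_sphere _ _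
  have hne : (Metric.sphere (0 : P) 1).Nonempty := ⟨((1 : ℝ), (0 : ℝ)), by simp [Prod.norm_def]⟩
  obtain ⟨w0, hw0, hmin⟩ := hcomp.exists_isMinOn hne hN.cont.continuousOn
  have hw0' : ‖w0‖ = 1 := by simpa using hw0
  have hw0ne : w0 ≠ 0 := by
    intro h; rw [h, norm_zero] at hw0'; norm_num at hw0'
  have hc : 0 < N w0 := hN.pos w0 hw0ne
  refine ⟨max 1 (1 / N w0), le_max_left _ _, fun z hz => ?_⟩
  by_cases h0 : z = 0
  · rw [h0, norm_zero]
    exact le_trans zero_le_one (le_max_left _ _)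
  · have hnz : 0 < ‖z‖ := norm_pos_iff.2 h0
    have h1 : ‖z‖⁻¹ • z ∈ Metric.sphere (0 : P) 1 := by
      simp only [mem_sphere_iff_norm, sub_zero, norm_smul, norm_inv, norm_norm]
      field_simp
    have h2 : N w0 ≤ N (‖z‖⁻¹ • z) := hmin h1
    have h3 : N z = ‖z‖ * N (‖z‖⁻¹ • z) := by
      rw [← hN.hom _ _ hnz.le, smul_smul, mul_inv_cancel₀ hnz.ne', one_smul]
    have h4 : ‖z‖ * N w0 ≤ 1 := by
      calc ‖z‖ * N w0 ≤ ‖z‖ * N (‖z‖⁻¹ • z) := mul_le_mul_of_nonneg_left h2 hnz.le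
        _ = N z := h3.symm
        _ ≤ 1 := hz
    refine le_trans ?_ (le_max_right _ _)
    rw [le_div_iff₀ hc]
    exact h4

theorem rect_bound_cell (L : ℕ) (hL : 1 ≤ L) (M t : ℝ) (hM : 0 < M) (h0 : 0 ≤ t) (h1 : t ≤ L * M) :
    ∃ i : Fin L, ((i : ℕ) : ℝ) * M ≤ t ∧ t ≤ (((i : ℕ) : ℝ) + 1) * M := by
  by_cases h : t = L * M
  · refine ⟨⟨L - 1, by omega⟩, ?_, ?_⟩
    · simp only
      rw [Nat.cast_sub hL, h]
      push_cast
      nlinarith
    · simp only
      rw [Nat.cast_sub hL, h]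
      push_cast
      nlinarith
  · have h2 : t < L * M := lt_of_le_of_ne h1 h
    have h3 : 0 ≤ t / M := by positivity
    have h4 : ⌊t / M⌋₊ < L := by
      rw [Nat.floor_lt h3, div_lt_iff₀ hM]
      exact h2
    refine ⟨⟨⌊t / M⌋₊, h4⟩, ?_, ?_⟩
    · have := Nat.floor_le h3
      rw [le_div_iff₀ hM] at this
      exact this
    · have := (Nat.lt_floor_add_one (t / M)).le
      rw [div_le_iff₀ hM] at this
      exact this

theorem rect_bound_T (L q : ℕ) :
    (Finset.univ.filter (fun i : Fin L => (i : ℕ) < 3 * q ∨ L ≤ (i : ℕ) + 3 * q)).card ≤ 6 * q := by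
  have h1 : (Finset.univ.filter (fun i : Fin L => (i : ℕ) < 3 * q ∨ L ≤ (i : ℕ) + 3 * q)).card ≤
      (Finset.range (3 * q) ∪ Finset.Ico (L - 3 * q) L).card := by
    refine Finset.card_le_card_of_injOn (fun i => (i : ℕ)) ?_ ?_
    · intro i hi
      have hi' := (Finset.mem_filter.1 (Finset.mem_coe.1 hi)).2
      have hiL := i.2
      simp only [Finset.coe_union, Set.mem_union, Finset.mem_coe, Finset.mem_range, Finset.mem_Ico]
      omega
    · intro a _ b _ hab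
      exact Fin.ext hab
  refine h1.trans ((Finset.card_union_le _ _).trans ?_)
  rw [Finset.card_range, Nat.card_Ico]
  omega

theorem rect_bound_core {N : P → ℝ} (hN : Gau N) (G : ℝ) (hG : HG {z | N z ≤ 1} G)
    (n : ℕ) (y : Fin n → P) (M w : ℝ) (hM : 0 < M) (hw : 0 < w)
    (hcov : ∀ z : P, z.1 ∈ Icc 0 M → z.2 ∈ Icc 0 w → ∃ i, N (z - y i) < 1) (hG0 : 0 ≤ G)
    (R : ℝ) (hR1 : 1 ≤ R) (hR : ∀ z, N z ≤ 1 → ‖z‖ ≤ R) :
    ∃ q : ℕ, 1 ≤ q ∧ ∀ L : ℕ, 6 * q ≤ L →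
      (((L : ℝ) - 6 * q) * M) * (((L : ℝ) - 6 * q) * w) ≤
        G * (n * (L : ℝ) ^ 2) + 10 * R ^ 2 * (12 * q * L * n) := by
  -- Lebesgue number
  have hQc : IsCompact (Icc (0 : ℝ) M ×ˢ Icc (0 : ℝ) w) := isCompact_Icc.prod isCompact_Icc
  obtain ⟨δ, hδ, hleb⟩ := lebesgue_number_lemma_of_metric (c := fun i : Fin n => {z : P | N (z - y i) < 1})
    hQc (fun i => isOpen_lt (hN.cont.comp (continuous_id.sub continuous_const)) continuous_const)
    (fun z hz => by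
      obtain ⟨i, hi⟩ := hcov z hz.1 hz.2
      exact mem_iUnion.2 ⟨i, hi⟩)
  set ε : ℝ := min (δ / 2) 1 with hε
  have hεpos : 0 < ε := lt_min (by positivity) one_pos
  have hεδ : ε < δ := lt_of_le_of_lt (min_le_left _ _) (by linarith)
  have hε1 : ε ≤ 1 := min_le_right _ _
  -- bound for the sites
  obtain ⟨R0, hR0⟩ : ∃ R0 : ℝ, ∀ k, ‖y k‖ ≤ R0 := by
    obtain ⟨C, hC⟩ := (Set.finite_range (fun k => ‖y k‖)).bddAbove
    exact ⟨C, fun k => hC ⟨k, rfl⟩⟩
  set A : ℝ := |R0| + 1 with hA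
  have hApos : 0 < A := by positivity
  obtain ⟨q, hq⟩ := exists_nat_ge (20 * (R + A + 3) / min M w)
  have hμ : 0 < min M w := lt_min hM hw
  have hqμ : 20 * (R + A + 3) ≤ q * min M w := by rwa [div_le_iff₀ hμ] at hq
  have hqM : 20 * (R + A + 3) ≤ q * M :=
    hqμ.trans (mul_le_mul_of_nonneg_left (min_le_left _ _) (by positivity))
  have hqw : 20 * (R + A + 3) ≤ q * w :=
    hqμ.trans (mul_le_mul_of_nonneg_left (min_le_right _ _) (by positivity))
  have hq1 : 1 ≤ q := by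
    by_contra h
    have : q = 0 := by omega
    rw [this] at hqM
    norm_num at hqM
    linarith
  refine ⟨q, hq1, fun L hL => ?_⟩
  have hL1 : 1 ≤ L := by omega
  let Y : Fin L × Fin L × Fin n → P := fun s =>
    ((y s.2.2).1 + ((s.1 : ℕ) : ℝ) * M, (y s.2.2).2 + ((s.2.1 : ℕ) : ℝ) * w)
  obtain ⟨x, hx1, hx2, hx3⟩ := generic hN Y ε hεpos
  have hxinj : Function.Injective x := fun a b hab => hx2 a b (by rw [hab])
  have hA1 : ∀ s, |(x s).1 - ((s.1 : ℕ) : ℝ) * M| ≤ A := by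
    intro s
    have h1 : |(x s).1 - (Y s).1| ≤ ε := (norm_fst_le (x s - Y s)).trans (hx1 s)
    have h2 : |(y s.2.2).1| ≤ R0 := (norm_fst_le (y s.2.2)).trans (hR0 _)
    have h3 : (Y s).1 = (y s.2.2).1 + ((s.1 : ℕ) : ℝ) * M := rfl
    rw [h3] at h1
    have h4 := le_abs_self R0
    rw [abs_le] at h1 h2 ⊢
    constructor <;> linarith [h1.1, h1.2, h2.1, h2.2]
  have hA2 : ∀ s, |(x s).2 - ((s.2.1 : ℕ) : ℝ) * w| ≤ A := by
    intro s
    have h1 : |(x s).2 - (Y s).2| ≤ ε := (norm_snd_le (x s - Y s)).trans (hx1 s)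
    have h2 : |(y s.2.2).2| ≤ R0 := (norm_snd_le (y s.2.2)).trans (hR0 _)
    have h3 : (Y s).2 = (y s.2.2).2 + ((s.2.1 : ℕ) : ℝ) * w := rfl
    rw [h3] at h1
    have h4 := le_abs_self R0
    rw [abs_le] at h1 h2 ⊢
    constructor <;> linarith [h1.1, h1.2, h2.1, h2.2]
  -- covering
  have hcovF : ∀ v : P, 0 ≤ v.1 → v.1 ≤ L * M → 0 ≤ v.2 → v.2 ≤ L * w → ∃ s, N (v - x s) ≤ 1 := by
    intro v h1 h2 h3 h4
    obtain ⟨i, hi1, hi2⟩ := rect_bound_cell L hL1 M v.1 hM h1 h2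
    obtain ⟨j, hj1, hj2⟩ := rect_bound_cell L hL1 w v.2 hw h3 h4
    have hz : (v.1 - ((i : ℕ) : ℝ) * M, v.2 - ((j : ℕ) : ℝ) * w) ∈ Icc (0 : ℝ) M ×ˢ Icc (0 : ℝ) w := by
      refine ⟨⟨?_, ?_⟩, ⟨?_, ?_⟩⟩ <;> simp only <;> linarith
    obtain ⟨k, hk⟩ := hleb _ hz
    refine ⟨(i, j, k), ?_⟩
    have hb : (v - x (i, j, k) + y k) ∈ Metric.ball
        ((v.1 - ((i : ℕ) : ℝ) * M, v.2 - ((j : ℕ) : ℝ) * w) : P) δ := by
      rw [mem_ball_iff_norm]
      have e : v - x (i, j, k) + y k - (v.1 - ((i : ℕ) : ℝ) * M, v.2 - ((j : ℕ) : ℝ) * w)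
          = -(x (i, j, k) - Y (i, j, k)) := by
        apply Prod.ext
        · simp only [Y, Prod.fst_sub, Prod.fst_add, Prod.fst_neg]; ring
        · simp only [Y, Prod.snd_sub, Prod.snd_add, Prod.snd_neg]; ring
      rw [e, norm_neg]
      exact lt_of_le_of_lt (hx1 _) hεδ
    have := hk hb
    have h5 : N (v - x (i, j, k) + y k - y k) < 1 := this
    rw [add_sub_cancel_right] at h5
    exact h5.le
  classical
  let I1 : Finset (Fin L × Fin L × Fin n) := Finset.univ.filter (fun s =>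
    q ≤ (s.1 : ℕ) ∧ (s.1 : ℕ) + q < L ∧ q ≤ (s.2.1 : ℕ) ∧ (s.2.1 : ℕ) + q < L)
  let I2 : Finset (Fin L × Fin L × Fin n) := I1.filter (fun s =>
    (s.1 : ℕ) < 3 * q ∨ L ≤ (s.1 : ℕ) + 3 * q ∨ (s.2.1 : ℕ) < 3 * q ∨ L ≤ (s.2.1 : ℕ) + 3 * q)
  let F : Finset P := Finset.univ.image x
  let F1 : Finset P := I1.image x
  let F2 : Finset P := I2.image x
  have hF1 : F1 ⊆ F := Finset.image_subset_image (Finset.subset_univ _)
  have hF2 : F2 ⊆ F1 := Finset.image_subset_image (Finset.filter_subset _ _)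
  have hmemI1 : ∀ s, s ∈ I1 ↔ (q ≤ (s.1 : ℕ) ∧ (s.1 : ℕ) + q < L ∧ q ≤ (s.2.1 : ℕ) ∧
      (s.2.1 : ℕ) + q < L) := fun s => by simp [I1]
  have hmemI2 : ∀ s, s ∈ I2 ↔ (s ∈ I1 ∧ ((s.1 : ℕ) < 3 * q ∨ L ≤ (s.1 : ℕ) + 3 * q ∨
      (s.2.1 : ℕ) < 3 * q ∨ L ≤ (s.2.1 : ℕ) + 3 * q)) := fun s => by simp [I2]
  set B : Set P := Icc ((3 * q : ℝ) * M) (((L : ℝ) - 3 * q) * M) ×ˢ
    Icc ((3 * q : ℝ) * w) (((L : ℝ) - 3 * q) * w) with hB
  have hLr : (6 * q : ℝ) ≤ L := by exact_mod_cast hL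
  have key := structure_ineq hN F F1 F2 hF1 hF2 (by
      intro a ha b hb hab
      obtain ⟨s, _, rfl⟩ := Finset.mem_image.1 ha
      obtain ⟨s', _, rfl⟩ := Finset.mem_image.1 hb
      rw [hx2 s s' hab]) (by
      intro v r
      show ((Finset.univ.image x).filter (fun x => N (v - x) = r)).card ≤ 3
      rw [Finset.filter_image]
      exact Finset.card_image_le.trans (hx3 v r)) G R hG hR (by
      intro a ha v hv
      obtain ⟨s, hs, rfl⟩ := Finset.mem_image.1 ha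
      rw [hmemI1] at hs
      obtain ⟨s1, s2, s3, s4⟩ := hs
      have a1 := hA1 s
      have a2 := hA2 s
      have v1 : |v.1 - (x s).1| ≤ 3 * R + 3 := (norm_fst_le (v - x s)).trans hv
      have v2 : |v.2 - (x s).2| ≤ 3 * R + 3 := (norm_snd_le (v - x s)).trans hv
      rw [abs_le] at a1 a2 v1 v2
      have b1 : (q : ℝ) * M ≤ ((s.1 : ℕ) : ℝ) * M :=
        mul_le_mul_of_nonneg_right (by exact_mod_cast s1) hM.le
      have b2 : (((s.1 : ℕ) : ℝ) + q) * M ≤ L * M :=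
        mul_le_mul_of_nonneg_right (by exact_mod_cast s2.le) hM.le
      have b3 : (q : ℝ) * w ≤ ((s.2.1 : ℕ) : ℝ) * w :=
        mul_le_mul_of_nonneg_right (by exact_mod_cast s3) hw.le
      have b4 : (((s.2.1 : ℕ) : ℝ) + q) * w ≤ L * w :=
        mul_le_mul_of_nonneg_right (by exact_mod_cast s4.le) hw.le
      rw [add_mul] at b2 b4
      obtain ⟨s', hs'⟩ := hcovF v (by linarith [a1.1, v1.1]) (by linarith [a1.2, v1.2])
        (by linarith [a2.1, v2.1]) (by linarith [a2.2, v2.2])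
      exact ⟨x s', Finset.mem_image_of_mem x (Finset.mem_univ _), hs'⟩) (by
      intro a ha c hc hc1 hca
      obtain ⟨s, hs, rfl⟩ := Finset.mem_image.1 ha
      obtain ⟨s', _, rfl⟩ := Finset.mem_image.1 hc
      have hs' : s' ∉ I1 := fun h => hc1 (Finset.mem_image_of_mem x h)
      refine Finset.mem_image_of_mem x ?_
      rw [hmemI2]
      refine ⟨hs, ?_⟩
      rw [hmemI1] at hs'
      have a1 := hA1 s
      have a2 := hA2 s
      have a1' := hA1 s'
      have a2' := hA2 s'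
      have v1 : |(x s').1 - (x s).1| ≤ 4 * R := (norm_fst_le (x s' - x s)).trans hca
      have v2 : |(x s').2 - (x s).2| ≤ 4 * R := (norm_snd_le (x s' - x s)).trans hca
      rw [abs_le] at a1 a2 a1' a2' v1 v2
      have c1 : (s.1 : ℕ) ≤ (s'.1 : ℕ) + q := by
        have : ((s.1 : ℕ) : ℝ) * M ≤ (((s'.1 : ℕ) : ℝ) + q) * M := by
          rw [add_mul]; linarith [a1.1, a1.2, a1'.1, a1'.2, v1.1, v1.2]
        exact_mod_cast le_of_mul_le_mul_right this hM
      have c2 : (s'.1 : ℕ) ≤ (s.1 : ℕ) + q := by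
        have : ((s'.1 : ℕ) : ℝ) * M ≤ (((s.1 : ℕ) : ℝ) + q) * M := by
          rw [add_mul]; linarith [a1.1, a1.2, a1'.1, a1'.2, v1.1, v1.2]
        exact_mod_cast le_of_mul_le_mul_right this hM
      have c3 : (s.2.1 : ℕ) ≤ (s'.2.1 : ℕ) + q := by
        have : ((s.2.1 : ℕ) : ℝ) * w ≤ (((s'.2.1 : ℕ) : ℝ) + q) * w := by
          rw [add_mul]; linarith [a2.1, a2.2, a2'.1, a2'.2, v2.1, v2.2]
        exact_mod_cast le_of_mul_le_mul_right this hw
      have c4 : (s'.2.1 : ℕ) ≤ (s.2.1 : ℕ) + q := by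
        have : ((s'.2.1 : ℕ) : ℝ) * w ≤ (((s.2.1 : ℕ) : ℝ) + q) * w := by
          rw [add_mul]; linarith [a2.1, a2.2, a2'.1, a2'.2, v2.1, v2.2]
        exact_mod_cast le_of_mul_le_mul_right this hw
      omega) B (by
      intro p hp a ha hap
      obtain ⟨s, _, rfl⟩ := Finset.mem_image.1 ha
      refine Finset.mem_image_of_mem x ?_
      rw [hmemI1]
      obtain ⟨⟨p1, p2⟩, ⟨p3, p4⟩⟩ := hp
      have a1 := hA1 s
      have a2 := hA2 s
      have v1 : |(x s).1 - p.1| ≤ 2 * R + 1 := (norm_fst_le (x s - p)).trans hap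
      have v2 : |(x s).2 - p.2| ≤ 2 * R + 1 := (norm_snd_le (x s - p)).trans hap
      rw [abs_le] at a1 a2 v1 v2
      have c1 : (2 * q : ℕ) ≤ (s.1 : ℕ) := by
        have : (2 * q : ℝ) * M ≤ ((s.1 : ℕ) : ℝ) * M := by
          linarith [a1.1, a1.2, v1.1, v1.2]
        exact_mod_cast le_of_mul_le_mul_right this hM
      have c2 : (s.1 : ℕ) + 2 * q ≤ L := by
        have : (((s.1 : ℕ) : ℝ) + 2 * q) * M ≤ (L : ℝ) * M := by
          linarith [a1.1, a1.2, v1.1, v1.2]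
        exact_mod_cast le_of_mul_le_mul_right this hM
      have c3 : (2 * q : ℕ) ≤ (s.2.1 : ℕ) := by
        have : (2 * q : ℝ) * w ≤ ((s.2.1 : ℕ) : ℝ) * w := by
          linarith [a2.1, a2.2, v2.1, v2.2]
        exact_mod_cast le_of_mul_le_mul_right this hw
      have c4 : (s.2.1 : ℕ) + 2 * q ≤ L := by
        have : (((s.2.1 : ℕ) : ℝ) + 2 * q) * w ≤ (L : ℝ) * w := by
          linarith [a2.1, a2.2, v2.1, v2.2]
        exact_mod_cast le_of_mul_le_mul_right this hw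
      omega) (by
      intro p hp v hv
      obtain ⟨⟨p1, p2⟩, ⟨p3, p4⟩⟩ := hp
      have v1 : |v.1 - p.1| ≤ R + 1 := (norm_fst_le (v - p)).trans hv
      have v2 : |v.2 - p.2| ≤ R + 1 := (norm_snd_le (v - p)).trans hv
      rw [abs_le] at v1 v2
      obtain ⟨s', hs'⟩ := hcovF v (by linarith [v1.1]) (by linarith [v1.2])
        (by linarith [v2.1]) (by linarith [v2.2])
      exact ⟨x s', Finset.mem_image_of_mem x (Finset.mem_univ _), hs'⟩)
  have hvol : volume B = ENNReal.ofReal ((((L : ℝ) - 6 * q) * M) * (((L : ℝ) - 6 * q) * w)) := by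
    rw [hB, Measure.volume_eq_prod, Measure.prod_prod, Real.volume_Icc, Real.volume_Icc,
      ← ENNReal.ofReal_mul (by nlinarith)]
    congr 1
    ring
  rw [hvol] at key
  have hcardF1 : (F1.card : ℝ) ≤ n * (L : ℝ) ^ 2 := by
    have h1 : F1.card ≤ Fintype.card (Fin L × Fin L × Fin n) :=
      Finset.card_image_le.trans (Finset.card_le_univ _)
    rw [Fintype.card_prod, Fintype.card_prod, Fintype.card_fin, Fintype.card_fin] at h1
    calc (F1.card : ℝ) ≤ ((L * (L * n) : ℕ) : ℝ) := by exact_mod_cast h1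
      _ = n * (L : ℝ) ^ 2 := by push_cast; ring
  have hcardF2 : (F2.card : ℝ) ≤ 12 * q * L * n := by
    let T : Finset (Fin L) := Finset.univ.filter (fun i : Fin L => (i : ℕ) < 3 * q ∨ L ≤ (i : ℕ) + 3 * q)
    have hT : T.card ≤ 6 * q := rect_bound_T L q
    have hsub : I2 ⊆ (T ×ˢ Finset.univ) ∪ (Finset.univ ×ˢ (T ×ˢ Finset.univ)) := by
      intro s hs
      rw [hmemI2] at hs
      simp only [Finset.mem_union, Finset.mem_product, Finset.mem_univ, and_true, true_and, T,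
        Finset.mem_filter]
      omega
    have h1 : F2.card ≤ 6 * q * (L * n) + L * (6 * q * n) := by
      refine Finset.card_image_le.trans ((Finset.card_le_card hsub).trans
        ((Finset.card_union_le _ _).trans ?_))
      rw [Finset.card_product, Finset.card_product, Finset.card_product, Finset.card_univ,
        Finset.card_univ, Finset.card_univ, Fintype.card_prod, Fintype.card_fin, Fintype.card_fin]
      gcongr
    calc (F2.card : ℝ) ≤ ((6 * q * (L * n) + L * (6 * q * n) : ℕ) : ℝ) := by exact_mod_cast h1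
      _ = 12 * q * L * n := by push_cast; ring
  have hnn : 0 ≤ G * (F1.card : ℝ) + 10 * R ^ 2 * F2.card := by positivity
  rw [ENNReal.ofReal_le_ofReal_iff hnn] at key
  refine key.trans ?_
  gcongr

/-- TARGET. The bound for a rectangle. -/
theorem rect_bound {N : P → ℝ} (hN : Gau N) (G : ℝ) (hG : HG {z | N z ≤ 1} G)
    (n : ℕ) (y : Fin n → P) (M w : ℝ) (hM : 0 < M) (hw : 0 < w)
    (hcov : ∀ z : P, z.1 ∈ Icc 0 M → z.2 ∈ Icc 0 w → ∃ i, N (z - y i) < 1) :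
    M * w ≤ G * n := by
  obtain ⟨R, hR1, hR⟩ := rect_bound_exR hN
  have hN0 : N 0 = 0 := by
    have := hN.hom 0 0 le_rfl
    rw [zero_smul, zero_mul] at this
    exact this
  have hG0 : 0 ≤ G := by
    have h0 : (0 : P) ∈ {z | N z ≤ 1} := by
      show N 0 ≤ 1
      rw [hN0]; exact zero_le_one
    have := hG 0 0 0 0 0 h0 (by simpa using h0) (by simpa using h0) (by simpa using h0) h0 h0
    simpa [cr] using this
  obtain ⟨q, hq1, hmain⟩ := rect_bound_core hN G hG n y M w hM hw hcov hG0 R hR1 hR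
  by_contra hcon
  push Not at hcon
  set C : ℝ := 12 * q * (M * w) + 10 * R ^ 2 * (12 * q * n) with hC
  obtain ⟨L, hL⟩ := exists_nat_gt (C / (M * w - G * n) + 6 * q)
  have hd : 0 < M * w - G * n := by linarith
  have hCnn : 0 ≤ C := by positivity
  have hdiv : 0 ≤ C / (M * w - G * n) := by positivity
  have hLq : 6 * q ≤ L := by
    have : (6 * q : ℝ) ≤ L := by linarith
    exact_mod_cast this
  have h1 := hmain L hLq
  have hLpos : (0 : ℝ) < L := by
    have : (1 : ℝ) ≤ q := by exact_mod_cast hq1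
    linarith
  have h2 : C / (M * w - G * n) < L := by
    have : (0 : ℝ) ≤ q := by positivity
    linarith
  rw [div_lt_iff₀ hd] at h2
  -- expand
  have h3 : (L : ℝ) * ((L : ℝ) * (M * w - G * n)) ≤ L * C := by
    have e1 : (((L : ℝ) - 6 * q) * M) * (((L : ℝ) - 6 * q) * w)
        = (L : ℝ) ^ 2 * (M * w) - 12 * q * L * (M * w) + 36 * (q : ℝ) ^ 2 * (M * w) := by ring
    rw [e1] at h1
    have e2 : 0 ≤ 36 * (q : ℝ) ^ 2 * (M * w) := by positivity
    rw [hC]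
    nlinarith
  have h4 : (L : ℝ) * (M * w - G * n) ≤ C := le_of_mul_le_mul_left h3 hLpos
  linarith



end Pool.Agent.Helper484.Crit.FK
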