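import Pool.Agent.Helper484.Crit.Base

set_option autoImplicit false

namespace Pool.Agent.Helper484.Crit.FL

open Pool.Agent.Helper484.Crit 

open MeasureTheory Set Filter Topology
open scoped ENNReal Pointwise

/-- hypotheses after rescaling -/
structure CH1 (c : ℝ → ℝ) : Prop where
  conc : ConcaveOn ℝ (Icc (-1) 1) c
  out : ∀ t, 1 < |t| → c t = 0
  nn : ∀ t, 0 ≤ c t
  ev : ∀ t, c (-t) = c t
  c0 : c 0 = 2
  le : ∀ t, c t ≤ 2
  h1 : ∀ t, 0 < t → t * c t ≤ 1
  int : ∫ t in (-1)..1, c t = 3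

theorem CH1.anti {c : ℝ → ℝ} (H : CH1 c) : AntitoneOn c (Icc 0 1) := by
  intro u hu v hv huv
  have h := H.conc.min_le_of_mem_Icc (x := 0) (y := v) (z := u) ⟨by norm_num, by norm_num⟩
    ⟨by linarith [hv.1], hv.2⟩ ⟨hu.1, huv⟩
  rw [H.c0, min_eq_right (H.le v)] at h
  exact h

theorem CH1.integrable {c : ℝ → ℝ} (H : CH1 c) : Integrable c := by
  have h1 : IntegrableOn c (Icc 0 1) := H.anti.integrableOn_isCompact isCompact_Icc
  have h2 : MonotoneOn c (Icc (-1) 0) := by
    intro u hu v hv huv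
    rw [← H.ev u, ← H.ev v]
    exact H.anti ⟨by linarith [hv.2], by linarith [hv.1]⟩ ⟨by linarith [hu.2], by linarith [hu.1]⟩
      (by linarith)
  have h3 : IntegrableOn c (Icc (-1) 0) := h2.integrableOn_isCompact isCompact_Icc
  refine (h1.union h3).integrable_of_forall_notMem_eq_zero ?_
  intro x hx
  apply H.out
  by_contra h
  rw [not_lt, abs_le] at h
  apply hx
  rcases le_total 0 x with h0 | h0
  · exact Or.inl ⟨h0, h.2⟩
  · exact Or.inr ⟨h.1, h0⟩

theorem CH1.ii {c : ℝ → ℝ} (H : CH1 c) (a b : ℝ) : IntervalIntegrable c volume a b :=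
  H.integrable.intervalIntegrable

theorem CH1.sym {c : ℝ → ℝ} (H : CH1 c) (s : ℝ) :
    (∫ x in (-1)..s, c x) + ∫ x in (-1)..(-s), c x = 3 := by
  have h : ∫ x in (-1)..(-s), c x = ∫ x in s..1, c x := by
    have h2 := intervalIntegral.integral_comp_neg (a := -1) (b := -s) c
    simp only [H.ev, neg_neg] at h2
    exact h2
  rw [h, intervalIntegral.integral_add_adjacent_intervals (H.ii _ _) (H.ii _ _), H.int]

theorem CH1.half {c : ℝ → ℝ} (H : CH1 c) : (∫ x in (-1)..0, c x) = 3 / 2 := by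
  have := H.sym 0
  rw [neg_zero] at this
  linarith

theorem CH1.half' {c : ℝ → ℝ} (H : CH1 c) : (∫ x in (0 : ℝ)..1, c x) = 3 / 2 := by
  have h1 := H.half
  have h2 := intervalIntegral.integral_add_adjacent_intervals (H.ii (-1) 0) (H.ii 0 1)
  rw [H.int] at h2
  linarith

theorem CH1.phi {c : ℝ → ℝ} (H : CH1 c) (s : ℝ) :
    (∫ x in (-1)..s, c x) = 3 / 2 + ∫ x in (0 : ℝ)..s, c x := by
  have h1 := H.half
  have h2 := intervalIntegral.integral_add_adjacent_intervals (H.ii (-1) 0) (H.ii 0 s)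
  linarith

theorem CH1.phi_nn {c : ℝ → ℝ} (H : CH1 c) (s : ℝ) : 0 ≤ ∫ x in (-1)..s, c x := by
  rcases le_total (-1) s with h | h
  · exact intervalIntegral.integral_nonneg h fun x _ => H.nn x
  · have h1 := H.sym s
    have h2 : ∫ x in (-1)..(-s), c x = 3 := by
      rw [← intervalIntegral.integral_add_adjacent_intervals (H.ii (-1) 1) (H.ii 1 (-s)), H.int]
      have h3 : ∫ x in (1 : ℝ)..(-s), c x = 0 := by
        rw [intervalIntegral.integral_of_le (by linarith)]
        apply setIntegral_eq_zero_of_forall_eq_zero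
        intro x hx
        apply H.out
        rw [abs_of_pos (by linarith [hx.1])]
        exact hx.1
      rw [h3, add_zero]
    linarith

theorem CH1.star {c : ℝ → ℝ} (H : CH1 c) (t : ℝ) : c t ≤ ∫ x in (-1)..(3 / 4 - t), c x := by
  by_cases ht : 1 < |t|
  · rw [H.out t ht]; exact H.phi_nn _
  rw [not_lt, abs_le] at ht
  rw [H.phi]
  rcases le_total t (3 / 8) with h1 | h1
  · -- first case
    have h2 : (9 / 16 : ℝ) ≤ ∫ x in (0 : ℝ)..(3 / 8), c x := by
      have e1 := intervalIntegral.integral_add_adjacent_intervals (H.ii 0 (3 / 8)) (H.ii (3 / 8) 1)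
      rw [H.half'] at e1
      have e2 : (3 / 8 : ℝ) * c (3 / 8) ≤ ∫ x in (0 : ℝ)..(3 / 8), c x := by
        have := intervalIntegral.integral_mono_on (a := 0) (b := 3 / 8) (f := fun _ => c (3 / 8))
          (g := c) (by norm_num) (by simp) (H.ii _ _)
          (fun x hx => H.anti ⟨hx.1, by linarith [hx.2]⟩ ⟨by norm_num, by norm_num⟩ hx.2)
        simpa using this
      have e3 : (∫ x in (3 / 8 : ℝ)..1, c x) ≤ (5 / 8 : ℝ) * c (3 / 8) := by
        have := intervalIntegral.integral_mono_on (a := 3 / 8) (b := 1) (g := fun _ => c (3 / 8))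
          (f := c) (by norm_num) (H.ii _ _) (by simp)
          (fun x hx => H.anti ⟨by norm_num, by norm_num⟩ ⟨by linarith [hx.1], hx.2⟩ hx.1)
        have e4 : (∫ _ in (3 / 8 : ℝ)..1, c (3 / 8)) = (5 / 8 : ℝ) * c (3 / 8) := by
          rw [intervalIntegral.integral_const, smul_eq_mul]; norm_num
        rwa [e4] at this
      linarith
    have h3 := intervalIntegral.integral_add_adjacent_intervals (H.ii 0 (3 / 8))
      (H.ii (3 / 8) (3 / 4 - t))
    have h4 : 0 ≤ ∫ x in (3 / 8 : ℝ)..(3 / 4 - t), c x :=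
      intervalIntegral.integral_nonneg (by linarith) fun x _ => H.nn x
    have h5 := H.le t
    linarith
  rcases le_total t (3 / 4) with h2 | h2
  · -- second case
    have htp : 0 < t := by linarith
    have hs0 : 0 ≤ 3 / 4 - t := by linarith
    have hcon : ∀ u, 0 ≤ u → u ≤ t → 2 - (2 - c t) / t * u ≤ c u := by
      intro u hu0 hut
      have m0 : (0 : ℝ) ∈ Icc (-1 : ℝ) 1 := ⟨by norm_num, by norm_num⟩
      have mt : t ∈ Icc (-1 : ℝ) 1 := ⟨by linarith, by linarith⟩
      have a0 : 0 ≤ 1 - u / t := by rw [sub_nonneg, div_le_one htp]; exact hut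
      have b0 : 0 ≤ u / t := div_nonneg hu0 htp.le
      have hh := H.conc.2 m0 mt a0 b0 (by ring)
      simp only [smul_eq_mul, mul_zero, zero_add, H.c0] at hh
      rw [div_mul_cancel₀ _ htp.ne'] at hh
      refine le_trans (le_of_eq ?_) hh
      ring
    have hC : 2 * (3 / 4 - t) - (2 - c t) / t * ((3 / 4 - t) ^ 2 / 2) ≤
        ∫ x in (0 : ℝ)..(3 / 4 - t), c x := by
      have e1 := intervalIntegral.integral_mono_on (a := 0) (b := 3 / 4 - t)
        (f := fun u => 2 - (2 - c t) / t * u) (g := c) hs0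
        ((by fun_prop : Continuous fun u : ℝ => 2 - (2 - c t) / t * u).intervalIntegrable _ _)
        (H.ii _ _) (fun x hx => hcon x hx.1 (by linarith [hx.2]))
      have e2 : (∫ u in (0 : ℝ)..(3 / 4 - t), (2 - (2 - c t) / t * u)) =
          2 * (3 / 4 - t) - (2 - c t) / t * ((3 / 4 - t) ^ 2 / 2) := by
        rw [intervalIntegral.integral_sub (by simp)
          ((by fun_prop : Continuous fun u : ℝ => (2 - c t) / t * u).intervalIntegrable _ _),
          intervalIntegral.integral_const_mul, integral_id, intervalIntegral.integral_const,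
          smul_eq_mul]
        ring
      rwa [e2] at e1
    refine le_trans ?_ (add_le_add_right hC _)
    have hd : 0 ≤ 2 - c t := by linarith [H.le t]
    have hct := H.h1 t htp
    rcases le_total t (1 / 2) with h3 | h3
    · have e3 : (2 - c t) / t * ((3 / 4 - t) ^ 2 / 2) ≤ (2 - c t) := by
        rw [div_mul_eq_mul_div, div_le_iff₀ htp]
        apply mul_le_mul_of_nonneg_left _ hd
        nlinarith
      linarith
    · have e3 : (2 - c t) / t * ((3 / 4 - t) ^ 2 / 2) = (2 - c t) * ((3 / 4 - t) ^ 2 / 2) / t := by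
        ring
      rw [e3]
      have key : (2 - c t) * ((3 / 4 - t) ^ 2 / 2) ≤ t * (3 - 2 * t - c t) := by
        have hg : t * c t ≤ 1 := hct
        have k1 : (3 / 4 - t) ^ 2 ≤ 1 / 16 := by nlinarith
        have k2 : 0 ≤ (3 / 4 - t) ^ 2 := sq_nonneg _
        have k3 : (2 - c t) * ((3 / 4 - t) ^ 2 / 2) ≤ (2 - c t) * (1 / 32) :=
          mul_le_mul_of_nonneg_left (by linarith) hd
        have k4 : (0 : ℝ) ≤ (2 * t - 1) * (1 - t) := mul_nonneg (by linarith) (by linarith)
        -- need (2 - g)/32 <= 3 t - 2 t^2 - t g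
        have k5 : 2 * t - 1 ≤ t * (2 - c t) := by nlinarith
        nlinarith
      have k6 : (2 - c t) * ((3 / 4 - t) ^ 2 / 2) / t ≤ 3 - 2 * t - c t := by
        rw [div_le_iff₀ htp]; linarith
      linarith
  · -- third case
    have htp : 0 < t := by linarith
    have hct := H.h1 t htp
    have e1 : (∫ x in (3 / 4 - t)..0, c x) ≤ 2 * (t - 3 / 4) := by
      have := intervalIntegral.integral_mono_on (a := 3 / 4 - t) (b := 0) (g := fun _ => 2)
        (f := c) (by linarith) (H.ii _ _) (by simp) (fun x _ => H.le x)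
      have e4 : (∫ _ in (3 / 4 - t)..0, (2 : ℝ)) = 2 * (t - 3 / 4) := by
        rw [intervalIntegral.integral_const, smul_eq_mul]; ring
      rwa [e4] at this
    rw [intervalIntegral.integral_symm] 
    have e5 : t * c t ≤ t * (3 - 2 * t) := by nlinarith
    have e6 := le_of_mul_le_mul_left e5 htp
    linarith

theorem CH1.first {c : ℝ → ℝ} (H : CH1 c) (w : ℝ) (hw0 : 0 ≤ w) (hw : w ≤ 3 / 2) (t : ℝ) :
    (w / 2 + 1 / 4) * (c t + c (w - t)) ≤ 3 := by
  have h1 := H.le t
  have h2 := H.le (w - t)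
  have h3 := H.nn t
  have h4 := H.nn (w - t)
  rcases le_total w 1 with hw1 | hw1
  · nlinarith
  by_cases ht : 1 < |t|
  · rw [H.out t ht]; nlinarith
  by_cases ht' : 1 < |w - t|
  · rw [H.out _ ht']; nlinarith
  rw [not_lt, abs_le] at ht ht'
  have ha : (0 : ℝ) ≤ 1 / 2 := by norm_num
  have m1 : t ∈ Icc (-1 : ℝ) 1 := ht
  have m2 : w - t ∈ Icc (-1 : ℝ) 1 := ht'
  have h5 := H.conc.2 m1 m2 ha ha (by norm_num)
  simp only [smul_eq_mul] at h5
  have e : 1 / 2 * t + 1 / 2 * (w - t) = w / 2 := by ring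
  rw [e] at h5
  have h6 := H.h1 (w / 2) (by linarith)
  -- c t + c (w-t) =: S, w * S <= 4
  have h7 : w * (c t + c (w - t)) ≤ 4 := by nlinarith
  nlinarith

theorem CH1.second {c : ℝ → ℝ} (H : CH1 c) (w t : ℝ) :
    c t + c (w - t) + ∫ y in (3 / 4)..(w - 3 / 4), c (y - t) ≤ 3 := by
  have h1 := H.star t
  have h2 := H.star (w - t)
  have h3 : ∫ y in (3 / 4)..(w - 3 / 4), c (y - t) = ∫ y in (3 / 4 - t)..(w - 3 / 4 - t), c y :=
    intervalIntegral.integral_comp_sub_right (fun x => c x) t
  have h4 := intervalIntegral.integral_add_adjacent_intervals (H.ii (-1) (3 / 4 - t))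
    (H.ii (3 / 4 - t) (w - 3 / 4 - t))
  have h5 := H.sym (w - 3 / 4 - t)
  have e : -(w - 3 / 4 - t) = 3 / 4 - (w - t) := by ring
  rw [e] at h5
  rw [h3]
  linarith

/-- One dimensional inequality for the chord function of a hexagon. -/
theorem strip_ineq (c : ℝ → ℝ) (h : ℝ) (hh : 0 < h) (hconc : ConcaveOn ℝ (Icc (-h) h) c)
    (hout : ∀ t, h < |t| → c t = 0) (hnn : ∀ t, 0 ≤ c t) (hev : ∀ t, c (-t) = c t)
    (hc0 : h * c 0 = 2) (hle : ∀ t, h * c t ≤ 2) (h1 : ∀ t, 0 < t → t * c t ≤ 1)
    (hint : ∫ t in (-h)..h, c t = 3) :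
    (∀ w, 0 ≤ w → w ≤ 3 / 2 * h → ∀ t, (w / 2 + h / 4) * (c t + c (w - t)) ≤ 3) ∧
    (∀ w, 3 / 2 * h ≤ w → ∀ t,
      h * (c t + c (w - t)) + ∫ y in (3 / 4 * h)..(w - 3 / 4 * h), c (y - t) ≤ 3) := by
  have H : CH1 (fun x => h * c (h * x)) := by
    refine ⟨?_, ?_, ?_, ?_, ?_, ?_, ?_, ?_⟩
    · refine ⟨convex_Icc _ _, ?_⟩
      intro x hx y hy a b ha hb hab
      have hx' : h * x ∈ Icc (-h) h := ⟨by nlinarith [hx.1], by nlinarith [hx.2]⟩
      have hy' : h * y ∈ Icc (-h) h := ⟨by nlinarith [hy.1], by nlinarith [hy.2]⟩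
      have := hconc.2 hx' hy' ha hb hab
      simp only [smul_eq_mul] at this ⊢
      have e : h * (a * x + b * y) = a * (h * x) + b * (h * y) := by ring
      rw [e]
      nlinarith
    · intro t ht
      have : h < |h * t| := by
        rw [abs_mul, abs_of_pos hh]; nlinarith
      simp only [hout _ this, mul_zero]
    · intro t; exact mul_nonneg hh.le (hnn _)
    · intro t; simp only [mul_neg, hev]
    · simpa using hc0
    · intro t; exact hle _
    · intro t ht
      have := h1 (h * t) (by positivity)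
      nlinarith
    · have := intervalIntegral.integral_comp_mul_left (a := -1) (b := 1) c hh.ne'
      rw [intervalIntegral.integral_const_mul, this, mul_neg, mul_one, hint, smul_eq_mul,
        ← mul_assoc, mul_inv_cancel₀ hh.ne', one_mul]
  constructor
  · intro w hw0 hw t
    have := H.first (w / h) (by positivity) (by rw [div_le_iff₀ hh]; exact hw) (t / h)
    have e1 : h * (t / h) = t := by field_simp
    have e2 : h * (w / h - t / h) = w - t := by field_simp
    simp only [e1, e2] at this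
    refine le_trans (le_of_eq ?_) this
    field_simp
    try ring
  · intro w hw t
    have := H.second (w / h) (t / h)
    have e1 : h * (t / h) = t := by field_simp
    have e2 : h * (w / h - t / h) = w - t := by field_simp
    simp only [e1, e2] at this
    have e3 : ∀ y : ℝ, h * (y - t / h) = h * y - t := by intro y; field_simp
    simp only [e3] at this
    rw [intervalIntegral.integral_const_mul] at this
    have e4 := intervalIntegral.integral_comp_mul_left (a := 3 / 4) (b := w / h - 3 / 4)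
      (fun x => c (x - t)) hh.ne'
    rw [e4, smul_eq_mul, ← mul_assoc, mul_inv_cancel₀ hh.ne', one_mul] at this
    have e5 : h * (3 / 4) = 3 / 4 * h := by ring
    have e6 : h * (w / h - 3 / 4) = w - 3 / 4 * h := by field_simp
    rw [e5, e6] at this
    linarith



end Pool.Agent.Helper484.Crit.FL
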