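import Pool.Agent.Helper484.Crit.Base

set_option autoImplicit false

namespace Pool.Agent.Helper484.Crit.FM

open Pool.Agent.Helper484.Crit 

open MeasureTheory Set Filter Topology
open scoped ENNReal Pointwise

/-- combination lemma -/
theorem hex_comb {α β p q m : ℝ} (hα : |α| ≤ 1) (hβ : |β| ≤ 1) (hαβ : |α - β| ≤ 1)
    (hp : |p| ≤ m) (hq : |q| ≤ m) (hpq : |p + q| ≤ m) : |α * p + β * q| ≤ m := by
  have hm : 0 ≤ m := (abs_nonneg p).trans hp
  rw [abs_le] at hα hβ hαβ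
  have key : ∀ a b x y : ℝ, 0 ≤ a → 0 ≤ b → a + b ≤ 1 → |x| ≤ m → |y| ≤ m → |a * x + b * y| ≤ m := by
    intro a b x y ha hb hab hx hy
    calc |a * x + b * y| ≤ |a * x| + |b * y| := abs_add_le _ _
      _ = a * |x| + b * |y| := by rw [abs_mul, abs_mul, abs_of_nonneg ha, abs_of_nonneg hb]
      _ ≤ a * m + b * m := add_le_add (mul_le_mul_of_nonneg_left hx ha) (mul_le_mul_of_nonneg_left hy hb)
      _ ≤ m := by nlinarith
  have hnp : |(-p)| ≤ m := by rwa [abs_neg]
  have hnq : |(-q)| ≤ m := by rwa [abs_neg]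
  have hnpq : |(-(p + q))| ≤ m := by rwa [abs_neg]
  rcases le_total 0 α with h1 | h1 <;> rcases le_total 0 β with h2 | h2
  · rcases le_total β α with h3 | h3
    · have e : α * p + β * q = (α - β) * p + β * (p + q) := by ring
      rw [e]; exact key _ _ _ _ (by linarith) h2 (by linarith) hp hpq
    · have e : α * p + β * q = (β - α) * q + α * (p + q) := by ring
      rw [e]; exact key _ _ _ _ (by linarith) h1 (by linarith) hq hpq
  · have e : α * p + β * q = α * p + (-β) * (-q) := by ring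
    rw [e]; exact key _ _ _ _ h1 (by linarith) (by linarith) hp hnq
  · have e : α * p + β * q = (-α) * (-p) + β * q := by ring
    rw [e]; exact key _ _ _ _ (by linarith) h2 (by linarith) hnp hq
  · rcases le_total β α with h3 | h3
    · have e : α * p + β * q = (α - β) * (-q) + (-α) * (-(p + q)) := by ring
      rw [e]; exact key _ _ _ _ (by linarith) (by linarith) (by linarith) hnq hnpq
    · have e : α * p + β * q = (β - α) * (-p) + (-β) * (-(p + q)) := by ring
      rw [e]; exact key _ _ _ _ (by linarith) (by linarith) (by linarith) hnp hnpq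

section
variable {H : Set P} {u₁ u₂ u₃ : P}

theorem _root_.Pool.Agent.Helper484.Crit.Hexa.mem (hH : Hexa H u₁ u₂ u₃) {z : P} :
    z ∈ H ↔ |cr z u₁| ≤ 1 ∧ |cr z u₂| ≤ 1 ∧ |cr z u₃| ≤ 1 := by rw [hH.eq]; rfl

theorem _root_.Pool.Agent.Helper484.Crit.Hexa.cr1 (hH : Hexa H u₁ u₂ u₃) (z : P) : cr z u₁ = cr z u₂ + cr z u₃ := by
  rw [hH.sum]; unfold cr; simp only [Prod.fst_add, Prod.snd_add]; ring

/-- linear functionals on `H` -/
theorem _root_.Pool.Agent.Helper484.Crit.Hexa.lin (hH : Hexa H u₁ u₂ u₃) {a b m : ℝ} (h1 : |a * u₁.1 + b * u₁.2| ≤ m)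
    (h2 : |a * u₂.1 + b * u₂.2| ≤ m) (h3 : |a * u₃.1 + b * u₃.2| ≤ m) {z : P} (hz : z ∈ H) :
    |a * z.1 + b * z.2| ≤ m := by
  obtain ⟨z1, z2, z3⟩ := hH.mem.1 hz
  have hΔ := hH.det
  have hΔ0 : cr u₂ u₃ ≠ 0 := by
    intro h0; rw [h0, abs_zero] at hΔ; norm_num at hΔ
  have hΔ2 : cr u₂ u₃ * cr u₂ u₃ = 1 := by
    rw [← abs_mul_abs_self, hΔ]; norm_num
  set Δ := cr u₂ u₃ with hΔdef
  have hz1 : z.1 = (cr z u₃ * Δ) * u₂.1 + (-(cr z u₂ * Δ)) * u₃.1 := by
    have : (cr z u₃ * Δ) * u₂.1 + (-(cr z u₂ * Δ)) * u₃.1 = z.1 * (Δ * Δ) := by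
      rw [hΔdef]; unfold cr; ring
    rw [this, hΔ2, mul_one]
  have hz2 : z.2 = (cr z u₃ * Δ) * u₂.2 + (-(cr z u₂ * Δ)) * u₃.2 := by
    have : (cr z u₃ * Δ) * u₂.2 + (-(cr z u₂ * Δ)) * u₃.2 = z.2 * (Δ * Δ) := by
      rw [hΔdef]; unfold cr; ring
    rw [this, hΔ2, mul_one]
  have e : a * z.1 + b * z.2 = (cr z u₃ * Δ) * (a * u₂.1 + b * u₂.2) +
      (-(cr z u₂ * Δ)) * (a * u₃.1 + b * u₃.2) := by
    conv_lhs => rw [hz1, hz2]
    ring
  rw [e]
  refine hex_comb ?_ ?_ ?_ h2 h3 ?_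
  · rw [abs_mul, hΔ, mul_one]; exact z3
  · rw [abs_neg, abs_mul, hΔ, mul_one]; exact z2
  · have : cr z u₃ * Δ - -(cr z u₂ * Δ) = cr z u₁ * Δ := by rw [hH.cr1 z]; ring
    rw [this, abs_mul, hΔ, mul_one]; exact z1
  · have : a * u₂.1 + b * u₂.2 + (a * u₃.1 + b * u₃.2) = a * u₁.1 + b * u₁.2 := by
      rw [hH.sum]; simp only [Prod.fst_add, Prod.snd_add]; ring
    rw [this]; exact h1

theorem _root_.Pool.Agent.Helper484.Crit.Hexa.cr_le (hH : Hexa H u₁ u₂ u₃) {z w : P} (hz : z ∈ H) (hw : w ∈ H) : |cr z w| ≤ 1 := by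
  obtain ⟨w1, w2, w3⟩ := hH.mem.1 hw
  have e : ∀ v : P, w.2 * v.1 + (-w.1) * v.2 = cr v w := by intro v; unfold cr; ring
  have e' : ∀ v : P, |cr v w| = |cr w v| := by
    intro v
    have : cr v w = - cr w v := by unfold cr; ring
    rw [this, abs_neg]
  have := hH.lin (a := w.2) (b := -w.1) (m := 1) (by rw [e, e']; exact w1) (by rw [e, e']; exact w2)
    (by rw [e, e']; exact w3) hz
  rwa [e] at this

theorem _root_.Pool.Agent.Helper484.Crit.Hexa.snd_le (hH : Hexa H u₁ u₂ u₃) {h : ℝ} (hh : h = max |u₁.2| (max |u₂.2| |u₃.2|))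
    {z : P} (hz : z ∈ H) : |z.2| ≤ h := by
  have := hH.lin (a := 0) (b := 1) (m := h) (by
    rw [zero_mul, one_mul, zero_add, hh]; exact le_max_left _ _) (by
    rw [zero_mul, one_mul, zero_add, hh]; exact (le_max_left _ _).trans (le_max_right _ _)) (by
    rw [zero_mul, one_mul, zero_add, hh]; exact (le_max_right _ _).trans (le_max_right _ _)) hz
  simpa using this

theorem _root_.Pool.Agent.Helper484.Crit.Hexa.h_pos (hH : Hexa H u₁ u₂ u₃) {h : ℝ} (hh : h = max |u₁.2| (max |u₂.2| |u₃.2|)) :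
    0 < h := by
  by_contra hcon
  push Not at hcon
  have h2 : |u₂.2| ≤ 0 := by
    refine le_trans ?_ hcon
    rw [hh]; exact (le_max_left _ _).trans (le_max_right _ _)
  have h3 : |u₃.2| ≤ 0 := by
    refine le_trans ?_ hcon
    rw [hh]; exact (le_max_right _ _).trans (le_max_right _ _)
  have h2' : u₂.2 = 0 := abs_eq_zero.1 (le_antisymm h2 (abs_nonneg _))
  have h3' : u₃.2 = 0 := abs_eq_zero.1 (le_antisymm h3 (abs_nonneg _))
  have := hH.det
  unfold cr at this
  rw [h2', h3'] at this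
  simp at this

theorem _root_.Pool.Agent.Helper484.Crit.Hexa.smul_mem (hH : Hexa H u₁ u₂ u₃) {z : P} (hz : z ∈ H) {c : ℝ} (hc : |c| ≤ 1) :
    c • z ∈ H := by
  obtain ⟨z1, z2, z3⟩ := hH.mem.1 hz
  have e : ∀ u : P, cr (c • z) u = c * cr z u := by
    intro u; unfold cr; simp only [Prod.smul_fst, Prod.smul_snd, smul_eq_mul]; ring
  have k : ∀ u : P, |cr z u| ≤ 1 → |cr (c • z) u| ≤ 1 := by
    intro u hu
    rw [e, abs_mul]
    exact mul_le_one₀ hc (abs_nonneg _) hu
  exact hH.mem.2 ⟨k _ z1, k _ z2, k _ z3⟩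

theorem _root_.Pool.Agent.Helper484.Crit.Hexa.convex (hH : Hexa H u₁ u₂ u₃) : Convex ℝ H := by
  intro z hz w hw a b ha hb hab
  obtain ⟨z1, z2, z3⟩ := hH.mem.1 hz
  obtain ⟨w1, w2, w3⟩ := hH.mem.1 hw
  have e : ∀ u : P, cr (a • z + b • w) u = a * cr z u + b * cr w u := by
    intro u; unfold cr
    simp only [Prod.smul_fst, Prod.smul_snd, Prod.fst_add, Prod.snd_add, smul_eq_mul]; ring
  have k : ∀ u : P, |cr z u| ≤ 1 → |cr w u| ≤ 1 → |cr (a • z + b • w) u| ≤ 1 := by
    intro u hu hu'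
    rw [e]
    calc |a * cr z u + b * cr w u| ≤ |a * cr z u| + |b * cr w u| := abs_add_le _ _
      _ = a * |cr z u| + b * |cr w u| := by rw [abs_mul, abs_mul, abs_of_nonneg ha, abs_of_nonneg hb]
      _ ≤ a * 1 + b * 1 := add_le_add (mul_le_mul_of_nonneg_left hu ha) (mul_le_mul_of_nonneg_left hu' hb)
      _ = 1 := by rw [mul_one, mul_one, hab]
  exact hH.mem.2 ⟨k _ z1 w1, k _ z2 w2, k _ z3 w3⟩

theorem _root_.Pool.Agent.Helper484.Crit.Hexa.cr_cont (u : P) : Continuous fun z : P => cr z u := by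
  unfold cr; fun_prop

theorem _root_.Pool.Agent.Helper484.Crit.Hexa.closed (hH : Hexa H u₁ u₂ u₃) : IsClosed H := by
  rw [hH.eq]
  have h1 : ∀ u : P, IsClosed {z : P | |cr z u| ≤ 1} := fun u =>
    isClosed_le (Hexa.cr_cont u).abs continuous_const
  exact (h1 u₁).inter ((h1 u₂).inter (h1 u₃))

/-- a vertex of maximal height -/
theorem _root_.Pool.Agent.Helper484.Crit.Hexa.vertex (hH : Hexa H u₁ u₂ u₃) {h : ℝ} (hh : h = max |u₁.2| (max |u₂.2| |u₃.2|)) :
    ∃ v : P, v ∈ H ∧ v.2 = h := by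
  have hneg : cr u₃ u₂ = - cr u₂ u₃ := by unfold cr; ring
  have hself : ∀ u : P, cr u u = 0 := by intro u; unfold cr; ring
  have m2 : u₂ ∈ H := by
    refine hH.mem.2 ⟨?_, ?_, ?_⟩
    · rw [hH.cr1, hself, zero_add, hH.det]
    · rw [hself, abs_zero]; norm_num
    · rw [hH.det]
  have m3 : u₃ ∈ H := by
    refine hH.mem.2 ⟨?_, ?_, ?_⟩
    · rw [hH.cr1, hself, add_zero, hneg, abs_neg, hH.det]
    · rw [hneg, abs_neg, hH.det]
    · rw [hself, abs_zero]; norm_num
  have m1 : u₁ ∈ H := by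
    have e2 : cr u₁ u₂ = - cr u₂ u₃ := by
      rw [hH.sum]; unfold cr; simp only [Prod.fst_add, Prod.snd_add]; ring
    have e3 : cr u₁ u₃ = cr u₂ u₃ := by
      rw [hH.sum]; unfold cr; simp only [Prod.fst_add, Prod.snd_add]; ring
    refine hH.mem.2 ⟨?_, ?_, ?_⟩
    · rw [hself, abs_zero]; norm_num
    · rw [e2, abs_neg, hH.det]
    · rw [e3, hH.det]
  have key : ∀ u : P, u ∈ H → |u.2| = h → ∃ v : P, v ∈ H ∧ v.2 = h := by
    intro u hu hu2
    rcases le_total 0 u.2 with h0 | h0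
    · exact ⟨u, hu, by rw [← hu2, abs_of_nonneg h0]⟩
    · refine ⟨(-1 : ℝ) • u, hH.smul_mem hu (by simp), ?_⟩
      rw [Prod.smul_snd, smul_eq_mul, ← hu2, abs_of_nonpos h0]; ring
  rcases max_choice |u₁.2| (max |u₂.2| |u₃.2|) with h1 | h1
  · exact key u₁ m1 (by rw [hh, h1])
  · rcases max_choice |u₂.2| |u₃.2| with h2 | h2
    · exact key u₂ m2 (by rw [hh, h1, h2])
    · exact key u₃ m3 (by rw [hh, h1, h2])

/-- sections are bounded -/
theorem _root_.Pool.Agent.Helper484.Crit.Hexa.sec_bdd (hH : Hexa H u₁ u₂ u₃) (t : ℝ) :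
    ∃ A B : ℝ, {x : ℝ | ((x, t) : P) ∈ H} ⊆ Icc A B := by
  obtain ⟨v, hv, hv2⟩ := hH.vertex rfl
  have hpos := hH.h_pos rfl
  set h := max |u₁.2| (max |u₂.2| |u₃.2|) with hh
  refine ⟨(t * v.1 - 1) / h, (t * v.1 + 1) / h, ?_⟩
  intro x hx
  have h1 := hH.cr_le hx hv
  have e : cr ((x, t) : P) v = x * h - t * v.1 := by unfold cr; rw [hv2]
  rw [e, abs_le] at h1
  constructor
  · rw [div_le_iff₀ hpos]; linarith
  · rw [le_div_iff₀ hpos]; linarith

theorem _root_.Pool.Agent.Helper484.Crit.Hexa.sec_closed (hH : Hexa H u₁ u₂ u₃) (t : ℝ) :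
    IsClosed {x : ℝ | ((x, t) : P) ∈ H} :=
  hH.closed.preimage (by fun_prop)

theorem _root_.Pool.Agent.Helper484.Crit.Hexa.sec_finite (hH : Hexa H u₁ u₂ u₃) (t : ℝ) :
    volume {x : ℝ | ((x, t) : P) ∈ H} < ⊤ := by
  obtain ⟨A, B, hAB⟩ := hH.sec_bdd t
  exact (measure_mono hAB).trans_lt (by rw [Real.volume_Icc]; exact ENNReal.ofReal_lt_top)

theorem _root_.Pool.Agent.Helper484.Crit.Hexa.sec_Icc (hH : Hexa H u₁ u₂ u₃) {h : ℝ} (hh : h = max |u₁.2| (max |u₂.2| |u₃.2|))
    {t : ℝ} (ht : |t| ≤ h) : ∃ a b : ℝ, a ≤ b ∧ {x : ℝ | ((x, t) : P) ∈ H} = Icc a b := by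
  have hpos := hH.h_pos hh
  obtain ⟨v, hv, hv2⟩ := hH.vertex hh
  have hne : {x : ℝ | ((x, t) : P) ∈ H}.Nonempty := by
    refine ⟨t / h * v.1, ?_⟩
    have h1 : (t / h) • v ∈ H := hH.smul_mem hv (by
      rw [abs_div, abs_of_pos hpos, div_le_one hpos]; exact ht)
    have e : (t / h) • v = ((t / h * v.1, t) : P) := by
      ext
      · simp
      · simp only [Prod.smul_snd, smul_eq_mul, hv2]; field_simp
    rw [e] at h1
    exact h1
  have hconv : Convex ℝ {x : ℝ | ((x, t) : P) ∈ H} := by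
    intro x hx y hy a b ha hb hab
    have := hH.convex hx hy ha hb hab
    have e : a • ((x, t) : P) + b • ((y, t) : P) = ((a • x + b • y, t) : P) := by
      ext
      · simp
      · simp only [Prod.smul_snd, Prod.snd_add, smul_eq_mul]; rw [← add_mul, hab, one_mul]
    rw [e] at this
    exact this
  obtain ⟨A, B, hAB⟩ := hH.sec_bdd t
  have hcomp : IsCompact {x : ℝ | ((x, t) : P) ∈ H} :=
    isCompact_Icc.of_isClosed_subset (hH.sec_closed t) hAB
  have hI := eq_Icc_of_connected_compact ⟨hne, hconv.isPreconnected⟩ hcomp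
  refine ⟨_, _, ?_, hI⟩
  rw [hI] at hne
  exact nonempty_Icc.1 hne

theorem chord_of_Icc {t a b : ℝ} (hab : a ≤ b) (hS : {x : ℝ | ((x, t) : P) ∈ H} = Icc a b) :
    chord H t = b - a := by
  unfold chord
  rw [hS, Real.volume_Icc, ENNReal.toReal_ofReal (by linarith)]

theorem chord_zero_of_gt (hH : Hexa H u₁ u₂ u₃) {h : ℝ}
    (hh : h = max |u₁.2| (max |u₂.2| |u₃.2|)) {t : ℝ} (ht : h < |t|) : chord H t = 0 := by
  unfold chord
  have : {x : ℝ | ((x, t) : P) ∈ H} = ∅ := by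
    ext x
    simp only [mem_setOf_eq, mem_empty_iff_false, iff_false]
    intro hx
    have := hH.snd_le hh hx
    simp only at this
    linarith
  rw [this]; simp

/-- the model hexagon has area 3 -/
theorem hex_area : volume {z : P | |z.1 + z.2| ≤ 1 ∧ |z.2| ≤ 1 ∧ |z.1| ≤ 1} = 3 := by
  have hm : MeasurableSet {z : P | |z.1 + z.2| ≤ 1 ∧ |z.2| ≤ 1 ∧ |z.1| ≤ 1} := by
    have h1 : IsClosed {z : P | |z.1 + z.2| ≤ 1} := isClosed_le (by fun_prop) continuous_const
    have h2 : IsClosed {z : P | |z.2| ≤ 1} := isClosed_le (by fun_prop) continuous_const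
    have h3 : IsClosed {z : P | |z.1| ≤ 1} := isClosed_le (by fun_prop) continuous_const
    exact (h1.inter (h2.inter h3)).measurableSet
  rw [Measure.volume_eq_prod, Measure.prod_apply hm]
  have h1 : ∀ x : ℝ, volume (Prod.mk x ⁻¹' {z : P | |z.1 + z.2| ≤ 1 ∧ |z.2| ≤ 1 ∧ |z.1| ≤ 1}) =
      (Icc (-1 : ℝ) 1).indicator (fun x => ENNReal.ofReal (2 - |x|)) x := by
    intro x
    by_cases hx : x ∈ Icc (-1 : ℝ) 1
    · rw [indicator_of_mem hx]
      obtain ⟨hx1, hx2⟩ := hx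
      rcases le_total 0 x with h0 | h0
      · have e : Prod.mk x ⁻¹' {z : P | |z.1 + z.2| ≤ 1 ∧ |z.2| ≤ 1 ∧ |z.1| ≤ 1} =
            Icc (-1) (1 - x) := by
          ext y
          simp only [mem_preimage, mem_setOf_eq, mem_Icc, abs_le]
          constructor
          · rintro ⟨⟨a1, a2⟩, ⟨a3, a4⟩, a5, a6⟩; exact ⟨by linarith, by linarith⟩
          · rintro ⟨a1, a2⟩; exact ⟨⟨by linarith, by linarith⟩, ⟨by linarith, by linarith⟩, hx1, hx2⟩
        rw [e, Real.volume_Icc, abs_of_nonneg h0]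
        congr 1; ring
      · have e : Prod.mk x ⁻¹' {z : P | |z.1 + z.2| ≤ 1 ∧ |z.2| ≤ 1 ∧ |z.1| ≤ 1} =
            Icc (-1 - x) 1 := by
          ext y
          simp only [mem_preimage, mem_setOf_eq, mem_Icc, abs_le]
          constructor
          · rintro ⟨⟨a1, a2⟩, ⟨a3, a4⟩, a5, a6⟩; exact ⟨by linarith, by linarith⟩
          · rintro ⟨a1, a2⟩; exact ⟨⟨by linarith, by linarith⟩, ⟨by linarith, by linarith⟩, hx1, hx2⟩
        rw [e, Real.volume_Icc, abs_of_nonpos h0]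
        congr 1; ring
    · rw [indicator_of_notMem hx]
      have e : Prod.mk x ⁻¹' {z : P | |z.1 + z.2| ≤ 1 ∧ |z.2| ≤ 1 ∧ |z.1| ≤ 1} = ∅ := by
        ext y
        simp only [mem_preimage, mem_setOf_eq, mem_empty_iff_false, iff_false]
        rintro ⟨-, -, h⟩
        exact hx (abs_le.1 h)
      rw [e, measure_empty]
  simp_rw [h1]
  rw [lintegral_indicator measurableSet_Icc]
  have hint : IntegrableOn (fun x : ℝ => 2 - |x|) (Icc (-1) 1) :=
    (Continuous.continuousOn (by fun_prop)).integrableOn_Icc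
  rw [← ofReal_integral_eq_lintegral_ofReal hint (by
    rw [Filter.EventuallyLE, ae_restrict_iff' measurableSet_Icc]
    refine Filter.Eventually.of_forall fun x hx => ?_
    have := abs_le.2 (mem_Icc.1 hx)
    show (0 : ℝ) ≤ 2 - |x|
    linarith)]
  rw [integral_Icc_eq_integral_Ioc, ← intervalIntegral.integral_of_le (by norm_num)]
  have h2 : ∫ x in (-1 : ℝ)..1, (2 - |x|) = 3 := by
    have hi : ∀ a b : ℝ, IntervalIntegrable (fun x : ℝ => 2 - |x|) volume a b := fun a b =>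
      (Continuous.intervalIntegrable (by fun_prop) _ _)
    rw [← intervalIntegral.integral_add_adjacent_intervals (hi (-1) 0) (hi 0 1)]
    have e1 : ∫ x in (-1 : ℝ)..0, (2 - |x|) = ∫ x in (-1 : ℝ)..0, (2 + x) := by
      apply intervalIntegral.integral_congr
      intro x hx
      rw [uIcc_of_le (by norm_num)] at hx
      show 2 - |x| = 2 + x
      rw [abs_of_nonpos hx.2]; ring
    have e2 : ∫ x in (0 : ℝ)..1, (2 - |x|) = ∫ x in (0 : ℝ)..1, (2 - x) := by
      apply intervalIntegral.integral_congr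
      intro x hx
      rw [uIcc_of_le (by norm_num)] at hx
      show 2 - |x| = 2 - x
      rw [abs_of_nonneg hx.1]
    rw [e1, e2, intervalIntegral.integral_add (by simp) (by simp),
      intervalIntegral.integral_sub (by simp) (by simp)]
    simp
    norm_num
  rw [h2]
  norm_num

theorem _root_.Pool.Agent.Helper484.Crit.Hexa.volume (hH : Hexa H u₁ u₂ u₃) : MeasureTheory.volume H = 3 := by
  set f : P →ₗ[ℝ] P := Matrix.toLin (Module.Basis.finTwoProd ℝ) (Module.Basis.finTwoProd ℝ)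
    !![u₃.2, -u₃.1; u₂.2, -u₂.1] with hf
  have hfa : ∀ z : P, f z = (cr z u₃, cr z u₂) := by
    intro z
    rw [hf, Matrix.toLin_finTwoProd_apply]
    unfold cr
    ext <;> simp <;> ring
  have hdet : LinearMap.det f = - cr u₂ u₃ := by
    rw [hf, LinearMap.det_toLin, Matrix.det_fin_two]
    unfold cr
    simp
    ring
  have hdet' : |LinearMap.det f| = 1 := by rw [hdet, abs_neg, hH.det]
  have hdet0 : LinearMap.det f ≠ 0 := by
    intro h0; rw [h0, abs_zero] at hdet'; norm_num at hdet'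
  have hpre : H = f ⁻¹' {z : P | |z.1 + z.2| ≤ 1 ∧ |z.2| ≤ 1 ∧ |z.1| ≤ 1} := by
    ext z
    rw [mem_preimage, hfa, hH.mem]
    simp only [mem_setOf_eq]
    rw [hH.cr1 z, add_comm (cr z u₃)]
  rw [hpre, Measure.addHaar_preimage_linearMap _ hdet0, hex_area, abs_inv, hdet', inv_one,
    ENNReal.ofReal_one, one_mul]

end

/-- TARGET. -/
theorem chord_facts {H : Set P} {u₁ u₂ u₃ : P} (hH : Hexa H u₁ u₂ u₃) (h : ℝ)
    (hh : h = max |u₁.2| (max |u₂.2| |u₃.2|)) :
    0 < h ∧ ConcaveOn ℝ (Icc (-h) h) (chord H) ∧ (∀ t, h < |t| → chord H t = 0) ∧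
    (∀ t, 0 ≤ chord H t) ∧ (∀ t, chord H (-t) = chord H t) ∧ h * chord H 0 = 2 ∧
    (∀ t, h * chord H t ≤ 2) ∧ (∀ t, 0 < t → t * chord H t ≤ 1) ∧
    ∫ t in (-h)..h, chord H t = 3 := by
  have hpos := hH.h_pos hh
  have hout : ∀ t, h < |t| → chord H t = 0 := fun t ht => chord_zero_of_gt hH hh ht
  refine ⟨hpos, ?_, hout, fun t => ENNReal.toReal_nonneg, ?_, ?_, ?_, ?_, ?_⟩
  · refine ⟨convex_Icc _ _, ?_⟩
    intro t ht t' ht' r s hr hs hrs
    obtain ⟨a, b, hab, hS⟩ := hH.sec_Icc hh (abs_le.2 ht)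
    obtain ⟨a', b', hab', hS'⟩ := hH.sec_Icc hh (abs_le.2 ht')
    have hmem := convex_Icc (𝕜 := ℝ) (-h) h ht ht' hr hs hrs
    obtain ⟨a₂, b₂, hab₂, hS₂⟩ := hH.sec_Icc hh (abs_le.2 hmem)
    rw [chord_of_Icc hab hS, chord_of_Icc hab' hS', chord_of_Icc hab₂ hS₂]
    have key : ∀ x y : ℝ, x ∈ Icc a b → y ∈ Icc a' b' → r * x + s * y ∈ Icc a₂ b₂ := by
      intro x y hx hy
      rw [← hS] at hx
      rw [← hS'] at hy
      rw [← hS₂]
      have := hH.convex hx hy hr hs hrs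
      have e : r • ((x, t) : P) + s • ((y, t') : P) = ((r * x + s * y, r • t + s • t') : P) := by
        ext <;> simp
      rw [e] at this
      exact this
    have k1 := key a a' ⟨le_rfl, hab⟩ ⟨le_rfl, hab'⟩
    have k2 := key b b' ⟨hab, le_rfl⟩ ⟨hab', le_rfl⟩
    simp only [smul_eq_mul]
    have := k1.1
    have := k2.2
    nlinarith
  · intro t
    unfold chord
    have e : {x : ℝ | ((x, -t) : P) ∈ H} = Neg.neg ⁻¹' {x : ℝ | ((x, t) : P) ∈ H} := by
      ext x
      simp only [mem_setOf_eq, mem_preimage]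
      constructor
      · intro hx
        have := hH.smul_mem hx (c := -1) (by simp)
        have e : (-1 : ℝ) • ((x, -t) : P) = (-x, t) := by ext <;> simp
        rwa [e] at this
      · intro hx
        have := hH.smul_mem hx (c := -1) (by simp)
        have e : (-1 : ℝ) • ((-x, t) : P) = (x, -t) := by ext <;> simp
        rwa [e] at this
    rw [e, Measure.measure_preimage_neg]
  · obtain ⟨v, hv, hv2⟩ := hH.vertex hh
    have hS : {x : ℝ | ((x, 0) : P) ∈ H} = Icc (-(1 / h)) (1 / h) := by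
      ext x
      simp only [mem_setOf_eq]
      constructor
      · intro hx
        have h1 := hH.cr_le hx hv
        have e : cr ((x, 0) : P) v = x * h := by unfold cr; rw [hv2]; ring
        rw [e, abs_mul, abs_of_pos hpos, ← le_div_iff₀ hpos] at h1
        exact abs_le.1 h1
      · intro hx
        have hx' : |x| ≤ 1 / h := abs_le.2 hx
        rw [le_div_iff₀ hpos] at hx'
        have k : ∀ u : P, |u.2| ≤ h → |cr ((x, 0) : P) u| ≤ 1 := by
          intro u hu
          have e : cr ((x, 0) : P) u = x * u.2 := by unfold cr; ring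
          rw [e, abs_mul]
          exact (mul_le_mul_of_nonneg_left hu (abs_nonneg _)).trans hx'
        refine hH.mem.2 ⟨k _ ?_, k _ ?_, k _ ?_⟩
        · rw [hh]; exact le_max_left _ _
        · rw [hh]; exact (le_max_left _ _).trans (le_max_right _ _)
        · rw [hh]; exact (le_max_right _ _).trans (le_max_right _ _)
    have h1 : (0 : ℝ) < 1 / h := by positivity
    rw [chord_of_Icc (by linarith) hS]
    field_simp
    norm_num
  · intro t
    by_cases ht : |t| ≤ h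
    · obtain ⟨a, b, hab, hS⟩ := hH.sec_Icc hh ht
      rw [chord_of_Icc hab hS]
      obtain ⟨v, hv, hv2⟩ := hH.vertex hh
      have ha : ((a, t) : P) ∈ H := by
        have : a ∈ {x : ℝ | ((x, t) : P) ∈ H} := by rw [hS]; exact ⟨le_rfl, hab⟩
        exact this
      have hb : ((b, t) : P) ∈ H := by
        have : b ∈ {x : ℝ | ((x, t) : P) ∈ H} := by rw [hS]; exact ⟨hab, le_rfl⟩
        exact this
      have h1 := hH.cr_le ha hv
      have h2 := hH.cr_le hb hv
      have e1 : cr ((a, t) : P) v = a * h - t * v.1 := by unfold cr; rw [hv2]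
      have e2 : cr ((b, t) : P) v = b * h - t * v.1 := by unfold cr; rw [hv2]
      rw [e1, abs_le] at h1
      rw [e2, abs_le] at h2
      nlinarith
    · rw [hout t (not_le.1 ht)]; linarith
  · intro t ht0
    by_cases ht : |t| ≤ h
    · obtain ⟨a, b, hab, hS⟩ := hH.sec_Icc hh ht
      rw [chord_of_Icc hab hS]
      have ha : ((a, t) : P) ∈ H := by
        have : a ∈ {x : ℝ | ((x, t) : P) ∈ H} := by rw [hS]; exact ⟨le_rfl, hab⟩
        exact this
      have hb : ((b, t) : P) ∈ H := by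
        have : b ∈ {x : ℝ | ((x, t) : P) ∈ H} := by rw [hS]; exact ⟨hab, le_rfl⟩
        exact this
      have h1 := hH.cr_le hb ha
      have e1 : cr ((b, t) : P) ((a, t) : P) = t * (b - a) := by unfold cr; ring
      rw [e1] at h1
      exact (abs_le.1 h1).2
    · rw [hout t (not_le.1 ht)]; linarith
  · have hm : MeasurableSet H := hH.closed.measurableSet
    have h1 : ∫ t, chord H t = 3 := by
      unfold chord
      rw [integral_toReal]
      · have h2 : ∫⁻ t, volume {x : ℝ | ((x, t) : P) ∈ H} = volume H := by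
          rw [Measure.volume_eq_prod, Measure.prod_apply_symm hm]
          rfl
        rw [h2, hH.volume]; norm_num
      · exact (measurable_measure_prodMk_right hm).aemeasurable
      · exact Filter.Eventually.of_forall fun t => hH.sec_finite t
    rw [intervalIntegral.integral_of_le (by linarith), ← integral_Icc_eq_integral_Ioc,
      setIntegral_eq_integral_of_forall_compl_eq_zero, h1]
    intro t ht
    apply hout
    by_contra hcon
    exact ht (abs_le.1 (not_lt.1 hcon))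

/-- TARGET. If the segment `[x₀, x₀ + M] × {y}` is covered by translates `z i + H` then the chord
lengths add up to at least `M`. -/
theorem chord_cover {H : Set P} {u₁ u₂ u₃ : P} (hH : Hexa H u₁ u₂ u₃) (x₀ M y : ℝ) (hM : 0 < M)
    (n : ℕ) (z : Fin n → P)
    (hcov : ∀ x ∈ Icc x₀ (x₀ + M), ∃ i, ((x, y) : P) - z i ∈ H) :
    M ≤ ∑ i, chord H (y - (z i).2) := by
  have h1 : ∀ i, volume {x : ℝ | ((x, y) : P) - z i ∈ H} =
      volume {x : ℝ | ((x, y - (z i).2) : P) ∈ H} := by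
    intro i
    have e : {x : ℝ | ((x, y) : P) - z i ∈ H} =
        (fun x => x + (-(z i).1)) ⁻¹' {x : ℝ | ((x, y - (z i).2) : P) ∈ H} := by
      ext x
      simp only [mem_setOf_eq, mem_preimage]
      have e2 : ((x, y) : P) - z i = ((x - (z i).1, y - (z i).2) : P) := rfl
      rw [e2, sub_eq_add_neg]
    rw [e, measure_preimage_add_right]
  have h2 : ENNReal.ofReal M ≤ ∑ i, volume {x : ℝ | ((x, y - (z i).2) : P) ∈ H} := by
    have h3 : Icc x₀ (x₀ + M) ⊆ ⋃ i ∈ (Finset.univ : Finset (Fin n)), {x : ℝ | ((x, y) : P) - z i ∈ H} := by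
      intro x hx
      obtain ⟨i, hi⟩ := hcov x hx
      simp only [mem_iUnion]
      exact ⟨i, Finset.mem_univ _, hi⟩
    have h4 := (measure_mono h3 (μ := volume)).trans (measure_biUnion_finset_le _ _)
    rw [Real.volume_Icc] at h4
    have e : x₀ + M - x₀ = M := by ring
    rw [e] at h4
    refine h4.trans (le_of_eq (Finset.sum_congr rfl fun i _ => h1 i))
  have hfin : ∀ i ∈ (Finset.univ : Finset (Fin n)),
      volume {x : ℝ | ((x, y - (z i).2) : P) ∈ H} ≠ ⊤ := fun i _ => (hH.sec_finite _).ne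
  unfold chord
  rw [← ENNReal.toReal_sum hfin]
  have h5 := ENNReal.toReal_mono (ENNReal.sum_ne_top.2 hfin) h2
  rwa [ENNReal.toReal_ofReal hM.le] at h5



end Pool.Agent.Helper484.Crit.FM
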