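import Pool.Agent.Helper484.Crit.Base

set_option autoImplicit false

namespace Pool.Agent.Helper484.Crit.FN

open Pool.Agent.Helper484.Crit 

open MeasureTheory Set Filter Topology
open scoped ENNReal Pointwise

/-- parallelogram -/
def para (a u w : P) : Set P := (fun st : P => a + st.1 • u + st.2 • w) '' (Icc 0 1 ×ˢ Icc 0 1)

theorem para_compact (a u w : P) : IsCompact (para a u w) := by
  refine (isCompact_Icc.prod isCompact_Icc).image ?_
  fun_prop

theorem para_convex (a u w : P) : Convex ℝ (para a u w) := by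
  rintro _ ⟨⟨s, t⟩, ⟨hs, ht⟩, rfl⟩ _ ⟨⟨s', t'⟩, ⟨hs', ht'⟩, rfl⟩ α β hα hβ hαβ
  refine ⟨(α * s + β * s', α * t + β * t'), ⟨?_, ?_⟩, ?_⟩
  · have := (convex_Icc (0:ℝ) 1) hs hs' hα hβ hαβ
    simpa using this
  · have := (convex_Icc (0:ℝ) 1) ht ht' hα hβ hαβ
    simpa using this
  · have hβ' : β = 1 - α := by linarith
    subst hβ'
    simp only
    module

theorem para_volume (a u w : P) : volume (para a u w) = ENNReal.ofReal |cr u w| := by
  obtain ⟨f, hf⟩ : ∃ f : P →ₗ[ℝ] P, f = Matrix.toLin (Module.Basis.finTwoProd ℝ)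
    (Module.Basis.finTwoProd ℝ) !![u.1, w.1; u.2, w.2] := ⟨_, rfl⟩
  have hfa : ∀ st : P, f st = st.1 • u + st.2 • w := by
    intro st
    rw [hf, Matrix.toLin_finTwoProd_apply]
    ext <;> simp [mul_comm]
  have hdet : LinearMap.det f = cr u w := by
    rw [hf, LinearMap.det_toLin, Matrix.det_fin_two_of]
    unfold cr; ring
  have h1 : para a u w = (fun z => a + z) '' (f '' (Icc 0 1 ×ˢ Icc 0 1)) := by
    rw [Set.image_image]
    unfold para
    apply Set.image_congr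
    intro st _
    rw [hfa, add_assoc]
  have h2 : volume ((Icc (0:ℝ) 1) ×ˢ (Icc (0:ℝ) 1) : Set P) = 1 := by
    rw [Measure.volume_eq_prod, Measure.prod_prod]
    simp
  rw [h1, Set.image_add_left, measure_preimage_add, Measure.addHaar_image_linearMap, hdet, h2,
    mul_one]

theorem floor_aux (n : ℕ) (hn : 1 ≤ n) (t : ℝ) (h0 : 0 ≤ t) (h1 : t ≤ n) :
    ∃ i : ℕ, i < n ∧ 0 ≤ t - i ∧ t - i ≤ 1 := by
  rcases lt_or_ge t n with h | h
  · refine ⟨⌊t⌋₊, ?_, ?_, ?_⟩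
    · rw [Nat.floor_lt h0]; exact h
    · have := Nat.floor_le h0; linarith
    · have := Nat.lt_floor_add_one t; linarith
  · have ht : t = n := le_antisymm h1 h
    refine ⟨n - 1, by omega, ?_, ?_⟩
    · rw [ht, Nat.cast_sub hn]; simp
    · rw [ht, Nat.cast_sub hn]; simp

/-- TARGET 1. `H0` tiles: large parallelograms are covered economically. -/
theorem hex_lower (ε : ℝ) (hε : 0 < ε) :
    ∃ n₀ : ℕ, ∀ n ≥ n₀, ∃ D : Set P, IsCompact D ∧ Convex ℝ D ∧ CoveredBy H0 n D ∧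
      ENNReal.ofReal ((3 - ε) * n) ≤ volume D := by
  refine ⟨(⌈24 / ε⌉₊ + 2) ^ 2, ?_⟩
  intro n hn
  obtain ⟨m, hm⟩ : ∃ m, Nat.sqrt n = m + 1 := by
    have : ⌈24 / ε⌉₊ + 2 ≤ Nat.sqrt n := Nat.le_sqrt'.2 hn
    exact ⟨Nat.sqrt n - 1, by omega⟩
  have hm1 : ⌈24 / ε⌉₊ + 1 ≤ m := by
    have : ⌈24 / ε⌉₊ + 2 ≤ Nat.sqrt n := Nat.le_sqrt'.2 hn
    omega
  have hm2 : (m + 1) ^ 2 ≤ n := by rw [← hm]; exact Nat.sqrt_le' n
  have hm3 : n < (m + 2) ^ 2 := by
    have := Nat.lt_succ_sqrt' n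
    rw [hm] at this; exact this
  have hmR : 24 / ε ≤ m := by
    have := Nat.le_ceil (24 / ε)
    have h2 : ((⌈24 / ε⌉₊ + 1 : ℕ) : ℝ) ≤ m := by exact_mod_cast hm1
    push_cast at h2
    linarith
  have hm1' : 1 ≤ m := by omega
  refine ⟨para 0 ((m:ℝ) • ((2:ℝ), (1:ℝ))) ((m:ℝ) • ((-1:ℝ), (1:ℝ))), para_compact _ _ _,
    para_convex _ _ _, ?_, ?_⟩
  · refine ⟨fun i => ((i.val / (m+1) : ℕ) : ℝ) • ((2:ℝ), (1:ℝ)) +
      ((i.val % (m+1) : ℕ) : ℝ) • ((-1:ℝ), (1:ℝ)), ?_⟩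
    rintro _ ⟨⟨s0, t0⟩, ⟨hs0, ht0⟩, rfl⟩
    simp only [mem_Icc] at hs0 ht0
    have hmp : (0:ℝ) ≤ m := Nat.cast_nonneg m
    obtain ⟨a, ha, ha1, ha2⟩ := floor_aux m hm1' (s0 * m) (by nlinarith) (by nlinarith)
    obtain ⟨b, hb, hb1, hb2⟩ := floor_aux m hm1' (t0 * m) (by nlinarith) (by nlinarith)
    obtain ⟨s, hs⟩ : ∃ s : ℝ, s = s0 * m - a := ⟨_, rfl⟩
    obtain ⟨t, ht⟩ : ∃ t : ℝ, t = t0 * m - b := ⟨_, rfl⟩
    rw [← hs] at ha1 ha2
    rw [← ht] at hb1 hb2
    have key : ∀ a' b' : ℕ, a' ≤ m → b' ≤ m → ∃ i : Fin n, (i.val / (m+1)) = a' ∧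
        (i.val % (m+1)) = b' := by
      intro a' b' ha' hb'
      refine ⟨⟨a' * (m+1) + b', ?_⟩, ?_, ?_⟩
      · have : a' * (m+1) ≤ m * (m+1) := Nat.mul_le_mul_right _ ha'
        nlinarith
      · simp only
        rw [Nat.mul_comm, Nat.mul_add_div (by omega), Nat.div_eq_of_lt (by omega), add_zero]
      · simp only
        rw [Nat.mul_comm, Nat.mul_add_mod, Nat.mod_eq_of_lt (by omega)]
    have hex : ∃ p q : ℕ, p ≤ 1 ∧ q ≤ 1 ∧ |2 * (s - p) - (t - q)| ≤ 1 ∧ |(s - p) + (t - q)| ≤ 1 ∧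
        |(s - p) - 2 * (t - q)| ≤ 1 := by
      rcases le_total (s + t) 1 with h | h
      · rcases le_total (2 * s - t) 1 with h' | h'
        · rcases le_total (2 * t - s) 1 with h'' | h''
          · refine ⟨0, 0, by norm_num, by norm_num, ?_, ?_, ?_⟩ <;> rw [abs_le] <;>
              constructor <;> push_cast <;> linarith
          · refine ⟨0, 1, by norm_num, by norm_num, ?_, ?_, ?_⟩ <;> rw [abs_le] <;>
              constructor <;> push_cast <;> linarith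
        · refine ⟨1, 0, by norm_num, by norm_num, ?_, ?_, ?_⟩ <;> rw [abs_le] <;>
              constructor <;> push_cast <;> linarith
      · rcases le_total s (2 * t) with h' | h'
        · rcases le_total t (2 * s) with h'' | h''
          · refine ⟨1, 1, by norm_num, by norm_num, ?_, ?_, ?_⟩ <;> rw [abs_le] <;>
              constructor <;> push_cast <;> linarith
          · refine ⟨0, 1, by norm_num, by norm_num, ?_, ?_, ?_⟩ <;> rw [abs_le] <;>
              constructor <;> push_cast <;> linarith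
        · refine ⟨1, 0, by norm_num, by norm_num, ?_, ?_, ?_⟩ <;> rw [abs_le] <;>
              constructor <;> push_cast <;> linarith
    obtain ⟨p, q, hp, hq, e1, e2, e3⟩ := hex
    obtain ⟨i, hi1, hi2⟩ := key (a + p) (b + q) (by omega) (by omega)
    refine ⟨i, ?_⟩
    simp only [hi1, hi2]
    push_cast
    unfold H0
    simp only [mem_setOf_eq, Prod.fst_sub, Prod.snd_sub, Prod.fst_add, Prod.snd_add, Prod.smul_fst,
      Prod.smul_snd, smul_eq_mul, Prod.fst_zero, Prod.snd_zero]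
    refine ⟨?_, ?_, ?_⟩
    · convert e1 using 2
      rw [hs, ht]; ring
    · convert e2 using 2
      rw [hs, ht]; ring
    · convert e3 using 2
      rw [hs, ht]; ring
  · rw [para_volume]
    apply ENNReal.ofReal_le_ofReal
    have hcr : cr ((m:ℝ) • ((2:ℝ), (1:ℝ))) ((m:ℝ) • ((-1:ℝ), (1:ℝ))) = 3 * m^2 := by
      unfold cr
      simp only [Prod.smul_mk, smul_eq_mul]
      ring
    rw [hcr, abs_of_nonneg (by positivity)]
    rcases le_total 3 ε with h3 | h3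
    · have : (3 - ε) * n ≤ 0 := mul_nonpos_of_nonpos_of_nonneg (by linarith) (Nat.cast_nonneg n)
      have h4 : (0:ℝ) ≤ 3 * m^2 := by positivity
      linarith
    · have hn3 : (n:ℝ) ≤ (m + 2)^2 := by exact_mod_cast hm3.le
      have hmR1 : (1:ℝ) ≤ m := by exact_mod_cast hm1'
      have h5 : (3 - ε) * n ≤ (3 - ε) * (m + 2)^2 := mul_le_mul_of_nonneg_left hn3 (by linarith)
      have h6 : 24 ≤ ε * m := by
        rw [div_le_iff₀ hε] at hmR
        linarith
      nlinarith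

/-- TARGET 2. One-row strips. -/
theorem strip_lower (K : Set P) (hK : IsCompact K) (hKc : Convex ℝ K) {k d e κ κ' : P}
    (h1 : k ∈ K) (h2 : k + d ∈ K) (h3 : k + e ∈ K) (h4 : k + d + e ∈ K) (h5 : κ ∈ K) (h6 : κ' ∈ K)
    (θ : ℝ) (hθ : 0 ≤ θ) (n : ℕ) (hn : 1 ≤ n) :
    ∃ D : Set P, IsCompact D ∧ Convex ℝ D ∧ CoveredBy K n D ∧
      ENNReal.ofReal (n * (|cr d e| + θ * |cr d (κ - κ')|)) ≤ volume (D + θ • K) := by
  have hnR : (1:ℝ) ≤ n := by exact_mod_cast hn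
  obtain ⟨a, b, ha, hb, hab⟩ : ∃ a b : P, a ∈ K ∧ b ∈ K ∧
      |cr d e + θ * cr d (a - b)| = |cr d e| + θ * |cr d (κ - κ')| := by
    have hsw : cr d (κ' - κ) = - cr d (κ - κ') := by
      unfold cr; simp only [Prod.fst_sub, Prod.snd_sub]; ring
    rcases le_total 0 (cr d e) with hx | hx <;> rcases le_total 0 (cr d (κ - κ')) with hy | hy
    · refine ⟨κ, κ', h5, h6, ?_⟩
      rw [abs_of_nonneg hx, abs_of_nonneg hy, abs_of_nonneg (by positivity)]
    · refine ⟨κ', κ, h6, h5, ?_⟩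
      rw [hsw, abs_of_nonneg hx, abs_of_nonpos hy, abs_of_nonneg]
      have : 0 ≤ θ * -cr d (κ - κ') := mul_nonneg hθ (by linarith)
      linarith
    · refine ⟨κ', κ, h6, h5, ?_⟩
      rw [hsw, abs_of_nonpos hx, abs_of_nonneg hy, abs_of_nonpos]
      · ring
      · have : 0 ≤ θ * cr d (κ - κ') := mul_nonneg hθ hy
        linarith
    · refine ⟨κ, κ', h5, h6, ?_⟩
      rw [abs_of_nonpos hx, abs_of_nonpos hy, abs_of_nonpos]
      · ring
      · have : 0 ≤ θ * -cr d (κ - κ') := mul_nonneg hθ (by linarith)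
        linarith
  refine ⟨para k ((n:ℝ) • d) e, para_compact _ _ _, para_convex _ _ _, ?_, ?_⟩
  · refine ⟨fun i => ((i.val : ℕ) : ℝ) • d, ?_⟩
    rintro _ ⟨⟨t, u⟩, ⟨ht, hu⟩, rfl⟩
    simp only [mem_Icc] at ht hu
    obtain ⟨i, hi, hi1, hi2⟩ := floor_aux n hn (t * n) (by nlinarith) (by nlinarith)
    refine ⟨⟨i, hi⟩, ?_⟩
    obtain ⟨s, hs⟩ : ∃ s : ℝ, s = t * n - i := ⟨_, rfl⟩
    rw [← hs] at hi1 hi2
    have e1 : k + s • d ∈ K := by
      have := hKc h1 h2 (by linarith : 0 ≤ 1 - s) hi1 (by ring)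
      convert this using 1
      module
    have e2 : k + s • d + e ∈ K := by
      have := hKc h3 h4 (by linarith : 0 ≤ 1 - s) hi1 (by ring)
      convert this using 1
      module
    have e3 := hKc e1 e2 (by linarith [hu.2] : 0 ≤ 1 - u) hu.1 (by ring)
    convert e3 using 1
    simp only
    rw [hs]
    module
  · have hsub : para (k + θ • b) ((n:ℝ) • d) (e + θ • (a - b)) ⊆ para k ((n:ℝ) • d) e + θ • K := by
      rintro _ ⟨⟨t, u⟩, ⟨ht, hu⟩, rfl⟩
      rw [Set.mem_add]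
      refine ⟨k + t • ((n:ℝ) • d) + u • e, ⟨(t, u), ⟨ht, hu⟩, rfl⟩, θ • ((1 - u) • b + u • a), ?_, ?_⟩
      · exact Set.smul_mem_smul_set (hKc hb ha (by linarith [hu.2]) hu.1 (by ring))
      · simp only
        module
    refine le_trans ?_ (measure_mono hsub)
    rw [para_volume]
    apply ENNReal.ofReal_le_ofReal
    have : cr ((n:ℝ) • d) (e + θ • (a - b)) = n * (cr d e + θ * cr d (a - b)) := by
      unfold cr
      simp only [Prod.smul_fst, Prod.smul_snd, Prod.fst_add, Prod.snd_add, Prod.fst_sub,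
        Prod.snd_sub, smul_eq_mul]
      ring
    rw [this, abs_mul, abs_of_nonneg (by linarith : (0:ℝ) ≤ n), hab]



end Pool.Agent.Helper484.Crit.FN
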