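import Pool.Agent.Helper484.Crit.Base
import Pool.Agent.Helper484.Crit.FL
import Pool.Agent.Helper484.Crit.FM

set_option autoImplicit false

namespace Pool.Agent.Helper484.Crit.FO

open Pool.Agent.Helper484.Crit Pool.Agent.Helper484.Crit.FL Pool.Agent.Helper484.Crit.FM

open MeasureTheory Set Filter Topology
open scoped ENNReal Pointwise

/-- TARGET. -/
theorem hex_strip {H : Set P} {u₁ u₂ u₃ : P} (hH : Hexa H u₁ u₂ u₃) (h : ℝ)
    (hh : h = max |u₁.2| (max |u₂.2| |u₃.2|)) (M w x₀ y₀ : ℝ) (n : ℕ) (z : Fin n → P)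
    (hM : 0 < M) (hw : 0 ≤ w)
    (hcov : ∀ x ∈ Icc x₀ (x₀ + M), ∀ y ∈ Icc y₀ (y₀ + w), ∃ i, ((x, y) : P) - z i ∈ H) :
    M * (w + h / 2) ≤ 3 * n := by
  obtain ⟨hpos, hconc, hout, hnn, hev, hc0, hle, h1, hint⟩ := chord_facts hH h hh
  obtain ⟨hA, hB⟩ := strip_ineq (chord H) h hpos hconc hout hnn hev hc0 hle h1 hint
  have hcc : ∀ s, 0 ≤ s → s ≤ w → M ≤ ∑ i, chord H (s - ((z i).2 - y₀)) := by
    intro s hs1 hs2
    have := chord_cover hH x₀ M (y₀ + s) hM n z (fun x hx => hcov x hx _ ⟨by linarith, by linarith⟩)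
    refine this.trans (le_of_eq ?_)
    refine Finset.sum_congr rfl fun i _ => ?_
    congr 1; ring
  have hc00 : M ≤ ∑ i, chord H ((z i).2 - y₀) := by
    refine (hcc 0 le_rfl hw).trans (le_of_eq ?_)
    refine Finset.sum_congr rfl fun i _ => ?_
    rw [zero_sub, hev]
  have hcw : M ≤ ∑ i, chord H (w - ((z i).2 - y₀)) := hcc w hw le_rfl
  rcases le_total w (3 / 2 * h) with hw1 | hw1
  · have h2 : ∑ i : Fin n, (w / 2 + h / 4) * (chord H ((z i).2 - y₀) +
        chord H (w - ((z i).2 - y₀))) ≤ ∑ i : Fin n, (3 : ℝ) :=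
      Finset.sum_le_sum fun i _ => hA w hw hw1 _
    rw [← Finset.mul_sum, Finset.sum_add_distrib] at h2
    simp only [Finset.sum_const, Finset.card_univ, Fintype.card_fin, nsmul_eq_mul] at h2
    have h3 : (w / 2 + h / 4) * (M + M) ≤ (w / 2 + h / 4) *
        (∑ i, chord H ((z i).2 - y₀) + ∑ i, chord H (w - ((z i).2 - y₀))) :=
      mul_le_mul_of_nonneg_left (add_le_add hc00 hcw) (by positivity)
    linarith
  · have hii : IntervalIntegrable (chord H) volume (-h) h := by
      by_contra hcon
      rw [intervalIntegral.integral_undef hcon] at hint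
      norm_num at hint
    have hInt : Integrable (chord H) volume := by
      have e1 : IntegrableOn (chord H) (Icc (-h) h) volume := by
        rw [integrableOn_Icc_iff_integrableOn_Ioc]
        exact (intervalIntegrable_iff_integrableOn_Ioc_of_le (by linarith)).1 hii
      rw [← integrable_indicator_iff measurableSet_Icc] at e1
      have e2 : (Icc (-h) h).indicator (chord H) = chord H := by
        funext t
        by_cases ht : t ∈ Icc (-h) h
        · rw [indicator_of_mem ht]
        · rw [indicator_of_notMem ht, hout t]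
          by_contra hcon
          exact ht (abs_le.1 (not_lt.1 hcon))
      rwa [e2] at e1
    have h2 : ∑ i : Fin n, (h * (chord H ((z i).2 - y₀) + chord H (w - ((z i).2 - y₀))) +
        ∫ y in (3 / 4 * h)..(w - 3 / 4 * h), chord H (y - ((z i).2 - y₀))) ≤
        ∑ i : Fin n, (3 : ℝ) :=
      Finset.sum_le_sum fun i _ => hB w hw1 _
    rw [Finset.sum_add_distrib, ← Finset.mul_sum, Finset.sum_add_distrib] at h2
    simp only [Finset.sum_const, Finset.card_univ, Fintype.card_fin, nsmul_eq_mul] at h2
    have hIi : ∀ i ∈ (Finset.univ : Finset (Fin n)),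
        IntervalIntegrable (fun y => chord H (y - ((z i).2 - y₀))) volume
        (3 / 4 * h) (w - 3 / 4 * h) := fun i _ =>
      (hInt.comp_sub_right ((z i).2 - y₀)).intervalIntegrable
    rw [← intervalIntegral.integral_finsetSum hIi] at h2
    have h4 : ∫ y in (3 / 4 * h)..(w - 3 / 4 * h), M ≤
        ∫ y in (3 / 4 * h)..(w - 3 / 4 * h), ∑ i, chord H (y - ((z i).2 - y₀)) := by
      refine intervalIntegral.integral_mono_on (by linarith) intervalIntegrable_const ?_ ?_
      · have e3 := IntervalIntegrable.sum _ hIi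
        have e4 : (∑ i : Fin n, fun y => chord H (y - ((z i).2 - y₀))) =
            fun y => ∑ i : Fin n, chord H (y - ((z i).2 - y₀)) := by
          funext y
          rw [Finset.sum_apply]
        rwa [e4] at e3
      · intro y hy
        exact hcc y (by linarith [hy.1]) (by linarith [hy.2])
    rw [intervalIntegral.integral_const, smul_eq_mul] at h4
    have h3 : h * (M + M) ≤ h *
        (∑ i, chord H ((z i).2 - y₀) + ∑ i, chord H (w - ((z i).2 - y₀))) :=
      mul_le_mul_of_nonneg_left (add_le_add hc00 hcw) hpos.le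
    linarith



end Pool.Agent.Helper484.Crit.FO
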