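import Pool.Agent.Helper484.Crit.Base
import Pool.Agent.Helper484.Crit.FJ
import Pool.Agent.Helper484.Crit.FO

set_option autoImplicit false

namespace Pool.Agent.Helper484.Crit.FP

open Pool.Agent.Helper484.Crit Pool.Agent.Helper484.Crit.FJ Pool.Agent.Helper484.Crit.FO

open MeasureTheory Set Filter Topology
open scoped ENNReal Pointwise

theorem cr_rot {c s : ℝ} (h : c ^ 2 + s ^ 2 = 1) (x y : P) : cr (rot c s x) (rot c s y) = cr x y := by
  show (c * x.1 + s * x.2) * (-s * y.1 + c * y.2) - (-s * x.1 + c * x.2) * (c * y.1 + s * y.2) =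
    x.1 * y.2 - x.2 * y.1
  linear_combination (x.1 * y.2 - x.2 * y.1) * h

theorem rot_inv {c s : ℝ} (h : c ^ 2 + s ^ 2 = 1) (x : P) : rot c s (rot c (-s) x) = x := by
  ext
  · show c * (c * x.1 + -s * x.2) + s * (- -s * x.1 + c * x.2) = x.1
    linear_combination x.1 * h
  · show -s * (c * x.1 + -s * x.2) + c * (- -s * x.1 + c * x.2) = x.2
    linear_combination x.2 * h

theorem mem_H0 (z : P) : z ∈ H0 ↔ |cr z (1, 1)| ≤ 1 ∧ |cr z (1, 0)| ≤ 1 ∧ |cr z (0, 1)| ≤ 1 := by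
  have e1 : cr z (1, 1) = z.1 - z.2 := by
    show z.1 * 1 - z.2 * 1 = _
    ring
  have e2 : cr z (1, 0) = -z.2 := by
    show z.1 * 0 - z.2 * 1 = _
    ring
  have e3 : cr z (0, 1) = z.1 := by
    show z.1 * 1 - z.2 * 0 = _
    ring
  rw [e1, e2, e3, abs_neg]
  constructor
  · rintro ⟨h1, h2, h3⟩; exact ⟨h3, h2, h1⟩
  · rintro ⟨h1, h2, h3⟩; exact ⟨h3, h2, h1⟩

theorem hexa_rot {c s : ℝ} (h : c ^ 2 + s ^ 2 = 1) :
    Hexa (rot c s '' H0) (rot c s (1, 1)) (rot c s (1, 0)) (rot c s (0, 1)) where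
  eq := by
    ext z
    constructor
    · rintro ⟨x, hx, rfl⟩
      show |cr (rot c s x) (rot c s (1, 1))| ≤ 1 ∧ |cr (rot c s x) (rot c s (1, 0))| ≤ 1 ∧
        |cr (rot c s x) (rot c s (0, 1))| ≤ 1
      rw [cr_rot h, cr_rot h, cr_rot h]
      exact (mem_H0 x).1 hx
    · intro hz
      have hz' : |cr z (rot c s (1, 1))| ≤ 1 ∧ |cr z (rot c s (1, 0))| ≤ 1 ∧
        |cr z (rot c s (0, 1))| ≤ 1 := hz
      refine ⟨rot c (-s) z, ?_, rot_inv h z⟩
      rw [mem_H0]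
      rw [← rot_inv h z, cr_rot h, cr_rot h, cr_rot h] at hz'
      exact hz'
  sum := by
    rw [← map_add]
    congr 1
    ext <;> simp
  det := by
    rw [cr_rot h]
    show |(1:ℝ) * 1 - 0 * 0| = 1
    norm_num

theorem H0_compact : IsCompact H0 := by
  have hc : IsClosed H0 := by
    have e : H0 = {z : P | |z.1| ≤ 1} ∩ ({z : P | |z.2| ≤ 1} ∩ {z : P | |z.1 - z.2| ≤ 1}) := by
      ext z; rfl
    rw [e]
    refine IsClosed.inter ?_ (IsClosed.inter ?_ ?_)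
    · exact isClosed_le (by fun_prop) continuous_const
    · exact isClosed_le (by fun_prop) continuous_const
    · exact isClosed_le (by fun_prop) continuous_const
  refine (isCompact_Icc (a := ((-1, -1) : P)) (b := ((1, 1) : P))).of_isClosed_subset hc ?_
  rintro z ⟨h1, h2, -⟩
  rw [abs_le] at h1 h2
  exact ⟨⟨h1.1, h2.1⟩, ⟨h1.2, h2.2⟩⟩

theorem H0_convex : Convex ℝ H0 := by
  rintro x ⟨hx1, hx2, hx3⟩ y ⟨hy1, hy2, hy3⟩ a b ha hb hab
  have key : ∀ u v : ℝ, |u| ≤ 1 → |v| ≤ 1 → |a * u + b * v| ≤ 1 := by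
    intro u v hu hv
    calc |a * u + b * v| ≤ |a * u| + |b * v| := abs_add_le _ _
      _ = a * |u| + b * |v| := by rw [abs_mul, abs_mul, abs_of_nonneg ha, abs_of_nonneg hb]
      _ ≤ a * 1 + b * 1 := by gcongr
      _ = 1 := by linarith
  refine ⟨?_, ?_, ?_⟩
  · exact key _ _ hx1 hy1
  · exact key _ _ hx2 hy2
  · have := key _ _ hx3 hy3
    have e : (a • x + b • y).1 - (a • x + b • y).2 = a * (x.1 - x.2) + b * (y.1 - y.2) := by
      show (a * x.1 + b * y.1) - (a * x.2 + b * y.2) = _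
      ring
    rw [e]; exact this

/-- TARGET. -/
theorem hex_upper (ε : ℝ) (hε : 0 < ε) :
    ∃ n₀ : ℕ, ∀ n ≥ n₀, ∀ D : Set P, IsCompact D → Convex ℝ D → CoveredBy H0 n D →
      volume (D + (1 / 4 : ℝ) • H0) ≤ ENNReal.ofReal ((3 + ε) * n) := by
  have hcs : ∀ c s : ℝ, c ^ 2 + s ^ 2 = 1 → |c| ≤ 1 ∧ |s| ≤ 1 := by
    intro c s h
    constructor
    · rw [← sq_le_one_iff_abs_le_one]; nlinarith [sq_nonneg s]
    · rw [← sq_le_one_iff_abs_le_one]; nlinarith [sq_nonneg c]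
  have hadd : ∀ u v : ℝ, |u| ≤ 1 → |v| ≤ 1 → |u + v| ≤ 2 := by
    intro u v hu hv
    have := abs_add_le u v
    linarith
  have hmul : ∀ u v : ℝ, |u| ≤ 1 → |v| ≤ 1 → |u * v| ≤ 1 := by
    intro u v hu hv
    rw [abs_mul]
    exact mul_le_one₀ hu (abs_nonneg _) hv
  refine assemble H0 H0_compact H0_convex ⟨by simp, by simp, by simp⟩ (1 / 4) 3 2 (by norm_num)
    (by norm_num) ?_ ?_ ε hε
  · rintro c s h z ⟨x, ⟨hx1, hx2, -⟩, rfl⟩
    obtain ⟨hc, hs⟩ := hcs c s h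
    constructor
    · show |c * x.1 + s * x.2| ≤ 2
      exact hadd _ _ (hmul _ _ hc hx1) (hmul _ _ hs hx2)
    · show |-s * x.1 + c * x.2| ≤ 2
      exact hadd _ _ (hmul _ _ (by rwa [abs_neg]) hx1) (hmul _ _ hc hx2)
  · intro c s h
    obtain ⟨hc, hs⟩ := hcs c s h
    set h0 : ℝ := max |(rot c s (1, 1)).2| (max |(rot c s (1, 0)).2| |(rot c s (0, 1)).2|) with hh0
    have hH := hexa_rot h
    have hle : h0 ≤ 2 := by
      rw [hh0]
      refine max_le ?_ (max_le ?_ ?_)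
      · show |-s * 1 + c * 1| ≤ 2
        exact hadd _ _ (by rwa [mul_one, abs_neg]) (by rwa [mul_one])
      · show |-s * 1 + c * 0| ≤ 2
        exact hadd _ _ (by rwa [mul_one, abs_neg]) (by simp)
      · show |-s * 0 + c * 1| ≤ 2
        exact hadd _ _ (by simp) (by rwa [mul_one])
    refine ⟨h0, h0, hle, hle, fun z hz => ?_, ?_⟩
    · exact abs_le.1 (hH.snd_le hh0 hz)
    · intro M w x₀ y₀ n z hM hw hcov
      have := hex_strip hH h0 hh0 M w x₀ y₀ n z hM hw hcov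
      have e : w + 1 / 4 * (h0 + h0) = w + h0 / 2 := by ring
      rw [e]; exact this



end Pool.Agent.Helper484.Crit.FP
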