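import Pool.Agent.Helper484.Crit.Base
import Pool.Agent.Helper484.Crit.FD
import Pool.Agent.Helper484.Crit.FJ
import Pool.Agent.Helper484.Crit.FK

set_option autoImplicit false

namespace Pool.Agent.Helper484.Crit.FQ

open Pool.Agent.Helper484.Crit Pool.Agent.Helper484.Crit.FD Pool.Agent.Helper484.Crit.FJ Pool.Agent.Helper484.Crit.FK

open MeasureTheory Set Filter Topology
open scoped ENNReal Pointwise

theorem cr_rot {c s : ℝ} (h : c ^ 2 + s ^ 2 = 1) (x y : P) : cr (rot c s x) (rot c s y) = cr x y := by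
  simp only [cr, rot, LinearMap.coe_mk, AddHom.coe_mk]
  linear_combination (x.1 * y.2 - x.2 * y.1) * h

theorem rot_inv {c s : ℝ} (h : c ^ 2 + s ^ 2 = 1) (x : P) : rot c (-s) (rot c s x) = x := by
  ext
  · simp only [rot, LinearMap.coe_mk, AddHom.coe_mk]
    linear_combination x.1 * h
  · simp only [rot, LinearMap.coe_mk, AddHom.coe_mk]
    linear_combination x.2 * h

theorem rot_inv' {c s : ℝ} (h : c ^ 2 + s ^ 2 = 1) (x : P) : rot c s (rot c (-s) x) = x := by
  have h' : c ^ 2 + (-s) ^ 2 = 1 := by rw [neg_sq]; exact h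
  have := rot_inv h' x
  rwa [neg_neg] at this

theorem HG_rot {c s : ℝ} (h : c ^ 2 + s ^ 2 = 1) {K : Set P} {G : ℝ} (hG : HG K G) :
    HG (rot c s '' K) G := by
  rintro k d e κ κ' ⟨k1, hk1, rfl⟩ ⟨a, ha, hda⟩ ⟨b, hb, heb⟩ ⟨f, hf, hdf⟩ ⟨q, hq, rfl⟩ ⟨q', hq', rfl⟩
  have hd : d = rot c s (a - k1) := by
    rw [map_sub, hda]; abel
  have he : e = rot c s (b - k1) := by
    rw [map_sub, heb]; abel
  have hf' : f = k1 + (a - k1) + (b - k1) := by
    have h1 : rot c s f = rot c s (k1 + (a - k1) + (b - k1)) := by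
      rw [hdf, map_add, map_add, ← hd, ← he]
    have h2 := congrArg (rot c (-s)) h1
    rwa [rot_inv h, rot_inv h] at h2
  rw [hd, he, ← map_sub, cr_rot h, cr_rot h]
  apply hG k1 (a - k1) (b - k1) q q' hk1 _ _ _ hq hq'
  · have : k1 + (a - k1) = a := by abel
    rw [this]; exact ha
  · have : k1 + (b - k1) = b := by abel
    rw [this]; exact hb
  · rw [← hf']; exact hf

theorem cr_smul (t : ℝ) (x y : P) : cr (t • x) (t • y) = t ^ 2 * cr x y := by
  simp only [cr, Prod.smul_fst, Prod.smul_snd, smul_eq_mul]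
  ring

theorem HG_dil {t : ℝ} (ht : 0 < t) {B K : Set P} {G : ℝ} (hG : HG K G)
    (hB : ∀ z ∈ B, ∃ k ∈ K, z = t • k) : HG B (t ^ 2 * G) := by
  intro k d e κ κ' hk hkd hke hkde hκ hκ'
  obtain ⟨k1, hk1, hk1'⟩ := hB k hk
  obtain ⟨a, ha, ha'⟩ := hB _ hkd
  obtain ⟨b, hb, hb'⟩ := hB _ hke
  obtain ⟨f, hf, hf'⟩ := hB _ hkde
  obtain ⟨q, hq, rfl⟩ := hB _ hκ
  obtain ⟨q', hq', rfl⟩ := hB _ hκ'
  have hd : d = t • (a - k1) := by
    rw [smul_sub, ← ha', ← hk1']; abel
  have he : e = t • (b - k1) := by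
    rw [smul_sub, ← hb', ← hk1']; abel
  have hf2 : f = k1 + (a - k1) + (b - k1) := by
    have h1 : t • f = t • (k1 + (a - k1) + (b - k1)) := by
      rw [smul_add, smul_add, ← hd, ← he, ← hk1', ← hf']
    exact smul_right_injective P ht.ne' h1
  have h1 : |cr (a - k1) (b - k1)| + |cr (a - k1) (q - q')| / 4 ≤ G := by
    apply hG k1 (a - k1) (b - k1) q q' hk1 _ _ _ hq hq'
    · have : k1 + (a - k1) = a := by abel
      rw [this]; exact ha
    · have : k1 + (b - k1) = b := by abel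
      rw [this]; exact hb
    · rw [← hf2]; exact hf
  rw [hd, he, ← smul_sub, cr_smul, cr_smul, abs_mul, abs_mul, abs_of_nonneg (sq_nonneg t)]
  have h2 := mul_le_mul_of_nonneg_left h1 (sq_nonneg t)
  linarith

/-- TARGET. -/
theorem gen_upper (K : Set P) (hK : IsCompact K) (hKc : Convex ℝ K) (h0 : (0 : P) ∈ interior K)
    (G : ℝ) (hG : HG K G) (ε : ℝ) (hε : 0 < ε) :
    ∃ n₀ : ℕ, ∀ n ≥ n₀, ∀ D : Set P, IsCompact D → Convex ℝ D → CoveredBy K n D →
      volume D ≤ ENNReal.ofReal ((G + ε) * n) := by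
  have hK0 : (0 : P) ∈ K := interior_subset h0
  have hG0 : 0 ≤ G := by
    have := hG 0 0 0 0 0 hK0 (by simpa using hK0) (by simpa using hK0) (by simpa using hK0) hK0 hK0
    simpa [cr] using this
  obtain ⟨δ, hδ, hδG⟩ : ∃ δ : ℝ, 0 < δ ∧ (1 + δ) ^ 2 * G ≤ G + ε / 2 := by
    refine ⟨min 1 (ε / (6 * (G + 1))), lt_min one_pos (by positivity), ?_⟩
    set δ := min 1 (ε / (6 * (G + 1))) with hδdef
    have h1 : δ ≤ 1 := min_le_left _ _
    have h2 : δ ≤ ε / (6 * (G + 1)) := min_le_right _ _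
    have h3 : 0 < δ := lt_min one_pos (by positivity)
    have h4 : δ * (6 * (G + 1)) ≤ ε := by
      rwa [le_div_iff₀ (by positivity)] at h2
    have h5 : δ * δ * G ≤ δ * G := by
      have : δ * δ ≤ δ * 1 := mul_le_mul_of_nonneg_left h1 h3.le
      nlinarith
    nlinarith
  obtain ⟨C, hC⟩ := hK.isBounded.exists_norm_le
  have hC1 : ∀ z ∈ K, |z.1| ≤ C ∧ |z.2| ≤ C := by
    intro z hz
    have h := hC z hz
    constructor
    · exact (norm_fst_le z).trans h
    · exact (norm_snd_le z).trans h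
  have hκ : ∀ c s : ℝ, c ^ 2 + s ^ 2 = 1 → ∀ z ∈ rot c s '' K, |z.1| ≤ 2 * C ∧ |z.2| ≤ 2 * C := by
    rintro c s h z ⟨x, hx, rfl⟩
    obtain ⟨h1, h2⟩ := hC1 x hx
    have hc : |c| ≤ 1 := by
      rw [← sq_le_one_iff_abs_le_one]; nlinarith [sq_nonneg s]
    have hs : |s| ≤ 1 := by
      rw [← sq_le_one_iff_abs_le_one]; nlinarith [sq_nonneg c]
    simp only [rot, LinearMap.coe_mk, AddHom.coe_mk]
    have m1 : |c * x.1| ≤ C := by
      rw [abs_mul]
      calc |c| * |x.1| ≤ 1 * |x.1| := mul_le_mul_of_nonneg_right hc (abs_nonneg _)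
        _ ≤ C := by rw [one_mul]; exact h1
    have m2 : |s * x.2| ≤ C := by
      rw [abs_mul]
      calc |s| * |x.2| ≤ 1 * |x.2| := mul_le_mul_of_nonneg_right hs (abs_nonneg _)
        _ ≤ C := by rw [one_mul]; exact h2
    have m3 : |-s * x.1| ≤ C := by
      rw [abs_mul, abs_neg]
      calc |s| * |x.1| ≤ 1 * |x.1| := mul_le_mul_of_nonneg_right hs (abs_nonneg _)
        _ ≤ C := by rw [one_mul]; exact h1
    have m4 : |c * x.2| ≤ C := by
      rw [abs_mul]
      calc |c| * |x.2| ≤ 1 * |x.2| := mul_le_mul_of_nonneg_right hc (abs_nonneg _)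
        _ ≤ C := by rw [one_mul]; exact h2
    constructor
    · exact (abs_add_le _ _).trans (by linarith)
    · exact (abs_add_le _ _).trans (by linarith)
  have hρ : 0 ≤ (1 + δ) ^ 2 * G := by positivity
  have hrate : ∀ c s : ℝ, c ^ 2 + s ^ 2 = 1 → ∃ h₁ h₂ : ℝ, h₁ ≤ 2 * C ∧ h₂ ≤ 2 * C ∧
      (∀ z ∈ rot c s '' K, -h₁ ≤ z.2 ∧ z.2 ≤ h₂) ∧
      ∀ (M w x₀ y₀ : ℝ) (n : ℕ) (z : Fin n → P), 0 < M → 0 ≤ w →
        (∀ x ∈ Icc x₀ (x₀ + M), ∀ y ∈ Icc y₀ (y₀ + w), ∃ i, ((x, y) : P) - z i ∈ rot c s '' K) →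
        M * (w + 0 * (h₁ + h₂)) ≤ (1 + δ) ^ 2 * G * n := by
    intro c s h
    refine ⟨2 * C, 2 * C, le_rfl, le_rfl, ?_, ?_⟩
    · intro z hz
      exact abs_le.mp (hκ c s h z hz).2
    · intro M w x₀ y₀ n z hM hw hcov
      rw [zero_mul, add_zero]
      rcases hw.eq_or_lt with hw0 | hw0
      · rw [← hw0, mul_zero]
        exact mul_nonneg hρ (Nat.cast_nonneg n)
      have hcont : ∀ c s : ℝ, Continuous (rot c s) := fun c s =>
        LinearMap.continuous_of_finiteDimensional (rot c s)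
      have hK1 : IsCompact (rot c s '' K) := hK.image (hcont c s)
      have hK1c : Convex ℝ (rot c s '' K) := hKc.linear_image (rot c s)
      have hK10 : (0 : P) ∈ interior (rot c s '' K) := by
        have h1 : rot c s '' interior K = rot c (-s) ⁻¹' interior K := by
          ext x
          constructor
          · rintro ⟨y, hy, rfl⟩
            rw [mem_preimage, rot_inv h]
            exact hy
          · intro hx
            exact ⟨rot c (-s) x, hx, rot_inv' h x⟩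
        have h2 : IsOpen (rot c s '' interior K) := by
          rw [h1]
          exact isOpen_interior.preimage (hcont c (-s))
        have h3 : rot c s '' interior K ⊆ interior (rot c s '' K) :=
          interior_maximal (image_mono interior_subset) h2
        exact h3 ⟨0, h0, map_zero _⟩
      obtain ⟨N, hN, hN1, hN2⟩ := exists_gau (rot c s '' K) hK1 hK1c hK10 δ hδ
      have hHG : HG {z | N z ≤ 1} ((1 + δ) ^ 2 * G) :=
        HG_dil (by linarith) (HG_rot h hG) (fun z hz => hN2 z hz)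
      refine rect_bound hN _ hHG n (fun i => z i - (x₀, y₀)) M w hM hw0 ?_
      intro p hp1 hp2
      obtain ⟨i, hi⟩ := hcov (x₀ + p.1) ⟨by linarith [hp1.1], by linarith [hp1.2]⟩
        (y₀ + p.2) ⟨by linarith [hp2.1], by linarith [hp2.2]⟩
      refine ⟨i, ?_⟩
      have h5 : p - (z i - (x₀, y₀)) = (x₀ + p.1, y₀ + p.2) - z i := by
        ext
        · simp only [Prod.fst_sub]; ring
        · simp only [Prod.snd_sub]; ring
      rw [h5]
      exact hN1 _ hi
  obtain ⟨n₀, hn₀⟩ := assemble K hK hKc hK0 0 ((1 + δ) ^ 2 * G) (2 * C) le_rfl hρ hκ hrate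
    (ε / 2) (by linarith)
  refine ⟨n₀, fun n hn D hD hDc hcov => ?_⟩
  have h1 := hn₀ n hn D hD hDc hcov
  rw [zero_smul_set ⟨0, hK0⟩, add_zero] at h1
  refine h1.trans (ENNReal.ofReal_le_ofReal ?_)
  apply mul_le_mul_of_nonneg_right _ (Nat.cast_nonneg n)
  linarith



end Pool.Agent.Helper484.Crit.FQ
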